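import Pool.Agent.Lib.MP_8a89f5_al.Defs

/-!
Deterministic permutation lemmas: transitivity from mixing, conjugates from transitivity, and
short words for even permutations from short words for a conjugacy class.
-/

namespace Pool.Agent.Lib.MP_8a89f5_al

open Finset Equiv Filter Topology

variable {α : Type*} [Fintype α] [DecidableEq α] {ω : Bool → Perm α}

omit [DecidableEq α] in
/-- Two injective families differ by a permutation that fixes everything outside their ranges. -/
theorem gb_extend {ι : Type*} {u v : ι → α} (hu : Function.Injective u)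
    (hv : Function.Injective v) :
    ∃ p : Perm α, (∀ i, p (u i) = v i) ∧ ∀ x, (∀ i, u i ≠ x) → (∀ i, v i ≠ x) → p x = x := by
  have key : ∀ w : ι → α, Function.Injective w →
      (∀ x : {x : α // (∀ i, u i ≠ x) ∧ ∀ i, v i ≠ x}, ∀ i, w i ≠ x.1) →
      Function.Injective (Sum.elim w (Subtype.val :
        {x : α // (∀ i, u i ≠ x) ∧ ∀ i, v i ≠ x} → α)) := fun w hw h =>
    hw.sumElim Subtype.val_injective fun i x => h x i
  have : Finite ι := Finite.of_injective u hu
  obtain ⟨p, hp⟩ := Perm.exists_extending_pair _ _ (key u hu fun x i => x.2.1 i)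
    (key v hv fun x i => x.2.2 i)
  exact ⟨p, fun i => hp (Sum.inl i), fun x h1 h2 => hp (Sum.inr ⟨x, h1, h2⟩)⟩

omit [DecidableEq α] in
/-- A small set lies in the range of an injective tuple. -/
theorem gb_tuple (A : Finset α) {s : ℕ} (hA : A.card ≤ s) (hs : s ≤ Fintype.card α) :
    ∃ a : Fin s ↪ α, ∀ x ∈ A, ∃ i, a i = x := by
  obtain ⟨B, hAB, hB⟩ := exists_superset_card_eq hA hs
  refine ⟨⟨fun i => ((B.equivFinOfCardEq hB).symm i : α), fun i j h =>
    (B.equivFinOfCardEq hB).symm.injective (Subtype.ext h)⟩, fun x hx =>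
      ⟨B.equivFinOfCardEq hB ⟨x, hAB hx⟩, by simp⟩⟩

theorem trans_of_mix {t m : ℕ} (h : Mix ω t m) (ht : t ≤ Fintype.card α) : Trans ω t m := by
  intro A hA k
  obtain ⟨a, ha⟩ := gb_tuple A hA ht
  have h1 := h m le_rfl a (a.trans k.toEmbedding)
  have h2 : 0 < Ex m (fun l => ind (∀ i, ev ω l (a i) = (a.trans k.toEmbedding) i)) := by
    by_contra hne
    have h3 := mul_nonpos_of_nonneg_of_nonpos
      (Nat.cast_nonneg (α := ℝ) ((Fintype.card α).descFactorial t)) (not_lt.1 hne)
    have := (abs_le.1 h1).1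
    linarith
  obtain ⟨l, hl, hl'⟩ := Ex_exists h2
  have h4 : ∀ i, ev ω l (a i) = (a.trans k.toEmbedding) i := by
    by_contra hne
    rw [ind_neg hne] at hl'
    exact lt_irrefl _ hl'
  refine ⟨ev ω l, hl ▸ Len.ev l, fun x hx => ?_⟩
  obtain ⟨i, rfl⟩ := ha x hx
  exact h4 i

theorem conj_of_trans {s : ℕ} {L L0 : ℝ} {σ : Perm α} (h : Trans ω s L) (hσ : Len ω σ L0)
    (hs : σ.support.card ≤ s) (k : Perm α) : Len ω (k * σ * k⁻¹) (L0 + 2 * L) := by
  obtain ⟨g, hg, hgk⟩ := h σ.support hs k
  have hd : Perm.Disjoint (k⁻¹ * g) σ := fun x => by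
    by_cases hx : x ∈ σ.support
    · left; simp [hgk x hx]
    · right; simpa using hx
  have hc := hd.commute.eq
  have e : k * σ * k⁻¹ = g * σ * g⁻¹ := by
    calc k * σ * k⁻¹ = k * (σ * (k⁻¹ * g)) * g⁻¹ := by group
      _ = k * (k⁻¹ * g * σ) * g⁻¹ := by rw [hc]
      _ = g * σ * g⁻¹ := by group
  rw [e]
  exact ((hg.mul hσ).mul hg.inv).mono (by linarith)

theorem trans_of_near {s : ℕ} {ρ L L' : ℝ} (h1 : NearTrans ω s ρ L) (h2 : Small ω (2 * ρ + 2) L')
    (hs : s + 2 ≤ Fintype.card α) : Trans ω s (L + L') := by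
  intro A hA k
  obtain ⟨a, ha⟩ := gb_tuple A hA (by omega)
  obtain ⟨h, hh, hI⟩ := h1 a (a.trans k.toEmbedding)
  set b := a.trans k.toEmbedding with hb
  set I := univ.filter fun i => h (a i) ≠ b i with hIdef
  obtain ⟨p, hp, hp'⟩ := gb_extend (u := fun i => h (a i)) (v := b)
    (h.injective.comp a.injective) b.injective
  have hsub : p.support ⊆ I.image (fun i => h (a i)) ∪ I.image b := by
    intro x hx
    rw [Perm.mem_support] at hx
    by_contra hne
    simp only [mem_union, mem_image, hIdef, mem_filter, mem_univ, true_and, not_or, not_exists,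
      not_and] at hne
    refine hx (hp' x (fun i hi => ?_) (fun i hi => ?_))
    · by_cases hg : h (a i) = b i
      · exact hx (by rw [← hi, hp i, hg])
      · exact hne.1 i hg hi
    · by_cases hg : h (a i) = b i
      · exact hx (by rw [← hi]; nth_rw 1 [← hg]; exact hp i)
      · exact hne.2 i hg hi
  have hcard : p.support.card ≤ 2 * I.card := by
    have := (card_le_card hsub).trans (card_union_le _ _)
    have h3 := card_image_le (s := I) (f := fun i => h (a i))
    have h4 := card_image_le (s := I) (f := b)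
    omega
  have hcard' : (p.support.card : ℝ) ≤ 2 * ρ := by
    have : (p.support.card : ℝ) ≤ 2 * I.card := by exact_mod_cast hcard
    linarith
  have main : ∃ q : Perm α, Perm.sign q = 1 ∧ (q.support.card : ℝ) ≤ 2 * ρ + 2 ∧
      ∀ i, q (h (a i)) = b i := by
    rcases Int.units_eq_one_or (Perm.sign p) with hsg | hsg
    · exact ⟨p, hsg, by linarith, hp⟩
    · have h5 : 1 < (univ \ univ.image b).card := by
        have h6 := card_image_le (s := (univ : Finset (Fin s))) (f := b)
        rw [card_sdiff_of_subset (subset_univ _), card_univ]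
        rw [card_univ, Fintype.card_fin] at h6
        omega
      obtain ⟨c, hc, d, hd, hcd⟩ := one_lt_card.1 h5
      replace hc : ∀ i, b i ≠ c := by simpa using hc
      replace hd : ∀ i, b i ≠ d := by simpa using hd
      refine ⟨swap c d * p, by simp [hsg, hcd], ?_, fun i => ?_⟩
      · have h7 := (card_le_card (Perm.support_mul_le (swap c d) p)).trans (card_union_le _ _)
        rw [Perm.card_support_swap hcd] at h7
        have : ((swap c d * p).support.card : ℝ) ≤ 2 + p.support.card := by exact_mod_cast h7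
        linarith
      · rw [Perm.mul_apply, hp i, swap_apply_of_ne_of_ne (hc i) (hd i)]
  obtain ⟨q, hq1, hq2, hq3⟩ := main
  refine ⟨q * h, ((h2 q hq1 hq2).mul hh).mono (by linarith), fun x hx => ?_⟩
  obtain ⟨i, rfl⟩ := ha x hx
  exact hq3 i

/-- Greedy choice of moved points that are disjoint from their images. -/
theorem gb_greedy (f : Perm α) : ∀ i : ℕ, 3 * i ≤ f.support.card + 2 →
    ∃ S ⊆ f.support, S.card = i ∧ ∀ x ∈ S, f x ∉ S
  | 0, _ => ⟨∅, by simp, rfl, by simp⟩
  | i + 1, hi => by
    obtain ⟨S, hS, hc, hx⟩ := gb_greedy f i (by omega)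
    have h1 : (S ∪ (S.image f ∪ S.image f.symm)).card < f.support.card := by
      have h2 := card_union_le S (S.image f ∪ S.image f.symm)
      have h3 := card_union_le (S.image f) (S.image f.symm)
      have h4 := card_image_le (s := S) (f := f)
      have h5 := card_image_le (s := S) (f := f.symm)
      omega
    obtain ⟨y, hy, hy'⟩ := exists_mem_notMem_of_card_lt_card h1
    simp only [mem_union, mem_image, not_or, not_exists, not_and] at hy'
    refine ⟨insert y S, insert_subset hy hS, by rw [card_insert_of_notMem hy'.1, hc], ?_⟩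
    intro x hxm hfx
    rcases mem_insert.1 hxm with rfl | hxS
    · rcases mem_insert.1 hfx with h | h
      · exact Perm.mem_support.1 hy h
      · exact hy'.2.2 _ h (by simp)
    · rcases mem_insert.1 hfx with h | h
      · exact hy'.2.1 x hxS h
      · exact hx x hxS h

/-- Disjoint triples consisting of a moved point, its image and a point of `T`. -/
theorem gb_triple (f : Perm α) {i : ℕ} (hi : 3 * i ≤ f.support.card + 2) (T : Finset α)
    (hT : ∀ S ⊆ f.support, S.card = i → i ≤ (T \ (S ∪ S.image f)).card) :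
    ∃ a c : Fin i → α, Function.Injective a ∧ Function.Injective c ∧ (∀ t, a t ∈ f.support) ∧
      (∀ t, c t ∈ T) ∧ (∀ t u, f (a t) ≠ a u) ∧ (∀ t u, c t ≠ a u) ∧ ∀ t u, c t ≠ f (a u) := by
  obtain ⟨S, hS, hc, hx⟩ := gb_greedy f i hi
  obtain ⟨C, hC, hCc⟩ := exists_subset_card_eq (hT S hS hc)
  have hC' : ∀ x ∈ C, x ∈ T ∧ x ∉ S ∧ ∀ y ∈ S, f y ≠ x := fun x hx => by
    simpa using hC hx
  refine ⟨fun t => ((S.equivFinOfCardEq hc).symm t : α),
    fun t => ((C.equivFinOfCardEq hCc).symm t : α),
    fun t u h => (S.equivFinOfCardEq hc).symm.injective (Subtype.ext h),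
    fun t u h => (C.equivFinOfCardEq hCc).symm.injective (Subtype.ext h),
    fun t => hS (Subtype.prop _), fun t => (hC' _ (Subtype.prop _)).1, fun t u h => ?_,
    fun t u h => ?_, fun t u h => ?_⟩
  · exact hx _ (Subtype.prop _) (by rw [h]; exact Subtype.prop _)
  · refine (hC' _ ((C.equivFinOfCardEq hCc).symm t).prop).2.1 ?_
    beta_reduce at h
    rw [h]
    exact Subtype.prop _
  · exact (hC' _ (Subtype.prop _)).2.2 _ (Subtype.prop _) h.symm

/-- One step: a product of two conjugates removes `i` points from the support. -/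
theorem gb_step {σ : Perm α} {L : ℝ} {i : ℕ} (h1 : 3 * i ≤ σ.support.card + 2)
    (h2 : σ.support.card + i ≤ Fintype.card α) (hL : ∀ k : Perm α, Len ω (k * σ * k⁻¹) L)
    (g : Perm α) (hg : 3 * i ≤ g.support.card) :
    ∃ κ : Perm α, Len ω κ (2 * L) ∧ Perm.sign κ = 1 ∧
      (g * κ).support.card + i ≤ g.support.card := by
  obtain ⟨a, b, ha, hb, haS, hbS, hfa, hba, hbf⟩ := gb_triple σ h1 σ.supportᶜ (fun S hS hc => by
    have : σ.supportᶜ \ (S ∪ S.image σ) = σ.supportᶜ := by
      refine sdiff_eq_self_of_disjoint (disjoint_left.2 fun x hx hx' => ?_)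
      rw [mem_compl] at hx
      rcases mem_union.1 hx' with h | h
      · exact hx (hS h)
      · obtain ⟨y, hy, rfl⟩ := mem_image.1 h
        exact hx (Perm.apply_mem_support.2 (hS hy))
    rw [this, card_compl]; omega)
  obtain ⟨s, c, hs, hc, hsS, hcS, hgs, hcs, hcg⟩ := gb_triple g (i := i) (by omega) g.support
    (fun S hS hc => by
      have h3 := le_card_sdiff (S ∪ S.image g) g.support
      have h4 := card_union_le S (S.image g)
      have h5 := card_image_le (s := S) (f := g)
      omega)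
  have hb0 : ∀ t, σ (b t) = b t := fun t => by simpa using hbS t
  obtain ⟨τ, hτ, hτ'⟩ := gb_extend (u := Sum.elim a b) (v := Sum.elim b a)
    (ha.sumElim hb fun t u => (hba u t).symm) (hb.sumElim ha hba)
  have hτa : ∀ t, τ (a t) = b t := fun t => hτ (Sum.inl t)
  have hτb : ∀ t, τ (b t) = a t := fun t => hτ (Sum.inr t)
  have hτ0 : ∀ x, (∀ t, a t ≠ x) → (∀ t, b t ≠ x) → τ x = x := fun x h3 h4 =>
    hτ' x (fun t => by cases t <;> simp [h3, h4]) (fun t => by cases t <;> simp [h3, h4])
  obtain ⟨k, hk, -⟩ := gb_extend (u := Sum.elim a (Sum.elim (fun t => σ (a t)) b))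
    (v := Sum.elim (fun t => g (s t)) (Sum.elim s c))
    (ha.sumElim ((σ.injective.comp ha).sumElim hb fun t u => (hbf u t).symm) fun t u => by
      cases u
      · exact (hfa _ _).symm
      · exact (hba _ _).symm)
    ((g.injective.comp hs).sumElim (hs.sumElim hc fun t u => (hcs u t).symm) fun t u => by
      cases u
      · exact hgs _ _
      · exact (hcg _ _).symm)
  have hk1 : ∀ t, k (a t) = g (s t) := fun t => hk (Sum.inl t)
  have hk2 : ∀ t, k (σ (a t)) = s t := fun t => hk (Sum.inr (Sum.inl t))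
  have hk3 : ∀ t, k (b t) = c t := fun t => hk (Sum.inr (Sum.inr t))
  have e1 : ∀ t, (σ * τ * σ⁻¹ * τ⁻¹) (a t) = σ (a t) := fun t => by
    have h3 : τ⁻¹ (a t) = b t := by rw [Perm.inv_eq_iff_eq, hτb]
    have h4 : σ⁻¹ (b t) = b t := by rw [Perm.inv_eq_iff_eq, hb0]
    simp only [Perm.mul_apply, h3, h4, hτb]
  have e2 : ∀ x, (∀ t, a t ≠ x) → (∀ t, σ (a t) ≠ x) → (∀ t, b t ≠ x) →
      (σ * τ * σ⁻¹ * τ⁻¹) x = x := fun x h3 h4 h5 => by
    have h6 : τ⁻¹ x = x := by rw [Perm.inv_eq_iff_eq, hτ0 x h3 h5]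
    have h7 : τ (σ⁻¹ x) = σ⁻¹ x := hτ0 _
      (fun t h => h4 t (by rw [h]; simp)) (fun t h => h5 t (by rw [← hb0, h]; simp))
    simp only [Perm.mul_apply, h6, h7]
    simp
  refine ⟨k * (σ * τ * σ⁻¹ * τ⁻¹) * k⁻¹, ?_, ?_, ?_⟩
  · have e : k * (σ * τ * σ⁻¹ * τ⁻¹) * k⁻¹ =
        (k * σ * k⁻¹) * ((k * τ) * σ * (k * τ)⁻¹)⁻¹ := by group
    rw [e]
    exact ((hL k).mul (hL (k * τ)).inv).mono (by linarith)
  · simp only [map_mul, map_inv]
    rcases Int.units_eq_one_or (Perm.sign k) with h3 | h3 <;>
      rcases Int.units_eq_one_or (Perm.sign σ) with h4 | h4 <;>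
        rcases Int.units_eq_one_or (Perm.sign τ) with h5 | h5 <;> simp [h3, h4, h5]
  · have hsub : (g * (k * (σ * τ * σ⁻¹ * τ⁻¹) * k⁻¹)).support ⊆
        g.support \ univ.image fun t => g (s t) := by
      intro x hx
      rw [Perm.mem_support] at hx
      refine mem_sdiff.2 ⟨?_, fun h => ?_⟩
      · by_contra hxg
        apply hx
        have h3 : (σ * τ * σ⁻¹ * τ⁻¹) (k⁻¹ x) = k⁻¹ x := by
          refine e2 _ (fun t h => hxg ?_) (fun t h => hxg ?_) (fun t h => hxg ?_)
          · have : x = g (s t) := by rw [← hk1, h]; simp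
            rw [this]; exact Perm.apply_mem_support.2 (hsS t)
          · have : x = s t := by rw [← hk2, h]; simp
            rw [this]; exact hsS t
          · have : x = c t := by rw [← hk3, h]; simp
            rw [this]; exact hcS t
        rw [Perm.mul_apply, Perm.mul_apply, Perm.mul_apply, h3]
        simpa using hxg
      · obtain ⟨t, -, rfl⟩ := mem_image.1 h
        apply hx
        have h3 : k⁻¹ (g (s t)) = a t := by rw [Perm.inv_eq_iff_eq, hk1]
        rw [Perm.mul_apply, Perm.mul_apply, Perm.mul_apply, h3, e1, hk2]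
    have h4 : (univ.image fun t => g (s t)) ⊆ g.support := fun x hx => by
      obtain ⟨t, -, rfl⟩ := mem_image.1 hx
      exact Perm.apply_mem_support.2 (hsS t)
    have h5 := card_le_card hsub
    rw [card_sdiff_of_subset h4, card_image_of_injective _ (f := fun t => g (s t))
      (g.injective.comp hs), card_univ, Fintype.card_fin] at h5
    omega

theorem gb_three {g : Perm α} (hg : Perm.sign g = 1) (h1 : g ≠ 1) : 3 ≤ g.support.card := by
  have h2 := Perm.two_le_card_support_of_ne_one h1
  by_contra hne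
  have h3 := (Perm.card_support_eq_two.1 (by omega : g.support.card = 2)).sign_eq
  rw [hg] at h3
  exact absurd h3 (by decide)

/-- The potential drops by at least one in each step. -/
theorem gb_pot {j N N' : ℕ} (hj : 1 ≤ j) (hN : 3 ≤ N) (h : N' + min j (N / 3) ≤ N) :
    (N' : ℝ) / j + 7 * Real.log (N' + 1) + 1 ≤ N / j + 7 * Real.log (N + 1) := by
  have hj' : (0 : ℝ) < j := by exact_mod_cast hj
  have hle : (N' : ℝ) ≤ N := by exact_mod_cast (by omega : N' ≤ N)
  have h0 : (0 : ℝ) ≤ N' := Nat.cast_nonneg _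
  rcases le_total j (N / 3) with h1 | h1
  · have h2 : (N' : ℝ) + j ≤ N := by exact_mod_cast (by omega : N' + j ≤ N)
    have h3 : Real.log (N' + 1) ≤ Real.log (N + 1) := Real.log_le_log (by linarith) (by linarith)
    have h4 : (N' : ℝ) / j + 1 ≤ N / j := by
      rw [div_add_one hj'.ne']; exact div_le_div_of_nonneg_right h2 hj'.le
    linarith
  · have h2 : 7 * ((N' : ℝ) + 1) ≤ 6 * (N + 1) := by
      exact_mod_cast (by omega : 7 * (N' + 1) ≤ 6 * (N + 1))
    have h3 : Real.log ((N' + 1) / (N + 1)) ≤ (N' + 1) / (N + 1) - 1 :=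
      Real.log_le_sub_one_of_pos (by positivity)
    have h4 : ((N' : ℝ) + 1) / (N + 1) ≤ 6 / 7 := by
      rw [div_le_div_iff₀ (by positivity) (by norm_num)]; linarith
    rw [Real.log_div (by positivity) (by positivity)] at h3
    have h5 : (N' : ℝ) / j ≤ N / j := div_le_div_of_nonneg_right hle hj'.le
    linarith

theorem gen_bound {σ : Perm α} {L : ℝ} {j : ℕ} (hj : 1 ≤ j)
    (h1 : 4 * j ≤ σ.support.card + 3) (h2 : σ.support.card + j ≤ Fintype.card α)
    (hL : ∀ k : Perm α, Len ω (k * σ * k⁻¹) L) (g : Perm α) (hg : Perm.sign g = 1) :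
    Len ω g (100 * ((g.support.card : ℝ) / j + Nat.log 2 (Fintype.card α) + 1) * L) := by
  have hL0 : 0 ≤ L := (hL 1).nonneg
  have key : ∀ N : ℕ, ∀ g : Perm α, g.support.card = N → Perm.sign g = 1 →
      Len ω g (((N : ℝ) / j + 7 * Real.log (N + 1)) * (2 * L)) := by
    intro N
    induction N using Nat.strong_induction_on with
    | _ N ih =>
      intro g hN hg
      by_cases h0 : g = 1
      · rw [h0]
        have : 0 ≤ Real.log ((N : ℝ) + 1) :=
          Real.log_nonneg (by linarith [Nat.cast_nonneg (α := ℝ) N])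
        exact Len.one.mono (by positivity)
      · have h3 := gb_three hg h0
        obtain ⟨κ, hκ, hκs, hκc⟩ := gb_step (i := min j (N / 3)) (by omega) (by omega) hL g
          (by omega)
        have h4 := ih (g * κ).support.card (by omega) (g * κ) rfl (by simp [hg, hκs])
        have h5 := gb_pot (N := N) (N' := (g * κ).support.card) hj (by omega) (by omega)
        have e : g = g * κ * κ⁻¹ := by group
        rw [e]
        refine (h4.mul hκ.inv).mono ?_
        nlinarith
  refine (key _ g rfl hg).mono ?_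
  have h3 : g.support.card + 1 ≤ 2 ^ (Nat.log 2 (Fintype.card α) + 1) :=
    (Nat.succ_le_succ (card_le_univ _)).trans (Nat.lt_pow_succ_log_self (by norm_num) _)
  have h4 : Real.log (g.support.card + 1) ≤ Nat.log 2 (Fintype.card α) + 1 := by
    have h5 : ((g.support.card : ℝ) + 1) ≤ 2 ^ (Nat.log 2 (Fintype.card α) + 1) := by
      exact_mod_cast h3
    have h6 := Real.log_le_log (by positivity) h5
    rw [Real.log_pow] at h6
    have h7 : Real.log 2 ≤ 1 := by linarith [Real.log_two_lt_d9]
    push_cast at h6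
    nlinarith [Nat.cast_nonneg (α := ℝ) (Nat.log 2 (Fintype.card α))]
  have h8 : (0 : ℝ) ≤ (g.support.card : ℝ) / j := by positivity
  have h9 : (0 : ℝ) ≤ Nat.log 2 (Fintype.card α) := Nat.cast_nonneg _
  nlinarith

end Pool.Agent.Lib.MP_8a89f5_al
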