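import Pool.Agent.Lib.MP_8a89f5_al.LcC

/-!
With high probability some `y ^ i * x` has a very long cycle; a power of it has small support.
-/

namespace Pool.Agent.Lib.MP_8a89f5_al

open Finset Equiv Filter Topology

theorem second_moment {Ω : Type*} [Fintype Ω] [Nonempty Ω] (f : ℕ → Ω → ℝ) {k : ℕ} {p e b : ℝ}
    (hk : 0 < k) (hp : 0 < p) (hb : 0 ≤ b) (h1 : ∀ i < k, p - e ≤ av (f i))
    (h2 : ∀ i < k, av (fun ω => f i ω * f i ω) ≤ p)
    (h3 : ∀ i j, i < j → j < k → av (fun ω => f i ω * f j ω) ≤ b * p) :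
    av (fun ω => ind (∀ i < k, f i ω = 0)) ≤ 1 / (k * p) + (b - p + 2 * e) / p := by
  have hk' : (0 : ℝ) < k := by exact_mod_cast hk
  have s1 : k * (p - e) ≤ av (fun ω => ∑ i ∈ range k, f i ω) := by
    rw [av_sum]
    calc _ = ∑ i ∈ range k, (p - e) := by rw [sum_const, card_range, nsmul_eq_mul]
      _ ≤ _ := sum_le_sum fun i hi => h1 i (mem_range.1 hi)
  have s2 : av (fun ω => (∑ i ∈ range k, f i ω) ^ 2) ≤ k * (p + k * (b * p)) := by
    simp only [sq, sum_mul_sum]
    rw [av_sum]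
    calc _ ≤ ∑ i ∈ range k, (p + k * (b * p)) := sum_le_sum fun i hi => ?_
      _ = _ := by rw [sum_const, card_range, nsmul_eq_mul]
    rw [av_sum, ← add_sum_erase _ _ hi]
    refine add_le_add (h2 i (mem_range.1 hi)) ?_
    calc _ ≤ ∑ j ∈ (range k).erase i, b * p := sum_le_sum fun j hj => ?_
      _ ≤ ∑ j ∈ range k, b * p :=
          sum_le_sum_of_subset_of_nonneg (erase_subset _ _) fun _ _ _ => by positivity
      _ = _ := by rw [sum_const, card_range, nsmul_eq_mul]
    rcases lt_or_gt_of_ne (ne_of_mem_erase hj) with h | h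
    · simp only [mul_comm (f i _)]
      exact h3 j i h (mem_range.1 hi)
    · exact h3 i j h (mem_range.1 (mem_of_mem_erase hj))
  have s3 : av (fun ω => (∑ i ∈ range k, f i ω - k * p) ^ 2) ≤
      k * p + k ^ 2 * p * (b - p + 2 * e) := by
    have e1 : (fun ω => (∑ i ∈ range k, f i ω - k * p) ^ 2) = fun ω =>
        ((∑ i ∈ range k, f i ω) ^ 2 - (2 * (k * p)) * ∑ i ∈ range k, f i ω) + (k * p) ^ 2 := by
      funext ω; ring
    rw [e1, av_add, av_sub, av_mul_left, av_const]
    nlinarith [mul_le_mul_of_nonneg_left s1 (mul_pos hk' hp).le]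
  refine le_trans (av_mono fun ω => ind_mono fun h => ?_)
    ((av_markov (f := fun ω => (∑ i ∈ range k, f i ω - k * p) ^ 2) (fun _ => sq_nonneg _)
      (c := (k * p) ^ 2) (by positivity)).trans
      ((div_le_div_of_nonneg_right s3 (by positivity)).trans (le_of_eq (by field_simp))))
  rw [sum_eq_zero fun i hi => h i (mem_range.1 hi)]
  exact le_of_eq (by ring)

section
variable {α : Type*} [Fintype α] [DecidableEq α]

/-- The size condition on the long cycle. -/
def Sz (d : ℝ) (C : Finset α) : Prop :=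
  (1 - d) * Fintype.card α ≤ C.card ∧ (C.card : ℝ) ≤ (1 - d ^ 2) * Fintype.card α

/-- A long cycle whose length kills few other points. -/
def Gd (d : ℝ) (π : Perm α) (a : α) : Prop :=
  Sz d (cyc π a) ∧ nfix (cyc π a) π < d ^ 2 * Fintype.card α / 2

theorem fail_le {k K D : ℕ} {d : ℝ} (hd : 0 < d) (hd' : d ≤ 1 / 4) (hk : 1 ≤ k * d ^ 2)
    (h1 : 2 * ((k * K : ℕ) : ℝ) ≤ d ^ 2 * Fintype.card α) (h2 : (1 - d ^ 2 / 2) ^ K ≤ d ^ 4 / 2)
    (h3 : 4 * ((k * K : ℕ) : ℝ) ^ 2 ≤ d ^ 4 * Fintype.card α)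
    (h4 : 2 ≤ d ^ 4 * Fintype.card α) (h5 : 2 * ((K : ℝ) + 1) ^ 3 ≤ d ^ 6 * Fintype.card α)
    (h6 : 4 ≤ D * d ^ 4) (h7 : 4 * (D : ℝ) ≤ d ^ 4 * Fintype.card α) :
    av (fun ω : Bool → Perm α => ind (∀ i < k, ∀ a, ¬Gd d (ω false ^ i * ω true) a)) ≤ 28 * d := by
  have hn0 : (0 : ℝ) < Fintype.card α := by
    by_contra h
    nlinarith [pow_pos hd 4]
  have : Nonempty α := Fintype.card_pos_iff.1 (by exact_mod_cast hn0)
  have hd2 : 0 < d ^ 2 := by positivity
  have hd2' : d ^ 2 ≤ 1 / 16 := by nlinarith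
  have hD : (0 : ℝ) < D := by
    by_contra h
    nlinarith [pow_pos hd 4]
  have hk0 : (0 : ℝ) < k := by
    by_contra h
    nlinarith
  let f : Perm α → ℝ := fun π => av fun a => ind (Gd d π a)
  let f0 : Perm α → ℝ := fun π => av fun a => ind (Sz d (cyc π a))
  let E : Perm α → Prop := fun π => ∃ a, (1 - d) * Fintype.card α ≤ (cyc π a).card
  have f_nonneg : ∀ π, 0 ≤ f π := fun π => av_nonneg fun _ => ind_nonneg _
  have f_le : ∀ π, f π ≤ f0 π := fun π => av_mono fun a => ind_mono fun h => h.1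
  have f_le' : ∀ π, f π ≤ ind (E π) := fun π => av_le_const' fun a => ind_mono fun h => ⟨a, h.1.1⟩
  have p_ge : d - 2 * d ^ 2 ≤ av f0 := by
    rw [av_comm]
    refine le_av_const fun a => ?_
    have a1 := law_small a (x := (1 - d) * Fintype.card α) (by nlinarith)
    have a2 := law_big a (x := (1 - d ^ 2) * Fintype.card α) (by nlinarith)
    have a3 : av (fun π : Perm α => ind (¬Sz d (cyc π a))) ≤ _ :=
      le_trans (av_mono fun π => le_trans (ind_mono fun h => ?_) (ind_or_le _ _))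
        ((av_add _ _).le.trans (add_le_add a1 a2))
    · rw [av_ind_not, mul_div_cancel_right₀ _ hn0.ne'] at a3
      have : (Fintype.card α - (1 - d ^ 2) * Fintype.card α + 1) / Fintype.card α ≤ 2 * d ^ 2 := by
        rw [div_le_iff₀ hn0]
        nlinarith [mul_le_mul_of_nonneg_right hd2' (mul_pos hd2 hn0).le]
      linarith
    · rcases not_and_or.1 h with h | h
      · exact Or.inl (not_le.1 h).le
      · exact Or.inr (not_le.1 h).le
  have hp : d / 2 ≤ av f0 := by nlinarith
  have g_ge : av f0 - d ^ 2 ≤ av f := by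
    have a1 : ∀ a, av (fun π : Perm α =>
        ind (d ^ 2 * Fintype.card α / 2 ≤ nfix (cyc π a) π)) ≤ d ^ 2 := by
      intro a
      refine (cond_le a (fun C π => ind (d ^ 2 * Fintype.card α / 2 ≤ nfix C π)) (fun _ => d ^ 2)
        fun C π h => ?_).trans (av_const _).le
      refine (av_markov (fun g => sum_nonneg fun _ _ => ind_nonneg _) (by positivity)).trans ?_
      rw [div_le_iff₀ (by positivity)]
      refine (av_nfix h (D := D) (by exact_mod_cast hD)).trans ?_
      have : (Fintype.card α : ℝ) / D ≤ d ^ 4 * Fintype.card α / 4 := by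
        rw [div_le_iff₀ hD]
        nlinarith [mul_le_mul_of_nonneg_right h6 hn0.le]
      nlinarith
    simp only [f, f0]
    rw [av_comm, av_comm fun π a => ind (Gd d π a), ← av_const (Ω := α) (d ^ 2), ← av_sub]
    refine av_mono fun a => ?_
    have := av_mono (Ω := Perm α) (f := fun π => ind (Sz d (cyc π a)))
      (g := fun π => ind (Gd d π a) + ind (d ^ 2 * Fintype.card α / 2 ≤ nfix (cyc π a) π))
      fun π => le_trans (ind_mono fun h => by
        by_cases h' : d ^ 2 * Fintype.card α / 2 ≤ nfix (cyc π a) π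
        · exact Or.inr h'
        · exact Or.inl ⟨h, not_le.1 h'⟩) (ind_or_le _ _)
    rw [av_add] at this
    linarith [a1 a]
  have pair : ∀ r, 1 ≤ r → r ≤ k →
      av (fun y : Perm α => av fun π => f π * f (y ^ r * π)) ≤ (d + 9 * d ^ 2) * av f0 := by
    intro r hr hrk
    rw [av_comm]
    calc _ ≤ av fun π => av fun a => ind (Sz d (cyc π a)) * av fun y : Perm α => ind (E (y ^ r * π)) :=
          av_mono fun π => by
            rw [av_mul_left, av_mul_right]
            exact mul_le_mul (f_le π) (av_mono fun y => f_le' _) (av_nonneg fun y => f_nonneg _)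
              ((f_nonneg π).trans (f_le π))
      _ ≤ av fun a => av fun π : Perm α => ind (Sz d (cyc π a)) * (d + 9 * d ^ 2) := by
          rw [av_comm]
          refine av_mono fun a => cond_le a
            (fun C π => ind (Sz d C) * av fun y : Perm α => ind (E (y ^ r * π)))
            (fun C => ind (Sz d C) * (d + 9 * d ^ 2)) fun C π _ => ?_
          rw [av_mul_left]
          by_cases hC : Sz d C
          · exact mul_le_mul_of_nonneg_left (pair_le C π hr hrk hd hd' hC.2 h1 h2 h3 h4 h5)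
              (ind_nonneg _)
          · simp [ind_neg hC]
      _ = _ := by
          simp only [av_mul_right]
          rw [mul_comm, av_comm]
  have shift : ∀ (φ : Perm α → Perm α → ℝ) (i : ℕ),
      av (fun z : Perm α × Perm α => φ z.1 (z.1 ^ i * z.2)) = av fun y => av (φ y) := by
    intro φ i
    rw [av_prod]
    exact congrArg av (funext fun y => av_equiv (Equiv.mulLeft (y ^ i)) (φ y))
  have sm := second_moment (Ω := Perm α × Perm α) (fun i z => f (z.1 ^ i * z.2)) (k := k)
    (p := av f0) (e := d ^ 2) (b := d + 9 * d ^ 2) (by exact_mod_cast hk0) (by linarith)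
    (by positivity) (fun i _ => by rw [shift (fun _ π => f π), av_const]; exact g_ge)
    (fun i _ => by
      rw [shift (fun _ π => f π * f π), av_const]
      exact av_mono fun π => (mul_le_of_le_one_right (f_nonneg π)
        ((f_le' π).trans (ind_le_one _))).trans (f_le π))
    (fun i j hij hj => by
      refine le_trans (le_of_eq ?_) (pair (j - i) (by omega) (by omega))
      rw [← shift (fun y π => f π * f (y ^ (j - i) * π)) i]
      refine congrArg av (funext fun z => ?_)
      rw [← mul_assoc, ← pow_add, Nat.sub_add_cancel hij.le])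
  rw [← av_equiv (Equiv.boolArrowEquivProd (Perm α))] at sm
  refine le_trans (av_mono fun ω => ind_mono fun h i hi => ?_) (sm.trans ?_)
  · exact (congrArg av (funext fun a => ind_neg (h i hi a))).trans av_zero
  · have b1 : 1 / (k * av f0) ≤ 2 * d := by
      rw [div_le_iff₀ (mul_pos hk0 (by linarith))]
      nlinarith [mul_le_mul_of_nonneg_left hp (mul_pos hk0 hd).le]
    have b2 : (d + 9 * d ^ 2 - av f0 + 2 * d ^ 2) / av f0 ≤ 26 * d := by
      rw [div_le_iff₀ (by linarith)]
      nlinarith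
    linarith

end

theorem lc_ev_le (A : ℝ) {c : ℝ} (hc : 0 < c) : ∀ᶠ n : ℕ in atTop, A ≤ c * n :=
  (tendsto_natCast_atTop_atTop.const_mul_atTop hc).eventually_ge_atTop A

theorem long_cycle (η γ : ℝ) (hη : 0 < η) (hγ : 0 < γ) :
    WHP fun n ω => ∃ g, Len ω g ((n : ℝ) ^ (1 + γ)) ∧ (n : ℝ) ^ (1 - γ) ≤ g.support.card ∧
      (g.support.card : ℝ) ≤ η * n := by
  refine WHP.of_forall_le fun ζ hζ => ?_
  obtain ⟨d, hd, hd1, hd2, hd3⟩ : ∃ d : ℝ, 0 < d ∧ d ≤ 1 / 4 ∧ d ≤ η ∧ 28 * d ≤ ζ :=
    ⟨min (1 / 4) (min η (ζ / 28)), by positivity, min_le_left _ _,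
      (min_le_right _ _).trans (min_le_left _ _), by
        have := (min_le_right (1 / 4) _).trans (min_le_right η (ζ / 28))
        linarith⟩
  obtain ⟨k, hk⟩ := exists_nat_ge (1 / d ^ 2)
  rw [div_le_iff₀ (by positivity)] at hk
  obtain ⟨D, hD⟩ := exists_nat_ge (4 / d ^ 4)
  rw [div_le_iff₀ (by positivity)] at hD
  obtain ⟨K, hK⟩ := exists_pow_lt_of_lt_one (x := d ^ 4 / 2) (y := 1 - d ^ 2 / 2) (by positivity)
    (by nlinarith)
  have hr := (tendsto_rpow_atTop hγ).comp (tendsto_natCast_atTop_atTop (R := ℝ))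
  filter_upwards [lc_ev_le (2 * ((k * K : ℕ) : ℝ)) (pow_pos hd 2),
    lc_ev_le (4 * ((k * K : ℕ) : ℝ) ^ 2) (pow_pos hd 4), lc_ev_le 2 (pow_pos hd 4),
    lc_ev_le (2 * ((K : ℝ) + 1) ^ 3) (pow_pos hd 6), lc_ev_le (4 * (D : ℝ)) (pow_pos hd 4),
    hr.eventually_ge_atTop k, hr.eventually_ge_atTop (2 / d ^ 2), eventually_gt_atTop 0]
    with n h1 h3 h4 h5 h7 h8 h9 hn
  have := fail_le (α := Fin n) hd hd1 hk (by simpa using h1) hK.le (by simpa using h3)
    (by simpa using h4) (by simpa using h5) hD (by simpa using h7)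
  refine le_trans (av_mono fun ω => ind_mono fun h i hi a ha => h ?_) (this.trans hd3)
  obtain ⟨⟨s1, s2⟩, s3⟩ := ha
  obtain ⟨t1, t2⟩ := support_pow_card (ω false ^ i * ω true) a
  simp only [Fintype.card_fin, Function.comp_apply] at s1 s2 s3 t1 t2 h8 h9
  have hn' : (0 : ℝ) < n := by exact_mod_cast hn
  refine ⟨_, ((((Len.gen false).pow i).mul (Len.gen true)).pow
    (cyc (ω false ^ i * ω true) a).card).mono ?_, ?_, ?_⟩
  · rw [Real.rpow_add hn', Real.rpow_one]
    have a1 : (i : ℝ) + 1 ≤ k := by exact_mod_cast hi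
    have a2 : ((cyc (ω false ^ i * ω true) a).card : ℝ) ≤ n := by nlinarith [sq_nonneg d]
    exact mul_le_mul a2 (by linarith) (by positivity) hn'.le
  · rw [Real.rpow_sub hn', Real.rpow_one, div_le_iff₀ (Real.rpow_pos_of_pos hn' _)]
    rw [div_le_iff₀ (by positivity)] at h9
    have a1 : d ^ 2 * n / 2 ≤
        ((ω false ^ i * ω true) ^ (cyc (ω false ^ i * ω true) a).card).support.card := by linarith
    nlinarith [mul_le_mul_of_nonneg_right a1 (Real.rpow_pos_of_pos hn' γ).le]
  · nlinarith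

end Pool.Agent.Lib.MP_8a89f5_al
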