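import Pool.Agent.Lib.MP_8a89f5_al.Defs

/-!
The probability that many of the paths of a random word collide at one height.
-/

namespace Pool.Agent.Lib.MP_8a89f5_al

open Finset Equiv

theorem bp_Ex_take {r k : ℕ} (hk : k ≤ r) (F : List Bool → ℝ) :
    Ex r (fun u => F (u.take k)) = Ex k F := by
  obtain ⟨d, rfl⟩ := Nat.exists_eq_add_of_le hk
  rw [Ex_append]
  refine Ex_congr _ fun l hl => ?_
  have : ∀ l' : List Bool, (l ++ l').take k = l := fun l' => by
    rw [← hl]; exact List.take_left
  simp only [this, Ex_const]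

variable {α : Type*} [Fintype α] [DecidableEq α] {ω : Bool → Perm α}

omit [DecidableEq α] in
theorem bp_mix_le {t m r : ℕ} (h : Mix ω t m) (hr : m ≤ r) (htn : t ≤ Fintype.card α)
    (a b : Fin t ↪ α) :
    Ex r (fun l => ind (∀ i, ev ω l (a i) = b i)) ≤
      11 / 10 / ((Fintype.card α).descFactorial t : ℝ) := by
  have hp : (0 : ℝ) < ((Fintype.card α).descFactorial t : ℝ) := by
    exact_mod_cast Nat.descFactorial_pos.2 htn
  have h1 := (abs_le.1 (h r hr a b)).2
  rw [le_div_iff₀ hp]
  linarith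

theorem bp_desc_ge (N t : ℕ) {x : ℝ} (hx : 0 ≤ x) (h : x + t ≤ N) :
    x ^ t ≤ (N.descFactorial t : ℝ) := by
  have h1 : ((N + 1 - t) ^ t : ℕ) ≤ N.descFactorial t := Nat.pow_sub_le_descFactorial N t
  have h2 : t ≤ N + 1 := by
    have : (t : ℝ) ≤ N := by linarith
    have : t ≤ N := by exact_mod_cast this
    omega
  have h3 : x ≤ ((N + 1 - t : ℕ) : ℝ) := by
    rw [Nat.cast_sub h2]; push_cast; linarith
  calc x ^ t ≤ ((N + 1 - t : ℕ) : ℝ) ^ t := pow_le_pow_left₀ hx h3 t
    _ ≤ _ := by exact_mod_cast h1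

theorem bp_long_one {t m : ℕ} (ht : Mix ω t m) (htn : t < Fintype.card α) (c : Fin t ↪ α)
    (O : Finset α) {B : ℝ} (hO : (O.card : ℝ) ≤ B) :
    Ex m (fun l => ind (∀ i, ev ω l (c i) ∈ O)) ≤
      2 * (B / ((Fintype.card α : ℝ) - t)) ^ t := by
  classical
  set S := univ.filter fun b : Fin t ↪ α => ∀ i, b i ∈ O with hS
  have hnt : (0 : ℝ) < (Fintype.card α : ℝ) - t := by
    have : (t : ℝ) < Fintype.card α := by exact_mod_cast htn
    linarith
  have hcard : (S.card : ℝ) ≤ B ^ t := by
    have h1 : S.card ≤ (Fintype.piFinset fun _ : Fin t => O).card := by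
      refine card_le_card_of_injOn (fun b => (b : Fin t → α)) (fun b hb => ?_) ?_
      · simp only [hS, coe_filter, mem_univ, true_and, Set.mem_ofPred_eq] at hb
        simpa [Fintype.mem_piFinset] using hb
      · intro b _ b' _ h
        exact DFunLike.coe_injective h
    rw [Fintype.card_piFinset_const] at h1
    calc (S.card : ℝ) ≤ (O.card : ℝ) ^ t := by exact_mod_cast h1
      _ ≤ _ := pow_le_pow_left₀ (Nat.cast_nonneg _) hO t
  have hd : ((Fintype.card α : ℝ) - t) ^ t ≤ ((Fintype.card α).descFactorial t : ℝ) :=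
    bp_desc_ge _ _ hnt.le (by linarith)
  have hpos : (0 : ℝ) < ((Fintype.card α : ℝ) - t) ^ t := pow_pos hnt t
  calc Ex m (fun l => ind (∀ i, ev ω l (c i) ∈ O))
      ≤ Ex m (fun l => ∑ b ∈ S, ind (∀ i, ev ω l (c i) = b i)) := by
        refine Ex_mono _ fun l _ => ind_le_sum S _ fun h => ?_
        exact ⟨c.trans (ev ω l).toEmbedding, by simpa [hS] using h, fun i => rfl⟩
    _ = ∑ b ∈ S, Ex m (fun l => ind (∀ i, ev ω l (c i) = b i)) := Ex_sum _ _ _
    _ ≤ ∑ _b ∈ S, 2 / ((Fintype.card α : ℝ) - t) ^ t := by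
        refine sum_le_sum fun b _ => (bp_mix_le ht le_rfl htn.le c b).trans ?_
        exact div_le_div₀ (by norm_num) (by norm_num) hpos hd
    _ = S.card * (2 / ((Fintype.card α : ℝ) - t) ^ t) := by simp
    _ ≤ B ^ t * (2 / ((Fintype.card α : ℝ) - t) ^ t) :=
        mul_le_mul_of_nonneg_right hcard (by positivity)
    _ = _ := by rw [div_pow]; ring

theorem bp_count {s t : ℕ} (P : Fin s → Prop) {x : ℝ} (hx : 0 < x) :
    ind (x + t < ∑ i, ind (P i)) ≤ (∑ e : Fin t ↪ Fin s, ind (∀ i, P (e i))) / x ^ t := by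
  classical
  refine ind_le_of (div_nonneg (sum_nonneg fun _ _ => ind_nonneg _) (pow_pos hx t).le) fun h => ?_
  rw [one_le_div (pow_pos hx t), sum_ind_eq_card]
  rw [sum_ind_eq_card] at h
  set L := univ.filter P with hL
  have h1 : L.card.descFactorial t ≤
      (univ.filter fun e : Fin t ↪ Fin s => ∀ i, P (e i)).card := by
    have h2 : (univ : Finset (Fin t ↪ L)).card = L.card.descFactorial t := by
      rw [card_univ, Fintype.card_embedding_eq]; simp
    rw [← h2]
    refine card_le_card_of_injOn (fun e => e.trans (Function.Embedding.subtype _))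
      (fun e _ => ?_) ?_
    · simp only [coe_filter, mem_univ, true_and, Set.mem_ofPred_eq]
      intro i
      exact (mem_filter.1 (e i).2).2
    · intro e _ e' _ h
      ext i
      have := DFunLike.congr_fun h i
      simp only [Function.Embedding.trans_apply, Function.Embedding.subtype_apply] at this
      rw [this]
  calc x ^ t ≤ (L.card.descFactorial t : ℝ) := bp_desc_ge _ _ hx.le h.le
    _ ≤ _ := by exact_mod_cast h1

theorem bp_long {m t s r k : ℕ} {x : ℝ} (ht : Mix ω t m) (hm : 1 ≤ m) (hmk : m ≤ k) (hk : k ≤ r)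
    (hx : 0 < x) (htn : t < Fintype.card α) (a : Fin s ↪ α) :
    Ex r (fun u => ind (x + t <
      ∑ i, ind (∃ j, ∃ k' ≤ k - m, pos ω u (a j) k' = pos ω u (a i) k))) ≤
      2 * (s * (s * r) / (((Fintype.card α : ℝ) - t) * x)) ^ t := by
  classical
  have hnt : (0 : ℝ) < (Fintype.card α : ℝ) - t := by
    have : (t : ℝ) < Fintype.card α := by exact_mod_cast htn
    linarith
  have key : ∀ e : Fin t ↪ Fin s,
      Ex r (fun u => ind (∀ i, ∃ j, ∃ k' ≤ k - m, pos ω u (a j) k' = pos ω u (a (e i)) k)) ≤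
        2 * ((s * r) / ((Fintype.card α : ℝ) - t)) ^ t := by
    intro e
    have e1 : (fun u => ind (∀ i, ∃ j, ∃ k' ≤ k - m, pos ω u (a j) k' = pos ω u (a (e i)) k)) =
        fun u : List Bool => (fun v : List Bool => ind (∀ i, ∃ j, ∃ k' ≤ k - m,
          pos ω v (a j) k' = pos ω v (a (e i)) k)) (u.take k) := by
      funext u
      refine ind_congr (forall_congr' fun i => exists_congr fun j => exists_congr fun k' =>
        and_congr_right fun hk' => ?_)
      have : min k' k = k' := by omega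
      simp only [pos, List.take_take, min_self, this]
    rw [e1, bp_Ex_take hk fun v : List Bool => ind (∀ i, ∃ j, ∃ k' ≤ k - m,
          pos ω v (a j) k' = pos ω v (a (e i)) k)]
    obtain ⟨d, rfl⟩ : ∃ d, k = d + m := ⟨k - m, by omega⟩
    rw [Ex_append]
    refine Ex_le_const _ fun l hl => ?_
    set O : Finset α := (univ ×ˢ range (d + 1)).image
      fun p : Fin s × ℕ => pos ω l (a p.1) p.2 with hO
    have hOc : (O.card : ℝ) ≤ s * r := by
      have h1 : O.card ≤ s * (d + 1) := by
        refine card_image_le.trans ?_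
        simp
      have h2 : s * (d + 1) ≤ s * r := Nat.mul_le_mul_left _ (by omega)
      exact_mod_cast h1.trans h2
    refine le_trans (Ex_mono _ fun l' hl' => ind_mono fun h => ?_)
      (bp_long_one ht htn ((e.trans a).trans (ev ω l).toEmbedding) O hOc)
    intro i
    obtain ⟨j, k', hk', h⟩ := h i
    have hk'' : k' ≤ d := by omega
    have h3 : pos ω (l ++ l') (a (e i)) (d + m) = ev ω l' (ev ω l (a (e i))) := by
      have : (l ++ l').length = d + m := by simp [hl, hl']
      rw [← this, pos_length, ev_append]; rfl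
    have h4 : pos ω (l ++ l') (a j) k' = pos ω l (a j) k' := by
      simp only [pos]
      rw [List.take_append_of_le_length (by omega)]
    have h5 : ev ω l' (ev ω l (a (e i))) ∈ O := by
      rw [← h3, ← h, h4]
      exact mem_image.2 ⟨(j, k'), by simp; omega, rfl⟩
    exact h5
  have hc : ((univ : Finset (Fin t ↪ Fin s)).card : ℝ) ≤ (s : ℝ) ^ t := by
    rw [card_univ, Fintype.card_embedding_eq]
    simp only [Fintype.card_fin]
    exact_mod_cast Nat.descFactorial_le_pow s t
  calc _ ≤ Ex r (fun u => (∑ e : Fin t ↪ Fin s, ind (∀ i, ∃ j, ∃ k' ≤ k - m,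
          pos ω u (a j) k' = pos ω u (a (e i)) k)) / x ^ t) :=
        Ex_mono _ fun u _ => bp_count _ hx
    _ = (∑ e : Fin t ↪ Fin s, Ex r (fun u => ind (∀ i, ∃ j, ∃ k' ≤ k - m,
          pos ω u (a j) k' = pos ω u (a (e i)) k))) / x ^ t := by rw [Ex_div, Ex_sum]
    _ ≤ (∑ _e : Fin t ↪ Fin s, 2 * ((s * r) / ((Fintype.card α : ℝ) - t)) ^ t) / x ^ t :=
        div_le_div_of_nonneg_right (sum_le_sum fun e _ => key e) (pow_pos hx t).le
    _ ≤ ((s : ℝ) ^ t * (2 * ((s * r) / ((Fintype.card α : ℝ) - t)) ^ t)) / x ^ t := by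
        refine div_le_div_of_nonneg_right ?_ (pow_pos hx t).le
        rw [sum_const, nsmul_eq_mul]
        exact mul_le_mul_of_nonneg_right hc (by positivity)
    _ = _ := by
        have e2 : (s * (s * r) / (((Fintype.card α : ℝ) - t) * x)) =
            s * ((s * r) / ((Fintype.card α : ℝ) - t)) / x := by field_simp
        rw [e2, div_pow, mul_pow]; ring

theorem bp_pair {m r : ℕ} (h1 : Mix ω 1 m) (h2 : Mix ω 2 m) (hr : m ≤ r)
    (hn : 3 ≤ Fintype.card α) (g : Perm α) (x y : α) :
    Ex r (fun l => ind (ev ω l y = g (ev ω l x))) ≤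
      2 / Fintype.card α + ind (x = y) * (2 / Fintype.card α * ∑ p, ind (g p = p)) := by
  have hn' : (3 : ℝ) ≤ Fintype.card α := by exact_mod_cast hn
  have hsum : 0 ≤ ∑ p, ind (g p = p) := sum_nonneg fun _ _ => ind_nonneg _
  by_cases hxy : x = y
  · subst hxy
    rw [ind_pos rfl, one_mul]
    have h3 : ∀ p : α, Ex r (fun l => ind (ev ω l x = p)) ≤ 2 / Fintype.card α := by
      intro p
      have := bp_mix_le h1 hr (by omega) ⟨fun _ => x, fun i j _ => Subsingleton.elim i j⟩
        ⟨fun _ => p, fun i j _ => Subsingleton.elim i j⟩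
      simp only [Function.Embedding.coeFn_mk, forall_const, Nat.descFactorial_one] at this
      refine this.trans (div_le_div_of_nonneg_right (by norm_num) (by linarith))
    calc Ex r (fun l => ind (ev ω l x = g (ev ω l x)))
        = Ex r (fun l => ∑ p, ind (ev ω l x = p) * ind (g p = p)) := by
          refine Ex_congr _ fun l _ => ?_
          rw [sum_ind_eq (ev ω l x) fun p => ind (g p = p)]
          exact ind_congr eq_comm
      _ = ∑ p, Ex r (fun l => ind (ev ω l x = p)) * ind (g p = p) := by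
          rw [Ex_sum]; simp only [Ex_mul_right]
      _ ≤ ∑ p, 2 / Fintype.card α * ind (g p = p) :=
          sum_le_sum fun p _ => mul_le_mul_of_nonneg_right (h3 p) (ind_nonneg _)
      _ = 2 / Fintype.card α * ∑ p, ind (g p = p) := by rw [mul_sum]
      _ ≤ _ := le_add_of_nonneg_left (by positivity)
  · rw [ind_neg hxy, zero_mul, add_zero]
    have h3 : ∀ p : α, Ex r (fun l => ind (ev ω l x = p ∧ ev ω l y = g p)) ≤
        2 / Fintype.card α / Fintype.card α := by
      intro p
      by_cases hp : p = g p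
      · refine Ex_le_const _ fun l _ => ?_
        rw [ind_neg]
        · positivity
        · rintro ⟨ha, hb⟩
          exact hxy ((ev ω l).injective (by rw [ha, hb, ← hp]))
      · have inj : ∀ {u v : α}, u ≠ v → Function.Injective ![u, v] := by
          intro u v huv i j hij
          fin_cases i <;> fin_cases j <;> simp_all [eq_comm]
        have := bp_mix_le h2 hr (by omega) ⟨![x, y], inj hxy⟩ ⟨![p, g p], inj hp⟩
        simp only [Function.Embedding.coeFn_mk, Fin.forall_fin_two, Matrix.cons_val_zero,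
          Matrix.cons_val_one] at this
        refine this.trans ?_
        have e : (((Fintype.card α).descFactorial 2 : ℕ) : ℝ) =
            (Fintype.card α - 1) * Fintype.card α := by
          rw [Nat.descFactorial_succ, Nat.descFactorial_one, Nat.cast_mul,
            Nat.cast_sub (by omega)]
          simp
        rw [e, div_div, div_div, div_le_div_iff₀ (by nlinarith) (by positivity)]
        nlinarith
    calc Ex r (fun l => ind (ev ω l y = g (ev ω l x)))
        ≤ Ex r (fun l => ∑ p, ind (ev ω l x = p ∧ ev ω l y = g p)) :=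
          Ex_mono _ fun l _ => ind_le_sum _ _ fun h => ⟨ev ω l x, mem_univ _, rfl, h⟩
      _ = ∑ p, Ex r (fun l => ind (ev ω l x = p ∧ ev ω l y = g p)) := Ex_sum _ _ _
      _ ≤ ∑ _p : α, (2 : ℝ) / Fintype.card α / Fintype.card α := sum_le_sum fun p _ => h3 p
      _ = _ := by
          rw [sum_const, card_univ, nsmul_eq_mul]; field_simp

theorem bp_short {m s r k : ℕ} {Φ : ℝ} (h1 : Mix ω 1 m) (h2 : Mix ω 2 m) (hΦ : Fixs ω m ≤ Φ)
    (hmk : 2 * m ≤ k) (hk : k ≤ r) (hn : 3 ≤ Fintype.card α) (a : Fin s ↪ α) :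
    Ex r (fun u => ∑ d ∈ Ico 1 m, ∑ i, ∑ j, ind (pos ω u (a j) (k - d) = pos ω u (a i) k)) ≤
      2 * m * s ^ 2 / Fintype.card α + 2 * s * Φ / Fintype.card α := by
  have hn' : (3 : ℝ) ≤ Fintype.card α := by exact_mod_cast hn
  have key : ∀ d ∈ Ico 1 m, ∀ i j,
      Ex r (fun u => ind (pos ω u (a j) (k - d) = pos ω u (a i) k)) ≤
        2 / Fintype.card α +
          ind (i = j) * (2 / Fintype.card α * Ex d fun w => ∑ p, ind (ev ω w p = p)) := by
    intro d hd i j
    rw [mem_Ico] at hd
    have e1 : (fun u => ind (pos ω u (a j) (k - d) = pos ω u (a i) k)) =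
        fun u : List Bool => (fun v : List Bool =>
          ind (pos ω v (a j) (k - d) = pos ω v (a i) k)) (u.take k) := by
      funext u
      have : min (k - d) k = k - d := by omega
      simp only [pos, List.take_take, min_self, this]
    rw [e1, bp_Ex_take hk fun v : List Bool => ind (pos ω v (a j) (k - d) = pos ω v (a i) k)]
    obtain ⟨c, rfl⟩ : ∃ c, k = c + d := ⟨k - d, by omega⟩
    rw [Ex_append]
    have e2 : Ex c (fun l => Ex d fun l' => ind (pos ω (l ++ l') (a j) (c + d - d) =
        pos ω (l ++ l') (a i) (c + d))) =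
        Ex c (fun l => Ex d fun l' => ind (ev ω l (a j) = ev ω l' (ev ω l (a i)))) := by
      refine Ex_congr _ fun l hl => Ex_congr _ fun l' hl' => ?_
      have h3 : pos ω (l ++ l') (a i) (c + d) = ev ω l' (ev ω l (a i)) := by
        have : (l ++ l').length = c + d := by simp [hl, hl']
        rw [← this, pos_length, ev_append]; rfl
      have h4 : pos ω (l ++ l') (a j) (c + d - d) = ev ω l (a j) := by
        simp only [pos, Nat.add_sub_cancel]
        rw [← hl, List.take_left]
      rw [h3, h4]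
    rw [e2, Ex_comm, ← Ex_mul_left, ← Ex_mul_left, ← Ex_const d (2 / (Fintype.card α : ℝ)),
      ← Ex_add]
    refine Ex_mono _ fun l' _ => ?_
    rw [Ex_const]
    have := bp_pair h1 h2 (r := c) (by omega) hn (ev ω l') (a i) (a j)
    rwa [ind_congr a.injective.eq_iff] at this
  have hF : 0 ≤ Fixs ω m := sum_nonneg fun d _ =>
    Ex_nonneg _ fun _ _ => sum_nonneg fun _ _ => ind_nonneg _
  rw [Ex_sum]
  simp only [Ex_sum]
  calc _ ≤ ∑ d ∈ Ico 1 m, ∑ i : Fin s, ∑ j : Fin s, (2 / Fintype.card α +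
          ind (i = j) * (2 / Fintype.card α * Ex d fun w => ∑ p, ind (ev ω w p = p))) :=
        sum_le_sum fun d hd => sum_le_sum fun i _ => sum_le_sum fun j _ => key d hd i j
    _ = ∑ d ∈ Ico 1 m, (2 * s ^ 2 / Fintype.card α +
          2 * s / Fintype.card α * Ex d fun w => ∑ p, ind (ev ω w p = p)) := by
        refine sum_congr rfl fun d _ => ?_
        simp only [sum_add_distrib, ← sum_mul, sum_ind_eq_one, sum_const, card_univ,
          Fintype.card_fin, nsmul_eq_mul]
        ring
    _ = (Ico 1 m).card * (2 * s ^ 2 / Fintype.card α) + 2 * s / Fintype.card α * Fixs ω m := by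
        rw [sum_add_distrib, sum_const, nsmul_eq_mul, Fixs, mul_sum]
    _ ≤ m * (2 * s ^ 2 / Fintype.card α) + 2 * s / Fintype.card α * Φ := by
        refine add_le_add (mul_le_mul_of_nonneg_right ?_ (by positivity))
          (mul_le_mul_of_nonneg_left hΦ (by positivity))
        rw [Nat.card_Ico]
        exact_mod_cast Nat.sub_le m 1
    _ = _ := by ring

omit [DecidableEq α] [Fintype α] in
theorem bp_split {m s k : ℕ} (a : Fin s ↪ α) (u : List Bool) :
    Ncol ω a u k ≤ (∑ i, ind (∃ j, ∃ k' ≤ k - m, pos ω u (a j) k' = pos ω u (a i) k)) +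
      ∑ d ∈ Ico 1 m, ∑ i, ∑ j, ind (pos ω u (a j) (k - d) = pos ω u (a i) k) := by
  rw [sum_comm (s := Ico 1 m), ← sum_add_distrib]
  refine sum_le_sum fun i _ => ?_
  have h0 : ∀ d, 0 ≤ ∑ j, ind (pos ω u (a j) (k - d) = pos ω u (a i) k) := fun d =>
    sum_nonneg fun _ _ => ind_nonneg _
  refine ind_le_of (add_nonneg (ind_nonneg _) (sum_nonneg fun d _ => h0 d)) ?_
  rintro ⟨j, k', hk', h⟩
  by_cases hc : k' ≤ k - m
  · rw [ind_pos ⟨j, k', hc, h⟩]
    exact le_add_of_nonneg_right (sum_nonneg fun d _ => h0 d)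
  · refine le_add_of_nonneg_of_le (ind_nonneg _) ?_
    have hd : k - k' ∈ Ico 1 m := by rw [mem_Ico]; omega
    refine le_trans ?_ (single_le_sum (fun d _ => h0 d) hd)
    refine le_trans ?_ (single_le_sum (f := fun j =>
      ind (pos ω u (a j) (k - (k - k')) = pos ω u (a i) k)) (fun _ _ => ind_nonneg _) (mem_univ j))
    have : k - (k - k') = k' := by omega
    simp only [this]
    rw [ind_pos h]

theorem bad_prob {m t s r r' : ℕ} {q Φ : ℝ} (h1 : Mix ω 1 m) (h2 : Mix ω 2 m) (ht : Mix ω t m)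
    (hΦ : Fixs ω m ≤ Φ) (hm : 1 ≤ m) (hr : 2 * m ≤ r') (htq : 2 * (t : ℝ) < q)
    (htn : t < Fintype.card α) (hn : 3 ≤ Fintype.card α) (a : Fin s ↪ α) :
    Ex r (fun u => ind (∃ k ∈ Icc r' r, q < Ncol ω a u k)) ≤
      (r + 1) * (2 * (s * (s * r) / (((Fintype.card α : ℝ) - t) * (q / 2 - t))) ^ t +
        2 / q * (2 * m * s ^ 2 / Fintype.card α + 2 * s * Φ / Fintype.card α)) := by
  have ht0 : (0 : ℝ) ≤ t := Nat.cast_nonneg t
  have hq : 0 < q := by linarith
  have hx : 0 < q / 2 - t := by linarith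
  have hnt : (0 : ℝ) < (Fintype.card α : ℝ) - t := by
    have : (t : ℝ) < Fintype.card α := by exact_mod_cast htn
    linarith
  have hF : 0 ≤ Φ := le_trans (sum_nonneg fun d _ =>
    Ex_nonneg _ fun _ _ => sum_nonneg fun _ _ => ind_nonneg _) hΦ
  have key : ∀ k ∈ Icc r' r, Ex r (fun u => ind (q < Ncol ω a u k)) ≤
      2 * (s * (s * r) / (((Fintype.card α : ℝ) - t) * (q / 2 - t))) ^ t +
        2 / q * (2 * m * s ^ 2 / Fintype.card α + 2 * s * Φ / Fintype.card α) := by
    intro k hk
    rw [mem_Icc] at hk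
    have hl := bp_long (k := k) (r := r) ht hm (by omega) hk.2 hx htn a
    have hs := bp_short (k := k) (r := r) h1 h2 hΦ (by omega) hk.2 hn a
    refine le_trans ?_ (add_le_add hl (mul_le_mul_of_nonneg_left hs (by positivity)))
    rw [← Ex_mul_left, ← Ex_add]
    refine Ex_mono _ fun u _ => ?_
    have h0 : 0 ≤ ∑ d ∈ Ico 1 m, ∑ i, ∑ j, ind (pos ω u (a j) (k - d) = pos ω u (a i) k) :=
      sum_nonneg fun _ _ => sum_nonneg fun _ _ => sum_nonneg fun _ _ => ind_nonneg _
    refine ind_le_of (add_nonneg (ind_nonneg _) (by positivity)) fun h => ?_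
    have h3 := h.trans_le (bp_split (m := m) a u)
    by_cases hc : q / 2 - t + t <
        ∑ i, ind (∃ j, ∃ k' ≤ k - m, pos ω u (a j) k' = pos ω u (a i) k)
    · rw [ind_pos hc]
      exact le_add_of_nonneg_right (by positivity)
    · refine le_add_of_nonneg_of_le (ind_nonneg _) ?_
      rw [div_mul_eq_mul_div, one_le_div hq]
      push Not at hc
      linarith
  calc _ ≤ Ex r (fun u => ∑ k ∈ Icc r' r, ind (q < Ncol ω a u k)) :=
        Ex_mono _ fun u _ => ind_le_sum _ _ id
    _ = ∑ k ∈ Icc r' r, Ex r (fun u => ind (q < Ncol ω a u k)) := Ex_sum _ _ _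
    _ ≤ _ := by
        refine (sum_le_card_nsmul _ _ _ key).trans ?_
        rw [nsmul_eq_mul]
        refine mul_le_mul_of_nonneg_right ?_ (by positivity)
        rw [Nat.card_Icc]
        exact_mod_cast Nat.sub_le (r + 1) r'

end Pool.Agent.Lib.MP_8a89f5_al
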