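import Pool.Agent.Lib.MP_8a89f5_al.Defs

/-!
Two large sets in a product space are close in the Hamming distance.
-/

namespace Pool.Agent.Lib.MP_8a89f5_al

open Finset Equiv Filter Topology

section
variable {α : Type*} [Fintype α] [DecidableEq α]

omit [DecidableEq α] in
theorem ham_one {F G : α → ℝ} {C l K : ℝ} (hF : ∀ u, 0 ≤ F u) (hG : ∀ u, 0 ≤ G u) (hC : 0 ≤ C)
    (hl : 0 < l) (hK : (1 + l) ^ 2 ≤ 4 * l * K) (h1 : ∀ u, F u * G u ≤ C)
    (h2 : ∀ u v, F u * G v ≤ l * C) :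
    (∑ u, F u) * ∑ v, G v ≤ C * ((Fintype.card α : ℝ) ^ 2 * K) := by
  have hK0 : 0 ≤ K := by
    by_contra h
    have : 4 * l * K < 0 := mul_neg_of_pos_of_neg (by linarith) (not_le.1 h)
    nlinarith [sq_nonneg (1 + l)]
  have hR : 0 ≤ C * ((Fintype.card α : ℝ) ^ 2 * K) := by positivity
  rcases hC.eq_or_lt with rfl | hC
  · rw [sum_mul_sum]
    refine le_trans (sum_nonpos fun u _ => sum_nonpos fun v _ => ?_) hR
    simpa using h2 u v
  rcases isEmpty_or_nonempty α with h0 | h0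
  · simp
  obtain ⟨u0, -, hu0⟩ := exists_max_image univ F univ_nonempty
  rcases (hF u0).eq_or_lt with hA | hA
  · have : ∑ u, F u = 0 := sum_eq_zero fun u hu => le_antisymm (hA ▸ hu0 u hu) (hF u)
    rw [this, zero_mul]
    exact hR
  set A := F u0
  set N : ℝ := (Fintype.card α : ℝ)
  have key : l * C * (∑ u, F u) + A ^ 2 * ∑ v, G v ≤ N * (A * C * (1 + l)) := by
    rw [mul_sum, mul_sum, ← sum_add_distrib]
    refine (sum_le_card_nsmul univ _ (A * C * (1 + l)) fun u hu => ?_).trans (by simp [N])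
    have a1 := mul_nonneg (sub_nonneg.2 (hu0 u hu)) (sub_nonneg.2 (h2 u0 u))
    have a2 := mul_le_mul_of_nonneg_left (h1 u) hA.le
    nlinarith
  have hSF : 0 ≤ ∑ u, F u := sum_nonneg fun u _ => hF u
  have hSG : 0 ≤ ∑ u, G u := sum_nonneg fun u _ => hG u
  set X := ∑ u, F u
  set Y := ∑ u, G u
  have h3 : (l * C * X + A ^ 2 * Y) ^ 2 ≤ (N * (A * C * (1 + l))) ^ 2 :=
    pow_le_pow_left₀ (by positivity) key 2
  have h4 : (N * (A * C * (1 + l))) ^ 2 ≤ (N * A * C) ^ 2 * (4 * l * K) := by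
    have := mul_le_mul_of_nonneg_left hK (sq_nonneg (N * A * C))
    linarith [show (N * (A * C * (1 + l))) ^ 2 = (N * A * C) ^ 2 * (1 + l) ^ 2 by ring]
  have h5 : 4 * l * C * A ^ 2 * (X * Y) ≤ 4 * l * C * A ^ 2 * (C * (N ^ 2 * K)) := by
    nlinarith [sq_nonneg (l * C * X - A ^ 2 * Y)]
  exact le_of_mul_le_mul_left h5 (by positivity)

theorem ham_ind {l K : ℝ} (hl : 1 ≤ l) (hK : (1 + l) ^ 2 ≤ 4 * l * K) (s : ℕ) :
    ∀ (f g : (Fin s → α) → ℝ) (c : ℝ), (∀ x, 0 ≤ f x) → (∀ x, 0 ≤ g x) → 0 ≤ c →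
      (∀ x y, f x * g y ≤ c * l ^ (univ.filter fun i => x i ≠ y i).card) →
      (∑ x, f x) * ∑ y, g y ≤ c * ((Fintype.card α : ℝ) ^ 2 * K) ^ s := by
  have hK0 : 0 ≤ K := by
    by_contra h
    have : 4 * l * K < 0 := mul_neg_of_pos_of_neg (by linarith) (not_le.1 h)
    nlinarith [sq_nonneg (1 + l)]
  induction s with
  | zero =>
    intro f g c _ _ _ h
    simpa using h default default
  | succ s ih =>
    intro f g c hf hg hc h
    have e : ∀ f : (Fin (s + 1) → α) → ℝ, ∑ x, f x = ∑ u : α, ∑ x : Fin s → α, f (Fin.cons u x) :=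
      fun f => by
        rw [← (Fin.consEquiv fun _ => α).sum_comp, Fintype.sum_prod_type]
        rfl
    have d : ∀ (u v : α) (x y : Fin s → α),
        (univ.filter fun i => (Fin.cons u x : Fin (s + 1) → α) i ≠ (Fin.cons v y : Fin (s + 1) → α) i).card =
          (if u ≠ v then 1 else 0) + (univ.filter fun i => x i ≠ y i).card := by
      intro u v x y
      rw [card_filter, card_filter, Fin.sum_univ_succ]
      rfl
    rw [e f, e g, pow_succ, ← mul_assoc]
    refine ham_one (fun u => sum_nonneg fun x _ => hf _) (fun u => sum_nonneg fun x _ => hg _)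
      (by positivity) (by linarith) hK (fun u => ?_) fun u v => ?_
    · refine ih _ _ c (fun x => hf _) (fun x => hg _) hc fun x y => ?_
      simpa [d] using h (Fin.cons u x) (Fin.cons u y)
    · rw [← mul_assoc]
      refine ih _ _ (l * c) (fun x => hf _) (fun x => hg _) (by positivity) fun x y => ?_
      refine (h _ _).trans ?_
      rw [d, pow_add, mul_comm l c, mul_assoc]
      refine mul_le_mul_of_nonneg_left (mul_le_mul_of_nonneg_right ?_ (by positivity)) hc
      split_ifs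
      · simp
      · simpa using hl

theorem hamming {s : ℕ} (X Y : Finset (Fin s → α)) {ρ : ℝ} (hρ : 0 ≤ ρ)
    (h : Real.exp (-ρ ^ 2 / (4 * s)) * ((Fintype.card α : ℝ) ^ s) ^ 2 < X.card * Y.card) :
    ∃ x ∈ X, ∃ y ∈ Y, ((univ.filter fun i => x i ≠ y i).card : ℝ) ≤ ρ := by
  by_contra hcon
  push Not at hcon
  set θ := ρ / s
  have hθ : 0 ≤ θ := by positivity
  have hK : (1 + Real.exp θ) ^ 2 ≤ 4 * Real.exp θ * Real.cosh θ := by
    rw [Real.cosh_eq, Real.exp_neg]
    have h0 := Real.exp_pos θ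
    have : 4 * Real.exp θ * ((Real.exp θ + (Real.exp θ)⁻¹) / 2) = 2 * Real.exp θ ^ 2 + 2 := by
      field_simp
      ring
    rw [this]
    nlinarith [sq_nonneg (Real.exp θ - 1)]
  have main := ham_ind (α := α) (Real.one_le_exp hθ) hK s (fun x => ind (x ∈ X)) (fun y => ind (y ∈ Y))
    (Real.exp (-(θ * ρ))) (fun _ => ind_nonneg _) (fun _ => ind_nonneg _) (Real.exp_pos _).le
    fun x y => by
      rw [← ind_and]
      refine ind_le_of (by positivity) fun hxy => ?_
      rw [← Real.exp_nat_mul, ← Real.exp_add]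
      refine Real.one_le_exp ?_
      have := mul_le_mul_of_nonneg_left (hcon x hxy.1 y hxy.2).le hθ
      linarith
  rw [sum_ind_eq_card, sum_ind_eq_card] at main
  simp only [filter_mem_eq_inter, univ_inter] at main
  refine absurd (h.trans_le main) (not_lt.2 ?_)
  rw [mul_pow, ← pow_mul, ← pow_mul, mul_comm 2 s, mul_comm _ (Real.cosh θ ^ s), ← mul_assoc]
  refine mul_le_mul_of_nonneg_right ?_ (by positivity)
  have h1 : Real.cosh θ ^ s ≤ Real.exp (s * (θ ^ 2 / 2)) := by
    rw [Real.exp_nat_mul]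
    exact pow_le_pow_left₀ (Real.cosh_pos θ).le (Real.cosh_le_exp_half_sq θ) s
  refine (mul_le_mul_of_nonneg_left h1 (Real.exp_pos _).le).trans ?_
  rw [← Real.exp_add]
  refine Real.exp_le_exp.2 ?_
  rcases Nat.eq_zero_or_pos s with hs | hs
  · simp [θ, hs]
  · have hs' : (0 : ℝ) < s := by exact_mod_cast hs
    have e1 : -(θ * ρ) + s * (θ ^ 2 / 2) = -ρ ^ 2 / (4 * s) - ρ ^ 2 / (4 * s) := by
      simp only [θ]
      field_simp
      ring
    rw [e1]
    have : 0 ≤ ρ ^ 2 / (4 * s) := by positivity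
    linarith

end

end Pool.Agent.Lib.MP_8a89f5_al
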