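import Mathlib

/-!
A small calculus of polynomial orders of growth.
-/

namespace Pool.Agent.Lib.MP_8a89f5_al

open Filter Topology

/-- `f n` is at most `n ^ (a + o(1))`. -/
def Ord (f : ℕ → ℝ) (a : ℝ) : Prop := ∀ γ : ℝ, 0 < γ → ∀ᶠ n : ℕ in atTop, |f n| ≤ (n : ℝ) ^ (a + γ)

theorem ev_one_le : ∀ᶠ n : ℕ in atTop, (1 : ℝ) ≤ n := by
  filter_upwards [eventually_ge_atTop 1] with n hn
  exact_mod_cast hn

theorem ev_const_le (C : ℝ) {γ : ℝ} (hγ : 0 < γ) : ∀ᶠ n : ℕ in atTop, C ≤ (n : ℝ) ^ γ :=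
  ((tendsto_rpow_atTop hγ).comp tendsto_natCast_atTop_atTop).eventually_ge_atTop C

namespace Ord
variable {f g : ℕ → ℝ} {a b : ℝ}

theorem mono (h : Ord f a) (hab : a ≤ b) : Ord f b := fun γ hγ => by
  filter_upwards [h γ hγ, ev_one_le] with n h1 h2
  exact h1.trans (Real.rpow_le_rpow_of_exponent_le h2 (by linarith))

theorem of_le (h : Ord f a) (hg : ∀ᶠ n in atTop, |g n| ≤ |f n|) : Ord g a := fun γ hγ => by
  filter_upwards [h γ hγ, hg] with n h1 h2
  exact h2.trans h1

theorem of_le' (h : Ord f a) (hg : ∀ᶠ n in atTop, 0 ≤ g n ∧ g n ≤ f n) : Ord g a :=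
  h.of_le (hg.mono fun _ h => by rw [abs_of_nonneg h.1]; exact h.2.trans (le_abs_self _))

theorem const (C : ℝ) : Ord (fun _ => C) 0 := fun γ hγ => by
  simpa using ev_const_le |C| hγ

theorem rpow (c : ℝ) : Ord (fun n => (n : ℝ) ^ c) c := fun γ hγ => by
  filter_upwards [ev_one_le] with n h2
  rw [abs_of_nonneg (by positivity)]
  exact Real.rpow_le_rpow_of_exponent_le h2 (by linarith)

theorem id : Ord (fun n => (n : ℝ)) 1 := by simpa using rpow 1

theorem inv : Ord (fun n => (n : ℝ)⁻¹) (-1) := by simpa [Real.rpow_neg_one] using rpow (-1)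

theorem mul (hf : Ord f a) (hg : Ord g b) : Ord (fun n => f n * g n) (a + b) := fun γ hγ => by
  filter_upwards [hf (γ / 2) (by linarith), hg (γ / 2) (by linarith), ev_one_le] with n h1 h2 h3
  rw [abs_mul, show a + b + γ = (a + γ / 2) + (b + γ / 2) by ring, Real.rpow_add (by linarith)]
  exact mul_le_mul h1 h2 (abs_nonneg _) (by positivity)

theorem const_mul (C : ℝ) (hf : Ord f a) : Ord (fun n => C * f n) a := by
  simpa using (const C).mul hf

theorem add (hf : Ord f a) (hg : Ord g a) : Ord (fun n => f n + g n) a := fun γ hγ => by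
  filter_upwards [hf (γ / 2) (by linarith), hg (γ / 2) (by linarith), ev_one_le,
    ev_const_le 2 (show 0 < γ / 2 by linarith)] with n h1 h2 h3 h4
  rw [show a + γ = (a + γ / 2) + γ / 2 by ring, Real.rpow_add (by linarith)]
  have : 0 ≤ (n : ℝ) ^ (a + γ / 2) := by positivity
  nlinarith [abs_add_le (f n) (g n)]

theorem pow (hf : Ord f a) : ∀ k : ℕ, Ord (fun n => f n ^ k) (k * a)
  | 0 => by simpa using const 1
  | k + 1 => by
    have := (pow hf k).mul hf
    simp only [← pow_succ] at this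
    exact this.mono (by push_cast; linarith)

theorem log : Ord (fun n => (Nat.log 2 n : ℝ) + 1) 0 := by
  refine Ord.add (fun γ hγ => ?_) (const 1)
  have h := (isLittleO_log_rpow_atTop hγ).bound (show (0 : ℝ) < Real.log 2 by positivity)
  filter_upwards [tendsto_natCast_atTop_atTop.eventually h, eventually_ge_atTop 1] with n h1 h2
  have hn : (1 : ℝ) ≤ n := by exact_mod_cast h2
  rw [Real.norm_of_nonneg (Real.log_nonneg hn), Real.norm_of_nonneg (by positivity)] at h1
  rw [abs_of_nonneg (Nat.cast_nonneg _), zero_add]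
  have h3 : ((2 : ℝ) ^ Nat.log 2 n) ≤ n := by exact_mod_cast Nat.pow_log_le_self 2 (by omega)
  have h4 := Real.log_le_log (by positivity) h3
  rw [Real.log_pow] at h4
  have h5 : 0 < Real.log 2 := by positivity
  nlinarith

theorem floor (hf : Ord f a) : Ord (fun n => (⌊f n⌋₊ : ℝ)) a :=
  hf.of_le (Eventually.of_forall fun n => by
    rw [abs_of_nonneg (Nat.cast_nonneg _)]
    rcases le_total 0 (f n) with h | h
    · exact (Nat.floor_le h).trans (le_abs_self _)
    · rw [Nat.floor_of_nonpos h]; simp)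

theorem ev_le (hf : Ord f a) (hab : a < b) : ∀ᶠ n : ℕ in atTop, f n ≤ (n : ℝ) ^ b := by
  filter_upwards [hf (b - a) (by linarith)] with n h
  rw [add_sub_cancel] at h
  exact (le_abs_self _).trans h

theorem ev_le_id (hf : Ord f a) (ha : a < 1) : ∀ᶠ n : ℕ in atTop, f n ≤ n := by
  simpa using hf.ev_le ha

theorem tendsto (hf : Ord f a) (ha : a < 0) : Tendsto f atTop (𝓝 0) := by
  refine squeeze_zero_norm' (hf (-a / 2) (by linarith)) ?_
  have := (tendsto_rpow_neg_atTop (show 0 < -a / 2 by linarith)).comp tendsto_natCast_atTop_atTop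
  rw [show a + -a / 2 = -(-a / 2) by ring]
  exact this

theorem ev_le_const (hf : Ord f a) (ha : a < 0) {c : ℝ} (hc : 0 < c) :
    ∀ᶠ n : ℕ in atTop, f n ≤ c := (hf.tendsto ha).eventually_le_const hc

end Ord

end Pool.Agent.Lib.MP_8a89f5_al
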