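import Pool.Agent.Lib.MP_8a89f5_al.MixCore
import Pool.Agent.Lib.MP_8a89f5_al.Asym

/-!
Mixing of bounded tuples, and fixed points of short words, with high probability.
-/

namespace Pool.Agent.Lib.MP_8a89f5_al

open Finset Equiv Filter Topology

theorem one_le_hs {G X : Type*} [Group G] [MulAction G X] [Fintype X] [Nonempty X] (ω : Bool → G)
    (r : ℕ) : 1 ≤ ∑ a : X, ∑ b, tp ω r a b ^ 2 := by
  have hN : (0 : ℝ) < Fintype.card X := by exact_mod_cast Fintype.card_pos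
  have h : ∀ a : X, 1 / (Fintype.card X : ℝ) ≤ ∑ b, tp ω r a b ^ 2 := fun a => by
    have := sq_sum_le_card_mul_sum_sq (s := univ) (f := fun b => tp ω r a b)
    rw [tp_row, card_univ] at this
    rw [div_le_iff₀ hN]; linarith
  refine le_trans (le_of_eq ?_) (sum_le_sum fun a _ => h a)
  rw [sum_const, card_univ, nsmul_eq_mul, mul_one_div_cancel hN.ne']

theorem mix_fail {α : Type*} [Fintype α] [DecidableEq α] {t r k m : ℕ}
    (hT : 2 * t * r < Fintype.card α) (ht : t ≤ Fintype.card α)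
    (hk : 10 * Fintype.card α ^ t ≤ 2 ^ k) (hm : k * r ≤ m) :
    av (fun ω : Bool → Perm α => ind (¬Mix ω t m)) ≤
      4 * ((Fintype.card α : ℝ) ^ t * (1 / 2 ^ r + ((1 / ((Fintype.card α : ℝ) - 2 * t * r)) ^ t +
        ((2 * t * r : ℝ) * (2 * t * (r + 1)) / ((Fintype.card α : ℝ) - 2 * t * r)) ^ (t + 1)))
          - 1) := by
  have hc : Fintype.card (Fin t ↪ α) = (Fintype.card α).descFactorial t := by simp
  have hc' : Fintype.card (Fin t ↪ α) ≤ Fintype.card α ^ t := hc ▸ Nat.descFactorial_le_pow _ _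
  have : Nonempty (Fin t ↪ α) := Function.Embedding.nonempty_of_card_le (by simpa using ht)
  have h1 := av_markov (f := fun ω : Bool → Perm α => ∑ a : Fin t ↪ α, ∑ b, tp ω r a b ^ 2 - 1)
    (fun ω => sub_nonneg.2 (one_le_hs ω r)) (c := 1 / 4) (by norm_num)
  rw [av_sub, av_const] at h1
  have h2 := hs_bound hT
  have hR' : ((2 * t * r : ℕ) : ℝ) < Fintype.card α := by exact_mod_cast hT
  push_cast at hR'
  have h3 := mul_le_mul_of_nonneg_right
    (show (Fintype.card (Fin t ↪ α) : ℝ) ≤ (Fintype.card α : ℝ) ^ t by exact_mod_cast hc')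
    (show 0 ≤ 1 / 2 ^ r + ((1 / ((Fintype.card α : ℝ) - 2 * t * r)) ^ t +
      ((2 * t * r : ℝ) * (2 * t * (r + 1)) / ((Fintype.card α : ℝ) - 2 * t * r)) ^ (t + 1)) from
      add_nonneg (by positivity) (add_nonneg (pow_nonneg (div_nonneg zero_le_one (by linarith)) _)
        (pow_nonneg (div_nonneg (by positivity) (by linarith)) _)))
  refine (av_mono fun ω => ind_mono fun h => ?_).trans (h1.trans (by linarith))
  by_contra h4
  refine h fun r' hr' a b => ?_
  have := tp_mix (X := Fin t ↪ α) ω r k (by linarith) (by omega) r' (hm.trans hr') a b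
  simpa only [hc, tp, smul_eq_iff] using this

theorem mix (t : ℕ) (γ : ℝ) (hγ : 0 < γ) : WHP fun n ω => Mix ω t ⌊(n : ℝ) ^ γ⌋₊ := by
  set L : ℕ → ℕ := fun n => Nat.log 2 n + 1 with hL
  have oL : Ord (fun n => (L n : ℝ)) 0 := by simpa [hL] using Ord.log
  have or : Ord (fun n => (((t + 1) * L n : ℕ) : ℝ)) 0 := by
    simpa using oL.const_mul ((t : ℝ) + 1)
  set r : ℕ → ℕ := fun n => (t + 1) * L n with hr
  have oT : Ord (fun n => 2 * t * (r n : ℝ)) 0 := or.const_mul _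
  have ox : Tendsto (fun n => 2 * t * (r n : ℝ) * (n : ℝ)⁻¹) atTop (𝓝 0) :=
    (oT.mul Ord.inv).tendsto (by norm_num)
  have oy : Tendsto (fun n => (2 * t * (r n : ℝ) * (2 * t * (r n + 1))) ^ (t + 1) * (n : ℝ)⁻¹)
      atTop (𝓝 0) :=
    (((oT.mul ((or.add (Ord.const 1)).const_mul (2 * t))).pow (t + 1)).mul Ord.inv).tendsto
      (by norm_num)
  have oz : Tendsto (fun n => (1 - 2 * t * (r n : ℝ) * (n : ℝ)⁻¹)⁻¹) atTop (𝓝 1) := by
    simpa using (ox.const_sub 1).inv₀ (by norm_num)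
  have ok : Ord (fun n => (((t * L n + 4) * r n : ℕ) : ℝ)) 0 := by
    simpa [hr] using ((oL.const_mul t).add (Ord.const 4)).mul or
  refine WHP.of_le (f := fun n => 4 * ((n : ℝ)⁻¹ + ((1 - 2 * t * (r n : ℝ) * (n : ℝ)⁻¹)⁻¹ ^ t +
    (1 - 2 * t * (r n : ℝ) * (n : ℝ)⁻¹)⁻¹ ^ (t + 1) *
      ((2 * t * (r n : ℝ) * (2 * t * (r n + 1))) ^ (t + 1) * (n : ℝ)⁻¹)) - 1)) ?_ ?_
  · have := (((Ord.inv.tendsto (by norm_num)).add ((oz.pow t).add
      ((oz.pow (t + 1)).mul oy))).sub_const 1).const_mul 4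
    simpa using this
  · filter_upwards [((oT.add (Ord.const 1)).ev_le_id one_pos), ok.ev_le hγ, eventually_ge_atTop t,
      eventually_ge_atTop 1] with n h1 h2 h3 h4
    have hn : (0 : ℝ) < n := by exact_mod_cast h4
    have hlt : n < 2 ^ L n := Nat.lt_pow_succ_log_self one_lt_two n
    have hT : 2 * t * r n < n := by
      have : ((2 * t * r n + 1 : ℕ) : ℝ) ≤ n := by push_cast; exact h1
      exact_mod_cast this
    have := mix_fail (α := Fin n) (t := t) (r := r n) (k := t * L n + 4) (m := ⌊(n : ℝ) ^ γ⌋₊)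
      (by simpa using hT) (by simpa using h3) (by
        rw [Fintype.card_fin, pow_add, mul_comm t, pow_mul]
        have := Nat.pow_le_pow_left hlt.le t
        omega) (Nat.le_floor h2)
    rw [Fintype.card_fin] at this
    refine this.trans ?_
    have hd : (0 : ℝ) < n - 2 * t * r n := by linarith
    have e : (1 - 2 * t * (r n : ℝ) * (n : ℝ)⁻¹)⁻¹ = n / (n - 2 * t * r n) := by field_simp
    have e1 : (n : ℝ) ^ t * (1 / 2 ^ r n) ≤ (n : ℝ)⁻¹ := by
      have h5 : ((n ^ (t + 1) : ℕ) : ℝ) ≤ (2 ^ r n : ℕ) := by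
        simp only [hr]
        rw [mul_comm, pow_mul]
        exact_mod_cast Nat.pow_le_pow_left hlt.le _
      push_cast at h5
      rw [mul_one_div, div_le_iff₀ (by positivity), inv_mul_eq_div, le_div_iff₀ hn, ← pow_succ]
      exact h5
    rw [e, mul_add, mul_add, ← mul_pow, div_pow _ _ (t + 1), div_pow _ _ (t + 1)]
    refine mul_le_mul_of_nonneg_left (sub_le_sub_right (add_le_add e1 (add_le_add
      (by rw [mul_one_div]) (le_of_eq ?_))) _) (by norm_num)
    rw [pow_succ (n : ℝ)]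
    field_simp

theorem fixs_whp (γ γ' : ℝ) (hγ : 0 < γ) (hγ1 : γ < 1) (h : 3 * γ < γ') :
    WHP fun n ω => Fixs ω ⌊(n : ℝ) ^ γ⌋₊ ≤ (n : ℝ) ^ γ' := by
  have om : Ord (fun n => (⌊(n : ℝ) ^ γ⌋₊ : ℝ)) γ := (Ord.rpow γ).floor
  refine WHP.of_le (f := fun n => 2 * ((⌊(n : ℝ) ^ γ⌋₊ : ℝ) ^ 3 * (n : ℝ) ^ (-γ')))
    ((((om.pow 3).mul (Ord.rpow (-γ'))).const_mul 2).tendsto (by push_cast; linarith)) ?_
  filter_upwards [(om.const_mul 2).ev_le_id hγ1, eventually_ge_atTop 1] with n h1 h2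
  have hn : (0 : ℝ) < n := by exact_mod_cast h2
  set m := ⌊(n : ℝ) ^ γ⌋₊ with hm
  have h3 := av_markov (f := fun ω : Bool → Perm (Fin n) => Fixs ω m)
    (fun ω => sum_nonneg fun d _ => Ex_nonneg _ fun _ _ => sum_nonneg fun _ _ => ind_nonneg _)
    (c := (n : ℝ) ^ γ') (by positivity)
  refine (av_mono fun ω => ind_mono fun h => (not_le.1 h).le).trans (h3.trans ?_)
  rw [Real.rpow_neg hn.le, ← mul_assoc, ← div_eq_mul_inv]
  refine div_le_div_of_nonneg_right ?_ (by positivity)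
  simp only [Fixs, av_sum, Ex_av]
  have hm0 : (0 : ℝ) ≤ m := Nat.cast_nonneg _
  calc _ ≤ ∑ d ∈ Ico 1 m, 2 * (m : ℝ) ^ 2 := by
        refine sum_le_sum fun d hd => Ex_le_const _ fun w hw => ?_
        obtain ⟨hd1, hd2⟩ := mem_Ico.1 hd
        have hd3 : (d : ℝ) + 1 ≤ m := by exact_mod_cast hd2
        have hd0 : (0 : ℝ) ≤ d := Nat.cast_nonneg _
        have hd4 : d < n := by
          have : (d : ℝ) < n := by linarith
          exact_mod_cast this
        refine (sum_le_sum fun p _ => fix_bound hw hd1 (by simpa using hd4) p).trans ?_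
        rw [sum_const, card_univ, Fintype.card_fin, nsmul_eq_mul, ← mul_div_assoc,
          div_le_iff₀ (by linarith)]
        have : (d : ℝ) * (d + 1) ≤ m ^ 2 := by nlinarith
        nlinarith
    _ ≤ _ := by
        rw [sum_const, Nat.card_Ico, nsmul_eq_mul]
        have : ((m - 1 : ℕ) : ℝ) ≤ m := by exact_mod_cast Nat.sub_le m 1
        nlinarith [sq_nonneg (m : ℝ)]

end Pool.Agent.Lib.MP_8a89f5_al
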