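import Pool.Agent.Lib.MP_8a89f5_al.Cube
import Pool.Agent.Lib.MP_8a89f5_al.Mix
import Pool.Agent.Lib.MP_8a89f5_al.Hamming
import Pool.Agent.Lib.MP_8a89f5_al.BadProb

/-!
Short words act almost transitively on tuples of length `n ^ c`, `c < 1 / 2`.
-/

namespace Pool.Agent.Lib.MP_8a89f5_al

open Finset Equiv Filter Topology

theorem near_det {α : Type*} [Fintype α] [DecidableEq α] (ω : Bool → Perm α) {s r k : ℕ}
    (good : (Fin s ↪ α) → List Bool → Prop) {θ ρ : ℝ} (hθ : 0 < θ) (hρ : 0 ≤ ρ)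
    (hbad : ∀ a, Ex r (fun u => ind (¬good a u)) ≤ 1 / 4)
    (hcube : ∑ a, ∑ b, gp ω r good a b ^ 3 ≤ θ / 16) (hk : Fintype.card α ^ s < 4 ^ k)
    (hexp : Real.exp (-ρ ^ 2 / (4 * s)) * ((Fintype.card α : ℝ) ^ s) ^ 2 < (1 / (4 * θ)) ^ 2) :
    NearTrans ω s ρ (2 * (k * r : ℕ)) := by
  intro a b
  have hc : Fintype.card (Fin s ↪ α) < 4 ^ k := by
    refine lt_of_le_of_lt ?_ hk
    simpa using Nat.descFactorial_le_pow _ _
  have ha := reach_large ω r good hθ hbad hcube a k hc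
  have hb := reach_large ω r good hθ hbad hcube b k hc
  let e : (Fin s ↪ α) ↪ (Fin s → α) := ⟨fun f => f, DFunLike.coe_injective⟩
  obtain ⟨x, hx, y, hy, hxy⟩ := hamming ((reach ω a (k * r)).map e) ((reach ω b (k * r)).map e) hρ
    (hexp.trans_le (by
      rw [card_map, card_map, sq]
      exact mul_le_mul ha hb (by positivity) (Nat.cast_nonneg _)))
  obtain ⟨x', hx', rfl⟩ := mem_map.1 hx
  obtain ⟨y', hy', rfl⟩ := mem_map.1 hy
  obtain ⟨u, hu, rfl⟩ := mem_reach.1 hx'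
  obtain ⟨v, hv, rfl⟩ := mem_reach.1 hy'
  refine ⟨(ev ω v)⁻¹ * ev ω u, ((Len.ev v).inv.mul (Len.ev u)).mono (by rw [hu, hv]; linarith),
    le_of_eq_of_le ?_ hxy⟩
  congr 2
  ext i
  simp only [mem_filter, mem_univ, true_and, Perm.coe_mul, Function.comp_apply, ne_eq,
    Perm.inv_eq_iff_eq]
  rfl

theorem exp_side {n s q L T : ℕ} {ρ : ℝ} (hn : n < 2 ^ L) (hs : 1 ≤ s) (hsn : s ≤ n)
    (hq : 5 * q ≤ s) (hT : 2 * T ≤ n)
    (h : (8 + L + (15 * q * L + 4 * s * T * (n : ℝ)⁻¹)) * (8 * s) + 1 ≤ ρ ^ 2) :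
    Real.exp (-ρ ^ 2 / (4 * s)) * ((n : ℝ) ^ s) ^ 2 <
      (1 / (4 * (16 * (n * ((n : ℝ) ^ s * ((s : ℝ) ^ (5 * q) * (1 / ((n : ℝ) - T)) ^
        (2 * (s - 5 * q)) + 3 / 2 ^ (2 * s * L))))))) ^ 2 := by
  have hs0 : (0 : ℝ) < s := by exact_mod_cast hs
  have hsn' : (s : ℝ) ≤ n := by exact_mod_cast hsn
  have hn0 : (0 : ℝ) < n := by linarith
  have hT' : 2 * (T : ℝ) ≤ n := by exact_mod_cast hT
  have hT0 : (0 : ℝ) ≤ T := Nat.cast_nonneg _
  have hd : (0 : ℝ) < n - T := by linarith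
  have h2e : (2 : ℝ) ≤ Real.exp 1 := by linarith [Real.add_one_le_exp 1]
  have hn2 : (n : ℝ) ≤ 2 ^ L := by exact_mod_cast hn.le
  have hnL : (n : ℝ) ≤ Real.exp L := by
    rw [← Real.exp_one_pow]
    exact hn2.trans (pow_le_pow_left₀ zero_le_two h2e _)
  set B := (s : ℝ) ^ (5 * q) * (1 / ((n : ℝ) - T)) ^ (2 * (s - 5 * q)) with hB
  set E : ℝ := 15 * q * L + 4 * s * T * (n : ℝ)⁻¹ with hE
  have hE0 : 0 ≤ E := by positivity
  have hB0 : 0 ≤ B := by positivity
  have h1 : ((n : ℝ) ^ s) ^ 2 * (3 / 2 ^ (2 * s * L)) ≤ 3 := by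
    rw [← mul_div_assoc, div_le_iff₀ (by positivity), mul_comm, ← pow_mul,
      show 2 * s * L = L * (s * 2) by ring, pow_mul 2 L]
    gcongr
  have h2 : ((n : ℝ) ^ s) ^ 2 * B ≤ Real.exp E := by
    have e1 : ((n : ℝ) ^ s) ^ 2 = n ^ (10 * q) * n ^ (2 * (s - 5 * q)) := by
      rw [← pow_mul, ← pow_add]; congr 1; omega
    have e2 : (n : ℝ) * (1 / ((n : ℝ) - T)) ≤ Real.exp (2 * T * (n : ℝ)⁻¹) := by
      refine le_trans ?_ (Real.add_one_le_exp _)
      rw [mul_one_div, div_le_iff₀ hd]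
      have : (2 * T * (n : ℝ)⁻¹ + 1) * (n - T) = n + T * (n - 2 * T) * (n : ℝ)⁻¹ := by
        field_simp; ring
      rw [this]
      have : 0 ≤ T * (n - 2 * T) * (n : ℝ)⁻¹ := mul_nonneg (mul_nonneg hT0 (by linarith))
        (by positivity)
      linarith
    have e3 : ((n : ℝ) * (1 / ((n : ℝ) - T))) ^ (2 * (s - 5 * q)) ≤
        Real.exp (4 * s * T * (n : ℝ)⁻¹) := by
      refine (pow_le_pow_left₀ (by positivity) e2 _).trans ?_
      rw [← Real.exp_nat_mul, Real.exp_le_exp]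
      have : ((2 * (s - 5 * q) : ℕ) : ℝ) ≤ (2 * s : ℕ) := by exact_mod_cast (by omega)
      push_cast at this ⊢
      have h0 : 0 ≤ 2 * T * (n : ℝ)⁻¹ := by positivity
      nlinarith
    have e4 : (n : ℝ) ^ (10 * q) * (s : ℝ) ^ (5 * q) ≤ Real.exp (15 * q * L) := by
      calc _ ≤ Real.exp L ^ (10 * q) * Real.exp L ^ (5 * q) := by
            gcongr
            exact hsn'.trans hnL
        _ = _ := by rw [← pow_add, ← Real.exp_nat_mul]; congr 1; push_cast; ring
    calc _ = ((n : ℝ) ^ (10 * q) * (s : ℝ) ^ (5 * q)) *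
          ((n : ℝ) * (1 / ((n : ℝ) - T))) ^ (2 * (s - 5 * q)) := by rw [e1, hB, mul_pow]; ring
      _ ≤ _ := by rw [hE, Real.exp_add]; gcongr
  have h3 : 4 * (16 * (n * ((n : ℝ) ^ s * (B + 3 / 2 ^ (2 * s * L))))) * (n : ℝ) ^ s ≤
      Real.exp (8 + L + E) := by
    have e1 : (256 : ℝ) ≤ Real.exp 8 := by
      have := pow_le_pow_left₀ zero_le_two h2e 8
      rw [Real.exp_one_pow] at this
      norm_num at this ⊢; exact this
    have e2 := Real.one_le_exp hE0
    calc _ = 64 * n * (((n : ℝ) ^ s) ^ 2 * B + ((n : ℝ) ^ s) ^ 2 * (3 / 2 ^ (2 * s * L))) := by ring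
      _ ≤ 64 * n * (4 * Real.exp E) := by gcongr; linarith
      _ = 256 * n * Real.exp E := by ring
      _ ≤ _ := by rw [Real.exp_add _ E, Real.exp_add 8]; gcongr
  set A := 4 * (16 * (n * ((n : ℝ) ^ s * (B + 3 / 2 ^ (2 * s * L))))) with hA
  have hA0 : 0 < A := by positivity
  have h4 : Real.exp (8 + L + E) ^ 2 < Real.exp (ρ ^ 2 / (4 * s)) := by
    rw [← Real.exp_nat_mul, Real.exp_lt_exp, lt_div_iff₀ (by positivity)]
    push_cast; linarith
  rw [neg_div, Real.exp_neg, div_pow, one_pow, lt_div_iff₀ (by positivity), mul_assoc,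
    inv_mul_lt_iff₀ (Real.exp_pos _), mul_one, ← mul_pow, mul_comm]
  exact (pow_le_pow_left₀ (by positivity) h3 2).trans_lt h4

theorem near_trans (c a : ℝ) (hc : 0 < c) (hc' : c < 1 / 2) (h1 : c / 2 < a)
    (h2 : 2 * c - 1 / 2 < a) :
    WHP fun n ω => NearTrans ω ⌊(n : ℝ) ^ c⌋₊ ((n : ℝ) ^ a) (2 * n) := by
  obtain ⟨b, hb1, hb2⟩ := exists_between
    (show max 0 (3 * c - 1) < min (2 * a - c) c by
      simp only [max_lt_iff, lt_min_iff]; refine ⟨⟨?_, ?_⟩, ?_, ?_⟩ <;> linarith)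
  simp only [max_lt_iff, lt_min_iff] at hb1 hb2
  obtain ⟨γ, hγ, hγ1⟩ := exists_between
    (show 0 < min (b - (3 * c - 1)) (min ((1 - 2 * c) / 4) c) by
      simp only [lt_min_iff]; refine ⟨?_, ?_, ?_⟩ <;> linarith)
  simp only [lt_min_iff] at hγ1
  obtain ⟨hγ1, hγ2, hγ3⟩ := hγ1
  obtain ⟨t, ht⟩ := exists_nat_gt (c / (b - (3 * c - 1)))
  rw [div_lt_iff₀ (by linarith)] at ht
  set s : ℕ → ℕ := fun n => ⌊(n : ℝ) ^ c⌋₊ with hs
  set m : ℕ → ℕ := fun n => ⌊(n : ℝ) ^ γ⌋₊ with hm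
  set q : ℕ → ℕ := fun n => ⌊(n : ℝ) ^ b⌋₊ with hq
  set L : ℕ → ℕ := fun n => Nat.log 2 n + 1 with hL
  set d : ℕ → ℕ := fun n => 2 * s n * L n with hd
  have oL : Ord (fun n => (L n : ℝ)) 0 := by simpa [hL] using Ord.log
  have os : Ord (fun n => (s n : ℝ)) c := (Ord.rpow c).floor
  have om : Ord (fun n => (m n : ℝ)) γ := (Ord.rpow γ).floor
  have oq : Ord (fun n => (q n : ℝ)) b := (Ord.rpow b).floor
  have or : Ord (fun n => ((d n + d n : ℕ) : ℝ)) c := by
    have := (os.const_mul 2).mul oL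
    simpa [hd] using this.add this
  have or1 : Ord (fun n => ((d n + d n : ℕ) : ℝ) + 1) c := or.add ((Ord.const 1).mono hc.le)
  have oT : Ord (fun n => ((3 * s n * (d n + d n) : ℕ) : ℝ)) (c + c) := by
    simpa using (os.const_mul 3).mul or
  have E2 : ∀ᶠ n : ℕ in atTop, 2 * (3 * s n * (d n + d n)) + 1 ≤ n := by
    filter_upwards [((oT.const_mul 2).add ((Ord.const 1).mono (by linarith))).ev_le_id
      (by linarith)] with n hn
    exact_mod_cast hn
  have E1 : ∀ᶠ n : ℕ in atTop, 5 * q n ≤ s n := by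
    filter_upwards [(oq.const_mul 5).ev_le hb2.2] with n hn
    exact Nat.le_floor (by exact_mod_cast hn)
  let B : ℕ → ℝ := fun n => (s n : ℝ) ^ (5 * q n) *
    (1 / ((n : ℝ) - (3 * s n * (d n + d n) : ℕ))) ^ (2 * (s n - 5 * q n)) + 3 / 2 ^ d n
  have hcube : WHP fun n ω => ∑ a : Fin (s n) ↪ Fin n, ∑ b',
      gp ω (d n + d n) (Good ω (d n) (d n + d n) ((n : ℝ) ^ b)) a b' ^ 3 ≤
        n * ((n : ℝ) ^ s n * B n) := by
    refine WHP.of_le (Ord.inv.tendsto (by norm_num)) ?_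
    filter_upwards [E1, E2] with n e1 e2
    have hn : (0 : ℝ) < n := by exact_mod_cast (by omega)
    have hT : (((3 * s n * (d n + d n) : ℕ)) : ℝ) < n := by exact_mod_cast (by omega)
    have hB : 0 < B n := add_pos_of_nonneg_of_pos
      (mul_nonneg (by positivity) (pow_nonneg (div_nonneg zero_le_one (by linarith)) _))
      (by positivity)
    have h3 := av_markov (f := fun ω : Bool → Perm (Fin n) => ∑ a : Fin (s n) ↪ Fin n, ∑ b',
      gp ω (d n + d n) (Good ω (d n) (d n + d n) ((n : ℝ) ^ b)) a b' ^ 3)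
      (fun ω => sum_nonneg fun _ _ => sum_nonneg fun _ _ => pow_nonneg (gp_nonneg _ _ _ _ _) _)
      (c := n * ((n : ℝ) ^ s n * B n)) (by positivity)
    refine (av_mono fun ω => ind_mono fun h => (not_le.1 h).le).trans (h3.trans ?_)
    have h4 := cube_bound (α := Fin n) (s := s n) (r' := d n) (d := d n) (Q := (n : ℝ) ^ b) e1
      (by rw [Fintype.card_fin]; omega)
    have h5 : (Fintype.card (Fin (s n) ↪ Fin n) : ℝ) ≤ (n : ℝ) ^ s n := by
      have : Fintype.card (Fin (s n) ↪ Fin n) ≤ n ^ s n := by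
        simpa using Nat.descFactorial_le_pow _ _
      exact_mod_cast this
    rw [div_le_iff₀ (by positivity), ← mul_assoc, inv_mul_cancel₀ hn.ne', one_mul]
    refine h4.trans (le_trans (le_of_eq ?_) (mul_le_mul_of_nonneg_right h5 hB.le))
    simp only [B, Fintype.card_fin, hq]
    push_cast; rfl
  have z1 : Tendsto (fun n : ℕ => (((d n + d n : ℕ) : ℝ) + 1) * (2 * (8 * (s n * (s n *
      ((d n + d n : ℕ) : ℝ)) * ((n : ℝ)⁻¹ * (n : ℝ) ^ (-b)))) ^ t + 2 * (n : ℝ) ^ (-b) *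
      (2 * m n * s n ^ 2 * (n : ℝ)⁻¹ + 2 * s n * (n : ℝ) ^ (4 * γ) * (n : ℝ)⁻¹))) atTop (𝓝 0) := by
    have y1 := (or1.mul (((((os.mul (os.mul or)).mul (Ord.inv.mul (Ord.rpow (-b)))).const_mul
      8).pow t).const_mul 2)).tendsto (by nlinarith)
    have y2 := (or1.mul (((Ord.rpow (-b)).const_mul 2).mul (((om.const_mul 2).mul
      (os.pow 2)).mul Ord.inv))).tendsto (by push_cast; linarith)
    have y3 := (or1.mul (((Ord.rpow (-b)).const_mul 2).mul (((os.const_mul 2).mul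
      (Ord.rpow (4 * γ))).mul Ord.inv))).tendsto (by linarith)
    have := y1.add (y2.add y3)
    simp only [add_zero, ← mul_add] at this
    exact this
  have z2 : Ord (fun n => (8 + (L n : ℝ) + (15 * q n * L n +
      4 * s n * (3 * s n * (d n + d n) : ℕ) * (n : ℝ)⁻¹)) * (8 * s n) + 1) (b + c) :=
    (((((Ord.const 8).add oL).mono hb1.1.le).add ((((oq.const_mul 15).mul oL).mono (by simp)).add
      ((((os.const_mul 4).mul oT).mul Ord.inv).mono (by linarith)))).mul (os.const_mul 8)).add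
      ((Ord.const 1).mono (by linarith))
  have z3 : Ord (fun n => ((s n * L n * (d n + d n) : ℕ) : ℝ)) (c + c) := by
    simpa using (os.mul oL).mul or
  refine (((mix 1 γ hγ).and ((mix 2 γ hγ).and (mix t γ hγ))).and
    ((fixs_whp γ (4 * γ) hγ (by linarith) (by linarith)).and hcube)).mono ?_
  filter_upwards [E1, E2, z1.eventually_le_const (show (0 : ℝ) < 1 / 4 by norm_num),
    z2.ev_le (show b + c < 2 * a by linarith), z3.ev_le_id (by linarith),
    ev_const_le (4 * t + 1) hb1.1, eventually_ge_atTop (2 * t + 3), os.ev_le_id (by linarith)]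
    with n e1 e2 e5 e8 e7 e4 e3 e9 ω ⟨⟨m1, m2, mt⟩, hf, hcu⟩
  have hn : (1 : ℝ) ≤ n := by exact_mod_cast (by omega)
  have hn0 : (0 : ℝ) < n := by linarith
  have hlt : n < 2 ^ L n := Nat.lt_pow_succ_log_self one_lt_two n
  have hm1 : 1 ≤ m n := Nat.le_floor (by simpa using Real.one_le_rpow hn hγ.le)
  have hms : m n ≤ s n := Nat.floor_le_floor (Real.rpow_le_rpow_of_exponent_le hn hγ3.le)
  have hL1 : 1 ≤ L n := Nat.le_add_left _ _
  have hT : (((3 * s n * (d n + d n) : ℕ)) : ℝ) < n := by exact_mod_cast (by omega)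
  have hB : 0 < B n := add_pos_of_nonneg_of_pos
    (mul_nonneg (by positivity) (pow_nonneg (div_nonneg zero_le_one (by linarith)) _))
    (by positivity)
  have ht0 : (0 : ℝ) ≤ t := Nat.cast_nonneg _
  have ht1 : 2 * (t : ℝ) + 3 ≤ n := by exact_mod_cast e3
  have key := near_det ω (s := s n) (r := d n + d n) (k := s n * L n) (Good ω (d n) (d n + d n) ((n : ℝ) ^ b))
    (θ := 16 * (n * ((n : ℝ) ^ s n * B n))) (ρ := (n : ℝ) ^ a) (by positivity) (by positivity)
    (fun a' => by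
      have := bad_prob (r := d n + d n) (r' := d n) (q := (n : ℝ) ^ b) m1 m2 mt hf hm1
        (by simp only [hd]; nlinarith) (by linarith) (by rw [Fintype.card_fin]; omega)
        (by rw [Fintype.card_fin]; omega) a'
      rw [Fintype.card_fin] at this
      refine le_trans (Ex_mono _ fun u _ => ind_mono fun h => by
        simpa only [Good, not_forall, not_le, exists_prop] using h)
        (this.trans (le_trans ?_ e5))
      have hq0 : 0 < (n : ℝ) ^ b := by positivity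
      rw [Real.rpow_neg hn0.le]
      simp only [← div_eq_mul_inv]
      gcongr
      · exact div_nonneg (by positivity) (mul_nonneg (by linarith) (by linarith))
      · rw [div_le_iff₀ (mul_pos (by linarith) (by linarith))]
        have e : (n : ℝ) * (n : ℝ) ^ b ≤ 8 * (((n : ℝ) - t) * ((n : ℝ) ^ b / 2 - t)) := by
          have := mul_le_mul (show (n : ℝ) / 2 ≤ n - t by linarith)
            (show (n : ℝ) ^ b / 4 ≤ (n : ℝ) ^ b / 2 - t by linarith) (by positivity) (by linarith)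
          linarith
        calc _ = (s n * (s n * ((d n + d n : ℕ) : ℝ))) * ((n : ℝ)⁻¹ / (n : ℝ) ^ b) *
              (n * (n : ℝ) ^ b) := by field_simp
          _ ≤ (s n * (s n * ((d n + d n : ℕ) : ℝ))) * ((n : ℝ)⁻¹ / (n : ℝ) ^ b) *
              (8 * (((n : ℝ) - t) * ((n : ℝ) ^ b / 2 - t))) := by gcongr
          _ = _ := by ring)
    (by linarith) (by
      rw [Fintype.card_fin, show 4 = 2 * 2 from rfl, mul_pow, mul_comm (s n), pow_mul]
      have h3 := Nat.pow_le_pow_left hlt.le (s n)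
      have h4 : 1 < (2 ^ L n) ^ s n := Nat.one_lt_pow (by omega) (by omega)
      nlinarith) (by
      rw [Fintype.card_fin]
      refine exp_side hlt (by omega) (by exact_mod_cast e9) e1 (by omega) (e8.trans (le_of_eq ?_))
      rw [mul_comm, Real.rpow_mul hn0.le, Real.rpow_two])
  intro x y
  obtain ⟨h, h3, h4⟩ := key x y
  exact ⟨h, h3.mono (by linarith), h4⟩

end Pool.Agent.Lib.MP_8a89f5_al
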