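import Pool.Agent.Lib.MP_8a89f5_al.Defs

/-!
Shrinking the support of a short word by commutators with random conjugates.
-/

namespace Pool.Agent.Lib.MP_8a89f5_al

open Finset Equiv

variable {α : Type*} [Fintype α] [DecidableEq α] {ω : Bool → Perm α}

theorem ind_mem_eq_sum {β : Type*} (S : Finset β) (x : β) :
    ind (x ∈ S) = ∑ y ∈ S, ind (x = y) := by
  classical
  by_cases h : x ∈ S
  · rw [ind_pos h, sum_eq_single_of_mem x h, ind_pos rfl]
    intro y _ hy
    exact ind_neg (Ne.symm hy)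
  · rw [ind_neg h]
    exact (sum_eq_zero fun y hy => ind_neg fun e : x = y => h (e ▸ hy)).symm

omit [DecidableEq α] in
theorem mix_one {m : ℕ} (h1 : Mix ω 1 m) (a : α) (B : Finset α) :
    9 / 10 * (B.card : ℝ) ≤ Fintype.card α * Ex m (fun l => ind (ev ω l a ∈ B)) ∧
      Fintype.card α * Ex m (fun l => ind (ev ω l a ∈ B)) ≤ 11 / 10 * (B.card : ℝ) := by
  have key : ∀ b : α, 9 / 10 ≤ (Fintype.card α : ℝ) * Ex m (fun l => ind (ev ω l a = b)) ∧
      (Fintype.card α : ℝ) * Ex m (fun l => ind (ev ω l a = b)) ≤ 11 / 10 := by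
    intro b
    have := h1 m le_rfl ⟨fun _ => a, fun _ _ _ => Subsingleton.elim _ _⟩
      ⟨fun _ => b, fun _ _ _ => Subsingleton.elim _ _⟩
    simp only [Nat.descFactorial_one, Function.Embedding.coeFn_mk, forall_const] at this
    rw [abs_le] at this
    constructor <;> linarith [this.1, this.2]
  simp only [ind_mem_eq_sum B]
  rw [Ex_sum, mul_sum]
  constructor
  · have := sum_le_sum (s := B) fun b _ => (key b).1
    rw [sum_const, nsmul_eq_mul] at this
    linarith
  · have := sum_le_sum (s := B) fun b _ => (key b).2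
    rw [sum_const, nsmul_eq_mul] at this
    linarith

omit [DecidableEq α] in
theorem mix_two {m : ℕ} (h2 : Mix ω 2 m) {a a' : α} (ha : a ≠ a') (S : Finset (α × α))
    (hS : ∀ p ∈ S, p.1 ≠ p.2) :
    9 / 10 * (S.card : ℝ) ≤ Fintype.card α * ((Fintype.card α : ℝ) - 1) *
        Ex m (fun l => ind ((ev ω l a, ev ω l a') ∈ S)) ∧
      Fintype.card α * ((Fintype.card α : ℝ) - 1) *
        Ex m (fun l => ind ((ev ω l a, ev ω l a') ∈ S)) ≤ 11 / 10 * (S.card : ℝ) := by
  have inj : ∀ {x y : α}, x ≠ y → Function.Injective ![x, y] := by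
    intro x y hxy i j hij
    fin_cases i <;> fin_cases j <;> simp_all [eq_comm]
  have hn : 1 ≤ Fintype.card α := Fintype.card_pos_iff.2 ⟨a⟩
  have hd : (((Fintype.card α).descFactorial 2 : ℕ) : ℝ) =
      Fintype.card α * ((Fintype.card α : ℝ) - 1) := by
    rw [Nat.descFactorial_succ, Nat.descFactorial_one, Nat.cast_mul, Nat.cast_sub hn]
    push_cast; ring
  have key : ∀ p ∈ S, 9 / 10 ≤ Fintype.card α * ((Fintype.card α : ℝ) - 1) *
        Ex m (fun l => ind ((ev ω l a, ev ω l a') = p)) ∧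
      Fintype.card α * ((Fintype.card α : ℝ) - 1) *
        Ex m (fun l => ind ((ev ω l a, ev ω l a') = p)) ≤ 11 / 10 := by
    rintro ⟨b, b'⟩ hp
    have := h2 m le_rfl ⟨![a, a'], inj ha⟩ ⟨![b, b'], inj (hS _ hp)⟩
    simp only [hd, Function.Embedding.coeFn_mk, Fin.forall_fin_two, Matrix.cons_val_zero,
      Matrix.cons_val_one] at this
    rw [abs_le] at this
    simp only [Prod.mk.injEq]
    constructor <;> linarith [this.1, this.2]
  simp only [ind_mem_eq_sum S]
  rw [Ex_sum, mul_sum]
  constructor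
  · have := sum_le_sum (s := S) fun b hb => (key b hb).1
    rw [sum_const, nsmul_eq_mul] at this
    linarith
  · have := sum_le_sum (s := S) fun b hb => (key b hb).2
    rw [sum_const, nsmul_eq_mul] at this
    linarith

/-- The number of points of `A` sent into `B`. -/
def cntU (A B : Finset α) (h : Perm α) : ℕ := (A.filter fun v => h v ∈ B).card

/-- The number of points of the support of `f` sent into `B` whose image under `f` is not. -/
def cntZ (f : Perm α) (B : Finset α) (h : Perm α) : ℕ :=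
  (f.support.filter fun v => h v ∈ B ∧ h (f v) ∉ B).card

omit [Fintype α] in
theorem cntU_eq (A B : Finset α) (h : Perm α) :
    (cntU A B h : ℝ) = ∑ v ∈ A, ind (h v ∈ B) := (sum_ind_eq_card _ _).symm

omit [Fintype α] in
theorem cntU_sq (A B : Finset α) (h : Perm α) :
    (cntU A B h : ℝ) ^ 2 - cntU A B h =
      ∑ p ∈ A.offDiag, ind ((h p.1, h p.2) ∈ B.offDiag) := by
  rw [sum_ind_eq_card]
  have : (A.offDiag.filter fun p => (h p.1, h p.2) ∈ B.offDiag) =
      (A.filter fun v => h v ∈ B).offDiag := by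
    ext ⟨x, y⟩
    simp only [mem_filter, mem_offDiag, ne_eq, EmbeddingLike.apply_eq_iff_eq]
    tauto
  rw [this, offDiag_card, Nat.cast_sub (Nat.le_mul_self _)]
  simp [cntU, sq]

theorem cntZ_eq (f : Perm α) (B : Finset α) (h : Perm α) :
    (cntZ f B h : ℝ) = ∑ v ∈ f.support, ind ((h v, h (f v)) ∈ B ×ˢ Bᶜ) := by
  rw [sum_ind_eq_card]
  simp [cntZ]

theorem cntZ_le (f : Perm α) (B : Finset α) (h : Perm α) : cntZ f B h ≤ cntU f.support B h :=
  card_le_card fun v hv => by
    simp only [mem_filter] at hv ⊢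
    exact ⟨hv.1, hv.2.1⟩

theorem Ex_cntU {m : ℕ} (h1 : Mix ω 1 m) (A B : Finset α) :
    9 / 10 * (A.card * B.card : ℝ) ≤ Fintype.card α * Ex m (fun l => cntU A B (ev ω l)) ∧
      Fintype.card α * Ex m (fun l => cntU A B (ev ω l)) ≤ 11 / 10 * (A.card * B.card : ℝ) := by
  simp only [cntU_eq]
  rw [Ex_sum, mul_sum]
  constructor
  · have := sum_le_sum (s := A) fun a _ => (mix_one h1 a B).1
    rw [sum_const, nsmul_eq_mul] at this
    linarith
  · have := sum_le_sum (s := A) fun a _ => (mix_one h1 a B).2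
    rw [sum_const, nsmul_eq_mul] at this
    linarith

theorem Ex_cntU_sq {m : ℕ} (h2 : Mix ω 2 m) (A B : Finset α) :
    Fintype.card α * ((Fintype.card α : ℝ) - 1) *
        Ex m (fun l => (cntU A B (ev ω l) : ℝ) ^ 2 - cntU A B (ev ω l)) ≤
      11 / 10 * ((A.card * (A.card - 1) : ℝ) * (B.card * (B.card - 1))) := by
  simp only [cntU_sq]
  rw [Ex_sum, mul_sum]
  have := sum_le_sum (s := A.offDiag) fun p hp =>
    (mix_two h2 (mem_offDiag.1 hp).2.2 B.offDiag fun q hq => (mem_offDiag.1 hq).2.2).2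
  rw [sum_const, nsmul_eq_mul, offDiag_card, offDiag_card, Nat.cast_sub (Nat.le_mul_self _),
    Nat.cast_sub (Nat.le_mul_self _)] at this
  push_cast at this
  linarith

theorem Ex_cntZ {m : ℕ} (h2 : Mix ω 2 m) (f : Perm α) (B : Finset α) :
    9 / 10 * ((f.support.card : ℝ) * (B.card * (Fintype.card α - B.card))) ≤
      Fintype.card α * ((Fintype.card α : ℝ) - 1) * Ex m (fun l => cntZ f B (ev ω l)) := by
  simp only [cntZ_eq]
  rw [Ex_sum, mul_sum]
  have := sum_le_sum (s := f.support) fun v hv =>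
    (mix_two h2 (Perm.mem_support.1 hv).symm (B ×ˢ Bᶜ) fun q hq e => by
      rw [mem_product, mem_compl, ← e] at hq
      exact hq.2 hq.1).1
  rw [sum_const, nsmul_eq_mul, card_product, card_compl, Nat.cast_mul,
    Nat.cast_sub (card_le_univ _)] at this
  linarith

theorem mem_support_conj' (g h : Perm α) (v : α) :
    v ∈ (h⁻¹ * g * h).support ↔ h v ∈ g.support := by
  simp only [Perm.mem_support, Perm.mul_apply, ne_eq, Perm.inv_eq_iff_eq]

theorem comm_support_le (f g h : Perm α) :
    (f * (h⁻¹ * g * h) * f⁻¹ * (h⁻¹ * g * h)⁻¹).support.card ≤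
      3 * cntU f.support g.support h := by
  set k := h⁻¹ * g * h with hk
  set D := f.support.filter fun v => h v ∈ g.support with hD
  have hDm : ∀ v, v ∈ D ↔ f v ≠ v ∧ k v ≠ v := by
    intro v
    rw [hD, mem_filter, ← mem_support_conj', Perm.mem_support, Perm.mem_support]
  have hsub : (f * k * f⁻¹ * k⁻¹).support ⊆ D ∪ D.image f ∪ D.image k := by
    intro x hx
    by_contra hne
    simp only [mem_union, not_or, mem_image, not_exists, not_and] at hne
    obtain ⟨⟨n1, n2⟩, n3⟩ := hne
    have m2 : ¬(f x ≠ x ∧ k (f⁻¹ x) ≠ f⁻¹ x) := fun e =>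
      n2 (f⁻¹ x) ((hDm _).2 ⟨fun e' => e.1 (by
        have := congrArg f e'
        simpa using this), e.2⟩) (by simp)
    have m3 : ¬(f (k⁻¹ x) ≠ k⁻¹ x ∧ k x ≠ x) := fun e =>
      n3 (k⁻¹ x) ((hDm _).2 ⟨e.1, fun e' => e.2 (by
        have := congrArg k e'
        simpa using this)⟩) (by simp)
    rw [hDm] at n1
    apply Perm.mem_support.1 hx
    simp only [Perm.mul_apply]
    by_cases e1 : f x = x
    · have e3 : f (k⁻¹ x) = k⁻¹ x := by
        by_cases e2 : k x = x
        · rw [Perm.inv_eq_iff_eq.2 e2.symm, e1]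
        · by_contra e; exact m3 ⟨e, e2⟩
      rw [Perm.inv_eq_iff_eq.2 e3.symm]
      simp [e1]
    · have e2 : k x = x := by by_contra e; exact n1 ⟨e1, e⟩
      have e3 : k (f⁻¹ x) = f⁻¹ x := by by_contra e; exact m2 ⟨e1, e⟩
      rw [Perm.inv_eq_iff_eq.2 e2.symm, e3]
      simp
  have h1 := card_le_card hsub
  have h2 := card_union_le (D ∪ D.image f) (D.image k)
  have h3 := card_union_le D (D.image f)
  have h4 := card_image_le (s := D) (f := f)
  have h5 := card_image_le (s := D) (f := k)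
  change _ ≤ 3 * D.card
  omega

theorem le_comm_support (f g h : Perm α) :
    cntZ f g.support h ≤ (f * (h⁻¹ * g * h) * f⁻¹ * (h⁻¹ * g * h)⁻¹).support.card := by
  set k := h⁻¹ * g * h with hk
  refine card_le_card_of_injOn f (fun v hv => ?_) f.injective.injOn
  rw [coe_filter] at hv
  obtain ⟨-, h1, h2⟩ := hv
  rw [← mem_support_conj', ← hk] at h1 h2
  rw [Perm.notMem_support] at h2
  rw [mem_coe, Perm.mem_support]
  simp only [Perm.mul_apply]
  rw [Perm.inv_eq_iff_eq.2 h2.symm]
  simpa using Perm.mem_support.1 h1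

omit [Fintype α] [DecidableEq α] in
theorem comm_len {f g : Perm α} {L L' : ℝ} (hf : Len ω f L') (hg : Len ω g L) (l : List Bool) :
    Len ω (f * ((ev ω l)⁻¹ * g * ev ω l) * f⁻¹ * ((ev ω l)⁻¹ * g * ev ω l)⁻¹)
      (2 * L' + 2 * L + 4 * l.length) := by
  have hk := ((Len.ev (ω := ω) l).inv.mul hg).mul (Len.ev l)
  exact (((hf.mul hk).mul hf.inv).mul hk.inv).mono (by linarith)

theorem shrink_step {m : ℕ} (h1 : Mix ω 1 m) (h2 : Mix ω 2 m) {f g : Perm α} {L L' : ℝ}
    (hf : Len ω f L') (hg : Len ω g L) (hn : 0 < Fintype.card α)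
    (hβ : 30 * (g.support.card : ℝ) ≤ Fintype.card α)
    (hμ : (Fintype.card α : ℝ) ≤ f.support.card * g.support.card) :
    ∃ f', Len ω f' (2 * L' + 2 * L + 4 * m) ∧
      (f.support.card : ℝ) * g.support.card / (2 * Fintype.card α) ≤ f'.support.card ∧
      (f'.support.card : ℝ) ≤ 30 * (f.support.card * g.support.card / Fintype.card α) := by
  have e1 := (Ex_cntU h1 f.support g.support).2
  have e2 := Ex_cntU_sq h2 f.support g.support
  have e3 := Ex_cntZ h2 f g.support
  have han : (f.support.card : ℝ) ≤ Fintype.card α := by exact_mod_cast card_le_univ _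
  have hn' : (0 : ℝ) < Fintype.card α := by exact_mod_cast hn
  have ha1 : (1 : ℝ) ≤ f.support.card := by
    rcases Nat.eq_zero_or_pos f.support.card with h | h
    · rw [h] at hμ; simp only [Nat.cast_zero, zero_mul] at hμ; linarith
    · exact_mod_cast h
  have hb1 : (1 : ℝ) ≤ g.support.card := by
    rcases Nat.eq_zero_or_pos g.support.card with h | h
    · rw [h] at hμ; simp only [Nat.cast_zero, mul_zero] at hμ; linarith
    · exact_mod_cast h
  set n : ℝ := (Fintype.card α : ℝ)
  set a : ℝ := (f.support.card : ℝ)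
  set b : ℝ := (g.support.card : ℝ)
  obtain ⟨μ, hμe⟩ : ∃ μ, μ = a * b / n := ⟨_, rfl⟩
  have hab : a * b = μ * n := by rw [hμe]; field_simp
  have hμ1 : 1 ≤ μ := by rw [hμe, le_div_iff₀ hn']; linarith
  have hn1 : 0 < n - 1 := by linarith
  rw [Ex_sub] at e2
  set EU := Ex m (fun l => (cntU f.support g.support (ev ω l) : ℝ))
  set EU2 := Ex m (fun l => (cntU f.support g.support (ev ω l) : ℝ) ^ 2) with hEU2
  set EZ := Ex m (fun l => (cntZ f g.support (ev ω l) : ℝ)) with hEZ
  have b1 : EU ≤ 11 / 10 * μ := by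
    rw [hab] at e1
    exact le_of_mul_le_mul_left (by linarith) hn'
  have b2 : EU2 - EU ≤ 11 / 10 * μ ^ 2 := by
    have t1 : (a - 1) * (b - 1) ≤ μ * (n - 1) := by
      have t2 : a * b ≤ n * (a + b - 1) := mul_le_mul han (by linarith) (by linarith) hn'.le
      refine le_of_mul_le_mul_left ?_ hn'
      have : n * (μ * (n - 1)) = a * b * (n - 1) := by rw [hab]; ring
      rw [this]; nlinarith
    have t3 : a * (a - 1) * (b * (b - 1)) ≤ μ * n * (μ * (n - 1)) := by
      rw [show a * (a - 1) * (b * (b - 1)) = a * b * ((a - 1) * (b - 1)) by ring, hab]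
      exact mul_le_mul_of_nonneg_left t1 (by positivity)
    exact le_of_mul_le_mul_left (a := n * (n - 1)) (by linarith) (by positivity)
  have b3 : 87 / 100 * μ ≤ EZ := by
    have t1 : μ * n * (29 / 30 * (n - 1)) ≤ a * (b * (n - b)) := by
      rw [← mul_assoc a, hab]
      exact mul_le_mul_of_nonneg_left (by linarith) (by positivity)
    exact le_of_mul_le_mul_left (a := n * (n - 1)) (by linarith) (by positivity)
  obtain ⟨l, hl, hle⟩ := Ex_exists_le m (fun l => 10 * μ * (cntZ f g.support (ev ω l) : ℝ) -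
    (cntU f.support g.support (ev ω l) : ℝ) ^ 2)
  rw [Ex_sub, Ex_mul_left, ← hEU2, ← hEZ] at hle
  have c1 : (cntZ f g.support (ev ω l) : ℝ) ≤ cntU f.support g.support (ev ω l) := by
    exact_mod_cast cntZ_le _ _ _
  have c2 : ((f * ((ev ω l)⁻¹ * g * ev ω l) * f⁻¹ * ((ev ω l)⁻¹ * g * ev ω l)⁻¹).support.card : ℝ)
      ≤ 3 * cntU f.support g.support (ev ω l) := by exact_mod_cast comm_support_le _ _ _
  have c3 : (cntZ f g.support (ev ω l) : ℝ) ≤
      (f * ((ev ω l)⁻¹ * g * ev ω l) * f⁻¹ * ((ev ω l)⁻¹ * g * ev ω l)⁻¹).support.card := by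
    exact_mod_cast le_comm_support _ _ _
  have c4 := comm_len hf hg l
  rw [hl] at c4
  set U : ℝ := (cntU f.support g.support (ev ω l) : ℝ)
  set Z : ℝ := (cntZ f g.support (ev ω l) : ℝ)
  have d1 : 5 * μ ^ 2 ≤ 10 * μ * Z - U ^ 2 := by nlinarith
  have d2 : μ / 2 ≤ Z := by
    refine le_of_mul_le_mul_left (a := 10 * μ) ?_ (by positivity)
    nlinarith [sq_nonneg U]
  have d3 : U ≤ 10 * μ := by
    by_contra hc
    push Not at hc
    nlinarith
  refine ⟨_, c4, ?_, ?_⟩
  · rw [mul_comm 2 n, ← div_div, ← hμe]; linarith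
  · rw [← hμe]; linarith

theorem shrink {m : ℕ} (h1 : Mix ω 1 m) (h2 : Mix ω 2 m) {g : Perm α} {L : ℝ} (hg : Len ω g L)
    {η s : ℝ} {T : ℕ} (hη : 0 < η) (hη1 : η ≤ 1)
    (hβ : 30 * (g.support.card : ℝ) ≤ η * Fintype.card α)
    (hs : (Fintype.card α : ℝ) ≤ s * g.support.card) (hsn : s ≤ Fintype.card α)
    (hT : η ^ T * Fintype.card α ≤ s) :
    ∃ f, Len ω f (2 ^ T * (3 * L + 4 * m)) ∧
      s * g.support.card / (2 * Fintype.card α) ≤ f.support.card ∧
        (f.support.card : ℝ) ≤ s := by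
  have hL := hg.nonneg
  have hn0 : (0 : ℝ) ≤ Fintype.card α := Nat.cast_nonneg _
  have hb0 : (0 : ℝ) ≤ g.support.card := Nat.cast_nonneg _
  have hm0 : (0 : ℝ) ≤ m := Nat.cast_nonneg _
  have hs0 : 0 ≤ s := le_trans (by positivity) hT
  have key : ∀ i : ℕ, ∃ f, Len ω f (2 ^ i * (3 * L + 4 * m) - (2 * L + 4 * m)) ∧
      s * g.support.card / (2 * Fintype.card α) ≤ f.support.card ∧
        ((f.support.card : ℝ) ≤ s ∨ (f.support.card : ℝ) ≤ η ^ i * Fintype.card α) := by
    intro i
    induction i with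
    | zero =>
      refine ⟨g, hg.mono (by simp; linarith), ?_, Or.inr ?_⟩
      · refine div_le_of_le_mul₀ (by positivity) hb0 ?_
        nlinarith
      · simpa using card_le_univ g.support
    | succ i ih =>
      obtain ⟨f, f1, f2, f3⟩ := ih
      by_cases hfs : (f.support.card : ℝ) ≤ s
      · refine ⟨f, f1.mono ?_, f2, Or.inl hfs⟩
        have : (0 : ℝ) ≤ 2 ^ i * (3 * L + 4 * m) := by positivity
        rw [pow_succ]; linarith
      · have f4 := f3.resolve_left hfs
        push Not at hfs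
        have hn : 0 < Fintype.card α := by
          have t1 : 0 < f.support.card := by exact_mod_cast hs0.trans_lt hfs
          exact t1.trans_le (card_le_univ _)
        have hn' : (0 : ℝ) < Fintype.card α := by exact_mod_cast hn
        have hsb : s * g.support.card ≤ f.support.card * g.support.card :=
          mul_le_mul_of_nonneg_right hfs.le hb0
        obtain ⟨f', g1, g2, g3⟩ := shrink_step h1 h2 f1 hg hn (by nlinarith) (hs.trans hsb)
        refine ⟨f', g1.mono (by rw [pow_succ]; linarith),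
          le_trans (div_le_div_of_nonneg_right hsb (by positivity)) g2, Or.inr (g3.trans ?_)⟩
        have t1 : 30 * ((f.support.card : ℝ) * g.support.card / Fintype.card α) ≤
            f.support.card * η := by
          rw [← mul_div_assoc, div_le_iff₀ hn']
          nlinarith [mul_le_mul_of_nonneg_left hβ (Nat.cast_nonneg (α := ℝ) f.support.card)]
        refine t1.trans ?_
        rw [pow_succ]
        nlinarith [mul_le_mul_of_nonneg_right f4 hη.le]
  obtain ⟨f, f1, f2, f3⟩ := key T
  exact ⟨f, f1.mono (by linarith), f2, f3.elim id fun h => h.trans hT⟩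

theorem three_cycle {m : ℕ} (h1 : Mix ω 1 m) (h2 : Mix ω 2 m) {f : Perm α} {L : ℝ}
    (hf : Len ω f L) (hf1 : f ≠ 1) (hs : 2 * f.support.card ^ 2 ≤ Fintype.card α) :
    ∃ σ, σ ≠ 1 ∧ σ.support.card ≤ 3 ∧ Len ω σ (4 * L + 4 * m) := by
  have e1 := (Ex_cntU h1 f.support f.support).1
  have e2 := Ex_cntU_sq h2 f.support f.support
  have ha2 : (2 : ℝ) ≤ f.support.card := by exact_mod_cast Perm.two_le_card_support_of_ne_one hf1
  have hs' : 2 * (f.support.card : ℝ) ^ 2 ≤ Fintype.card α := by exact_mod_cast hs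
  have hpos : 0 < Ex m (fun l => (cntU f.support f.support (ev ω l) : ℝ) -
      ((cntU f.support f.support (ev ω l) : ℝ) ^ 2 - cntU f.support f.support (ev ω l))) := by
    rw [Ex_sub]
    set n : ℝ := (Fintype.card α : ℝ)
    set a : ℝ := (f.support.card : ℝ)
    set E1 := Ex m (fun l => (cntU f.support f.support (ev ω l) : ℝ))
    set E2 := Ex m (fun l => (cntU f.support f.support (ev ω l) : ℝ) ^ 2 -
      cntU f.support f.support (ev ω l))
    have hn1 : 0 < n - 1 := by nlinarith
    have hn : 0 < n := by linarith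
    have t1 : 9 / 10 * (a * a) * (n - 1) ≤ n * E1 * (n - 1) :=
      mul_le_mul_of_nonneg_right e1 hn1.le
    have t2 : 11 / 10 * ((a - 1) * (a - 1)) < 9 / 10 * (n - 1) := by nlinarith
    have t3 : a * a * (11 / 10 * ((a - 1) * (a - 1))) < a * a * (9 / 10 * (n - 1)) :=
      mul_lt_mul_of_pos_left t2 (by positivity)
    have t4 : n * (n - 1) * 0 < n * (n - 1) * (E1 - E2) := by nlinarith
    exact lt_of_mul_lt_mul_left t4 (by positivity)
  obtain ⟨l, hl, hlt⟩ := Ex_exists hpos
  have hU : cntU f.support f.support (ev ω l) = 1 := by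
    have t1 : (0 : ℤ) < cntU f.support f.support (ev ω l) -
        ((cntU f.support f.support (ev ω l) : ℤ) ^ 2 - cntU f.support f.support (ev ω l)) := by
      exact_mod_cast hlt
    generalize cntU f.support f.support (ev ω l) = U at t1
    rcases U with _ | _ | U
    · simp at t1
    · rfl
    · push_cast at t1; nlinarith
  have c2 := comm_support_le f f (ev ω l)
  have c3 := le_comm_support f f (ev ω l)
  have c4 := comm_len hf hf l
  rw [hl] at c4
  refine ⟨_, ?_, by omega, c4.mono (by linarith)⟩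
  obtain ⟨v, hv⟩ := card_eq_one.1 hU
  have hv1 : v ∈ f.support.filter fun v => ev ω l v ∈ f.support := by
    rw [hv]; exact mem_singleton_self v
  rw [mem_filter] at hv1
  have hZ : 0 < cntZ f f.support (ev ω l) := by
    refine card_pos.2 ⟨v, mem_filter.2 ⟨hv1.1, hv1.2, fun e => ?_⟩⟩
    have : f v ∈ f.support.filter fun v => ev ω l v ∈ f.support :=
      mem_filter.2 ⟨Perm.apply_mem_support.2 hv1.1, e⟩
    rw [hv, mem_singleton] at this
    exact Perm.mem_support.1 hv1.1 this
  intro e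
  rw [e, Perm.support_one, card_empty] at c3
  omega

end Pool.Agent.Lib.MP_8a89f5_al
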