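import Pool.Agent.Lib.MP_8a89f5_al.H90Asm
import Pool.Agent.Lib.MP_8a89f5_al.LongCycle
import Pool.Agent.Lib.MP_8a89f5_al.Gen
import Pool.Agent.Lib.MP_8a89f5_al.Shrink
import Pool.Agent.Lib.MP_8a89f5_al.Near

/-!
All pieces of the diameter bound are available.
-/

namespace Pool.Agent.Lib.MP_8a89f5_al

theorem boxes : Boxes where
  long_cycle := long_cycle
  gen_bound := gen_bound
  trans_of_near := trans_of_near
  conj_of_trans := conj_of_trans
  trans_of_mix := trans_of_mix
  shrink := fun h1 h2 _ _ hg => shrink h1 h2 hg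
  three_cycle := fun h1 h2 _ _ hf => three_cycle h1 h2 hf
  mix := mix
  near_trans := near_trans

end Pool.Agent.Lib.MP_8a89f5_al
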