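import Mathlib

/-!
Finite averages, indicators, averages over random words and word length.
-/

namespace Pool.Agent.Lib.MP_8a89f5_al

open Finset

open Classical in
/-- Indicator of a proposition. -/
noncomputable def ind (P : Prop) : ℝ := if P then 1 else 0

theorem ind_pos {P : Prop} (h : P) : ind P = 1 := by simp [ind, h]
theorem ind_neg {P : Prop} (h : ¬P) : ind P = 0 := by simp [ind, h]
theorem ind_nonneg (P : Prop) : 0 ≤ ind P := by unfold ind; split_ifs <;> norm_num
theorem ind_le_one (P : Prop) : ind P ≤ 1 := by unfold ind; split_ifs <;> norm_num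
theorem ind_mono {P Q : Prop} (h : P → Q) : ind P ≤ ind Q := by
  by_cases hp : P
  · rw [ind_pos hp, ind_pos (h hp)]
  · rw [ind_neg hp]; exact ind_nonneg _
theorem ind_congr {P Q : Prop} (h : P ↔ Q) : ind P = ind Q := by rw [propext h]
theorem ind_and (P Q : Prop) : ind (P ∧ Q) = ind P * ind Q := by
  by_cases hp : P <;> by_cases hq : Q <;> simp [ind, hp, hq]
theorem ind_not (P : Prop) : ind (¬P) = 1 - ind P := by
  by_cases hp : P <;> simp [ind, hp]
theorem ind_or_le (P Q : Prop) : ind (P ∨ Q) ≤ ind P + ind Q := by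
  by_cases hp : P <;> by_cases hq : Q <;> simp [ind, hp, hq]
theorem ind_mul_self (P : Prop) : ind P * ind P = ind P := by
  by_cases hp : P <;> simp [ind, hp]
theorem ind_le_of {P : Prop} {c : ℝ} (h0 : 0 ≤ c) (h : P → 1 ≤ c) : ind P ≤ c := by
  by_cases hp : P
  · rw [ind_pos hp]; exact h hp
  · rw [ind_neg hp]; exact h0
theorem ind_le_sum {ι : Type*} {P : Prop} (S : Finset ι) (Q : ι → Prop)
    (h : P → ∃ i ∈ S, Q i) : ind P ≤ ∑ i ∈ S, ind (Q i) := by
  refine ind_le_of (sum_nonneg fun i _ => ind_nonneg _) fun hp => ?_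
  obtain ⟨i, hi, hq⟩ := h hp
  calc (1 : ℝ) = ind (Q i) := (ind_pos hq).symm
    _ ≤ _ := single_le_sum (f := fun i => ind (Q i)) (fun j _ => ind_nonneg _) hi
theorem sum_ind_eq_card {ι : Type*} (S : Finset ι) (Q : ι → Prop) [DecidablePred Q] :
    ∑ i ∈ S, ind (Q i) = ((S.filter Q).card : ℝ) := by
  rw [card_filter]; push_cast
  refine sum_congr rfl fun i _ => ?_
  by_cases h : Q i <;> simp [ind, h]
theorem sum_ind_eq {ι : Type*} [Fintype ι] (a : ι) (f : ι → ℝ) :
    ∑ b, ind (a = b) * f b = f a := by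
  classical
  rw [Finset.sum_eq_single a]
  · rw [ind_pos rfl, one_mul]
  · intro b _ hb; rw [ind_neg (Ne.symm hb), zero_mul]
  · simp
theorem sum_ind_eq_one {ι : Type*} [Fintype ι] (a : ι) : ∑ b, ind (a = b) = 1 := by
  simpa using sum_ind_eq a (fun _ => 1)

/-- Uniform average over a finite type. -/
noncomputable def av {Ω : Type*} [Fintype Ω] (f : Ω → ℝ) : ℝ := (∑ ω, f ω) / Fintype.card Ω

section av
variable {Ω : Type*} [Fintype Ω]

theorem av_add (f g : Ω → ℝ) : av (fun ω => f ω + g ω) = av f + av g := by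
  simp [av, sum_add_distrib, add_div]
theorem av_sub (f g : Ω → ℝ) : av (fun ω => f ω - g ω) = av f - av g := by
  simp [av, sum_sub_distrib, sub_div]
theorem av_mul_left (c : ℝ) (f : Ω → ℝ) : av (fun ω => c * f ω) = c * av f := by
  simp [av, ← mul_sum, mul_div_assoc]
theorem av_mul_right (c : ℝ) (f : Ω → ℝ) : av (fun ω => f ω * c) = av f * c := by
  simp only [mul_comm _ c]; exact av_mul_left c f
theorem av_div (c : ℝ) (f : Ω → ℝ) : av (fun ω => f ω / c) = av f / c := by
  simp only [div_eq_mul_inv]; exact av_mul_right _ f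
theorem av_sum {ι : Type*} (S : Finset ι) (f : ι → Ω → ℝ) :
    av (fun ω => ∑ i ∈ S, f i ω) = ∑ i ∈ S, av (f i) := by
  simp only [av]; rw [sum_comm, sum_div]
theorem av_mono {f g : Ω → ℝ} (h : ∀ ω, f ω ≤ g ω) : av f ≤ av g :=
  div_le_div_of_nonneg_right (sum_le_sum fun ω _ => h ω) (Nat.cast_nonneg _)
theorem av_nonneg {f : Ω → ℝ} (h : ∀ ω, 0 ≤ f ω) : 0 ≤ av f :=
  div_nonneg (sum_nonneg fun ω _ => h ω) (Nat.cast_nonneg _)
theorem av_const [Nonempty Ω] (c : ℝ) : av (fun _ : Ω => c) = c := by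
  have : (Fintype.card Ω : ℝ) ≠ 0 := by exact_mod_cast Fintype.card_ne_zero
  simp [av]
theorem av_zero : av (fun _ : Ω => (0 : ℝ)) = 0 := by simp [av]
theorem av_le_const {f : Ω → ℝ} {c : ℝ} (hc : 0 ≤ c) (h : ∀ ω, f ω ≤ c) : av f ≤ c := by
  rcases isEmpty_or_nonempty Ω with h0 | h0
  · simp [av, hc]
  · exact (av_mono h).trans (av_const c).le
theorem av_le_const' [Nonempty Ω] {f : Ω → ℝ} {c : ℝ} (h : ∀ ω, f ω ≤ c) : av f ≤ c :=
  (av_mono h).trans (av_const c).le
theorem le_av_const [Nonempty Ω] {f : Ω → ℝ} {c : ℝ} (h : ∀ ω, c ≤ f ω) : c ≤ av f :=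
  (av_const c).symm.le.trans (av_mono h)
theorem av_equiv {Ω' : Type*} [Fintype Ω'] (e : Ω ≃ Ω') (f : Ω' → ℝ) :
    av (fun ω => f (e ω)) = av f := by
  simp only [av]; rw [Equiv.sum_comp e f, Fintype.card_congr e]
theorem av_comm {Ω' : Type*} [Fintype Ω'] (f : Ω → Ω' → ℝ) :
    av (fun ω => av (f ω)) = av (fun ω' => av (fun ω => f ω ω')) := by
  simp only [av, ← sum_div]; rw [sum_comm]; ring
theorem av_prod {Ω' : Type*} [Fintype Ω'] (f : Ω × Ω' → ℝ) :
    av f = av (fun ω => av (fun ω' => f (ω, ω'))) := by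
  simp only [av, ← sum_div, Fintype.sum_prod_type, Fintype.card_prod]; push_cast
  rw [div_div, mul_comm]
theorem av_ind_eq [Nonempty Ω] (a : Ω) : av (fun b => ind (a = b)) = 1 / Fintype.card Ω := by
  simp only [av]; rw [sum_ind_eq_one]
theorem av_markov {f : Ω → ℝ} (h : ∀ ω, 0 ≤ f ω) {c : ℝ} (hc : 0 < c) :
    av (fun ω => ind (c ≤ f ω)) ≤ av f / c := by
  rw [← av_div]
  exact av_mono fun ω => ind_le_of (div_nonneg (h ω) hc.le) fun h1 => (one_le_div hc).2 h1
theorem av_ind_not [Nonempty Ω] (P : Ω → Prop) :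
    av (fun ω => ind (¬P ω)) = 1 - av (fun ω => ind (P ω)) := by
  simp only [ind_not]; rw [av_sub, av_const]

/-- A transitive action pushes the uniform measure to the uniform measure. -/
theorem av_smul {G τ : Type*} [Group G] [Fintype G] [Fintype τ] [MulAction G τ]
    (htr : ∀ a b : τ, ∃ g : G, g • a = b) (a : τ) (F : τ → ℝ) :
    av (fun g : G => F (g • a)) = av F := by
  have h1 : ∀ b, av (fun g : G => F (g • b)) = av (fun g : G => F (g • a)) := by
    intro b
    obtain ⟨k, rfl⟩ := htr a b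
    simp only [← mul_smul]
    exact av_equiv (Equiv.mulRight k) (fun g => F (g • a))
  have : Nonempty τ := ⟨a⟩
  have h2 : av (fun b : τ => av (fun g : G => F (g • b))) = av F := by
    rw [av_comm]
    have : ∀ g : G, av (fun b : τ => F (g • b)) = av F := fun g =>
      av_equiv (MulAction.toPerm g) F
    simp only [this]; exact av_const _
  rw [← h2]; simp only [h1]; exact (av_const _).symm

end av

/-- Average over the uniformly random words of length `r` in two letters. -/
noncomputable def Ex : ℕ → (List Bool → ℝ) → ℝ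
  | 0, f => f []
  | r + 1, f => (Ex r (fun l => f (true :: l)) + Ex r (fun l => f (false :: l))) / 2

theorem Ex_mono : ∀ (r : ℕ) {f g : List Bool → ℝ}, (∀ l, l.length = r → f l ≤ g l) →
    Ex r f ≤ Ex r g
  | 0, _, _, h => h [] rfl
  | r + 1, f, g, h => by
    simp only [Ex]
    have h1 := Ex_mono r (f := fun l => f (true :: l)) (g := fun l => g (true :: l))
      fun l hl => h _ (by simp [hl])
    have h2 := Ex_mono r (f := fun l => f (false :: l)) (g := fun l => g (false :: l))
      fun l hl => h _ (by simp [hl])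
    linarith
theorem Ex_congr (r : ℕ) {f g : List Bool → ℝ} (h : ∀ l, l.length = r → f l = g l) :
    Ex r f = Ex r g :=
  le_antisymm (Ex_mono r fun l hl => (h l hl).le) (Ex_mono r fun l hl => (h l hl).ge)
theorem Ex_const : ∀ (r : ℕ) (c : ℝ), Ex r (fun _ => c) = c
  | 0, _ => rfl
  | r + 1, c => by simp only [Ex, Ex_const r c]; ring
theorem Ex_add : ∀ (r : ℕ) (f g : List Bool → ℝ), Ex r (fun l => f l + g l) = Ex r f + Ex r g
  | 0, _, _ => rfl
  | r + 1, f, g => by simp only [Ex, Ex_add r]; ring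
theorem Ex_mul_left : ∀ (r : ℕ) (c : ℝ) (f : List Bool → ℝ), Ex r (fun l => c * f l) = c * Ex r f
  | 0, _, _ => rfl
  | r + 1, c, f => by simp only [Ex, Ex_mul_left r]; ring
theorem Ex_mul_right (r : ℕ) (c : ℝ) (f : List Bool → ℝ) :
    Ex r (fun l => f l * c) = Ex r f * c := by
  simp only [mul_comm _ c]; exact Ex_mul_left r c f
theorem Ex_div (r : ℕ) (c : ℝ) (f : List Bool → ℝ) : Ex r (fun l => f l / c) = Ex r f / c := by
  simp only [div_eq_mul_inv]; exact Ex_mul_right r _ f
theorem Ex_sub (r : ℕ) (f g : List Bool → ℝ) : Ex r (fun l => f l - g l) = Ex r f - Ex r g := by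
  have := Ex_add r f (fun l => (-1) * g l)
  rw [Ex_mul_left] at this
  simp only [neg_mul, one_mul, ← sub_eq_add_neg] at this
  exact this
theorem Ex_sum {ι : Type*} (r : ℕ) (S : Finset ι) (f : ι → List Bool → ℝ) :
    Ex r (fun l => ∑ i ∈ S, f i l) = ∑ i ∈ S, Ex r (f i) := by
  classical
  induction S using Finset.induction_on with
  | empty => simp [Ex_const]
  | insert i S hi ih => simp only [sum_insert hi, Ex_add, ih]
theorem Ex_av {Ω : Type*} [Fintype Ω] (r : ℕ) (f : Ω → List Bool → ℝ) :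
    av (fun ω => Ex r (f ω)) = Ex r (fun l => av (fun ω => f ω l)) := by
  simp only [av]; rw [Ex_div, Ex_sum]
theorem Ex_nonneg (r : ℕ) {f : List Bool → ℝ} (h : ∀ l, l.length = r → 0 ≤ f l) : 0 ≤ Ex r f :=
  (Ex_const r 0).symm.le.trans (Ex_mono r h)
theorem Ex_le_const (r : ℕ) {f : List Bool → ℝ} {c : ℝ} (h : ∀ l, l.length = r → f l ≤ c) :
    Ex r f ≤ c := (Ex_mono r h).trans (Ex_const r c).le
theorem le_Ex_const (r : ℕ) {f : List Bool → ℝ} {c : ℝ} (h : ∀ l, l.length = r → c ≤ f l) :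
    c ≤ Ex r f := (Ex_const r c).symm.le.trans (Ex_mono r h)
theorem Ex_append : ∀ (r r' : ℕ) (f : List Bool → ℝ),
    Ex (r + r') f = Ex r (fun l => Ex r' (fun l' => f (l ++ l')))
  | 0, r', f => by simp [Ex]
  | r + 1, r', f => by
    rw [show r + 1 + r' = (r + r') + 1 by ring]
    simp only [Ex, Ex_append r r', List.cons_append]
theorem Ex_exists {r : ℕ} {f : List Bool → ℝ} {c : ℝ} (h : c < Ex r f) :
    ∃ l, l.length = r ∧ c < f l := by
  by_contra hne
  push Not at hne
  exact absurd (Ex_le_const r hne) (not_le.2 h)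
theorem Ex_exists_le (r : ℕ) (f : List Bool → ℝ) : ∃ l, l.length = r ∧ Ex r f ≤ f l := by
  induction r generalizing f with
  | zero => exact ⟨[], rfl, le_rfl⟩
  | succ r ih =>
    obtain ⟨l1, h1, h1'⟩ := ih (fun l => f (true :: l))
    obtain ⟨l2, h2, h2'⟩ := ih (fun l => f (false :: l))
    rcases le_total (f (true :: l1)) (f (false :: l2)) with h | h
    · exact ⟨false :: l2, by simp [h2], by simp only [Ex]; linarith⟩
    · exact ⟨true :: l1, by simp [h1], by simp only [Ex]; linarith⟩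
theorem Ex_ind_eq : ∀ (r : ℕ) (w : List Bool), Ex r (fun l => ind (l = w)) ≤ 1 / 2 ^ r
  | 0, w => by simpa [Ex] using ind_le_one _
  | r + 1, [] => by
    simp only [Ex, reduceCtorEq, ind_neg not_false, Ex_const]; norm_num
  | r + 1, true :: w => by
    simp only [Ex, List.cons.injEq, true_and, Bool.false_eq_true, false_and, ind_neg not_false,
      Ex_const]
    have := Ex_ind_eq r w
    rw [pow_succ, ← div_div]; linarith
  | r + 1, false :: w => by
    simp only [Ex, List.cons.injEq, true_and, Bool.true_eq_false, false_and, ind_neg not_false,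
      Ex_const]
    have := Ex_ind_eq r w
    rw [pow_succ, ← div_div]; linarith
theorem Ex_sq_le (r : ℕ) (f : List Bool → ℝ) : (Ex r f) ^ 2 ≤ Ex r (fun l => f l ^ 2) := by
  have h := Ex_nonneg r (f := fun l => (f l - Ex r f) ^ 2) fun l _ => sq_nonneg _
  have e : (fun l => (f l - Ex r f) ^ 2) =
      fun l => (f l ^ 2 - (2 * Ex r f) * f l) + (Ex r f) ^ 2 := by funext l; ring
  rw [e, Ex_add, Ex_sub, Ex_mul_left, Ex_const] at h
  nlinarith
theorem Ex_comm (r r' : ℕ) (f : List Bool → List Bool → ℝ) :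
    Ex r (fun l => Ex r' (f l)) = Ex r' (fun l' => Ex r (fun l => f l l')) := by
  induction r generalizing f with
  | zero => rfl
  | succ r ih => simp only [Ex, ih, Ex_div, Ex_add]

/-- The value of a positive word: the first letter acts first. -/
def ev {G : Type*} [Group G] (ω : Bool → G) : List Bool → G
  | [] => 1
  | c :: l => ev ω l * ω c

theorem ev_append {G : Type*} [Group G] (ω : Bool → G) :
    ∀ l l' : List Bool, ev ω (l ++ l') = ev ω l' * ev ω l
  | [], l' => by simp [ev]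
  | c :: l, l' => by simp [ev, ev_append ω l l', mul_assoc]

theorem ev_take_succ {G : Type*} [Group G] (ω : Bool → G) (l : List Bool) (k : ℕ)
    (hk : k < l.length) : ev ω (l.take (k + 1)) = ω (l.getD k false) * ev ω (l.take k) := by
  rw [List.take_add_one, ev_append, List.getElem?_eq_getElem hk]
  simp [ev, List.getD_eq_getElem?_getD, List.getElem?_eq_getElem hk]

/-- `g` is a product of at most `L` of the two generators and their inverses. -/
def Len {G : Type*} [Group G] (ω : Bool → G) (g : G) (L : ℝ) : Prop :=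
  ∃ l : List G, (∀ z ∈ l, z = ω true ∨ z = ω false ∨ z = (ω true)⁻¹ ∨ z = (ω false)⁻¹) ∧
    l.prod = g ∧ (l.length : ℝ) ≤ L

section Len
variable {G : Type*} [Group G] {ω : Bool → G}

theorem Len.mono {g : G} {L L' : ℝ} (h : Len ω g L) (hL : L ≤ L') : Len ω g L' := by
  obtain ⟨l, h1, h2, h3⟩ := h; exact ⟨l, h1, h2, h3.trans hL⟩
theorem Len.nonneg {g : G} {L : ℝ} (h : Len ω g L) : 0 ≤ L := by
  obtain ⟨l, -, -, h3⟩ := h; exact (Nat.cast_nonneg _).trans h3
theorem Len.one : Len ω 1 0 := ⟨[], by simp, rfl, by simp⟩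
theorem Len.gen (c : Bool) : Len ω (ω c) 1 := ⟨[ω c], by cases c <;> simp, by simp, by simp⟩
theorem Len.mul {g g' : G} {L L' : ℝ} (h : Len ω g L) (h' : Len ω g' L') :
    Len ω (g * g') (L + L') := by
  obtain ⟨l, h1, h2, h3⟩ := h
  obtain ⟨l', h1', h2', h3'⟩ := h'
  refine ⟨l ++ l', fun z hz => ?_, by simp [h2, h2'], by simp; linarith⟩
  rcases List.mem_append.1 hz with hz | hz
  exacts [h1 z hz, h1' z hz]
theorem Len.inv {g : G} {L : ℝ} (h : Len ω g L) : Len ω g⁻¹ L := by
  obtain ⟨l, h1, h2, h3⟩ := h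
  refine ⟨(l.map fun z => z⁻¹).reverse, fun z hz => ?_, ?_, by simpa using h3⟩
  · simp only [List.mem_reverse, List.mem_map] at hz
    obtain ⟨y, hy, rfl⟩ := hz
    rcases h1 y hy with h | h | h | h <;> simp [h]
  · rw [← h2, List.prod_inv_reverse]
theorem Len.pow {g : G} {L : ℝ} (h : Len ω g L) : ∀ k : ℕ, Len ω (g ^ k) (k * L)
  | 0 => by simpa using Len.one
  | k + 1 => by
    rw [pow_succ]
    exact ((Len.pow h k).mul h).mono (by push_cast; linarith)
theorem Len.ev : ∀ l : List Bool, Len ω (ev ω l) l.length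
  | [] => by simpa [Pool.Agent.Lib.MP_8a89f5_al.ev] using Len.one
  | c :: l => ((Len.ev l).mul (Len.gen c)).mono (by simp)

end Len

end Pool.Agent.Lib.MP_8a89f5_al
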