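import Pool.Agent.Lib.MP_8a89f5_al.Spec

/-!
Growth of the set reachable by positive words from a third moment bound.
-/

namespace Pool.Agent.Lib.MP_8a89f5_al

open Finset Equiv

variable {G X : Type*} [Group G] [MulAction G X]

/-- Probability that a random word of length `r` is good and maps `a` to `b`. -/
noncomputable def gp (ω : Bool → G) (r : ℕ) (good : X → List Bool → Prop) (a b : X) : ℝ :=
  Ex r fun l => ind (good a l ∧ ev ω l • a = b)

theorem gp_nonneg (ω : Bool → G) (r : ℕ) (good : X → List Bool → Prop) (a b : X) :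
    0 ≤ gp ω r good a b := Ex_nonneg r fun _ _ => ind_nonneg _

variable [Fintype X]

theorem gp_cube (ω : Bool → G) (r : ℕ) (good : X → List Bool → Prop) (a : X) :
    ∑ b, gp ω r good a b ^ 3 = Ex r fun u => Ex r fun v => Ex r fun w =>
      ind (good a u ∧ good a v ∧ good a w ∧ ev ω v • a = ev ω u • a ∧ ev ω w • a = ev ω u • a) := by
  have h : ∀ b, gp ω r good a b ^ 3 =
      Ex r fun u => ind (ev ω u • a = b) * (ind (good a u) * gp ω r good a b ^ 2) := by
    intro b
    rw [pow_succ']
    nth_rewrite 1 [gp]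
    rw [← Ex_mul_right]
    exact Ex_congr r fun u _ => by rw [ind_and]; ring
  simp only [h, ← Ex_sum]
  refine Ex_congr r fun u _ => ?_
  rw [sum_ind_eq (ev ω u • a) fun b => ind (good a u) * gp ω r good a b ^ 2, sq, gp,
    ← Ex_mul_right, ← Ex_mul_left]
  refine Ex_congr r fun v _ => ?_
  rw [← Ex_mul_left, ← Ex_mul_left]
  refine Ex_congr r fun w _ => ?_
  simp only [ind_and]; ring

open Classical in
/-- The points reachable from `a` by a positive word of length `k`. -/
noncomputable def reach (ω : Bool → G) (a : X) (k : ℕ) : Finset X :=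
  univ.filter fun b => ∃ u : List Bool, u.length = k ∧ ev ω u • a = b

theorem mem_reach {ω : Bool → G} {a b : X} {k : ℕ} :
    b ∈ reach ω a k ↔ ∃ u : List Bool, u.length = k ∧ ev ω u • a = b := by simp [reach]

theorem reach_step {ω : Bool → G} {a b : X} {k : ℕ} (h : b ∈ reach ω a k) (u : List Bool) :
    ev ω u • b ∈ reach ω a (k + u.length) := by
  obtain ⟨v, h1, rfl⟩ := mem_reach.1 h
  exact mem_reach.2 ⟨v ++ u, by simp [h1], by rw [ev_append, mul_smul]⟩

theorem reach_large (ω : Bool → G) (r : ℕ) (good : X → List Bool → Prop) {θ : ℝ} (hθ : 0 < θ)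
    (hbad : ∀ a, Ex r (fun u => ind (¬good a u)) ≤ 1 / 4)
    (hcube : ∑ a, ∑ b, gp ω r good a b ^ 3 ≤ θ / 16) (a : X) (k : ℕ)
    (hk : Fintype.card X < 4 ^ k) : 1 / (4 * θ) ≤ (reach ω a (k * r)).card := by
  classical
  have key : ∀ j : ℕ, (4 : ℝ) ^ j ≤ (reach ω a (j * r)).card ∨
      1 / (4 * θ) ≤ (reach ω a (j * r)).card := by
    intro j
    induction j with
    | zero =>
      left
      have : a ∈ reach ω a (0 * r) := mem_reach.2 ⟨[], by simp, by simp [ev]⟩
      have := card_pos.2 ⟨a, this⟩
      rw [pow_zero]; exact_mod_cast this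
    | succ j ih =>
      set Y := reach ω a (j * r) with hY
      set Y' := reach ω a ((j + 1) * r) with hY'
      have hstep : ∀ b ∈ Y, ∀ u : List Bool, u.length = r → ev ω u • b ∈ Y' := by
        intro b hb u hu
        have := reach_step hb u
        rwa [hu, ← add_one_mul] at this
      rcases ih with ih | ih
      swap
      · right
        refine ih.trans (Nat.cast_le.2 (card_le_card_of_injOn
          (fun b => ev ω (List.replicate r true) • b) (fun b hb => hstep b hb _ (by simp))
          fun b _ b' _ h => (MulAction.injective _) h))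
      by_cases hY2 : 1 / (4 * θ) ≤ Y'.card
      · exact Or.inr hY2
      left
      have hY3 : θ * Y'.card ≤ 1 / 4 := by
        rw [not_le, lt_div_iff₀ (by positivity)] at hY2; linarith
      set big : X → X → ℝ := fun b c => if θ < gp ω r good b c then gp ω r good b c else 0 with hbig
      have h1 : ∀ b ∈ Y, (3 / 4 : ℝ) ≤ θ * Y'.card + ∑ c ∈ Y', big b c := by
        intro b hb
        have e1 : (1 : ℝ) ≤ Ex r (fun u => ind (¬good b u)) + ∑ c ∈ Y', gp ω r good b c := by
          simp only [gp, ← Ex_sum, ← Ex_add]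
          refine le_Ex_const r fun u hu => ?_
          by_cases hg : good b u
          · rw [ind_neg (not_not.2 hg), zero_add]
            exact (ind_pos trivial).ge.trans (ind_le_sum Y' _ fun _ => ⟨_, hstep b hb u hu, hg, rfl⟩)
          · rw [ind_pos hg]
            linarith [sum_nonneg fun c (_ : c ∈ Y') => ind_nonneg (good b u ∧ ev ω u • b = c)]
        have e2 : ∑ c ∈ Y', gp ω r good b c ≤ ∑ c ∈ Y', (θ + big b c) := sum_le_sum fun c _ => by
          simp only [hbig]; split_ifs <;> linarith
        rw [sum_add_distrib, sum_const, nsmul_eq_mul] at e2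
        linarith [hbad b]
      have h2 : (Y.card : ℝ) / 2 ≤ ∑ z ∈ Y ×ˢ Y', big z.1 z.2 := by
        rw [sum_product]
        have : ∑ b ∈ Y, (1 / 2 : ℝ) ≤ ∑ b ∈ Y, ∑ c ∈ Y', big b c :=
          sum_le_sum fun b hb => by linarith [h1 b hb]
        rw [sum_const, nsmul_eq_mul] at this
        linarith
      have h3 : ∑ z ∈ Y ×ˢ Y', big z.1 z.2 ^ 2 ≤ 1 / 16 := by
        have e1 : ∑ z ∈ Y ×ˢ Y', big z.1 z.2 ^ 2 ≤
            ∑ z : X × X, gp ω r good z.1 z.2 ^ 3 / θ := by
          refine (sum_le_sum fun z _ => ?_).trans (sum_le_sum_of_subset_of_nonneg (subset_univ _)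
            fun z _ _ => div_nonneg (pow_nonneg (gp_nonneg _ _ _ _ _) _) hθ.le)
          have := gp_nonneg ω r good z.1 z.2
          simp only [hbig]
          split_ifs with h
          · rw [le_div_iff₀ hθ, pow_succ _ 2]
            exact mul_le_mul_of_nonneg_left h.le (sq_nonneg _)
          · rw [zero_pow two_ne_zero]; positivity
        rw [← sum_div, Fintype.sum_prod_type] at e1
        refine e1.trans ?_
        rw [div_le_iff₀ hθ]; linarith
      have h4 := sq_sum_le_card_mul_sum_sq (s := Y ×ˢ Y') (f := fun z => big z.1 z.2)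
      rw [card_product] at h4
      push_cast at h4
      have hy : (0 : ℝ) < Y.card := lt_of_lt_of_le (by positivity) ih
      have h5 : ((Y.card : ℝ) / 2) ^ 2 ≤ Y.card * Y'.card * (1 / 16) :=
        (pow_le_pow_left₀ (by positivity) h2 2).trans
          (h4.trans (mul_le_mul_of_nonneg_left h3 (by positivity)))
      rw [pow_succ]
      nlinarith
  refine (key k).resolve_left (not_le.2 ?_)
  exact_mod_cast (card_le_univ _).trans_lt hk

end Pool.Agent.Lib.MP_8a89f5_al
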