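import Pool.Agent.Lib.MP_8a89f5_al.MixCore
import Pool.Agent.Lib.MP_8a89f5_al.Grow

/-!
Three good words send a long tuple to the same place: the third moment bound.
-/

namespace Pool.Agent.Lib.MP_8a89f5_al

open Finset Equiv

variable {α : Type*} [Fintype α] [DecidableEq α]

/-- Few collisions at the heights from `r'` to `r`. -/
def Good {s : ℕ} (ω : Bool → Perm α) (r' r : ℕ) (Q : ℝ) (a : Fin s ↪ α) (u : List Bool) : Prop :=
  ∀ k ∈ Icc r' r, Ncol ω a u k ≤ Q

theorem triple_core {s r r' h1 h2 : ℕ} {Q : ℝ} {u v w : List Bool} (hu : u.length = r)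
    (hv : v.length = r) (hw : w.length = r) (hr1 : r' ≤ h1) (h12 : h1 < h2) (h2r : h2 < r)
    (d1 : u.getD h1 false ≠ v.getD h1 false)
    (e1 : ∀ j, h1 + 1 ≤ j → j < r → u.getD j false = v.getD j false)
    (d2 : u.getD h2 false ≠ w.getD h2 false)
    (e2 : ∀ j, h2 + 1 ≤ j → j < r → u.getD j false = w.getD j false)
    (hq : 5 * ⌊Q⌋₊ ≤ s) (hT : 3 * s * r < Fintype.card α) (a : Fin s ↪ α) :
    av (fun ω : Bool → Perm α => ind (Good ω r' r Q a u ∧ Good ω r' r Q a v ∧ Good ω r' r Q a w ∧
      ev ω v • a = ev ω u • a ∧ ev ω w • a = ev ω u • a)) ≤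
      (s : ℝ) ^ (5 * ⌊Q⌋₊) * (1 / ((Fintype.card α : ℝ) - 3 * s * r)) ^ (2 * (s - 5 * ⌊Q⌋₊)) := by
  classical
  set q := ⌊Q⌋₊ with hqd
  set W : Fin 3 × Fin s → List Bool := fun p => ![u, v, w] p.1 with hWd
  set a' : Fin 3 × Fin s → α := fun p => a p.2 with had
  set ρ : (Fin 3 × Fin s) × Fin (h2 + 1) → ℕ :=
    fun t => (![2 * t.2.val, 2 * t.2.val + 1, 2 * (h2 + 1) + t.2.val] : Fin 3 → ℕ) t.1.1 with hρd
  have hW : ∀ p, h2 + 1 ≤ (W p).length := fun ⟨o, i⟩ => by
    fin_cases o <;> simp [hWd] <;> omega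
  have hρ : ∀ p (k k' : Fin (h2 + 1)), k' < k → ρ (p, k') < ρ (p, k) := fun ⟨o, i⟩ k k' h => by
    have : (k' : ℕ) < k := h
    fin_cases o <;> simp [hρd] <;> omega
  have hc : Fintype.card (Fin 3 × Fin s) = 3 * s := by simp
  have hHr : 3 * s * (h2 + 1) ≤ 3 * s * r := Nat.mul_le_mul_left _ h2r
  have hT' : Fintype.card (Fin 3 × Fin s) * (h2 + 1) < Fintype.card α := by rw [hc]; omega
  let k1 : Fin (h2 + 1) := ⟨h1, by omega⟩
  let S : Finset (Fin s) → Finset ((Fin 3 × Fin s) × Fin (h2 + 1)) := fun J =>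
    (univ \ J).map ⟨fun i => ((1, i), k1), fun i j h => by simpa using h⟩ ∪
      (univ \ J).map ⟨fun i => ((2, i), Fin.last h2), fun i j h => by simpa using h⟩
  have hSm : ∀ J t, t ∈ S J ↔ ∃ i, i ∉ J ∧ (t = ((1, i), k1) ∨ t = ((2, i), Fin.last h2)) := by
    intro J t
    simp only [S, mem_union, mem_map, mem_sdiff, mem_univ, true_and, Function.Embedding.coeFn_mk,
      and_or_left, exists_or, eq_comm]
  have hSc : ∀ J, (S J).card = 2 * (s - J.card) := by
    intro J
    rw [card_union_of_disjoint, card_map, card_map, card_univ_sdiff, Fintype.card_fin, two_mul]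
    rw [disjoint_left]
    intro t ht ht'
    simp only [mem_map, Function.Embedding.coeFn_mk] at ht ht'
    obtain ⟨i, -, rfl⟩ := ht
    obtain ⟨j, -, h⟩ := ht'
    simp at h
  have b1 := fun J => closing_bound a' W hW ρ hρ hT' (S J) (fun t => ((0, t.1.2), t.2))
    (fun t ht => by
      obtain ⟨i, -, rfl | rfl⟩ := (hSm J t).1 ht
      · simp [hρd]
      · simp [hρd]; omega)
  have hR : ((3 * s * (h2 + 1) : ℕ) : ℝ) ≤ (3 * s * r : ℕ) := by exact_mod_cast hHr
  have hR' : ((3 * s * r : ℕ) : ℝ) < Fintype.card α := by exact_mod_cast hT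
  simp only [hc] at b1
  push_cast at hR hR' b1
  calc _ ≤ av (fun ω : Bool → Perm α => ∑ J ∈ powersetCard (5 * q) (univ : Finset (Fin s)),
        ind (∀ t ∈ S J, (∀ t', t' ≠ t → ρ t' ≤ ρ t → pq a' W t' ω ≠ pq a' W t ω) ∧
          hd a' W t ω = hd a' W ((0, t.1.2), t.2) ω)) := by
        refine av_mono fun ω => ind_le_sum _ _ fun ⟨gu, gv, gw, hvu, hwu⟩ => ?_
        let D : List Bool → ℕ → Finset (Fin s) := fun x k =>
          univ.filter fun i => ∃ j, ∃ k' < k, pos ω x (a j) k' = pos ω x (a i) k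
        have hD : ∀ x k, Good ω r' r Q a x → r' ≤ k → k ≤ r → (D x k).card ≤ q := by
          intro x k hx hk1 hk2
          have := hx k (mem_Icc.2 ⟨hk1, hk2⟩)
          rw [Ncol, sum_ind_eq_card] at this
          exact Nat.le_floor this
        have hJ0 : (D v h1 ∪ D u (h1 + 1) ∪ D w h2 ∪ D u (h2 + 1) ∪ D v (h2 + 1)).card ≤ 5 * q := by
          have := hD v h1 gv hr1 (by omega)
          have := hD u (h1 + 1) gu (by omega) (by omega)
          have := hD w h2 gw (by omega) (by omega)
          have := hD u (h2 + 1) gu (by omega) (by omega)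
          have := hD v (h2 + 1) gv (by omega) (by omega)
          have := card_union_le (D v h1 ∪ D u (h1 + 1) ∪ D w h2 ∪ D u (h2 + 1)) (D v (h2 + 1))
          have := card_union_le (D v h1 ∪ D u (h1 + 1) ∪ D w h2) (D u (h2 + 1))
          have := card_union_le (D v h1 ∪ D u (h1 + 1)) (D w h2)
          have := card_union_le (D v h1) (D u (h1 + 1))
          omega
        obtain ⟨J, hJ1, -, hJ2⟩ := exists_subsuperset_card_eq (subset_univ _) hJ0 (by simpa using hq)
        refine ⟨J, mem_powersetCard.2 ⟨subset_univ _, hJ2⟩, fun t ht => ?_⟩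
        have cv : ∀ i k, h1 + 1 ≤ k → k ≤ r → pos ω v (a i) k = pos ω u (a i) k := by
          intro i k hk hk'
          refine (pos_eq_iff ω hv.ge hu.ge hk' (fun j h h' => (e1 j (by omega) h').symm) _ _).1 ?_
          rw [← hv, pos_length, hv, ← hu, pos_length]
          exact (smul_eq_iff _ _ _).1 hvu i
        have cw : ∀ i, pos ω w (a i) (h2 + 1) = pos ω u (a i) (h2 + 1) := by
          intro i
          refine (pos_eq_iff ω hw.ge hu.ge h2r (fun j h h' => (e2 j h h').symm) _ _).1 ?_
          rw [← hw, pos_length, hw, ← hu, pos_length]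
          exact (smul_eq_iff _ _ _).1 hwu i
        obtain ⟨i, hi, ht⟩ := (hSm J t).1 ht
        have hi' : ∀ x k, D x k ⊆ J → ∀ j, ∀ k' < k, pos ω x (a j) k' ≠ pos ω x (a i) k :=
          fun x k h j k' hk he => hi (h (mem_filter.2 ⟨mem_univ _, j, k', hk, he⟩))
        simp only [union_subset_iff] at hJ1
        obtain ⟨⟨⟨⟨s1, s2⟩, s3⟩, s4⟩, s5⟩ := hJ1
        rcases ht with rfl | rfl
        · refine ⟨fun ⟨⟨o, j⟩, k⟩ hne hle heq => ?_, cv i _ le_rfl (by omega)⟩
          have hh : hd a' W ((o, j), k) ω = hd a' W ((1, i), k1) ω := by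
            rw [← ans_pq a' W hW, ← ans_pq a' W hW, heq]
          have heq1 := congrArg Prod.fst heq
          have heq2 := congrArg Prod.snd heq
          fin_cases o
          · change 2 * (k : ℕ) ≤ 2 * h1 + 1 at hle
            change u.getD k false = v.getD h1 false at heq1
            change pos ω u (a j) (k + 1) = pos ω v (a i) (h1 + 1) at hh
            rcases Nat.lt_or_ge k h1 with h | h
            · exact hi' _ _ s2 j (k + 1) (by omega) (hh.trans (cv i _ le_rfl (by omega)))
            · exact d1 (by rwa [show (k : ℕ) = h1 by omega] at heq1)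
          · change 2 * (k : ℕ) + 1 ≤ 2 * h1 + 1 at hle
            change pos ω v (a j) k = pos ω v (a i) h1 at heq2
            rcases Nat.lt_or_ge k h1 with h | h
            · exact hi' _ _ s1 j k h heq2
            · have hk : (k : ℕ) = h1 := by omega
              rw [hk] at heq2
              exact hne (Prod.ext (Prod.ext rfl (a.injective (pos_inj _ _ heq2))) (Fin.ext hk))
          · change 2 * (h2 + 1) + (k : ℕ) ≤ 2 * h1 + 1 at hle
            omega
        · refine ⟨fun ⟨⟨o, j⟩, k⟩ hne hle heq => ?_, cw i⟩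
          have hh : hd a' W ((o, j), k) ω = hd a' W ((2, i), Fin.last h2) ω := by
            rw [← ans_pq a' W hW, ← ans_pq a' W hW, heq]
          have heq1 := congrArg Prod.fst heq
          have heq2 := congrArg Prod.snd heq
          have hk2 := k.2
          fin_cases o
          · change u.getD k false = w.getD h2 false at heq1
            change pos ω u (a j) (k + 1) = pos ω w (a i) (h2 + 1) at hh
            rcases Nat.lt_or_ge k h2 with h | h
            · exact hi' _ _ s4 j (k + 1) (by omega) (hh.trans (cw i))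
            · exact d2 (by rwa [show (k : ℕ) = h2 by omega] at heq1)
          · change v.getD k false = w.getD h2 false at heq1
            change pos ω v (a j) (k + 1) = pos ω w (a i) (h2 + 1) at hh
            rcases Nat.lt_or_ge k h2 with h | h
            · exact hi' _ _ s5 j (k + 1) (by omega)
                (hh.trans ((cw i).trans (cv i _ (by omega) h2r).symm))
            · rw [show (k : ℕ) = h2 by omega, ← e1 h2 h12 h2r] at heq1
              exact d2 heq1
          · change pos ω w (a j) k = pos ω w (a i) h2 at heq2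
            rcases Nat.lt_or_ge k h2 with h | h
            · exact hi' _ _ s3 j k h heq2
            · have hk : (k : ℕ) = h2 := by omega
              rw [hk] at heq2
              exact hne (Prod.ext (Prod.ext rfl (a.injective (pos_inj _ _ heq2))) (Fin.ext hk))
    _ ≤ ∑ J ∈ powersetCard (5 * q) (univ : Finset (Fin s)),
        (1 / ((Fintype.card α : ℝ) - 3 * s * r)) ^ (2 * (s - 5 * q)) := by
        rw [av_sum]
        refine sum_le_sum fun J hJ => (b1 J).trans ?_
        rw [hSc, (mem_powersetCard.1 hJ).2]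
        refine pow_le_pow_left₀ (div_nonneg zero_le_one (by linarith)) ?_ _
        exact one_div_le_one_div_of_le (by linarith) (by linarith)
    _ ≤ _ := by
        rw [sum_const, card_powersetCard, nsmul_eq_mul]
        refine mul_le_mul_of_nonneg_right ?_ (pow_nonneg (div_nonneg zero_le_one (by linarith)) _)
        have := Nat.choose_le_pow (univ : Finset (Fin s)).card (5 * q)
        simp only [card_univ, Fintype.card_fin] at this ⊢
        exact_mod_cast this

/-- Two words agree from position `r'` to position `r`. -/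
def Agree (r' r : ℕ) (u v : List Bool) : Prop :=
  ∀ j, r' ≤ j → j < r → u.getD j false = v.getD j false

theorem Ex_agree (r' d : ℕ) {u : List Bool} (hu : u.length = r' + d) :
    Ex (r' + d) (fun v => ind (Agree r' (r' + d) u v)) ≤ 1 / 2 ^ d := by
  rw [Ex_append]
  refine Ex_le_const _ fun l hl => le_trans (Ex_mono _ fun l' hl' => ind_mono fun h => ?_)
    (Ex_ind_eq d (u.drop r'))
  refine List.ext_getElem (by simp [hu, hl']) fun j h1 h2 => ?_
  have := h (r' + j) (by omega) (by omega)
  rw [List.getD_eq_getElem _ _ (by omega), List.getD_eq_getElem _ _ (by simp; omega),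
    List.getElem_append_right (by omega)] at this
  simp only [hl, Nat.add_sub_cancel_left] at this
  simp [this]

theorem cube_bound {s r' d : ℕ} {Q : ℝ} (hq : 5 * ⌊Q⌋₊ ≤ s)
    (hT : 3 * s * (r' + d) < Fintype.card α) :
    av (fun ω : Bool → Perm α => ∑ a : Fin s ↪ α, ∑ b,
      gp ω (r' + d) (Good ω r' (r' + d) Q) a b ^ 3) ≤ Fintype.card (Fin s ↪ α) *
      ((s : ℝ) ^ (5 * ⌊Q⌋₊) * (1 / ((Fintype.card α : ℝ) - 3 * s * (r' + d : ℕ))) ^
        (2 * (s - 5 * ⌊Q⌋₊)) + 3 / 2 ^ d) := by
  set r := r' + d with hr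
  set B := (s : ℝ) ^ (5 * ⌊Q⌋₊) * (1 / ((Fintype.card α : ℝ) - 3 * s * r)) ^
    (2 * (s - 5 * ⌊Q⌋₊)) with hB
  have hR' : ((3 * s * r : ℕ) : ℝ) < Fintype.card α := by exact_mod_cast hT
  push_cast at hR'
  have hB0 : 0 ≤ B := mul_nonneg (by positivity) (pow_nonneg (div_nonneg zero_le_one (by linarith)) _)
  rw [av_sum, ← card_univ, ← nsmul_eq_mul, ← sum_const]
  refine sum_le_sum fun a _ => ?_
  simp only [gp_cube, Ex_av]
  have key : ∀ u v w : List Bool, u.length = r → v.length = r → w.length = r →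
      av (fun ω : Bool → Perm α => ind (Good ω r' r Q a u ∧ Good ω r' r Q a v ∧ Good ω r' r Q a w ∧
        ev ω v • a = ev ω u • a ∧ ev ω w • a = ev ω u • a)) ≤
        B + ind (Agree r' r u v) + (ind (Agree r' r u w) + ind (Agree r' r v w)) := by
    intro u v w hu hv hw
    have n1 := ind_nonneg (Agree r' r u v)
    have n2 := ind_nonneg (Agree r' r u w)
    have n3 := ind_nonneg (Agree r' r v w)
    by_cases hag : Agree r' r u v ∨ Agree r' r u w ∨ Agree r' r v w
    · refine (av_le_const zero_le_one fun ω => ind_le_one _).trans ?_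
      rcases hag with h | h | h <;> linarith [ind_pos h]
    simp only [Agree, not_or, not_forall] at hag
    obtain ⟨⟨i1, a1, b1, c1⟩, ⟨i2, a2, b2, c2⟩, i3, a3, b3, c3⟩ := hag
    obtain ⟨H1, x1, y1, z1, t1⟩ := exists_top b1 c1
    obtain ⟨H2, x2, y2, z2, t2⟩ := exists_top b2 c2
    obtain ⟨H3, x3, y3, z3, t3⟩ := exists_top b3 c3
    refine le_trans ?_ (show B ≤ _ by linarith)
    rcases lt_trichotomy H1 H2 with h | h | h
    · exact triple_core hu hv hw (a1.trans x1) h y2 z1 t1 z2 t2 hq hT a
    · subst h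
      have h3 : H3 < H1 := by
        by_contra hh
        rcases Nat.eq_or_lt_of_le (not_lt.1 hh) with h | h
        · subst h
          revert z1 z2 z3
          cases u.getD H1 false <;> cases v.getD H1 false <;> cases w.getD H1 false <;> simp
        · exact z3 ((t1 _ h y3).symm.trans (t2 _ h y3))
      refine le_trans (av_mono fun ω => ind_mono fun ⟨g1, g2, g3, g4, g5⟩ => ?_)
        (triple_core hv hw hu (a3.trans x3) h3 y1 z3 t3 z1.symm
          (fun j h h' => (t1 j h h').symm) hq hT a)
      exact ⟨g2, g3, g1, g5.trans g4.symm, g4.symm⟩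
    · refine le_trans (av_mono fun ω => ind_mono fun ⟨g1, g2, g3, g4, g5⟩ => ?_)
        (triple_core hu hw hv (a2.trans x2) h y1 z2 t2 z1 t1 hq hT a)
      exact ⟨g1, g3, g2, g5, g4⟩
  refine Ex_le_const _ fun u hu => ?_
  calc _ ≤ Ex r (fun v => B + ind (Agree r' r u v) + 2 / 2 ^ d) := by
        refine Ex_mono _ fun v hv => (Ex_mono _ fun w hw => key u v w hu hv hw).trans ?_
        rw [Ex_add, Ex_const, Ex_add]
        have := Ex_agree r' d hu
        have := Ex_agree r' d hv
        have e : (2 : ℝ) / 2 ^ d = 1 / 2 ^ d + 1 / 2 ^ d := by ring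
        linarith
    _ ≤ _ := by
        rw [Ex_add, Ex_add, Ex_const, Ex_const]
        have := Ex_agree r' d hu
        have e : (3 : ℝ) / 2 ^ d = 1 / 2 ^ d + 2 / 2 ^ d := by ring
        linarith

end Pool.Agent.Lib.MP_8a89f5_al
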