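import Pool.Agent.Lib.MP_8a89f5_al.Paths

/-!
The properties of a pair of permutations used in the diameter bound.
-/

namespace Pool.Agent.Lib.MP_8a89f5_al

open Finset Equiv Filter Topology

/-- The property holds with high probability for two uniformly random permutations. -/
def WHP (P : ∀ n : ℕ, (Bool → Perm (Fin n)) → Prop) : Prop :=
  Tendsto (fun n => av fun ω : Bool → Perm (Fin n) => ind (¬P n ω)) atTop (𝓝 0)

theorem WHP.of_le {P : ∀ n : ℕ, (Bool → Perm (Fin n)) → Prop} {f : ℕ → ℝ}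
    (hf : Tendsto f atTop (𝓝 0))
    (h : ∀ᶠ n in atTop, (av fun ω : Bool → Perm (Fin n) => ind (¬P n ω)) ≤ f n) : WHP P :=
  squeeze_zero' (Eventually.of_forall fun _ => av_nonneg fun _ => ind_nonneg _) h hf

theorem WHP.of_forall_le {P : ∀ n : ℕ, (Bool → Perm (Fin n)) → Prop}
    (h : ∀ η : ℝ, 0 < η →
      ∀ᶠ n in atTop, (av fun ω : Bool → Perm (Fin n) => ind (¬P n ω)) ≤ η) : WHP P := by
  refine tendsto_order.2 ⟨fun b hb => Eventually.of_forall fun n =>
    hb.trans_le (av_nonneg fun _ => ind_nonneg _), fun b hb => ?_⟩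
  filter_upwards [h (b / 2) (by linarith)] with n hn
  linarith

theorem WHP.mono {P Q : ∀ n : ℕ, (Bool → Perm (Fin n)) → Prop} (hP : WHP P)
    (h : ∀ᶠ n in atTop, ∀ ω, P n ω → Q n ω) : WHP Q := by
  refine WHP.of_le hP ?_
  filter_upwards [h] with n hn
  exact av_mono fun ω => ind_mono fun hq hp => hq (hn ω hp)

theorem WHP.and {P Q : ∀ n : ℕ, (Bool → Perm (Fin n)) → Prop} (hP : WHP P) (hQ : WHP Q) :
    WHP fun n ω => P n ω ∧ Q n ω := by
  refine WHP.of_le (f := fun n => (av fun ω : Bool → Perm (Fin n) => ind (¬P n ω)) +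
    av fun ω : Bool → Perm (Fin n) => ind (¬Q n ω)) (by simpa using hP.add hQ)
    (Eventually.of_forall fun n => ?_)
  rw [← av_add]
  exact av_mono fun ω => (ind_mono not_and_or.1).trans (ind_or_le _ _)

variable {α : Type*} [Fintype α] [DecidableEq α]

/-- Random positive words of length at least `m` move `t`-tuples almost uniformly. -/
def Mix (ω : Bool → Perm α) (t m : ℕ) : Prop :=
  ∀ r, m ≤ r → ∀ a b : Fin t ↪ α,
    |((Fintype.card α).descFactorial t : ℝ) * Ex r (fun l => ind (∀ i, ev ω l (a i) = b i)) - 1|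
      ≤ 1 / 10

/-- Every even permutation moving at most `ρ` points has word length at most `L`. -/
def Small (ω : Bool → Perm α) (ρ L : ℝ) : Prop :=
  ∀ g : Perm α, Perm.sign g = 1 → (g.support.card : ℝ) ≤ ρ → Len ω g L

/-- Words of length at most `L` act `s`-transitively. -/
def Trans (ω : Bool → Perm α) (s : ℕ) (L : ℝ) : Prop :=
  ∀ A : Finset α, A.card ≤ s → ∀ k : Perm α, ∃ h, Len ω h L ∧ ∀ a ∈ A, h a = k a

/-- Words of length at most `L` act `s`-transitively up to `ρ` errors. -/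
def NearTrans (ω : Bool → Perm α) (s : ℕ) (ρ L : ℝ) : Prop :=
  ∀ a b : Fin s ↪ α, ∃ h, Len ω h L ∧ ((univ.filter fun i => h (a i) ≠ b i).card : ℝ) ≤ ρ

/-- The number of paths that sit at height `k` on a point visited at a smaller height. -/
noncomputable def Ncol {s : ℕ} (ω : Bool → Perm α) (a : Fin s ↪ α) (u : List Bool) (k : ℕ) : ℝ :=
  ∑ i, ind (∃ j, ∃ k' < k, pos ω u (a j) k' = pos ω u (a i) k)

/-- The total expected number of fixed points of random words of lengths `1, …, m - 1`. -/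
noncomputable def Fixs (ω : Bool → Perm α) (m : ℕ) : ℝ :=
  ∑ d ∈ Ico 1 m, Ex d fun w => ∑ p, ind (ev ω w p = p)

end Pool.Agent.Lib.MP_8a89f5_al
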