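import Pool.Agent.Lib.MP_8a89f5_al.Defs

/-!
Assembly of the diameter bound from the separate pieces, which are collected in `Boxes`.
-/

namespace Pool.Agent.Lib.MP_8a89f5_al

open Finset Equiv Filter Topology

/-- The statements used as black boxes in the assembly. -/
structure Boxes : Prop where
  long_cycle : ∀ η γ : ℝ, 0 < η → 0 < γ →
    WHP fun n ω => ∃ g, Len ω g ((n : ℝ) ^ (1 + γ)) ∧ (n : ℝ) ^ (1 - γ) ≤ g.support.card ∧
      (g.support.card : ℝ) ≤ η * n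
  gen_bound : ∀ {n : ℕ} {ω : Bool → Perm (Fin n)} {σ : Perm (Fin n)} {L : ℝ} {j : ℕ}, 1 ≤ j →
    4 * j ≤ σ.support.card + 3 → σ.support.card + j ≤ Fintype.card (Fin n) →
    (∀ k : Perm (Fin n), Len ω (k * σ * k⁻¹) L) → ∀ g : Perm (Fin n), Perm.sign g = 1 →
    Len ω g (100 * ((g.support.card : ℝ) / j + Nat.log 2 (Fintype.card (Fin n)) + 1) * L)
  trans_of_near : ∀ {n : ℕ} {ω : Bool → Perm (Fin n)} {s : ℕ} {ρ L L' : ℝ},
    NearTrans ω s ρ L → Small ω (2 * ρ + 2) L' → s + 2 ≤ Fintype.card (Fin n) →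
    Trans ω s (L + L')
  conj_of_trans : ∀ {n : ℕ} {ω : Bool → Perm (Fin n)} {s : ℕ} {L L0 : ℝ} {σ : Perm (Fin n)},
    Trans ω s L → Len ω σ L0 → σ.support.card ≤ s → ∀ k : Perm (Fin n),
    Len ω (k * σ * k⁻¹) (L0 + 2 * L)
  trans_of_mix : ∀ {n : ℕ} {ω : Bool → Perm (Fin n)} {t m : ℕ}, Mix ω t m →
    t ≤ Fintype.card (Fin n) → Trans ω t m
  shrink : ∀ {n : ℕ} {ω : Bool → Perm (Fin n)} {m : ℕ}, Mix ω 1 m → Mix ω 2 m →
    ∀ {g : Perm (Fin n)} {L : ℝ}, Len ω g L → ∀ {η s : ℝ} {T : ℕ}, 0 < η → η ≤ 1 →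
    30 * (g.support.card : ℝ) ≤ η * Fintype.card (Fin n) →
    (Fintype.card (Fin n) : ℝ) ≤ s * g.support.card → s ≤ Fintype.card (Fin n) →
    η ^ T * Fintype.card (Fin n) ≤ s →
    ∃ f, Len ω f (2 ^ T * (3 * L + 4 * m)) ∧
      s * g.support.card / (2 * Fintype.card (Fin n)) ≤ f.support.card ∧
        (f.support.card : ℝ) ≤ s
  three_cycle : ∀ {n : ℕ} {ω : Bool → Perm (Fin n)} {m : ℕ}, Mix ω 1 m → Mix ω 2 m →
    ∀ {f : Perm (Fin n)} {L : ℝ}, Len ω f L → f ≠ 1 →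
    2 * f.support.card ^ 2 ≤ Fintype.card (Fin n) →
    ∃ σ, σ ≠ 1 ∧ σ.support.card ≤ 3 ∧ Len ω σ (4 * L + 4 * m)
  mix : ∀ (t : ℕ) (γ : ℝ), 0 < γ → WHP fun n ω => Mix ω t ⌊(n : ℝ) ^ γ⌋₊
  near_trans : ∀ c a : ℝ, 0 < c → c < 1 / 2 → c / 2 < a → 2 * c - 1 / 2 < a →
    WHP fun n ω => NearTrans ω ⌊(n : ℝ) ^ c⌋₊ ((n : ℝ) ^ a) (2 * n)

theorem evC (C a b : ℝ) (h : a < b) : ∀ᶠ n : ℕ in atTop, C * (n : ℝ) ^ a ≤ (n : ℝ) ^ b := by
  have h1 : Tendsto (fun n : ℕ => (n : ℝ) ^ (b - a)) atTop atTop :=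
    (tendsto_rpow_atTop (by linarith)).comp tendsto_natCast_atTop_atTop
  filter_upwards [h1.eventually_ge_atTop C, eventually_gt_atTop 0] with n hn hn0
  have hp : (0 : ℝ) < n := by exact_mod_cast hn0
  calc C * (n : ℝ) ^ a ≤ (n : ℝ) ^ (b - a) * (n : ℝ) ^ a := by gcongr
    _ = _ := by rw [← Real.rpow_add hp]; ring_nf

theorem evC0 (C b : ℝ) (h : 0 < b) : ∀ᶠ n : ℕ in atTop, C ≤ (n : ℝ) ^ b := by
  filter_upwards [evC C 0 b h] with n hn
  simpa using hn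

theorem evC1 (C a : ℝ) (h : a < 1) : ∀ᶠ n : ℕ in atTop, C * (n : ℝ) ^ a ≤ n := by
  filter_upwards [evC C a 1 h] with n hn
  simpa using hn

theorem ev_log (δ : ℝ) (hδ : 0 < δ) :
    ∀ᶠ n : ℕ in atTop, (Nat.log 2 n : ℝ) + 1 ≤ (n : ℝ) ^ δ := by
  filter_upwards [evC (4 / δ + 1) (δ / 2) δ (by linarith), eventually_ge_atTop 1] with n hn hn1
  have h1 : (1 : ℝ) ≤ n := by exact_mod_cast hn1
  have h2 : (2 : ℝ) ^ Nat.log 2 n ≤ n := by
    exact_mod_cast Nat.pow_log_le_self 2 (by omega : n ≠ 0)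
  have h3 : (Nat.log 2 n : ℝ) * Real.log 2 ≤ Real.log n := by
    rw [← Real.log_pow]; exact Real.log_le_log (by positivity) h2
  have h4 : Real.log n ≤ (n : ℝ) ^ (δ / 2) / (δ / 2) :=
    Real.log_le_rpow_div (by linarith) (by linarith)
  have h5 : (1 : ℝ) / 2 ≤ Real.log 2 := by have := Real.log_two_gt_d9; linarith
  have h6 : (1 : ℝ) ≤ (n : ℝ) ^ (δ / 2) := Real.one_le_rpow h1 (by linarith)
  have h7 : (Nat.log 2 n : ℝ) * (1 / 2) ≤ (Nat.log 2 n : ℝ) * Real.log 2 := by gcongr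
  have h8 : (n : ℝ) ^ (δ / 2) / (δ / 2) = 1 / 2 * (4 / δ * (n : ℝ) ^ (δ / 2)) := by
    field_simp; ring
  nlinarith

variable {α : Type*} [Fintype α] [DecidableEq α]

theorem Small.mono {ω : Bool → Perm α} {ρ ρ' L L' : ℝ} (h : Small ω ρ L) (h1 : ρ' ≤ ρ)
    (h2 : L ≤ L') : Small ω ρ' L' := fun g hg hs => (h g hg (hs.trans h1)).mono h2

theorem small_support (B : Boxes) (c g : ℝ) (hc : 0 < c) (hc1 : c < 1) (hg : 0 < g) :
    WHP fun n ω => ∃ σ, Len ω σ ((n : ℝ) ^ (1 + g)) ∧ (n : ℝ) ^ (c - g) ≤ σ.support.card ∧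
      (σ.support.card : ℝ) ≤ (n : ℝ) ^ c := by
  obtain ⟨γ, hγ, hγc, hγg⟩ : ∃ γ : ℝ, 0 < γ ∧ γ ≤ c ∧ 3 * γ ≤ g :=
    ⟨min c (g / 3), lt_min hc (by linarith), min_le_left _ _,
      by have := min_le_right c (g / 3); linarith⟩
  obtain ⟨K, hK⟩ := exists_nat_ge (1 / γ)
  have hKγ : 1 ≤ γ * K := by rwa [div_le_iff₀' hγ] at hK
  set η : ℝ := (1 / 2) ^ K with hη
  have hη0 : 0 < η := by positivity
  have hη1 : η ≤ 1 := pow_le_one₀ (by norm_num) (by norm_num)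
  refine (((B.long_cycle (η / 30) γ (by linarith) hγ).and (B.mix 1 γ hγ)).and
    (B.mix 2 γ hγ)).mono ?_
  filter_upwards [eventually_ge_atTop 1, evC 14 (1 + 2 * γ) (1 + g) (by linarith),
    evC 2 (c - g) (c - γ) (by linarith)] with n hn1 e1 e2
  rintro ω ⟨⟨⟨f, hf, hf1, hf2⟩, m1⟩, m2⟩
  have h1 : (1 : ℝ) ≤ n := by exact_mod_cast hn1
  have hp : (0 : ℝ) < n := by linarith
  have hγ1 : (1 : ℝ) ≤ (n : ℝ) ^ γ := Real.one_le_rpow h1 hγ.le
  obtain ⟨T, hT1, hT2⟩ := exists_nat_pow_near hγ1 (by norm_num : (1 : ℝ) < 2)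
  have hc0 : (1 : ℝ) ≤ (n : ℝ) ^ c := Real.one_le_rpow h1 hc.le
  have hprod : (n : ℝ) ^ c * (n : ℝ) ^ (1 - γ) = (n : ℝ) ^ (c - γ) * n := by
    rw [← Real.rpow_add hp, ← Real.rpow_add_one hp.ne']; ring_nf
  have hcγ : (1 : ℝ) ≤ (n : ℝ) ^ (c - γ) := Real.one_le_rpow h1 (by linarith)
  have hlow : (n : ℝ) ^ (c - γ) * n ≤ (n : ℝ) ^ c * f.support.card := by
    rw [← hprod]; gcongr
  obtain ⟨σ, hσ, hσ1, hσ2⟩ := B.shrink m1 m2 hf (η := η) (s := (n : ℝ) ^ c) (T := T + 1) hη0 hη1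
    (by rw [Fintype.card_fin]; linarith)
    (by rw [Fintype.card_fin]; nlinarith)
    (by
      rw [Fintype.card_fin]
      calc (n : ℝ) ^ c ≤ (n : ℝ) ^ (1 : ℝ) := Real.rpow_le_rpow_of_exponent_le h1 hc1.le
        _ = n := Real.rpow_one _)
    (by
      rw [Fintype.card_fin]
      have h2 : (n : ℝ) ≤ (2 ^ (T + 1)) ^ K := by
        calc (n : ℝ) = (n : ℝ) ^ (1 : ℝ) := (Real.rpow_one _).symm
          _ ≤ (n : ℝ) ^ (γ * K) := Real.rpow_le_rpow_of_exponent_le h1 hKγ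
          _ = ((n : ℝ) ^ γ) ^ K := by rw [Real.rpow_mul hp.le, Real.rpow_natCast]
          _ ≤ _ := by gcongr
      have h3 : η ^ (T + 1) * (2 ^ (T + 1)) ^ K = 1 := by
        rw [hη, ← pow_mul, ← pow_mul, mul_comm K, ← mul_pow]; norm_num
      calc η ^ (T + 1) * n ≤ η ^ (T + 1) * (2 ^ (T + 1)) ^ K := by gcongr
        _ = 1 := h3
        _ ≤ _ := hc0)
  refine ⟨σ, hσ.mono ?_, ?_, hσ2⟩
  · have h2 : (⌊(n : ℝ) ^ γ⌋₊ : ℝ) ≤ (n : ℝ) ^ (1 + γ) :=
      (Nat.floor_le (by positivity)).trans (Real.rpow_le_rpow_of_exponent_le h1 (by linarith))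
    have h3 : (n : ℝ) ^ γ * (n : ℝ) ^ (1 + γ) = (n : ℝ) ^ (1 + 2 * γ) := by
      rw [← Real.rpow_add hp]; ring_nf
    calc (2 : ℝ) ^ (T + 1) * (3 * (n : ℝ) ^ (1 + γ) + 4 * ⌊(n : ℝ) ^ γ⌋₊)
        ≤ (2 * (n : ℝ) ^ γ) * (7 * (n : ℝ) ^ (1 + γ)) := by
          gcongr
          · rw [pow_succ]; linarith
          · linarith
      _ = 14 * (n : ℝ) ^ (1 + 2 * γ) := by rw [← h3]; ring
      _ ≤ _ := e1
  · refine le_trans ?_ hσ1
    rw [Fintype.card_fin, le_div_iff₀ (by positivity)]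
    nlinarith

/-- The property that small even permutations are short, with exponents. -/
def SmP (c e : ℝ) : Prop := WHP fun n ω => Small ω ((n : ℝ) ^ c) ((n : ℝ) ^ (1 + e))

theorem SmP.mono {c e e' : ℝ} (h : SmP c e) (he : e ≤ e') : SmP c e' := by
  refine WHP.mono h ?_
  filter_upwards [eventually_ge_atTop 1] with n hn1 ω hω
  have h1 : (1 : ℝ) ≤ n := by exact_mod_cast hn1
  exact hω.mono le_rfl (Real.rpow_le_rpow_of_exponent_le h1 (by linarith))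

theorem smp_base (B : Boxes) (c : ℝ) (hc : 0 < c) (hc1 : c < 1 / 2) : SmP c (3 * c) := by
  refine ((((small_support B c (c / 2) hc (by linarith) (by linarith)).and (B.mix 1 c hc)).and
    (B.mix 2 c hc)).and (B.mix 3 c hc)).mono ?_
  filter_upwards [eventually_ge_atTop 4, evC1 2 (2 * c) (by linarith), ev_log c hc,
    evC 2000 (1 + 2 * c) (1 + 3 * c) (by linarith)] with n hn4 e1 e2 e3
  rintro ω ⟨⟨⟨⟨f, hf, hf1, hf2⟩, m1⟩, m2⟩, m3⟩ g hg hgs
  have h1 : (1 : ℝ) ≤ n := by exact_mod_cast (by omega : 1 ≤ n)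
  have hp : (0 : ℝ) < n := by linarith
  have hne : f ≠ 1 := by
    rintro rfl
    have : (0 : ℝ) < (n : ℝ) ^ (c - c / 2) := by positivity
    simp only [Perm.support_one, card_empty, Nat.cast_zero] at hf1
    linarith
  have hsq : 2 * f.support.card ^ 2 ≤ Fintype.card (Fin n) := by
    rw [Fintype.card_fin]
    have h2 : (n : ℝ) ^ (2 * c) = ((n : ℝ) ^ c) ^ 2 := by
      rw [mul_comm, Real.rpow_mul hp.le, Real.rpow_two]
    have h3 : (f.support.card : ℝ) ^ 2 ≤ ((n : ℝ) ^ c) ^ 2 := by gcongr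
    have : (2 : ℝ) * (f.support.card : ℝ) ^ 2 ≤ n := by linarith
    exact_mod_cast this
  obtain ⟨σ, hσ1, hσ3, hσ⟩ := B.three_cycle m1 m2 hf hne hsq
  have htr := B.trans_of_mix m3 (by rw [Fintype.card_fin]; omega)
  have hcj := B.conj_of_trans htr hσ hσ3
  have hpos : 1 ≤ σ.support.card := by
    rw [Nat.one_le_iff_ne_zero, Ne, card_eq_zero, Perm.support_eq_empty_iff]; exact hσ1
  refine (B.gen_bound (j := 1) le_rfl (by omega) (by rw [Fintype.card_fin]; omega) hcj g hg).mono ?_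
  rw [Fintype.card_fin]
  have h2 : (⌊(n : ℝ) ^ c⌋₊ : ℝ) ≤ (n : ℝ) ^ (1 + c) :=
    (Nat.floor_le (by positivity)).trans (Real.rpow_le_rpow_of_exponent_le h1 (by linarith))
  have h3 : (n : ℝ) ^ (1 + c / 2) ≤ (n : ℝ) ^ (1 + c) :=
    Real.rpow_le_rpow_of_exponent_le h1 (by linarith)
  have h4 : (n : ℝ) ^ c * (n : ℝ) ^ (1 + c) = (n : ℝ) ^ (1 + 2 * c) := by
    rw [← Real.rpow_add hp]; ring_nf
  calc 100 * ((g.support.card : ℝ) / (1 : ℕ) + Nat.log 2 n + 1) *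
        (4 * (n : ℝ) ^ (1 + c / 2) + 4 * ⌊(n : ℝ) ^ c⌋₊ + 2 * ⌊(n : ℝ) ^ c⌋₊)
      ≤ 100 * (2 * (n : ℝ) ^ c) * (10 * (n : ℝ) ^ (1 + c)) := by
        gcongr
        · simp only [Nat.cast_one, div_one]; linarith
        · linarith
    _ = 2000 * (n : ℝ) ^ (1 + 2 * c) := by rw [← h4]; ring
    _ ≤ _ := e3

theorem smp_step (B : Boxes) {c a e g b : ℝ} (hc1 : c < 1 / 2) (h1 : c / 2 < a)
    (h2 : 2 * c - 1 / 2 < a) (hg : 0 < g) (hge : g ≤ e) (hgc : g < c) (hb : c ≤ b)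
    (hP : SmP a e) : SmP b (b - c + e + 2 * g) := by
  have hc : 0 < c := by linarith
  obtain ⟨a', ha1, ha2, ha3⟩ : ∃ a', c / 2 < a' ∧ 2 * c - 1 / 2 < a' ∧ a' < a := by
    obtain ⟨a', h, h'⟩ := exists_between (max_lt h1 h2)
    exact ⟨a', (le_max_left _ _).trans_lt h, (le_max_right _ _).trans_lt h, h'⟩
  refine (((WHP.and hP (B.near_trans c a' hc hc1 ha1 ha2))).and
    (small_support B c g hc (by linarith) hg)).mono ?_
  filter_upwards [eventually_ge_atTop 1, evC 4 a' a ha3, evC1 3 c (by linarith),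
    evC0 4 (c - g) (by linarith), ev_log g hg,
    evC 6300 (1 + (b - c + e + g)) (1 + (b - c + e + 2 * g)) (by linarith)]
    with n hn1 e1 e2 e3 e4 e5
  rintro ω ⟨⟨hsm, hnt⟩, σ, hσ, hσ1, hσ2⟩ h hh hhs
  have hn : (1 : ℝ) ≤ n := by exact_mod_cast hn1
  have hp : (0 : ℝ) < n := by linarith
  have i1 : (1 : ℝ) ≤ (n : ℝ) ^ a' := Real.one_le_rpow hn (by linarith)
  have i2 : (1 : ℝ) ≤ (n : ℝ) ^ c := Real.one_le_rpow hn hc.le
  have i3 : (⌊(n : ℝ) ^ c⌋₊ : ℝ) ≤ (n : ℝ) ^ c := Nat.floor_le (by positivity)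
  have htr := B.trans_of_near hnt (hsm.mono (by linarith) le_rfl) (by
    rw [Fintype.card_fin]
    have : ((⌊(n : ℝ) ^ c⌋₊ : ℝ)) + 2 ≤ n := by linarith
    exact_mod_cast this)
  have hcj := B.conj_of_trans htr hσ (Nat.le_floor hσ2)
  have h4 : 4 ≤ σ.support.card := by
    have : (4 : ℝ) ≤ σ.support.card := e3.trans hσ1
    exact_mod_cast this
  have hsn : 3 * σ.support.card ≤ n := by
    have : (3 : ℝ) * σ.support.card ≤ n := by linarith
    exact_mod_cast this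
  refine (B.gen_bound (j := σ.support.card / 4) (by omega) (by omega)
    (by rw [Fintype.card_fin]; omega) hcj h hh).mono ?_
  rw [Fintype.card_fin]
  have j1 : (n : ℝ) ^ (c - g) ≤ 8 * ((σ.support.card / 4 : ℕ) : ℝ) := by
    have : σ.support.card ≤ 8 * (σ.support.card / 4) := by omega
    exact hσ1.trans (by exact_mod_cast this)
  have j0 : (0 : ℝ) < ((σ.support.card / 4 : ℕ) : ℝ) := by
    exact_mod_cast (by omega : 0 < σ.support.card / 4)
  have j2 : (h.support.card : ℝ) / ((σ.support.card / 4 : ℕ) : ℝ) ≤ 8 * (n : ℝ) ^ (b - c + g) := by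
    rw [div_le_iff₀ j0]
    have : (n : ℝ) ^ (b - c + g) * (n : ℝ) ^ (c - g) = (n : ℝ) ^ b := by
      rw [← Real.rpow_add hp]; ring_nf
    calc (h.support.card : ℝ) ≤ (n : ℝ) ^ (b - c + g) * (n : ℝ) ^ (c - g) := by rw [this]; exact hhs
      _ ≤ (n : ℝ) ^ (b - c + g) * (8 * ((σ.support.card / 4 : ℕ) : ℝ)) := by gcongr
      _ = _ := by ring
  have j3 : (n : ℝ) ^ g ≤ (n : ℝ) ^ (b - c + g) :=
    Real.rpow_le_rpow_of_exponent_le hn (by linarith)
  have j4 : (n : ℝ) ^ (1 + g) ≤ (n : ℝ) ^ (1 + e) :=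
    Real.rpow_le_rpow_of_exponent_le hn (by linarith)
  have j5 : (n : ℝ) ≤ (n : ℝ) ^ (1 + e) := by
    calc (n : ℝ) = (n : ℝ) ^ (1 : ℝ) := (Real.rpow_one _).symm
      _ ≤ _ := Real.rpow_le_rpow_of_exponent_le hn (by linarith)
  have j6 : (n : ℝ) ^ (b - c + g) * (n : ℝ) ^ (1 + e) = (n : ℝ) ^ (1 + (b - c + e + g)) := by
    rw [← Real.rpow_add hp]; ring_nf
  calc 100 * ((h.support.card : ℝ) / ((σ.support.card / 4 : ℕ) : ℝ) + Nat.log 2 n + 1) *
        ((n : ℝ) ^ (1 + g) + 2 * (2 * n + (n : ℝ) ^ (1 + e)))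
      ≤ 100 * (9 * (n : ℝ) ^ (b - c + g)) * (7 * (n : ℝ) ^ (1 + e)) := by
        gcongr
        · linarith
        · linarith
    _ = 6300 * (n : ℝ) ^ (1 + (b - c + e + g)) := by rw [← j6]; ring
    _ ≤ _ := e5

theorem smp_iter (B : Boxes) {δ : ℝ} (hδ : 0 < δ) (hδ1 : 2 * δ < 1 / 2) :
    ∀ k : ℕ, (k + 3) * δ < 1 / 2 → ∀ e, 6 * δ < e → SmP ((k + 2) * δ) e
  | 0, _, e, he => by
    have := (smp_base B (2 * δ) (by linarith) hδ1).mono (e' := e) (by linarith)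
    simpa using this
  | k + 1, hk, e, he => by
    push_cast at hk ⊢
    have hk0 : (0 : ℝ) ≤ k * δ := by positivity
    obtain ⟨g, hg, hg1, hg2⟩ : ∃ g : ℝ, 0 < g ∧ g ≤ δ ∧ 4 * g ≤ e - 6 * δ :=
      ⟨min δ ((e - 6 * δ) / 4), lt_min hδ (by linarith), min_le_left _ _,
        by have := min_le_right δ ((e - 6 * δ) / 4); linarith⟩
    have ih := smp_iter B hδ hδ1 k (by linarith) ((e + 6 * δ) / 2) (by linarith)
    exact (smp_step B (c := (k + 1 + 2) * δ) (b := (k + 1 + 2) * δ) (g := g) (by linarith)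
      (by linarith) (by linarith) hg (by linarith) (by linarith) le_rfl ih).mono (by linarith)

theorem diam_whp_of (B : Boxes) (ε : ℝ) (hε : 0 < ε) :
    WHP fun n ω => ∀ g : Perm (Fin n), Perm.sign g = 1 → Len ω g ((n : ℝ) ^ (3 / 2 + ε)) := by
  obtain ⟨k, hk⟩ := exists_nat_ge (6 / ε)
  have hk0 : (0 : ℝ) ≤ k := Nat.cast_nonneg _
  set δ : ℝ := 1 / (2 * (k + 5)) with hδ
  have hδ0 : 0 < δ := by positivity
  have hδ1 : (k + 5) * δ = 1 / 2 := by rw [hδ]; field_simp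
  have hkδ : (0 : ℝ) ≤ k * δ := by positivity
  have hεδ : 12 * δ ≤ ε := by
    rw [div_le_iff₀ hε] at hk
    rw [hδ, mul_one_div, div_le_iff₀ (by positivity)]
    nlinarith
  have h1 := smp_iter B hδ0 (by linarith) k (by linarith) (7 * δ) (by linarith)
  have h2 := (smp_step B (c := (k + 2) * δ) (b := 1) (g := δ) (by linarith)
    (by linarith) (by linarith) hδ0 (by linarith) (by linarith) (by linarith) h1).mono
    (e' := 1 / 2 + ε) (by linarith)
  refine WHP.mono h2 (Eventually.of_forall fun n ω hω g hg => ?_)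
  rw [show 3 / 2 + ε = 1 + (1 / 2 + ε) by ring]
  refine hω g hg ?_
  rw [Real.rpow_one]
  have := card_le_univ g.support
  rw [Fintype.card_fin] at this
  exact_mod_cast this

theorem lift_list {G : Type*} [Group G] (H : Subgroup G) (R : H → Prop) :
    ∀ l : List G, (∀ z ∈ l, ∃ y : H, (y : G) = z ∧ R y) →
      ∃ l' : List H, (∀ y ∈ l', R y) ∧ ((l'.prod : H) : G) = l.prod ∧ l'.length = l.length
  | [], _ => ⟨[], by simp, by simp, rfl⟩
  | z :: l, h => by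
    obtain ⟨y, hy, hR⟩ := h z (by simp)
    obtain ⟨l', h1, h2, h3⟩ := lift_list H R l fun x hx => h x (by simp [hx])
    refine ⟨y :: l', ?_, ?_, by simp [h3]⟩
    · intro x hx
      rcases List.mem_cons.1 hx with rfl | hx
      exacts [hR, h1 x hx]
    · rw [List.prod_cons, List.prod_cons, Subgroup.coe_mul, hy, h2]

theorem alt_of_whp {P : ∀ n : ℕ, (Bool → Perm (Fin n)) → Prop} (hP : WHP P)
    (Q : ∀ n : ℕ, alternatingGroup (Fin n) × alternatingGroup (Fin n) → Prop)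
    (h : ∀ n (p : alternatingGroup (Fin n) × alternatingGroup (Fin n)),
      P n (fun b => bif b then (p.1 : Perm (Fin n)) else p.2) → Q n p) :
    Tendsto (fun n : ℕ => (Nat.card {p // Q n p} : ℝ) /
      Nat.card (alternatingGroup (Fin n) × alternatingGroup (Fin n))) atTop (𝓝 1) := by
  classical
  have h0 : Tendsto (fun n : ℕ => 1 - 4 * av fun ω : Bool → Perm (Fin n) => ind (¬P n ω))
      atTop (𝓝 1) := by
    have := (Tendsto.const_mul 4 hP).const_sub 1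
    simpa using this
  refine tendsto_of_tendsto_of_tendsto_of_le_of_le' h0 tendsto_const_nhds ?_ ?_
  · filter_upwards [eventually_ge_atTop 2] with n hn
    have : Nontrivial (Fin n) := Fin.nontrivial_iff_two_le.2 hn
    set A := alternatingGroup (Fin n)
    have c1 : (Fintype.card (Bool → Perm (Fin n)) : ℝ) = 4 * Fintype.card (A × A) := by
      rw [Fintype.card_fun, Fintype.card_prod, ← two_mul_card_alternatingGroup, Fintype.card_bool]
      push_cast; ring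
    have c0 : (0 : ℝ) < Fintype.card (A × A) := by exact_mod_cast Fintype.card_pos
    have c2 : (univ.filter fun p : A × A => ¬Q n p).card ≤
        (univ.filter fun ω : Bool → Perm (Fin n) => ¬P n ω).card := by
      refine card_le_card_of_injOn (fun p b => bif b then (p.1 : Perm (Fin n)) else p.2) ?_ ?_
      · intro p hp
        simp only [coe_filter, mem_univ, true_and, Set.mem_ofPred_eq] at hp ⊢
        exact fun hq => hp (h n p hq)
      · intro p _ q _ hpq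
        have e1 := congrFun hpq true
        have e2 := congrFun hpq false
        simp only [cond_true, cond_false] at e1 e2
        exact Prod.ext (Subtype.ext e1) (Subtype.ext e2)
    have c3 := card_filter_add_card_filter_not (s := (univ : Finset (A × A))) (Q n)
    rw [card_univ] at c3
    rw [Nat.card_eq_fintype_card, Nat.card_eq_fintype_card, Fintype.card_subtype, av,
      sum_ind_eq_card, c1, le_div_iff₀ c0]
    have c4 : ((univ.filter fun p : A × A => Q n p).card : ℝ) +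
        (univ.filter fun p : A × A => ¬Q n p).card = Fintype.card (A × A) := by exact_mod_cast c3
    have c5 : ((univ.filter fun p : A × A => ¬Q n p).card : ℝ) ≤
        (univ.filter fun ω : Bool → Perm (Fin n) => ¬P n ω).card := by exact_mod_cast c2
    have c6 : ∀ x : ℝ, (1 - 4 * (x / (4 * Fintype.card (A × A)))) * Fintype.card (A × A) =
        Fintype.card (A × A) - x := fun x => by field_simp
    rw [c6]; linarith
  · refine Eventually.of_forall fun n => ?_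
    refine div_le_one_of_le₀ ?_ (Nat.cast_nonneg _)
    exact_mod_cast Finite.card_subtype_le _

theorem diam_alt_of (B : Boxes) (ε : ℝ) (hε : 0 < ε) :
    Tendsto (fun n : ℕ =>
      (Nat.card {p : alternatingGroup (Fin n) × alternatingGroup (Fin n) //
        ∀ g : alternatingGroup (Fin n), ∃ l : List (alternatingGroup (Fin n)),
          (∀ z ∈ l, z = p.1 ∨ z = p.2 ∨ z = p.1⁻¹ ∨ z = p.2⁻¹) ∧ l.prod = g ∧
            (l.length : ℝ) ≤ (n : ℝ) ^ (3 / 2 + ε)} : ℝ) /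
        Nat.card (alternatingGroup (Fin n) × alternatingGroup (Fin n))) atTop (𝓝 1) := by
  refine alt_of_whp (diam_whp_of B ε hε) _ fun n p hp g => ?_
  obtain ⟨l, h1, h2, h3⟩ := hp g (Perm.mem_alternatingGroup.1 g.2)
  obtain ⟨l', i1, i2, i3⟩ := lift_list (alternatingGroup (Fin n))
    (fun z => z = p.1 ∨ z = p.2 ∨ z = p.1⁻¹ ∨ z = p.2⁻¹) l fun z hz => by
      rcases h1 z hz with h | h | h | h
      · exact ⟨p.1, h.symm, Or.inl rfl⟩
      · exact ⟨p.2, h.symm, Or.inr (Or.inl rfl)⟩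
      · exact ⟨p.1⁻¹, h.symm, Or.inr (Or.inr (Or.inl rfl))⟩
      · exact ⟨p.2⁻¹, h.symm, Or.inr (Or.inr (Or.inr rfl))⟩
  exact ⟨l', i1, Subtype.ext (i2.trans h2), by rw [i3]; exact h3⟩

end Pool.Agent.Lib.MP_8a89f5_al
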