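import Pool.Agent.Lib.MP_8a89f5_al.Basic

/-!
Adaptive queries to random permutations: the hitting lemma, proved by switching.
-/

namespace Pool.Agent.Lib.MP_8a89f5_al

open Finset Equiv

/-- A space of configurations answering queries, in which the answer to one query can be
switched to a prescribed value. -/
structure Switch (Ω Q V : Type*) where
  ans : Ω → Q → V
  sw : Ω → Q → V → Ω
  ans_sw : ∀ ω q c, ans (sw ω q c) q = c
  ans_sw_ne : ∀ ω q c q', q' ≠ q → ans ω q' ≠ c → ans (sw ω q c) q' = ans ω q'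
  sw_sw : ∀ ω q c, sw (sw ω q c) q (ans ω q) = ω

/-- The switching structure on permutations. -/
def permSwitch (α : Type*) [DecidableEq α] : Switch (Perm α) α α where
  ans π p := π p
  sw π p c := swap (π p) c * π
  ans_sw π p c := by simp
  ans_sw_ne π p c p' h1 h2 := by
    simp only [Perm.coe_mul, Function.comp_apply]
    exact swap_apply_of_ne_of_ne (fun h => h1 (π.injective h)) h2
  sw_sw π p c := by
    simp only [Perm.coe_mul, Function.comp_apply, swap_apply_left]
    rw [← mul_assoc, swap_comm c, swap_mul_self, one_mul]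

/-- The switching structure on pairs of permutations. -/
def pairSwitch (α : Type*) [DecidableEq α] : Switch (Bool → Perm α) (Bool × α) α where
  ans ω q := ω q.1 q.2
  sw ω q c := Function.update ω q.1 (swap (ω q.1 q.2) c * ω q.1)
  ans_sw ω q c := by simp
  ans_sw_ne ω q c q' h1 h2 := by
    by_cases h : q'.1 = q.1
    · rw [h, Function.update_self]
      simp only [Perm.coe_mul, Function.comp_apply]
      rw [h] at h2
      refine swap_apply_of_ne_of_ne (fun h' => h1 (Prod.ext h ((ω q.1).injective h'))) h2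
    · rw [Function.update_of_ne h]
  sw_sw ω q c := by
    simp only [Function.update_self, Function.update_idem, Perm.coe_mul, Function.comp_apply,
      swap_apply_left]
    rw [← mul_assoc, swap_comm c, swap_mul_self, one_mul, Function.update_eq_self]

/-- Step `t` is a hit: its query is new and its answer lies in the target set. -/
def Hit {Ω Q V ι : Type*} (W : Switch Ω Q V) (ρ : ι → ℕ) (q : ι → Ω → Q)
    (Old : ι → Ω → Finset V) (t : ι) (ω : Ω) : Prop :=
  (∀ t', t' ≠ t → ρ t' ≤ ρ t → q t' ω ≠ q t ω) ∧ W.ans ω (q t ω) ∈ Old t ω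

theorem hit_bound {Ω Q V ι : Type*} [Fintype Ω] [Fintype V] [Fintype ι] (W : Switch Ω Q V)
    (ρ : ι → ℕ) (q : ι → Ω → Q) (Old : ι → Ω → Finset V) (B : ℝ)
    (hB : ∀ t ω, ((Old t ω).card : ℝ) ≤ B) (hB0 : 0 ≤ B)
    (det : ∀ t ω ω', (∀ t', ρ t' < ρ t → W.ans ω' (q t' ω) = W.ans ω (q t' ω)) →
      q t ω' = q t ω ∧ Old t ω' = Old t ω)
    (hV : Fintype.card ι < Fintype.card V) (S : Finset ι) :
    av (fun ω => ind (∀ t ∈ S, Hit W ρ q Old t ω)) ≤
      (B / (Fintype.card V - Fintype.card ι)) ^ S.card := by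
  classical
  have hpos : (0 : ℝ) < Fintype.card V - Fintype.card ι := by
    have : (Fintype.card ι : ℝ) < Fintype.card V := by exact_mod_cast hV
    linarith
  induction S using Finset.induction_on_max_value ρ with
  | empty => simpa using av_le_const zero_le_one fun ω => ind_le_one _
  | insert t S ht hmax ih =>
    rw [card_insert_of_notMem ht, pow_succ]
    refine le_trans ?_ (mul_le_mul_of_nonneg_right ih (div_nonneg hB0 hpos.le))
    set A : Ω → Prop := fun ω => ∀ t ∈ S, Hit W ρ q Old t ω with hA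
    set H : Ω → Prop := fun ω => ∀ t' ∈ insert t S, Hit W ρ q Old t' ω with hH
    let X : Finset (Ω × V) := univ.filter fun z => H z.1 ∧ ∀ t', W.ans z.1 (q t' z.1) ≠ z.2
    let Y : Finset (Ω × V) := univ.filter fun z => A z.1 ∧ z.2 ∈ Old t z.1
    have key : ∀ ω c, H ω → (∀ t', W.ans ω (q t' ω) ≠ c) →
        (∀ t', t' ≠ t → ρ t' ≤ ρ t →
          W.ans (W.sw ω (q t ω) c) (q t' ω) = W.ans ω (q t' ω)) ∧
        ∀ t', ρ t' ≤ ρ t → q t' (W.sw ω (q t ω) c) = q t' ω ∧
          Old t' (W.sw ω (q t ω) c) = Old t' ω := by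
      intro ω c hω hc
      have h1 : ∀ t', t' ≠ t → ρ t' ≤ ρ t →
          W.ans (W.sw ω (q t ω) c) (q t' ω) = W.ans ω (q t' ω) := fun t' h1 h2 =>
        W.ans_sw_ne _ _ _ _ ((hω t (mem_insert_self _ _)).1 t' h1 h2) (hc t')
      refine ⟨h1, fun t' h2 => det t' _ _ fun t'' h3 => h1 t'' ?_ (h3.le.trans h2)⟩
      rintro rfl
      omega
    have hXY : X.card ≤ Y.card := by
      refine card_le_card_of_injOn (fun z => (W.sw z.1 (q t z.1) z.2, W.ans z.1 (q t z.1))) ?_ ?_
      · rintro ⟨ω, c⟩ hz
        simp only [X, coe_filter, mem_univ, true_and, Set.mem_ofPred_eq] at hz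
        obtain ⟨h1, h2⟩ := key ω c hz.1 hz.2
        simp only [Y, coe_filter, mem_univ, true_and, Set.mem_ofPred_eq]
        refine ⟨fun t' ht' => ?_, ?_⟩
        · have h3 := hz.1 t' (mem_insert_of_mem ht')
          have h4 := hmax t' ht'
          have h5 : t' ≠ t := fun h => ht (h ▸ ht')
          refine ⟨fun t'' h6 h7 => ?_, ?_⟩
          · rw [(h2 t'' (h7.trans h4)).1, (h2 t' h4).1]; exact h3.1 t'' h6 h7
          · rw [(h2 t' h4).1, (h2 t' h4).2, h1 t' h5 h4]; exact h3.2
        · rw [(h2 t le_rfl).2]; exact (hz.1 t (mem_insert_self _ _)).2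
      · rintro ⟨ω, c⟩ hz ⟨ω', c'⟩ hz' he
        simp only [X, coe_filter, mem_univ, true_and, Set.mem_ofPred_eq] at hz hz'
        simp only [Prod.mk.injEq] at he
        have e1 := ((key ω c hz.1 hz.2).2 t le_rfl).1
        have e2 := ((key ω' c' hz'.1 hz'.2).2 t le_rfl).1
        have e3 : q t ω = q t ω' := by rw [← e1, ← e2, he.1]
        have e4 : ω = ω' := by
          rw [← W.sw_sw ω (q t ω) c, ← W.sw_sw ω' (q t ω') c', he.1, he.2, e3]
        have e5 : c = c' := by
          rw [← W.ans_sw ω (q t ω) c, ← W.ans_sw ω' (q t ω') c', he.1, e3]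
        rw [e4, e5]
    have hX : (∑ ω, ind (H ω)) * ((Fintype.card V : ℝ) - Fintype.card ι) ≤ X.card := by
      rw [← sum_ind_eq_card, Fintype.sum_prod_type, sum_mul]
      refine sum_le_sum fun ω _ => ?_
      simp only [ind_and, ← mul_sum]
      refine mul_le_mul_of_nonneg_left ?_ (ind_nonneg _)
      rw [sum_ind_eq_card]
      have h1 : (univ.filter fun c => ∀ t', W.ans ω (q t' ω) ≠ c) =
          univ \ univ.image fun t' => W.ans ω (q t' ω) := by
        ext c; simp
      rw [h1, card_univ_sdiff, Nat.cast_sub (card_le_univ _)]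
      have h2 : (univ.image fun t' => W.ans ω (q t' ω)).card ≤ Fintype.card ι :=
        card_image_le.trans (card_univ (α := ι)).le
      have : ((univ.image fun t' => W.ans ω (q t' ω)).card : ℝ) ≤ Fintype.card ι := by
        exact_mod_cast h2
      linarith
    have hY : (Y.card : ℝ) ≤ (∑ ω, ind (A ω)) * B := by
      rw [← sum_ind_eq_card, Fintype.sum_prod_type, sum_mul]
      refine sum_le_sum fun ω _ => ?_
      simp only [ind_and, ← mul_sum]
      refine mul_le_mul_of_nonneg_left ?_ (ind_nonneg _)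
      rw [sum_ind_eq_card]
      simpa using hB t ω
    have hXY' : (X.card : ℝ) ≤ Y.card := by exact_mod_cast hXY
    have h3 : ∑ ω, ind (H ω) ≤ (∑ ω, ind (A ω)) * (B / (Fintype.card V - Fintype.card ι)) := by
      rw [← mul_div_assoc, le_div_iff₀ hpos]; linarith
    simp only [av]
    rw [div_mul_eq_mul_div]
    exact div_le_div_of_nonneg_right h3 (Nat.cast_nonneg _)

end Pool.Agent.Lib.MP_8a89f5_al
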