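import Pool.Agent.Lib.MP_8a89f5_al.Defs

/-!
Cycles of permutations: the law of the cycle length, conditioning on a cycle, induced permutations.
-/

namespace Pool.Agent.Lib.MP_8a89f5_al

open Finset Equiv

variable {α : Type*} [Fintype α] [DecidableEq α]

/-- The cycle of `σ` through `a`, as a set of points. -/
def cyc (σ : Perm α) (a : α) : Finset α := univ.filter (σ.SameCycle a)

theorem mem_cyc {σ : Perm α} {a b : α} : b ∈ cyc σ a ↔ σ.SameCycle a b := by simp [cyc]

theorem mem_cyc_iff {σ : Perm α} {a b : α} : b ∈ cyc σ a ↔ ∃ i : ℕ, (σ ^ i) a = b :=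
  mem_cyc.trans ⟨fun h => h.exists_nat_pow_eq, fun ⟨i, hi⟩ => ⟨i, by simpa using hi⟩⟩

theorem self_mem_cyc (σ : Perm α) (a : α) : a ∈ cyc σ a := mem_cyc.2 (Perm.SameCycle.refl _ _)

theorem cyc_eq_of_mem {σ : Perm α} {a b : α} (h : b ∈ cyc σ a) : cyc σ b = cyc σ a := by
  ext c
  rw [mem_cyc] at h
  simp only [mem_cyc]
  exact ⟨fun h' => h.trans h', fun h' => h.symm.trans h'⟩

theorem per_pos (σ : Perm α) (a : α) : 0 < Function.minimalPeriod σ a :=
  Function.minimalPeriod_pos_of_mem_periodicPts (Function.mk_mem_periodicPts (orderOf_pos σ) (by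
    show σ^[orderOf σ] a = a
    rw [Perm.iterate_eq_pow, pow_orderOf_eq_one]; rfl))

theorem card_cyc (σ : Perm α) (a : α) : (cyc σ a).card = Function.minimalPeriod σ a := by
  have : cyc σ a = (range (Function.minimalPeriod σ a)).image fun i => σ^[i] a := by
    ext b
    simp only [mem_cyc_iff, mem_image, mem_range]
    constructor
    · rintro ⟨i, rfl⟩
      exact ⟨i % _, Nat.mod_lt _ (per_pos σ a), by
        rw [Function.iterate_mod_minimalPeriod_eq, Perm.iterate_eq_pow]⟩
    · rintro ⟨i, -, rfl⟩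
      exact ⟨i, by rw [Perm.iterate_eq_pow]⟩
  rw [this, card_image_of_injOn, card_range]
  intro i hi j hj e
  exact Function.iterate_injOn_Iio_minimalPeriod (f := σ) (x := a) (by simpa using hi)
    (by simpa using hj) e

theorem card_cyc_pos (σ : Perm α) (a : α) : 0 < (cyc σ a).card := card_pos.2 ⟨a, self_mem_cyc σ a⟩

theorem pow_eq_self_iff {σ : Perm α} {a : α} {l : ℕ} : (σ ^ l) a = a ↔ (cyc σ a).card ∣ l := by
  rw [card_cyc, ← Function.isPeriodicPt_iff_minimalPeriod_dvd, Function.IsPeriodicPt,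
    Function.IsFixedPt, Perm.iterate_eq_pow]

theorem pow_card_cyc {σ : Perm α} {a b : α} (h : b ∈ cyc σ a) : (σ ^ (cyc σ a).card) b = b := by
  rw [pow_eq_self_iff, cyc_eq_of_mem h]

theorem av_apply_eq (a b : α) : av (fun g : Perm α => ind (g a = b)) = 1 / Fintype.card α := by
  have : Nonempty α := ⟨a⟩
  have h := av_smul (G := Perm α) (τ := α) (fun x y => ⟨swap x y, by simp⟩) a
    (fun c => ind (b = c))
  rw [av_ind_eq] at h
  rw [← h]
  exact congrArg av (funext fun g => ind_congr eq_comm)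

/-- The cycle through a given point has a given length with probability at most `1 / n`. -/
theorem law_le (a : α) (l : ℕ) :
    av (fun σ : Perm α => ind ((cyc σ a).card = l)) ≤ 1 / Fintype.card α := by
  rcases l with _ | t
  · exact av_le_const (by positivity) fun σ => by
      rw [ind_neg (card_cyc_pos σ a).ne']; positivity
  let rot : (Fin (t + 1) ↪ α) → (Fin (t + 1) ↪ α) := fun e => (finRotate (t + 1)).toEmbedding.trans e
  have h1 : ∀ σ : Perm α, ind ((cyc σ a).card = t + 1) ≤
      ∑ e : Fin (t + 1) ↪ α, ind (e 0 = a) * ind (rot e = σ • e) := by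
    intro σ
    simp only [← ind_and]
    refine ind_le_sum _ _ fun h => ?_
    rw [card_cyc] at h
    refine ⟨⟨fun i => σ^[i] a, fun i j e => Fin.ext ?_⟩, mem_univ _, rfl, ?_⟩
    · exact Function.iterate_injOn_Iio_minimalPeriod (f := σ) (x := a)
        (by rw [h]; exact i.2) (by rw [h]; exact j.2) e
    · ext i
      simp only [rot, Function.Embedding.trans_apply, Equiv.coe_toEmbedding,
        finRotate_apply, Function.Embedding.coeFn_mk, Function.Embedding.smul_apply,
        Perm.smul_def]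
      rw [← Function.iterate_succ_apply' σ, Fin.val_add, Fin.val_one', Nat.add_mod_mod]
      have := Function.iterate_mod_minimalPeriod_eq (f := σ) (x := a) (n := i + 1)
      rwa [h] at this
  rcases isEmpty_or_nonempty (Fin (t + 1) ↪ α) with h0 | h0
  · exact av_le_const (by positivity) fun σ => (h1 σ).trans (by simp)
  obtain ⟨e0⟩ := h0
  have : Nonempty (Fin (t + 1) ↪ α) := ⟨e0⟩
  refine (av_mono h1).trans (le_of_eq ?_)
  rw [av_sum]
  have h2 : ∀ e : Fin (t + 1) ↪ α, av (fun σ : Perm α => ind (e 0 = a) * ind (rot e = σ • e)) =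
      ind (e 0 = a) / Fintype.card (Fin (t + 1) ↪ α) := by
    intro e
    rw [av_mul_left, av_smul (G := Perm α) Perm.exists_smul_eq_embedding e
      (fun e' => ind (rot e = e')), av_ind_eq]
    ring
  simp only [h2]
  rw [← sum_div, ← av_apply_eq (e0 0) a]
  exact (av_smul (G := Perm α) Perm.exists_smul_eq_embedding e0 (fun e => ind (e 0 = a))).symm

theorem law_set (a : α) (J : Finset ℕ) :
    av (fun σ : Perm α => ind ((cyc σ a).card ∈ J)) ≤ J.card / Fintype.card α := by
  calc _ ≤ av (fun σ : Perm α => ∑ l ∈ J, ind ((cyc σ a).card = l)) :=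
        av_mono fun σ => ind_le_sum _ _ fun h => ⟨_, h, rfl⟩
    _ ≤ ∑ l ∈ J, (1 / Fintype.card α : ℝ) := by
        rw [av_sum]; exact sum_le_sum fun l _ => law_le a l
    _ = _ := by simp [div_eq_mul_inv]

theorem law_small (a : α) {x : ℝ} (hx : 0 ≤ x) :
    av (fun σ : Perm α => ind (((cyc σ a).card : ℝ) ≤ x)) ≤ x / Fintype.card α := by
  refine le_trans (av_mono fun σ => ind_mono fun h => ?_) ((law_set a (Icc 1 ⌊x⌋₊)).trans ?_)
  · exact mem_Icc.2 ⟨card_cyc_pos σ a, Nat.le_floor h⟩
  · refine div_le_div_of_nonneg_right ?_ (Nat.cast_nonneg _)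
    simpa using Nat.floor_le hx

theorem law_big (a : α) {x : ℝ} (hx : x ≤ Fintype.card α) :
    av (fun σ : Perm α => ind (x ≤ ((cyc σ a).card : ℝ))) ≤
      (Fintype.card α - x + 1) / Fintype.card α := by
  refine le_trans (av_mono fun σ => ind_mono fun h => ?_)
    ((law_set a (Icc ⌈x⌉₊ (Fintype.card α))).trans ?_)
  · exact mem_Icc.2 ⟨Nat.ceil_le.2 h, card_le_univ _⟩
  · refine div_le_div_of_nonneg_right ?_ (Nat.cast_nonneg _)
    have h1 : ⌈x⌉₊ ≤ Fintype.card α := Nat.ceil_le.2 hx
    rw [Nat.card_Icc, Nat.cast_sub (by omega)]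
    push_cast
    linarith [Nat.le_ceil x]

/-- A property of cycles that forces them to be long. -/
theorem ind_exists_cyc (σ : Perm α) (Q : Finset α → Prop) {c : ℝ} (hc : 0 < c)
    (h : ∀ B, Q B → c ≤ B.card) :
    ind (∃ a, Q (cyc σ a)) ≤ (∑ a, ind (Q (cyc σ a))) / c := by
  refine ind_le_of (div_nonneg (sum_nonneg fun _ _ => ind_nonneg _) hc.le) fun ⟨a, ha⟩ => ?_
  rw [one_le_div hc]
  calc c ≤ (cyc σ a).card := h _ ha
    _ = ∑ b ∈ cyc σ a, ind (Q (cyc σ b)) := by
        rw [sum_congr rfl fun b hb => ind_pos (by rwa [cyc_eq_of_mem hb])]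
        simp
    _ ≤ _ := sum_le_sum_of_subset_of_nonneg (subset_univ _) fun _ _ _ => ind_nonneg _

theorem cyc_mul {σ g : Perm α} {a : α} (h : ∀ b ∈ cyc σ a, g b = b) :
    cyc (σ * g) a = cyc σ a := by
  have : ∀ i : ℕ, ((σ * g) ^ i) a = (σ ^ i) a := by
    intro i
    induction i with
    | zero => rfl
    | succ i ih =>
      rw [pow_succ', pow_succ', Perm.mul_apply, ih, Perm.mul_apply, Perm.mul_apply,
        h _ (mem_cyc_iff.2 ⟨i, rfl⟩)]
  ext b
  simp only [mem_cyc_iff, this]

/-- Conditioning on the cycle through `a`: the permutation is rerandomised off the cycle. -/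
theorem cond_le (a : α) (ψ : Finset α → Perm α → ℝ) (B : Finset α → ℝ)
    (h : ∀ C π, cyc π a = C →
      av (fun g : Perm {x // x ∉ C} => ψ C (π * Perm.ofSubtype g)) ≤ B C) :
    av (fun π => ψ (cyc π a) π) ≤ av (fun π : Perm α => B (cyc π a)) := by
  have e1 : ∀ (φ : Finset α → Perm α → ℝ), av (fun π => φ (cyc π a) π) =
      ∑ C, av (fun π => ind (cyc π a = C) * φ C π) := by
    intro φ
    rw [← av_sum]
    exact congrArg av (funext fun π => (sum_ind_eq _ fun C => φ C π).symm)
  rw [e1 ψ, e1 fun C _ => B C]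
  refine sum_le_sum fun C _ => ?_
  have e2 : ∀ g : Perm {x // x ∉ C}, av (fun π => ind (cyc π a = C) * ψ C π) =
      av (fun π => ind (cyc π a = C) * ψ C (π * Perm.ofSubtype g)) := by
    intro g
    rw [← av_equiv (Equiv.mulRight (Perm.ofSubtype g))]
    refine congrArg av (funext fun π => ?_)
    simp only [Equiv.coe_mulRight]
    congr 1
    refine ind_congr ⟨fun e => ?_, fun e => ?_⟩
    · have := cyc_mul (σ := π * Perm.ofSubtype g) (g := Perm.ofSubtype g⁻¹) (a := a)
        fun b hb => Perm.ofSubtype_apply_of_not_mem _ (by rw [e] at hb; simpa using hb)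
      rw [mul_assoc, ← map_mul, mul_inv_cancel, map_one, mul_one] at this
      rw [this, e]
    · rw [cyc_mul fun b hb => Perm.ofSubtype_apply_of_not_mem _ (by rw [e] at hb; simpa using hb),
        e]
  calc _ = av (fun g : Perm {x // x ∉ C} =>
        av (fun π => ind (cyc π a = C) * ψ C (π * Perm.ofSubtype g))) := by
        simp only [← e2]; rw [av_const]
    _ = av (fun π => av (fun g : Perm {x // x ∉ C} =>
        ind (cyc π a = C) * ψ C (π * Perm.ofSubtype g))) := av_comm _
    _ ≤ _ := av_mono fun π => by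
        rw [av_mul_left]
        by_cases hπ : cyc π a = C
        · exact mul_le_mul_of_nonneg_left (h C π hπ) (ind_nonneg _)
        · simp [ind_neg hπ]

omit [Fintype α] in
theorem skip_pow (σ : Perm α) (v a : α) (ha : a ≠ v) (i : ℕ) :
    (σ ^ i) a ≠ v → ∃ j : ℕ, ((swap v (σ v) * σ) ^ j) a = (σ ^ i) a := by
  induction i using Nat.strong_induction_on with
  | _ i ih =>
    intro hi
    rcases i with _ | i
    · exact ⟨0, rfl⟩
    rw [pow_succ', Perm.mul_apply] at hi ⊢
    by_cases h1 : (σ ^ i) a = v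
    · rcases i with _ | i
      · exact absurd h1 ha
      have h2 : (σ ^ i) a ≠ v := by
        intro e
        rw [pow_succ', Perm.mul_apply, e] at h1
        rw [pow_succ', Perm.mul_apply, e, h1, h1] at hi
        exact hi rfl
      obtain ⟨j, hj⟩ := ih i (by omega) h2
      refine ⟨j + 1, ?_⟩
      rw [h1, pow_succ', Perm.mul_apply, hj, Perm.mul_apply]
      rw [pow_succ', Perm.mul_apply] at h1
      rw [h1, swap_apply_left]
    · obtain ⟨j, hj⟩ := ih i (by omega) h1
      refine ⟨j + 1, ?_⟩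
      rw [pow_succ', Perm.mul_apply, hj, Perm.mul_apply,
        swap_apply_of_ne_of_ne hi fun e => h1 (σ.injective e)]

theorem exists_induced_aux (F : α → Prop) [DecidablePred F] (N : ℕ) : ∀ τ : Perm α,
    (univ.filter fun v => ¬F v ∧ τ v ≠ v).card ≤ N → ∃ ι : Perm α, (∀ v, ¬F v → ι v = v) ∧
      ∀ g : Perm α, (∀ v, ¬F v → g v = v) → ∀ a b, F a → F b → b ∈ cyc (τ * g) a →
        b ∈ cyc (ι * g) a := by
  induction N with
  | zero =>
    intro τ h
    refine ⟨τ, fun v hv => ?_, fun _ _ _ _ _ _ h => h⟩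
    by_contra hne
    have := card_pos.2 ⟨v, (mem_filter (s := univ) (p := fun v => ¬F v ∧ τ v ≠ v)).2
      ⟨mem_univ _, hv, hne⟩⟩
    omega
  | succ N ih =>
    intro τ h
    by_cases h0 : ∀ v, ¬F v → τ v = v
    · exact ⟨τ, h0, fun _ _ _ _ _ _ h => h⟩
    push Not at h0
    obtain ⟨v, hv, hne⟩ := h0
    obtain ⟨ι, h1, h2⟩ := ih (swap v (τ v) * τ) (by
      have : (univ.filter fun u => ¬F u ∧ (swap v (τ v) * τ) u ≠ u) ⊆
          (univ.filter fun u => ¬F u ∧ τ u ≠ u).erase v := by
        intro u hu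
        simp only [mem_filter, mem_univ, true_and, Perm.mul_apply, mem_erase] at hu ⊢
        refine ⟨fun e => hu.2 (by rw [e, swap_apply_right]), hu.1, fun e => hu.2 ?_⟩
        rw [e]
        refine swap_apply_of_ne_of_ne (fun e' => hne (by rw [← e', e])) fun e' => ?_
        have : u = v := τ.injective (e.trans e')
        exact hne (by rw [← e', this])
      have h3 := card_le_card this
      rw [card_erase_of_mem (by simp [hv, hne])] at h3
      omega)
    refine ⟨ι, h1, fun g hg a b ha hb hab => h2 g hg a b ha hb ?_⟩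
    obtain ⟨i, rfl⟩ := mem_cyc_iff.1 hab
    obtain ⟨j, hj⟩ := skip_pow (τ * g) v a (fun e => hv (e ▸ ha)) i (fun e => hv (e ▸ hb))
    rw [Perm.mul_apply, hg v hv, ← mul_assoc] at hj
    exact mem_cyc_iff.2 ⟨j, hj⟩

/-- The permutation induced on a subset. -/
theorem exists_induced (F : α → Prop) [DecidablePred F] (τ : Perm α) :
    ∃ ι : Perm {x // F x}, ∀ (g : Perm {x // F x}) (a b : {x // F x}),
      b.1 ∈ cyc (τ * Perm.ofSubtype g) a.1 → b ∈ cyc (ι * g) a := by
  obtain ⟨ι, h1, h2⟩ := exists_induced_aux F _ τ le_rfl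
  have h3 : ∀ x, F (ι x) ↔ F x := by
    intro x
    constructor
    · intro h
      by_contra hx
      rw [h1 x hx] at h
      exact hx h
    · intro h
      by_contra hx
      have := ι.injective (h1 _ hx)
      rw [this] at hx
      exact hx h
  refine ⟨ι.subtypePerm h3, fun g a b hab => ?_⟩
  have := h2 (Perm.ofSubtype g) (fun v hv => Perm.ofSubtype_apply_of_not_mem _ hv) a b a.2 b.2 hab
  rw [← Perm.ofSubtype_subtypePerm h3 (fun x hx => by_contra fun h => hx (h1 x h)),
    ← map_mul] at this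
  obtain ⟨i, hi⟩ := mem_cyc_iff.1 this
  rw [← map_pow, Perm.ofSubtype_apply_coe] at hi
  exact mem_cyc_iff.2 ⟨i, Subtype.ext hi⟩

end Pool.Agent.Lib.MP_8a89f5_al
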