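import Pool.Agent.Lib.MP_8a89f5_al.LcA

/-!
Weighted cycles of a random permutation, and long cycles of `τ g` with `g` random on a subset.
-/

namespace Pool.Agent.Lib.MP_8a89f5_al

open Finset Equiv

variable {α : Type*} [Fintype α] [DecidableEq α]

theorem cov_nonpos (u : α → ℝ) (hu : ∑ c, u c = 0) {b b' : α} (hb : b' ≠ b) :
    av (fun h : Perm α => u (h b) * u (h b')) ≤ 0 := by
  have h1 : ∀ c, c ≠ b → av (fun h : Perm α => u (h b) * u (h c)) =
      av (fun h : Perm α => u (h b) * u (h b')) := by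
    intro c hc
    rw [← av_equiv (Equiv.mulRight (swap c b'))]
    simp only [Equiv.coe_mulRight, Perm.mul_apply, swap_apply_right,
      swap_apply_of_ne_of_ne hc.symm hb.symm, swap_apply_left]
  have h2 : ∑ c, av (fun h : Perm α => u (h b) * u (h c)) = 0 := by
    rw [← av_sum]
    have : ∀ h : Perm α, ∑ c, u (h b) * u (h c) = 0 := fun h => by
      rw [← mul_sum, Equiv.sum_comp h u, hu, mul_zero]
    simp only [this, av_zero]
  rw [← add_sum_erase _ _ (mem_univ b), sum_congr rfl fun c hc => h1 c (ne_of_mem_erase hc),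
    sum_const, nsmul_eq_mul] at h2
  have h3 : 0 ≤ av (fun h : Perm α => u (h b) * u (h b)) := av_nonneg fun h => mul_self_nonneg _
  have h4 : (0 : ℝ) < (univ.erase b).card := by
    exact_mod_cast card_pos.2 ⟨b', mem_erase.2 ⟨hb, mem_univ _⟩⟩
  by_contra hpos
  push Not at hpos
  nlinarith [mul_pos h4 hpos]

theorem var_le (u : α → ℝ) (hu : ∑ c, u c = 0) {K : ℝ} (hK : ∀ c, |u c| ≤ K) (B : Finset α) :
    av (fun h : Perm α => (∑ b ∈ B, u (h b)) ^ 2) ≤ B.card * K ^ 2 := by
  simp only [sq, sum_mul_sum]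
  rw [av_sum]
  calc _ ≤ ∑ b ∈ B, K * K := sum_le_sum fun b hb => by
        rw [av_sum, ← add_sum_erase _ _ hb]
        have h1 : av (fun h : Perm α => u (h b) * u (h b)) ≤ K * K :=
          av_le_const' fun h => by
            rw [← abs_mul_abs_self]
            exact mul_self_le_mul_self (abs_nonneg _) (hK _)
        have h2 : ∑ c ∈ B.erase b, av (fun h : Perm α => u (h b) * u (h c)) ≤ 0 :=
          sum_nonpos fun c hc => cov_nonpos u hu (ne_of_mem_erase hc)
        linarith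
    _ = _ := by simp

theorem cheb (w : α → ℝ) {K n θ ε : ℝ} (h0 : ∀ c, 0 ≤ w c) (hK : ∀ c, w c ≤ K)
    (hn : ∑ c, w c ≤ n) (hn0 : 0 < n) (hε : 0 < ε) (hθ : 0 ≤ θ) (B : Finset α)
    (hB : (B.card : ℝ) ≤ θ * Fintype.card α) :
    av (fun h : Perm α => ind ((θ + ε) * n ≤ ∑ b ∈ B, w (h b))) ≤
      Fintype.card α * K ^ 2 / (ε * n) ^ 2 := by
  rcases isEmpty_or_nonempty α with hα | hα
  · refine av_le_const (by positivity) fun h => ?_
    rw [ind_neg]
    · positivity
    · rw [Subsingleton.elim B ∅, sum_empty]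
      nlinarith [mul_pos hε hn0, mul_nonneg hθ hn0.le]
  have hm : (0 : ℝ) < Fintype.card α := by exact_mod_cast Fintype.card_pos
  obtain ⟨μ, hμ⟩ : ∃ μ, μ = (∑ c, w c) / Fintype.card α := ⟨_, rfl⟩
  have hμ0 : 0 ≤ μ := hμ ▸ div_nonneg (sum_nonneg fun c _ => h0 c) hm.le
  have hμK : μ ≤ K := by
    rw [hμ, div_le_iff₀ hm]
    calc _ ≤ ∑ c : α, K := sum_le_sum fun c _ => hK c
      _ = _ := by simp [mul_comm]
  have hμn : μ * Fintype.card α ≤ n := by rw [hμ, div_mul_cancel₀ _ hm.ne']; exact hn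
  have hv := var_le (fun c => w c - μ) (by
    rw [sum_sub_distrib, sum_const, card_univ, nsmul_eq_mul, hμ]; field_simp; ring)
    (K := K) (fun c => abs_le.2 ⟨by linarith [h0 c], by linarith [hK c]⟩) B
  have hB' : (B.card : ℝ) ≤ Fintype.card α := by exact_mod_cast card_le_univ B
  refine le_trans (av_mono fun h => ind_mono fun hh => ?_)
    ((av_markov (f := fun h : Perm α => (∑ b ∈ B, (w (h b) - μ)) ^ 2) (fun h => sq_nonneg _)
      (c := (ε * n) ^ 2) (by positivity)).trans
      (div_le_div_of_nonneg_right (hv.trans (by gcongr)) (by positivity)))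
  refine pow_le_pow_left₀ (by positivity) ?_ 2
  rw [sum_sub_distrib, sum_const, nsmul_eq_mul]
  have : (B.card : ℝ) * μ ≤ θ * n := by
    calc (B.card : ℝ) * μ ≤ θ * Fintype.card α * μ := by gcongr
      _ = θ * (μ * Fintype.card α) := by ring
      _ ≤ θ * n := by gcongr
  linarith

theorem cyc_conj (s h : Perm α) (a : α) : cyc (h * s * h⁻¹) (h a) = (cyc s a).map h.toEmbedding := by
  ext b
  rw [mem_cyc, Perm.sameCycle_conj, mem_map_equiv, mem_cyc]
  simp [Perm.inv_def]

theorem sum_cyc_le (Q : Finset α → Prop) {c : ℝ}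
    (hQ : ∀ B : Finset α, av (fun h : Perm α => ind (Q (B.map h.toEmbedding))) ≤ c) :
    av (fun s : Perm α => ∑ a, ind (Q (cyc s a))) ≤ Fintype.card α * c := by
  have h1 : ∀ h : Perm α, av (fun s : Perm α => ∑ a, ind (Q (cyc s a))) =
      av (fun s : Perm α => ∑ a, ind (Q ((cyc s a).map h.toEmbedding))) := by
    intro h
    rw [← av_equiv (MulAut.conj h).toEquiv]
    refine congrArg av (funext fun s => ?_)
    rw [← Equiv.sum_comp h]
    simp only [← cyc_conj]
    rfl
  calc _ = av (fun h : Perm α =>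
        av (fun s : Perm α => ∑ a, ind (Q ((cyc s a).map h.toEmbedding)))) := by
        simp only [← h1]; rw [av_const]
    _ = av (fun s : Perm α =>
        av (fun h : Perm α => ∑ a, ind (Q ((cyc s a).map h.toEmbedding)))) := av_comm _
    _ ≤ _ := av_le_const' fun s => by
        rw [av_sum]
        calc _ ≤ ∑ a : α, c := sum_le_sum fun a _ => hQ _
          _ = _ := by simp

/-- A heavy cycle is long. -/
theorem weighted (w : α → ℝ) {K n θ ε : ℝ} (h0 : ∀ c, 0 ≤ w c) (hK : ∀ c, w c ≤ K) (hK0 : 0 < K)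
    (hn : ∑ c, w c ≤ n) (hε : 0 < ε) (hθ : 0 < θ) (hθ1 : θ ≤ 1)
    (hm : (0 : ℝ) < Fintype.card α) (hmn : Fintype.card α ≤ n) :
    av (fun s : Perm α => ind (∃ a, (θ + ε) * n ≤ ∑ b ∈ cyc s a, w b)) ≤
      (1 - θ) / θ + 1 / (θ * Fintype.card α) + K ^ 3 / (ε ^ 2 * θ * n) := by
  have hn0 : 0 < n := hm.trans_le hmn
  let Q1 : Finset α → Prop := fun B => θ * Fintype.card α ≤ B.card
  let Q2 : Finset α → Prop := fun B => (B.card : ℝ) ≤ θ * Fintype.card α ∧
    (θ + ε) * n ≤ ∑ b ∈ B, w b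
  have h1 : ∀ s : Perm α, ind (∃ a, (θ + ε) * n ≤ ∑ b ∈ cyc s a, w b) ≤
      (∑ a, ind (Q1 (cyc s a))) / (θ * Fintype.card α) +
        (∑ a, ind (Q2 (cyc s a))) / (θ * n / K) := by
    intro s
    refine le_trans (ind_mono (Q := (∃ a, Q1 (cyc s a)) ∨ ∃ a, Q2 (cyc s a)) fun ⟨a, ha⟩ => ?_)
      ((ind_or_le _ _).trans (add_le_add (ind_exists_cyc s Q1 (by positivity) fun B h => h)
        (ind_exists_cyc s Q2 (by positivity) fun B h => ?_)))
    · rcases le_total (θ * Fintype.card α) (cyc s a).card with h | h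
      · exact Or.inl ⟨a, h⟩
      · exact Or.inr ⟨a, h, ha⟩
    · rw [div_le_iff₀ hK0]
      have : ∑ b ∈ B, w b ≤ B.card * K := by
        calc _ ≤ ∑ b ∈ B, K := sum_le_sum fun b _ => hK b
          _ = _ := by simp
      nlinarith [h.2, mul_pos hε hn0]
  have h2 : av (fun s : Perm α => ∑ a, ind (Q1 (cyc s a))) ≤
      Fintype.card α - θ * Fintype.card α + 1 := by
    rw [av_sum]
    calc _ ≤ ∑ a : α, ((Fintype.card α : ℝ) - θ * Fintype.card α + 1) / Fintype.card α :=
          sum_le_sum fun a _ => law_big a (by nlinarith)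
      _ = _ := by simp only [sum_const, card_univ, nsmul_eq_mul]; field_simp
  have h3 : av (fun s : Perm α => ∑ a, ind (Q2 (cyc s a))) ≤
      Fintype.card α * (Fintype.card α * K ^ 2 / (ε * n) ^ 2) := by
    refine sum_cyc_le Q2 fun B => ?_
    by_cases hB : (B.card : ℝ) ≤ θ * Fintype.card α
    · refine le_trans (av_mono fun h => ind_mono fun hh => ?_) (cheb w h0 hK hn hn0 hε hθ.le B hB)
      simpa using hh.2
    · exact av_le_const (by positivity) fun h => by
        rw [ind_neg fun hh => hB (by simpa using hh.1)]; positivity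
  have h4 : (Fintype.card α : ℝ) * (Fintype.card α * K ^ 2 / (ε * n) ^ 2) ≤ K ^ 2 / ε ^ 2 := by
    calc _ ≤ n * (n * K ^ 2 / (ε * n) ^ 2) := by gcongr
      _ = _ := by field_simp
  refine (av_mono h1).trans ?_
  rw [av_add, av_div, av_div]
  refine add_le_add ((div_le_div_of_nonneg_right h2 (by positivity)).trans (le_of_eq ?_))
    ((div_le_div_of_nonneg_right (h3.trans h4) (by positivity)).trans (le_of_eq ?_))
  · field_simp
  · field_simp

/-- The number of points whose trajectory avoids `F` for `K` steps. -/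
noncomputable def nbad (F : α → Prop) (τ : Perm α) (K : ℕ) : ℝ :=
  ∑ p, ind (∀ j ≤ K, ¬F ((τ ^ j) p))

theorem long_le (F : α → Prop) [DecidablePred F] (τ : Perm α) (K : ℕ) {θ ε : ℝ} (hε : 0 < ε)
    (hθ : 0 < θ) (hθ1 : θ ≤ 1) (hm : (0 : ℝ) < Fintype.card {x // F x})
    (hbad : nbad F τ K ≤ ε * Fintype.card α) :
    av (fun g : Perm {x // F x} => ind (∃ a,
      (θ + ε + ε) * Fintype.card α ≤ (cyc (τ * Perm.ofSubtype g) a).card)) ≤
      (1 - θ) / θ + 1 / (θ * Fintype.card {x // F x}) +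
        (K + 1) ^ 3 / (ε ^ 2 * θ * Fintype.card α) := by
  obtain ⟨ι, hι⟩ := exists_induced F τ
  let R : α → {x // F x} → Prop := fun p b => ∃ j ≤ K, (τ ^ j) p = b ∧ ∀ i < j, ¬F ((τ ^ i) p)
  have hmn : (Fintype.card {x // F x} : ℝ) ≤ Fintype.card α := by
    exact_mod_cast Fintype.card_subtype_le F
  have hw := weighted (fun b => ∑ p, ind (R p b)) (K := K + 1) (n := Fintype.card α)
    (fun b => sum_nonneg fun _ _ => ind_nonneg _) (fun b => ?_) (by positivity) ?_ hε hθ hθ1 hm hmn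
  · refine le_trans ?_ hw
    refine le_of_le_of_eq ?_ (av_equiv (Equiv.mulLeft ι) _)
    refine av_mono fun g => ind_mono fun ⟨a, ha⟩ => ?_
    simp only [Equiv.coe_mulLeft]
    have key : ∀ p ∈ cyc (τ * Perm.ofSubtype g) a, ¬(∀ j ≤ K, ¬F ((τ ^ j) p)) →
        ∃ b : {x // F x}, b.1 ∈ cyc (τ * Perm.ofSubtype g) a ∧ R p b := by
      intro p hp hn
      have hex : ∃ j, F ((τ ^ j) p) := by
        push Not at hn
        obtain ⟨j, -, hj⟩ := hn
        exact ⟨j, hj⟩
      have hmin : ∀ i < Nat.find hex, ¬F ((τ ^ i) p) := fun i hi => Nat.find_min hex hi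
      have hle : Nat.find hex ≤ K := by
        push Not at hn
        obtain ⟨j, hj, hj'⟩ := hn
        exact (Nat.find_min' hex hj').trans hj
      refine ⟨⟨_, Nat.find_spec hex⟩, ?_, _, hle, rfl, hmin⟩
      have : ∀ i ≤ Nat.find hex, ((τ * Perm.ofSubtype g) ^ i) p = (τ ^ i) p := by
        intro i hi
        induction i with
        | zero => rfl
        | succ i ih =>
          rw [pow_succ', pow_succ', Perm.mul_apply, ih (by omega), Perm.mul_apply, Perm.mul_apply,
            Perm.ofSubtype_apply_of_not_mem _ (hmin i (by omega))]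
      rw [← cyc_eq_of_mem hp]
      exact mem_cyc_iff.2 ⟨_, this _ le_rfl⟩
    have hn0 : (0 : ℝ) < Fintype.card α := hm.trans_le hmn
    have hsum : ∀ S : Finset {x // F x},
        (∀ b : {x // F x}, b.1 ∈ cyc (τ * Perm.ofSubtype g) a → b ∈ S) →
        (θ + ε) * Fintype.card α ≤ ∑ b ∈ S, ∑ p, ind (R p b) := by
      intro S hS
      have : ((cyc (τ * Perm.ofSubtype g) a).card : ℝ) ≤ nbad F τ K + ∑ b ∈ S, ∑ p, ind (R p b) := by
        rw [nbad, sum_comm, ← sum_add_distrib, card_eq_sum_ones, Nat.cast_sum, Nat.cast_one]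
        refine le_trans (sum_le_sum fun p hp => ?_)
          (sum_le_sum_of_subset_of_nonneg (subset_univ _) fun p _ _ =>
            add_nonneg (ind_nonneg _) (sum_nonneg fun _ _ => ind_nonneg _))
        by_cases hp' : ∀ j ≤ K, ¬F ((τ ^ j) p)
        · rw [ind_pos hp']
          linarith [sum_nonneg (s := S) fun b _ => ind_nonneg (R p b)]
        · obtain ⟨b, hb, hR⟩ := key p hp hp'
          rw [ind_neg hp', zero_add, ← ind_pos hR]
          exact single_le_sum (f := fun b => ind (R p b)) (fun _ _ => ind_nonneg _) (hS b hb)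
      linarith
    by_cases hex : ∃ b : {x // F x}, b.1 ∈ cyc (τ * Perm.ofSubtype g) a
    · obtain ⟨b, hb⟩ := hex
      exact ⟨b, hsum _ fun c hc => hι g b c (by rwa [cyc_eq_of_mem hb])⟩
    · have := hsum ∅ fun b hb => absurd ⟨b, hb⟩ hex
      rw [sum_empty] at this
      nlinarith [mul_pos hθ hn0, mul_pos hε hn0]
  · calc ∑ p, ind (R p b) ≤ ∑ p, ∑ j ∈ range (K + 1), ind ((τ ^ j)⁻¹ b = p) :=
          sum_le_sum fun p _ => ind_le_sum _ _ fun ⟨j, hj, e, _⟩ =>
            ⟨j, mem_range.2 (by omega), by rw [← e]; simp⟩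
      _ = _ := by rw [sum_comm]; simp [sum_ind_eq_one]
  · rw [sum_comm]
    calc _ ≤ ∑ p : α, (1 : ℝ) := sum_le_sum fun p _ => ?_
      _ = _ := by simp
    by_cases hex : ∃ b, R p b
    · obtain ⟨b, hb⟩ := hex
      rw [← sum_ind_eq_one b]
      refine sum_le_sum fun c _ => ind_mono fun hc => ?_
      obtain ⟨j, -, e, hj⟩ := hb
      obtain ⟨j', -, e', hj'⟩ := hc
      rcases lt_trichotomy j j' with h | h | h
      · exact absurd (e ▸ b.2) (hj' j h)
      · exact Subtype.ext (by rw [← e, ← e', h])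
      · exact absurd (e' ▸ c.2) (hj j' h)
    · rw [sum_eq_zero fun b _ => ind_neg fun h => hex ⟨b, h⟩]
      exact zero_le_one

end Pool.Agent.Lib.MP_8a89f5_al
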