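import Pool.Agent.Lib.MP_8a89f5_al.LcB

/-!
Trajectories of `y ^ r * π` hit large sets quickly; the pair bound; few fixed points of powers.
-/

namespace Pool.Agent.Lib.MP_8a89f5_al

open Finset Equiv

variable {α : Type*}

/-- Alternate the random permutation `y` with prescribed permutations. -/
def traj (s : ℕ → Perm α) (p : α) (y : Perm α) : ℕ → α
  | 0 => p
  | t + 1 => s t (y (traj s p y t))

theorem traj_det (s : ℕ → Perm α) (p : α) (y y' : Perm α) (t : ℕ)
    (h : ∀ i < t, y' (traj s p y i) = y (traj s p y i)) : ∀ i ≤ t, traj s p y' i = traj s p y i := by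
  intro i hi
  induction i with
  | zero => rfl
  | succ i ih => simp only [traj]; rw [ih (by omega), h i (by omega)]

theorem traj_eq (π y : Perm α) (p : α) {r : ℕ} (t : ℕ) : ∀ j i, t = j * r + i → i < r →
    traj (fun t => if r ∣ t + 1 then π else 1) (π p) y t = (y ^ i * π * (y ^ r * π) ^ j) p := by
  induction t with
  | zero =>
    intro j i h hi
    obtain rfl : i = 0 := by omega
    obtain rfl : j = 0 := by
      rcases Nat.eq_zero_or_pos j with h0 | h0
      · exact h0
      · have := Nat.mul_pos h0 hi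
        omega
    simp [traj]
  | succ t ih =>
    intro j i h hi
    simp only [traj]
    rcases i with _ | i
    · rcases j with _ | j
      · omega
      obtain ⟨r, rfl⟩ : ∃ r', r = r' + 1 := ⟨r - 1, by omega⟩
      rw [ih j r (by rw [add_mul] at h; omega) (by omega), if_pos ⟨j + 1, by rw [h]; ring⟩,
        pow_succ' (y ^ (r + 1) * π), pow_succ' y]
      simp
    · rw [ih j i (by omega) (by omega), if_neg, pow_succ' y]
      · simp
      · rw [h]
        intro hd
        have := Nat.le_of_dvd (by omega) ((Nat.dvd_add_right (Dvd.intro_left j rfl)).1 hd)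
        omega

variable [Fintype α] [DecidableEq α]

theorem traj_bound (s : ℕ → Perm α) (p : α) {N : ℕ} (hN : N < Fintype.card α) (A : Finset α)
    (S : Finset ℕ) (hS : ∀ t ∈ S, t < N) :
    av (fun y : Perm α => ind (∀ t ∈ S, y (traj s p y t) ∈ A)) ≤
      (A.card / ((Fintype.card α : ℝ) - N)) ^ S.card + N * (N / ((Fintype.card α : ℝ) - N)) := by
  let q : Fin N → Perm α → α := fun t y => traj s p y t
  let O : Fin N → Perm α → Finset α := fun t y =>
    (range (t + 1)).image fun i => (s t)⁻¹ (traj s p y i)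
  have det : ∀ (t : Fin N) (y y' : Perm α), (∀ t' : Fin N, t'.val < t.val →
      (permSwitch α).ans y' (q t' y) = (permSwitch α).ans y (q t' y)) →
      ∀ i ≤ t.val, traj s p y' i = traj s p y i := fun t y y' h =>
    traj_det s p y y' t fun i hi => h ⟨i, hi.trans t.2⟩ hi
  have b1 := hit_bound (permSwitch α) (fun t : Fin N => t.val) q (fun _ _ => A) A.card
    (fun _ _ => le_rfl) (Nat.cast_nonneg _) (fun t y y' h => ⟨det t y y' h t le_rfl, rfl⟩)
    (by simpa using hN) (S.attachFin hS)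
  have b2 := fun t : Fin N => hit_bound (permSwitch α) (fun t : Fin N => t.val) q O N
    (fun t y => by
      have : (O t y).card ≤ N := card_image_le.trans (by rw [card_range]; exact t.2)
      exact_mod_cast this) (Nat.cast_nonneg _)
    (fun t y y' h => ⟨det t y y' h t le_rfl, image_congr fun i hi => by
      rw [det t y y' h i (by simpa [Nat.lt_succ_iff] using hi)]⟩) (by simpa using hN) {t}
  simp only [card_attachFin, Fintype.card_fin, card_singleton, pow_one] at b1 b2
  have h1 : ∀ y : Perm α, ind (∀ t ∈ S, y (traj s p y t) ∈ A) ≤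
      ind (∀ t ∈ S.attachFin hS, Hit (permSwitch α) (fun t : Fin N => t.val) q (fun _ _ => A) t y) +
      ∑ t : Fin N, ind (∀ t' ∈ ({t} : Finset (Fin N)),
        Hit (permSwitch α) (fun t : Fin N => t.val) q O t' y) := by
    intro y
    by_cases hy : ∃ j, j < N ∧ ∃ i < j, traj s p y i = traj s p y j
    · obtain ⟨hj, i, hi, e⟩ := Nat.find_spec hy
      have hmin := fun j (h : j < Nat.find hy) => Nat.find_min hy h
      generalize Nat.find hy = j at hj hi e hmin
      obtain ⟨t, rfl⟩ : ∃ t, j = t + 1 := ⟨j - 1, by omega⟩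
      refine le_add_of_nonneg_of_le (ind_nonneg _) (ind_le_sum _ _ fun _ =>
        ⟨⟨t, by omega⟩, mem_univ _, fun t' ht' => ?_⟩)
      obtain rfl := mem_singleton.1 ht'
      refine ⟨fun t' h1 h2 e' => hmin t (by omega) ⟨by omega, t', ?_, e'⟩, ?_⟩
      · exact lt_of_le_of_ne h2 fun h => h1 (Fin.ext h)
      · refine mem_image.2 ⟨i, mem_range.2 hi, ?_⟩
        rw [e]
        simp [traj, permSwitch, q]
    · refine le_add_of_le_of_nonneg (ind_mono fun h t ht => ⟨fun t' h1 h2 e' => hy ⟨t, t.2, t', ?_,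
        e'⟩, h t ((mem_attachFin hS).1 ht)⟩) (sum_nonneg fun _ _ => ind_nonneg _)
      exact lt_of_le_of_ne h2 fun h => h1 (Fin.ext h)
  refine (av_mono h1).trans ?_
  rw [av_add, av_sum]
  refine add_le_add b1 ((sum_le_sum fun t _ => b2 t).trans (le_of_eq ?_))
  simp

theorem av_nbad (C : Finset α) (π : Perm α) {r k K : ℕ} (hr : 1 ≤ r) (hrk : r ≤ k)
    (hN : k * K < Fintype.card α) :
    av (fun y : Perm α => nbad (fun x => x ∉ C) (y ^ r * π) K) ≤ Fintype.card α *
      ((C.card / ((Fintype.card α : ℝ) - (k * K : ℕ))) ^ K +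
        (k * K : ℕ) * ((k * K : ℕ) / ((Fintype.card α : ℝ) - (k * K : ℕ)))) := by
  simp only [nbad]
  rw [av_sum]
  refine (sum_le_sum fun p _ => ?_).trans (le_of_eq (by rw [sum_const, card_univ, nsmul_eq_mul]))
  have hb := traj_bound (fun t => if r ∣ t + 1 then π else 1) (π p) hN C
    ((range K).image fun j => j * r + (r - 1)) (fun t ht => by
      obtain ⟨j, hj, rfl⟩ := mem_image.1 ht
      have h1 : (j + 1) * r ≤ K * k := Nat.mul_le_mul (mem_range.1 hj) hrk
      rw [add_mul, mul_comm K] at h1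
      omega)
  rw [card_image_of_injective _ (fun i j e => Nat.eq_of_mul_eq_mul_right hr (by simpa using e)),
    card_range] at hb
  refine le_trans (av_mono fun y => ind_mono fun h t ht => ?_) hb
  obtain ⟨j, hj, rfl⟩ := mem_image.1 ht
  rw [traj_eq π y p _ j (r - 1) rfl (by omega)]
  have := h (j + 1) (mem_range.1 hj)
  rw [not_not, pow_succ'] at this
  rwa [← Perm.mul_apply, ← mul_assoc, ← mul_assoc, ← pow_succ', Nat.sub_add_cancel hr]

theorem card_compl_sub (C : Finset α) :
    (Fintype.card {x // x ∉ C} : ℝ) = Fintype.card α - C.card := by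
  rw [Fintype.card_subtype_compl, Fintype.card_coe, Nat.cast_sub (card_le_univ C)]

theorem pair_le (C : Finset α) (π : Perm α) {r k K : ℕ} {d : ℝ} (hr : 1 ≤ r) (hrk : r ≤ k)
    (hd : 0 < d) (hd' : d ≤ 1 / 4) (hC : (C.card : ℝ) ≤ (1 - d ^ 2) * Fintype.card α)
    (h1 : 2 * ((k * K : ℕ) : ℝ) ≤ d ^ 2 * Fintype.card α) (h2 : (1 - d ^ 2 / 2) ^ K ≤ d ^ 4 / 2)
    (h3 : 4 * ((k * K : ℕ) : ℝ) ^ 2 ≤ d ^ 4 * Fintype.card α)
    (h4 : 2 ≤ d ^ 4 * Fintype.card α) (h5 : 2 * ((K : ℝ) + 1) ^ 3 ≤ d ^ 6 * Fintype.card α) :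
    av (fun g : Perm {x // x ∉ C} => av fun y : Perm α => ind (∃ a,
      (1 - d) * Fintype.card α ≤ (cyc (y ^ r * (π * Perm.ofSubtype g)) a).card)) ≤
      d + 9 * d ^ 2 := by
  obtain ⟨n, hn⟩ : ∃ n : ℝ, n = Fintype.card α := ⟨_, rfl⟩
  obtain ⟨N, hN⟩ : ∃ N : ℝ, N = (k * K : ℕ) := ⟨_, rfl⟩
  rw [← hn] at hC h1 h3 h4 h5 ⊢
  rw [← hN] at h1 h3
  have hn0 : 0 < n := by
    by_contra h
    nlinarith [pow_pos hd 4]
  have hN0 : 0 ≤ N := hN ▸ Nat.cast_nonneg _
  have hd2 : 0 < d ^ 2 := by positivity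
  have hd2' : d ^ 2 ≤ 1 / 16 := by nlinarith
  have hm : d ^ 2 * n ≤ Fintype.card {x // x ∉ C} := by rw [card_compl_sub, ← hn]; linarith
  have hm0 : (0 : ℝ) < Fintype.card {x // x ∉ C} := lt_of_lt_of_le (by positivity) hm
  have hθ : 1 / 2 ≤ 1 - d - 2 * d ^ 2 := by linarith
  have hNn : k * K < Fintype.card α := by
    have : ((k * K : ℕ) : ℝ) < Fintype.card α := by
      rw [← hn, ← hN]
      nlinarith
    exact_mod_cast this
  have hb := av_nbad C π hr hrk hNn
  rw [← hn, ← hN] at hb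
  have hNn' : N ≤ n / 2 := by nlinarith
  have e1 : (C.card / (n - N)) ^ K ≤ d ^ 4 / 2 := by
    refine le_trans (pow_le_pow_left₀ (div_nonneg (Nat.cast_nonneg _) (by linarith)) ?_ K) h2
    rw [div_le_iff₀ (by linarith)]
    have : (1 - d ^ 2 / 2) * ((1 - d ^ 2 / 2) * n) ≤ (1 - d ^ 2 / 2) * (n - N) :=
      mul_le_mul_of_nonneg_left (by linarith) (by linarith)
    nlinarith [mul_pos (mul_pos hd2 hd2) hn0]
  have e2 : N * (N / (n - N)) ≤ d ^ 4 / 2 := by
    rw [← mul_div_assoc, div_le_iff₀ (by linarith)]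
    nlinarith [pow_pos hd 4]
  have e3 : av (fun y : Perm α => ind (d ^ 2 * n ≤ nbad (fun x => x ∉ C) (y ^ r * π) K)) ≤
      d ^ 2 := by
    refine (av_markov (fun y => sum_nonneg fun _ _ => ind_nonneg _) (by positivity)).trans ?_
    rw [div_le_iff₀ (by positivity)]
    refine hb.trans ?_
    nlinarith
  have e4 : (1 - (1 - d - 2 * d ^ 2)) / (1 - d - 2 * d ^ 2) ≤ d + 6 * d ^ 2 := by
    rw [div_le_iff₀ (by linarith)]
    nlinarith [mul_pos hd2 hd, mul_pos hd2 hd2]
  have e5 : 1 / ((1 - d - 2 * d ^ 2) * Fintype.card {x // x ∉ C}) ≤ d ^ 2 := by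
    rw [div_le_iff₀ (by positivity)]
    have : 1 / 2 * (d ^ 2 * n) ≤ (1 - d - 2 * d ^ 2) * Fintype.card {x // x ∉ C} :=
      mul_le_mul hθ hm (by positivity) (by linarith)
    nlinarith
  have e6 : ((K : ℝ) + 1) ^ 3 / ((d ^ 2) ^ 2 * (1 - d - 2 * d ^ 2) * n) ≤ d ^ 2 := by
    rw [div_le_iff₀ (by positivity)]
    have : d ^ 6 * n * (1 / 2) ≤ d ^ 6 * n * (1 - d - 2 * d ^ 2) :=
      mul_le_mul_of_nonneg_left hθ (by positivity)
    nlinarith
  rw [av_comm]
  have key : ∀ y : Perm α, av (fun g : Perm {x // x ∉ C} => ind (∃ a,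
      (1 - d) * n ≤ (cyc (y ^ r * (π * Perm.ofSubtype g)) a).card)) ≤
      ind (d ^ 2 * n ≤ nbad (fun x => x ∉ C) (y ^ r * π) K) + (d + 8 * d ^ 2) := by
    intro y
    by_cases hy : d ^ 2 * n ≤ nbad (fun x => x ∉ C) (y ^ r * π) K
    · rw [ind_pos hy]
      exact (av_le_const' fun g => ind_le_one _).trans (by linarith)
    · have := long_le (fun x => x ∉ C) (y ^ r * π) K (θ := 1 - d - 2 * d ^ 2) hd2 (by linarith)
        (by linarith) hm0 (by rw [← hn]; exact (not_le.1 hy).le)
      rw [← hn, show 1 - d - 2 * d ^ 2 + d ^ 2 + d ^ 2 = 1 - d by ring] at this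
      simp only [← mul_assoc]
      rw [ind_neg hy]
      linarith
  refine (av_mono key).trans ?_
  rw [av_add, av_const]
  linarith

theorem card_divisors_le (l D : ℕ) (hD : 0 < D) : (l.divisors.card : ℝ) ≤ l / D + D := by
  have h : l.divisors ⊆ Icc 1 (l / D) ∪ (range D).image fun c => l / c := by
    intro j hj
    have hj0 := Nat.pos_of_mem_divisors hj
    obtain ⟨c, rfl⟩ := Nat.dvd_of_mem_divisors hj
    have hc : 0 < c := Nat.pos_of_ne_zero fun e => by simp [e] at hj
    rcases le_or_gt D c with h | h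
    · exact mem_union_left _ (mem_Icc.2 ⟨hj0, (Nat.le_div_iff_mul_le hD).2
        (Nat.mul_le_mul_left _ h)⟩)
    · exact mem_union_right _ (mem_image.2 ⟨c, mem_range.2 h, Nat.mul_div_cancel _ hc⟩)
  have h1 : l.divisors.card ≤ l / D + D := (card_le_card h).trans ((card_union_le _ _).trans
    (add_le_add (by simp) (card_image_le.trans (by simp))))
  calc (l.divisors.card : ℝ) ≤ (l / D + D : ℕ) := by exact_mod_cast h1
    _ ≤ _ := by push_cast; linarith [Nat.cast_div_le (α := ℝ) (m := l) (n := D)]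

/-- The number of points off `C` fixed by `σ ^ |C|`. -/
noncomputable def nfix (C : Finset α) (σ : Perm α) : ℝ :=
  ∑ b : {x // x ∉ C}, ind ((σ ^ C.card) b.1 = b.1)

theorem av_nfix {C : Finset α} {π : Perm α} {a : α} (h : cyc π a = C) {D : ℕ} (hD : 0 < D) :
    av (fun g : Perm {x // x ∉ C} => nfix C (π * Perm.ofSubtype g)) ≤ Fintype.card α / D + D := by
  have hp : ∀ x, π x ∉ C ↔ x ∉ C := fun x => by
    rw [← h, mem_cyc, mem_cyc, Perm.sameCycle_apply_right]
  have hl : C.card ≠ 0 := h ▸ (card_cyc_pos π a).ne'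
  obtain ⟨π0, hπ0⟩ : ∃ π0 : Perm {x // x ∉ C}, ∀ b, (π0 b).1 = π b.1 :=
    ⟨π.subtypePerm hp, fun _ => rfl⟩
  have e1 : ∀ (g : Perm {x // x ∉ C}) (j : ℕ) (b : {x // x ∉ C}),
      ((π * Perm.ofSubtype g) ^ j) b.1 = (((π0 * g) ^ j) b).1 := by
    intro g j b
    induction j with
    | zero => rfl
    | succ j ih =>
      rw [pow_succ', pow_succ', Perm.mul_apply, ih, Perm.mul_apply, Perm.ofSubtype_apply_coe,
        Perm.mul_apply, Perm.mul_apply, hπ0]
  have e2 : ∀ b : {x // x ∉ C}, av (fun g : Perm {x // x ∉ C} =>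
      ind (((π * Perm.ofSubtype g) ^ C.card) b.1 = b.1)) ≤
      C.card.divisors.card / Fintype.card {x // x ∉ C} := by
    intro b
    refine le_trans ?_ (law_set b _)
    refine le_of_le_of_eq ?_ (av_equiv (Equiv.mulLeft π0) _)
    refine av_mono fun g => ind_mono fun hg => Nat.mem_divisors.2 ⟨?_, hl⟩
    rw [e1] at hg
    exact pow_eq_self_iff.1 (Subtype.ext hg)
  simp only [nfix]
  rw [av_sum]
  refine (sum_le_sum fun b _ => e2 b).trans ?_
  rw [sum_const, card_univ, nsmul_eq_mul]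
  have h1 : (C.card : ℝ) / D ≤ Fintype.card α / D :=
    div_le_div_of_nonneg_right (by exact_mod_cast card_le_univ C) (Nat.cast_nonneg _)
  have h2 := card_divisors_le C.card D hD
  rcases eq_or_ne (Fintype.card {x // x ∉ C} : ℝ) 0 with h0 | h0
  · rw [h0, zero_mul]; positivity
  · rw [mul_div_cancel₀ _ h0]; linarith

theorem support_pow_card (π : Perm α) (a : α) :
    Fintype.card α - (cyc π a).card - nfix (cyc π a) π ≤ (π ^ (cyc π a).card).support.card ∧
      ((π ^ (cyc π a).card).support.card : ℝ) ≤ Fintype.card α - (cyc π a).card := by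
  constructor
  · rw [← card_compl_sub, nfix, Fintype.card_eq_sum_ones, Nat.cast_sum, Nat.cast_one,
      ← sum_sub_distrib]
    simp only [← ind_not]
    rw [← sum_subtype (univ.filter fun x => x ∉ cyc π a) (by simp)
      (fun b => ind (¬(π ^ (cyc π a).card) b = b)), Perm.support, ← sum_ind_eq_card]
    exact sum_le_sum_of_subset_of_nonneg (subset_univ _) fun _ _ _ => ind_nonneg _
  · rw [← Nat.cast_sub (card_le_univ _), ← card_compl]
    exact_mod_cast card_le_card fun b hb =>
      mem_compl.2 fun h => Perm.mem_support.1 hb (pow_card_cyc h)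

end Pool.Agent.Lib.MP_8a89f5_al
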