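import Pool.Agent.Lib.MP_8a89f5_al.Spec

/-!
Two words send a tuple to the same place with probability close to uniform.
-/

namespace Pool.Agent.Lib.MP_8a89f5_al

open Finset Equiv

variable {α : Type*}

theorem pos_eq_iff (ω : Bool → Perm α) {u v : List Bool} {k k' : ℕ} (hu : k' ≤ u.length)
    (hv : k' ≤ v.length) (hk : k ≤ k') (h : ∀ j, k ≤ j → j < k' → u.getD j false = v.getD j false)
    (a b : α) : pos ω u a k' = pos ω v b k' ↔ pos ω u a k = pos ω v b k := by
  induction k', hk using Nat.le_induction with
  | base => rfl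
  | succ j hj ih =>
    rw [pos_succ _ _ _ (by omega), pos_succ _ _ _ (by omega), h j hj (by omega),
      (ω _).injective.eq_iff]
    exact ih (by omega) (by omega) fun i h1 h2 => h i h1 (by omega)

theorem exists_top {u v : List Bool} {r i : ℕ} (hi : i < r)
    (h : u.getD i false ≠ v.getD i false) :
    ∃ H, i ≤ H ∧ H < r ∧ u.getD H false ≠ v.getD H false ∧
      ∀ j, H + 1 ≤ j → j < r → u.getD j false = v.getD j false := by
  classical
  refine ⟨Nat.findGreatest (fun j => u.getD j false ≠ v.getD j false) (r - 1),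
    Nat.le_findGreatest (by omega) h, ?_, ?_, fun j h1 h2 => ?_⟩
  · have := Nat.findGreatest_le (P := fun j => u.getD j false ≠ v.getD j false) (r - 1)
    omega
  · exact Nat.findGreatest_spec (P := fun j => u.getD j false ≠ v.getD j false) (m := i)
      (by omega) h
  · by_contra hne
    have := Nat.le_findGreatest (P := fun j => u.getD j false ≠ v.getD j false) (n := r - 1)
      (by omega) hne
    omega

theorem smul_eq_iff {t : ℕ} (g : Perm α) (a b : Fin t ↪ α) : g • a = b ↔ ∀ i, g (a i) = b i := by
  rw [Function.Embedding.ext_iff]; rfl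

variable [Fintype α] [DecidableEq α]

theorem core_pair {t r : ℕ} {u v : List Bool} (hu : u.length = r) (hv : v.length = r) (hr : 0 < r)
    (h0 : u.getD 0 false ≠ v.getD 0 false) (a : Fin t ↪ α) (hT : 2 * t * r < Fintype.card α) :
    av (fun ω : Bool → Perm α => ind (ev ω v • a = ev ω u • a)) ≤
      (1 / ((Fintype.card α : ℝ) - 2 * t * r)) ^ t +
        ((2 * t * r : ℝ) * (2 * t * (r + 1)) / ((Fintype.card α : ℝ) - 2 * t * r)) ^ (t + 1) := by
  classical
  obtain ⟨H, -, hH, hd1, hd2⟩ := exists_top hr h0
  set W : Bool × Fin t → List Bool := fun p => if p.1 then v else u with hWd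
  set o : Bool × Fin t → ℕ := fun p => if p.1 then 1 else 0 with hod
  set a' : Bool × Fin t → α := fun p => a p.2 with had
  set ρ : (Bool × Fin t) × Fin (H + 1) → ℕ := fun t => 2 * t.2 + o t.1 with hρd
  have hW : ∀ p, H + 1 ≤ (W p).length := fun p => by
    simp only [hWd]; split_ifs <;> omega
  have hρ : ∀ p (k k' : Fin (H + 1)), k' < k → ρ (p, k') < ρ (p, k) := fun p k k' h => by
    simp only [hρd]; have : (k' : ℕ) < k := h; omega
  have hc : Fintype.card (Bool × Fin t) = 2 * t := by simp
  have hHr : 2 * t * (H + 1) ≤ 2 * t * r := Nat.mul_le_mul_left _ hH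
  have hT' : Fintype.card (Bool × Fin t) * (H + 1) < Fintype.card α := by rw [hc]; omega
  let S : Finset ((Bool × Fin t) × Fin (H + 1)) :=
    univ.map ⟨fun i : Fin t => ((true, i), Fin.last H), fun i j h => by simpa using h⟩
  have b1 := closing_bound a' W hW ρ hρ hT' S (fun t => ((false, t.1.2), Fin.last H))
    (fun t ht => by
      simp only [S, mem_map, mem_univ, true_and, Function.Embedding.coeFn_mk] at ht
      obtain ⟨i, rfl⟩ := ht
      simp [hρd, hod])
  have b2 := many_hits a' W hW ρ hρ hT' (t + 1)
  have hS : S.card = t := by simp [S]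
  rw [hS, hc] at b1
  rw [hc] at b2
  have hfo := first_old_hit a' W hW 2 o (fun p => by simp only [hod]; split_ifs <;> omega)
    (fun p p' h1 h2 => by
      have h3 : p.1 = p'.1 := by
        simp only [hod] at h2
        rcases p with ⟨_ | _, _⟩ <;> rcases p' with ⟨_ | _, _⟩ <;> simp_all
      refine ⟨by simp only [hWd, h3], fun h4 => h1 (Prod.ext h3 (a.injective h4))⟩)
    (fun p p' h1 _ => by
      simp only [hod] at h1
      rcases p with ⟨_ | _, _⟩ <;> rcases p' with ⟨_ | _, _⟩ <;> simp_all)
  have hR : ((2 * t * (H + 1) : ℕ) : ℝ) ≤ (2 * t * r : ℕ) := by exact_mod_cast hHr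
  have hR' : ((2 * t * r : ℕ) : ℝ) < Fintype.card α := by exact_mod_cast hT
  have hH' : ((H + 1 : ℕ) : ℝ) ≤ r := by exact_mod_cast hH
  push_cast at hR hR' b1 b2 hH'
  refine le_trans ?_ (add_le_add (b1.trans ?_) (b2.trans ?_))
  · rw [← av_add]
    refine av_mono fun ω => (ind_mono fun hω => ?_).trans (ind_or_le _ _)
    have hcl : ∀ i, hd a' W ((true, i), Fin.last H) ω = hd a' W ((false, i), Fin.last H) ω := by
      intro i
      have := (smul_eq_iff _ _ _).1 hω i
      simp only [hd, hWd, had, if_true, Bool.false_eq_true, if_false, Fin.val_last]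
      refine (pos_eq_iff ω hv.ge hu.ge hH (fun j h1 h2 => (hd2 j h1 h2).symm) _ _).1 ?_
      rw [← hv, pos_length, hv, ← hu, pos_length]
      exact this
    by_cases hold : ∃ i k, hd a' W ((false, i), k) ω ∈ oldAll a' W ρ ((false, i), k) ω
    · right
      obtain ⟨i0, k0, h⟩ := hold
      obtain ⟨k1, hk1⟩ := hfo ω _ _ h
      have hV : ∀ i : Fin t, ∃ k : Fin (H + 1),
          Hit (pairSwitch α) ρ (pq a' W) (oldAll a' W ρ) ((true, i), k) ω := fun i => by
        refine hfo ω _ (Fin.last H) ?_
        rw [hcl]
        simp only [oldAll, mem_union, mem_image, mem_filter, mem_univ, true_and]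
        exact Or.inr ⟨((false, i), Fin.last H), by simp [hod], rfl⟩
      choose kk hkk using hV
      refine ⟨insert ((false, i0), k1) (univ.map ⟨fun i : Fin t => ((true, i), kk i),
        fun i j h => by simp only [Prod.mk.injEq, true_and] at h; exact h.1⟩), ?_, ?_⟩
      · rw [card_insert_of_notMem (by simp)]; simp
      · intro s hs
        simp only [mem_insert, mem_map, mem_univ, true_and, Function.Embedding.coeFn_mk] at hs
        rcases hs with rfl | ⟨i, rfl⟩
        exacts [hk1, hkk i]
    · left
      intro s hs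
      simp only [S, mem_map, mem_univ, true_and, Function.Embedding.coeFn_mk] at hs
      obtain ⟨i, rfl⟩ := hs
      refine ⟨fun s hne hle heq => ?_, hcl i⟩
      have e1 : hd a' W s ω = hd a' W ((false, i), Fin.last H) ω := by
        rw [← hcl, ← ans_pq a' W hW, ← ans_pq a' W hW, heq]
      by_cases hlt : ρ s < ρ ((false, i), Fin.last H)
      · refine hold ⟨i, Fin.last H, ?_⟩
        simp only [oldAll, mem_union, mem_image, mem_filter, mem_univ, true_and]
        exact Or.inr ⟨s, hlt, e1⟩
      · obtain ⟨⟨b, j⟩, k⟩ := s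
        have hk : k = Fin.last H := by
          simp only [hρd, hod, Fin.val_last, if_true, Bool.false_eq_true, if_false] at hlt hle
          have := k.2
          refine Fin.ext ?_
          rw [Fin.val_last]
          split_ifs at hlt hle <;> omega
        subst hk
        simp only [pq, hWd, had, Fin.val_last, if_true, Prod.mk.injEq] at heq
        cases b with
        | false => exact hd1 (by simpa using heq.1)
        | true => exact hne (by rw [a.injective (pos_inj _ _ heq.2)])
  · refine pow_le_pow_left₀ (div_nonneg zero_le_one (by linarith)) ?_ _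
    exact one_div_le_one_div_of_le (by linarith) (by linarith)
  · refine pow_le_pow_left₀ (div_nonneg (by positivity) (by linarith)) ?_ _
    refine div_le_div₀ (by positivity) ?_ (by linarith) (by linarith)
    gcongr

theorem pair_bound {t r : ℕ} (hT : 2 * t * r < Fintype.card α) :
    ∀ {u v : List Bool}, u.length = v.length → u.length ≤ r → u ≠ v →
    ∑ a : Fin t ↪ α, av (fun ω : Bool → Perm α => ind (ev ω v • a = ev ω u • a)) ≤
      Fintype.card (Fin t ↪ α) * ((1 / ((Fintype.card α : ℝ) - 2 * t * r)) ^ t +
        ((2 * t * r : ℝ) * (2 * t * (r + 1)) / ((Fintype.card α : ℝ) - 2 * t * r)) ^ (t + 1))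
  | [], [], _, _, h => absurd rfl h
  | [], _ :: _, h, _, _ => by simp at h
  | _ :: _, [], h, _, _ => by simp at h
  | c :: u, c' :: v, h1, h2, h3 => by
    by_cases hc : c = c'
    · subst hc
      have := pair_bound hT (u := u) (v := v) (by simpa using h1) (by simp at h2; omega)
        (fun h => h3 (by rw [h]))
      refine le_trans (le_of_eq ?_) this
      rw [← av_sum, ← av_sum]
      congr 1
      funext ω
      simp only [ev, mul_smul]
      exact Equiv.sum_comp (MulAction.toPerm (ω c)) fun a : Fin t ↪ α => ind (ev ω v • a = ev ω u • a)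
    · rw [← card_univ, ← nsmul_eq_mul, ← sum_const]
      refine sum_le_sum fun a _ => ?_
      have hl : 2 * t * (c :: u).length ≤ 2 * t * r := Nat.mul_le_mul_left _ h2
      have hR : ((2 * t * (c :: u).length : ℕ) : ℝ) ≤ (2 * t * r : ℕ) := by exact_mod_cast hl
      have hR' : ((2 * t * r : ℕ) : ℝ) < Fintype.card α := by exact_mod_cast hT
      have hH' : (((c :: u).length : ℕ) : ℝ) ≤ r := by exact_mod_cast h2
      rw [Nat.cast_mul, Nat.cast_mul, Nat.cast_ofNat] at hR
      push_cast at hR hR'
      refine (core_pair rfl h1.symm (by simp) (by simpa using hc) a (by omega)).trans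
        (add_le_add ?_ ?_)
      · refine pow_le_pow_left₀ (div_nonneg zero_le_one (by linarith)) ?_ _
        exact one_div_le_one_div_of_le (by linarith) (by linarith)
      · refine pow_le_pow_left₀ (div_nonneg (by positivity) (by linarith)) ?_ _
        refine div_le_div₀ (by positivity) ?_ (by linarith) (by linarith)
        gcongr

theorem hs_bound {t r : ℕ} (hT : 2 * t * r < Fintype.card α) :
    av (fun ω : Bool → Perm α => ∑ a : Fin t ↪ α, ∑ b, tp ω r a b ^ 2) ≤
      Fintype.card (Fin t ↪ α) * (1 / 2 ^ r + ((1 / ((Fintype.card α : ℝ) - 2 * t * r)) ^ t +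
        ((2 * t * r : ℝ) * (2 * t * (r + 1)) / ((Fintype.card α : ℝ) - 2 * t * r)) ^ (t + 1))) := by
  have hR' : ((2 * t * r : ℕ) : ℝ) < Fintype.card α := by exact_mod_cast hT
  push_cast at hR'
  simp only [tp_sq, ← Ex_sum, Ex_av, av_sum]
  refine Ex_le_const r fun u hu => ?_
  set B := (1 / ((Fintype.card α : ℝ) - 2 * t * r)) ^ t +
    ((2 * t * r : ℝ) * (2 * t * (r + 1)) / ((Fintype.card α : ℝ) - 2 * t * r)) ^ (t + 1) with hB
  have hB0 : 0 ≤ B := add_nonneg (pow_nonneg (div_nonneg zero_le_one (by linarith)) _)
    (pow_nonneg (div_nonneg (by positivity) (by linarith)) _)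
  calc _ ≤ Ex r (fun v => Fintype.card (Fin t ↪ α) * (ind (v = u) + B)) := by
        refine Ex_mono r fun v hv => ?_
        by_cases h : v = u
        · rw [ind_pos h, ← card_univ, ← nsmul_eq_mul, ← sum_const]
          exact sum_le_sum fun a _ => av_le_const (by linarith) fun ω => by
            linarith [ind_le_one (ev ω v • a = ev ω u • a)]
        · rw [ind_neg h, zero_add]
          exact pair_bound hT (by rw [hu, hv]) hu.le (Ne.symm h)
    _ ≤ _ := by
        rw [Ex_mul_left, Ex_add, Ex_const]
        exact mul_le_mul_of_nonneg_left (add_le_add (Ex_ind_eq r u) le_rfl) (Nat.cast_nonneg _)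

/-- The expected number of fixed points of a nonempty positive word. -/
theorem fix_bound {w : List Bool} {d : ℕ} (hw : w.length = d) (hd0 : 0 < d)
    (hT : d < Fintype.card α) (p : α) :
    av (fun ω : Bool → Perm α => ind (ev ω w p = p)) ≤
      (d : ℝ) * (d + 1) / ((Fintype.card α : ℝ) - d) := by
  have hW : ∀ _ : Unit, d ≤ w.length := fun _ => hw.ge
  have b2 := many_hits (H := d) (fun _ : Unit => p) (fun _ => w) hW (fun t => 1 * t.2 + 0)
    (fun p k k' h => by have : (k' : ℕ) < k := h; simpa using this) (by simpa using hT) 1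
  simp only [Fintype.card_unit, Nat.cast_one, one_mul, pow_one] at b2
  refine le_trans (av_mono fun ω => ind_mono fun h => ?_) b2
  obtain ⟨k, hk⟩ := first_old_hit (H := d) (fun _ : Unit => p) (fun _ => w) hW 1 (fun _ => 0)
    (fun _ => one_pos) (fun p p' h => absurd rfl h) (fun _ _ h => absurd h (lt_irrefl _)) ω ()
    ⟨d - 1, by omega⟩ (by
      simp only [oldAll, mem_union, mem_image, mem_univ, true_and]
      left
      refine ⟨(), ?_⟩
      simp only [hd, show d - 1 + 1 = d by omega]
      rw [← hw, pos_length, h])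
  refine ⟨{((), k)}, card_singleton _, fun s hs => ?_⟩
  rw [mem_singleton.1 hs]
  simpa using hk

end Pool.Agent.Lib.MP_8a89f5_al
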