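import Pool.Agent.Lib.MP_8a89f5_al.Hit

/-!
Families of trajectories of positive words under two random permutations.
-/

namespace Pool.Agent.Lib.MP_8a89f5_al

open Finset Equiv

variable {α : Type*}

/-- Position after `k` letters of the trajectory of `p` under the word `w`. -/
def pos (ω : Bool → Perm α) (w : List Bool) (p : α) (k : ℕ) : α := ev ω (w.take k) p

theorem pos_zero (ω : Bool → Perm α) (w : List Bool) (p : α) : pos ω w p 0 = p := by
  simp [pos, ev]

theorem pos_succ (ω : Bool → Perm α) (w : List Bool) (p : α) {k : ℕ} (hk : k < w.length) :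
    pos ω w p (k + 1) = ω (w.getD k false) (pos ω w p k) := by
  simp only [pos, ev_take_succ ω w k hk, Perm.coe_mul, Function.comp_apply]

theorem pos_inj (ω : Bool → Perm α) (w : List Bool) {p p' : α} {k : ℕ}
    (h : pos ω w p k = pos ω w p' k) : p = p' := (ev ω (w.take k)).injective h

theorem pos_length (ω : Bool → Perm α) (w : List Bool) (p : α) :
    pos ω w p w.length = ev ω w p := by simp [pos]

/-- The query made at step `k` of path `p`. -/
def pq {κ : Type*} {H : ℕ} (a : κ → α) (W : κ → List Bool) (t : κ × Fin H)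
    (ω : Bool → Perm α) : Bool × α := ((W t.1).getD t.2 false, pos ω (W t.1) (a t.1) t.2)

/-- The point reached by step `k` of path `p`. -/
def hd {κ : Type*} {H : ℕ} (a : κ → α) (W : κ → List Bool) (t : κ × Fin H)
    (ω : Bool → Perm α) : α := pos ω (W t.1) (a t.1) (t.2 + 1)

section
variable [DecidableEq α] {κ : Type*} {H : ℕ} (a : κ → α) (W : κ → List Bool)
  (hW : ∀ p, H ≤ (W p).length) (ρ : κ × Fin H → ℕ)
  (hρ : ∀ p (k k' : Fin H), k' < k → ρ (p, k') < ρ (p, k))
include hW

theorem ans_pq (t : κ × Fin H) (ω : Bool → Perm α) :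
    (pairSwitch α).ans ω (pq a W t ω) = hd a W t ω := by
  simp only [pairSwitch, pq, hd]
  rw [pos_succ _ _ _ (t.2.2.trans_le (hW _))]

include hρ

theorem path_det (R : ℕ) (ω ω' : Bool → Perm α)
    (h : ∀ t', ρ t' < R → (pairSwitch α).ans ω' (pq a W t' ω) = (pairSwitch α).ans ω (pq a W t' ω)) :
    (∀ t, ρ t ≤ R → pq a W t ω' = pq a W t ω) ∧ ∀ t, ρ t < R → hd a W t ω' = hd a W t ω := by
  have h1 : ∀ p (k : ℕ) (hk : k < H), ρ (p, ⟨k, hk⟩) ≤ R →
      pos ω' (W p) (a p) k = pos ω (W p) (a p) k := by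
    intro p k
    induction k with
    | zero => intro _ _; simp [pos_zero]
    | succ k ih =>
      intro hk hR
      have hk' : k < H := by omega
      have h2 : ρ (p, ⟨k, hk'⟩) < R :=
        (hρ p ⟨k + 1, hk⟩ ⟨k, hk'⟩ (by simp [Fin.lt_def])).trans_le hR
      have h3 := h _ h2
      rw [pos_succ _ _ _ (hk'.trans_le (hW p)), pos_succ _ _ _ (hk'.trans_le (hW p)), ih hk' h2.le]
      exact h3
  have h4 : ∀ t, ρ t ≤ R → pq a W t ω' = pq a W t ω := fun t ht => by
    simp only [pq]; rw [h1 t.1 t.2 t.2.2 ht]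
  refine ⟨h4, fun t ht => ?_⟩
  rw [← ans_pq a W hW, ← ans_pq a W hW, h4 t ht.le, h t ht]

/-- Prescribed steps are new queries and close up on prescribed earlier points. -/
theorem closing_bound [Fintype α] [Fintype κ] (hT : Fintype.card κ * H < Fintype.card α)
    (S : Finset (κ × Fin H)) (tg : κ × Fin H → κ × Fin H) (htg : ∀ t ∈ S, ρ (tg t) < ρ t) :
    av (fun ω : Bool → Perm α => ind (∀ t ∈ S,
      (∀ t', t' ≠ t → ρ t' ≤ ρ t → pq a W t' ω ≠ pq a W t ω) ∧ hd a W t ω = hd a W (tg t) ω)) ≤
      (1 / ((Fintype.card α : ℝ) - Fintype.card κ * H)) ^ S.card := by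
  have := hit_bound (pairSwitch α) ρ (pq a W)
    (fun t ω => if ρ (tg t) < ρ t then {hd a W (tg t) ω} else ∅) 1
    (fun t ω => by split_ifs <;> simp) zero_le_one
    (fun t ω ω' h => by
      obtain ⟨h1, h2⟩ := path_det a W hW ρ hρ _ ω ω' h
      refine ⟨h1 t le_rfl, ?_⟩
      split_ifs with h3
      · rw [h2 _ h3]
      · rfl) (by simpa using hT) S
  simp only [Fintype.card_prod, Fintype.card_fin, Nat.cast_mul] at this
  refine le_trans (av_mono fun ω => ind_mono fun h t ht => ⟨(h t ht).1, ?_⟩) this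
  beta_reduce
  rw [ans_pq a W hW, if_pos (htg t ht), (h t ht).2]
  exact mem_singleton_self _

end

section
variable [DecidableEq α] {κ : Type*} [Fintype κ] {H : ℕ}

/-- The points seen before step `t`. -/
def oldAll (a : κ → α) (W : κ → List Bool) (ρ : κ × Fin H → ℕ) (t : κ × Fin H)
    (ω : Bool → Perm α) : Finset α :=
  univ.image a ∪ (univ.filter fun t' => ρ t' < ρ t).image fun t' => hd a W t' ω

theorem many_hits [Fintype α] (a : κ → α) (W : κ → List Bool)
    (hW : ∀ p, H ≤ (W p).length) (ρ : κ × Fin H → ℕ)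
    (hρ : ∀ p (k k' : Fin H), k' < k → ρ (p, k') < ρ (p, k))
    (hT : Fintype.card κ * H < Fintype.card α) (c : ℕ) :
    av (fun ω : Bool → Perm α => ind (∃ S : Finset (κ × Fin H), S.card = c ∧
      ∀ t ∈ S, Hit (pairSwitch α) ρ (pq a W) (oldAll a W ρ) t ω)) ≤
      ((Fintype.card κ * H : ℝ) * (Fintype.card κ * (H + 1)) /
        ((Fintype.card α : ℝ) - Fintype.card κ * H)) ^ c := by
  classical
  have hb := fun S => hit_bound (pairSwitch α) ρ (pq a W) (oldAll a W ρ)
    (Fintype.card κ * (H + 1) : ℝ)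
    (fun t ω => by
      have h1 : (oldAll a W ρ t ω).card ≤ Fintype.card κ + Fintype.card κ * H := by
        refine (card_union_le _ _).trans (add_le_add (card_image_le.trans (by simp))
          (card_image_le.trans ((card_le_univ _).trans (by simp))))
      have : ((oldAll a W ρ t ω).card : ℝ) ≤ Fintype.card κ + Fintype.card κ * H := by
        exact_mod_cast h1
      linarith) (by positivity)
    (fun t ω ω' h => by
      obtain ⟨h1, h2⟩ := path_det a W hW ρ hρ _ ω ω' h
      refine ⟨h1 t le_rfl, ?_⟩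
      simp only [oldAll]
      congr 1
      exact image_congr fun t' ht' => h2 t' (by simpa using ht')) (by simpa using hT) S
  simp only [Fintype.card_prod, Fintype.card_fin, Nat.cast_mul] at hb
  have hpos : (0 : ℝ) < Fintype.card α - Fintype.card κ * H := by
    have : ((Fintype.card κ * H : ℕ) : ℝ) < Fintype.card α := by exact_mod_cast hT
    push_cast at this; linarith
  calc _ ≤ av (fun ω : Bool → Perm α => ∑ S ∈ powersetCard c (univ : Finset (κ × Fin H)),
        ind (∀ t ∈ S, Hit (pairSwitch α) ρ (pq a W) (oldAll a W ρ) t ω)) :=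
        av_mono fun ω => ind_le_sum _ _ fun ⟨S, h1, h2⟩ =>
          ⟨S, mem_powersetCard.2 ⟨subset_univ _, h1⟩, h2⟩
    _ ≤ ∑ S ∈ powersetCard c (univ : Finset (κ × Fin H)),
        ((Fintype.card κ * (H + 1) : ℝ) / ((Fintype.card α : ℝ) - Fintype.card κ * H)) ^ c := by
        rw [av_sum]
        refine sum_le_sum fun S hS => ?_
        rw [← (mem_powersetCard.1 hS).2]; exact hb S
    _ ≤ _ := by
        rw [sum_const, card_powersetCard, nsmul_eq_mul, mul_div_assoc (Fintype.card κ * H : ℝ),
          mul_pow (Fintype.card κ * H : ℝ)]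
        refine mul_le_mul_of_nonneg_right ?_ (pow_nonneg (div_nonneg (by positivity) hpos.le) _)
        have := Nat.choose_le_pow (univ : Finset (κ × Fin H)).card c
        simp only [card_univ, Fintype.card_prod, Fintype.card_fin] at this ⊢
        exact_mod_cast this

/-- The first time a path reaches a point seen before, it does so by a new query. -/
theorem first_old_hit (a : κ → α) (W : κ → List Bool) (hW : ∀ p, H ≤ (W p).length)
    (M : ℕ) (o : κ → ℕ) (ho : ∀ p, o p < M)
    (h1 : ∀ p p', p ≠ p' → o p = o p' → W p = W p' ∧ a p ≠ a p')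
    (h2 : ∀ p p', o p' < o p → a p' = a p → (W p').getD 0 false ≠ (W p).getD 0 false)
    (ω : Bool → Perm α) (p : κ) (k : Fin H)
    (hk : hd a W (p, k) ω ∈ oldAll a W (fun t => M * t.2 + o t.1) (p, k) ω) :
    ∃ k : Fin H, Hit (pairSwitch α) (fun t => M * t.2 + o t.1) (pq a W)
      (oldAll a W fun t => M * t.2 + o t.1) (p, k) ω := by
  classical
  set ρ : κ × Fin H → ℕ := fun t => M * t.2 + o t.1 with hρ
  have hex : ∃ j : ℕ, ∃ hj : j < H, hd a W (p, ⟨j, hj⟩) ω ∈ oldAll a W ρ (p, ⟨j, hj⟩) ω :=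
    ⟨k, k.2, hk⟩
  obtain ⟨hj, hmem⟩ := Nat.find_spec hex
  have hmin := fun j (h : j < Nat.find hex) => Nat.find_min hex h
  generalize Nat.find hex = j at hj hmem hmin
  refine ⟨⟨j, hj⟩, ?_, by rw [ans_pq a W hW]; exact hmem⟩
  rintro ⟨p', k'⟩ hne hle heq
  simp only [pq, Prod.mk.injEq] at heq
  simp only [hρ] at hle
  have hp := ho p
  have hp' := ho p'
  have hkj : (k' : ℕ) ≤ j := by
    by_contra h
    have : M * (j + 1) ≤ M * k' := Nat.mul_le_mul_left _ (by omega)
    rw [mul_add] at this; omega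
  by_cases hlt : M * k' + o p' = M * j + o p
  · have hk' : (k' : ℕ) = j := by
      by_contra h
      have : M * (k' + 1) ≤ M * j := Nat.mul_le_mul_left _ (by omega)
      rw [mul_add] at this; omega
    have hpp : p' ≠ p := by
      rintro rfl
      exact hne (Prod.ext rfl (Fin.ext hk'))
    obtain ⟨e1, e2⟩ := h1 p' p hpp (by rw [hk'] at hlt; omega)
    rw [e1, hk'] at heq
    exact e2 (pos_inj _ _ heq.2)
  · rcases Nat.eq_zero_or_pos j with rfl | hj0
    · have hk' : (k' : ℕ) = 0 := by omega
      rw [hk'] at heq hlt hle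
      simp only [pos_zero] at heq
      exact h2 p p' (by omega) heq.2 heq.1
    · obtain ⟨j, rfl⟩ : ∃ i, j = i + 1 := ⟨j - 1, by omega⟩
      refine hmin j (by omega) ⟨by omega, ?_⟩
      simp only [hd, oldAll, mem_union, mem_image, mem_univ, true_and, mem_filter]
      rw [← heq.2]
      rcases Nat.eq_zero_or_pos k' with h0 | h0
      · left; exact ⟨p', by rw [h0, pos_zero]⟩
      · right
        refine ⟨(p', ⟨k' - 1, by omega⟩), ?_, ?_⟩
        · simp only [hρ]
          have : M * k' = M * (k' - 1) + M := by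
            rw [← mul_add_one, show (k' : ℕ) - 1 + 1 = k' by omega]
          rw [mul_add] at hle hlt; omega
        · simp only [show (k' : ℕ) - 1 + 1 = k' by omega]

end

end Pool.Agent.Lib.MP_8a89f5_al
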