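import Pool.Agent.Lib.MP_8a89f5_al.Defs

/-!
Definitions for the almost linear diameter bound: conditional averages, entropy of the images of a
set of points, and the properties of a pair of permutations that are used.
-/

namespace Pool.Agent.Lib.MP_8a89f5_al

open Finset Equiv

/-- Average of `F` over the cell of `x`. -/
noncomputable def cnd {Ω β : Type*} [Fintype Ω] (c : Ω → β) (x : Ω) (F : Ω → ℝ) : ℝ :=
  av (fun y => ind (c y = c x) * F y) / av (fun y => ind (c y = c x))

/-- Words of a given length, as a finite type. -/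
abbrev Wd (t : ℕ) : Type := List.Vector Bool t

instance (t : ℕ) : Nonempty (Wd t) := ⟨List.Vector.replicate t false⟩

/-- Splitting off the first letter. -/
def wdCons (t : ℕ) : Bool × Wd t ≃ Wd (t + 1) where
  toFun z := z.1 ::ᵥ z.2
  invFun w := (w.head, w.tail)
  left_inv z := by simp
  right_inv w := by simp

theorem Ex_eq_av : ∀ (t : ℕ) (f : List Bool → ℝ), Ex t f = av fun w : Wd t => f w.toList
  | 0, f => by
    have : ∀ w : Wd 0, f w.toList = f [] := fun w => by rw [List.Vector.toList_empty]
    simp only [Ex, this, av_const]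
  | t + 1, f => by
    rw [← av_equiv (wdCons t), av_prod]
    simp only [Ex, Ex_eq_av t, wdCons, Equiv.coe_fn_mk, List.Vector.toList_cons]
    simp [av]

variable {α : Type}

/-- The two maps agree on `Z`. -/
def Agr (Z : Finset α) (f g : α → α) : Prop := ∀ a ∈ Z, f a = g a

theorem Agr.refl (Z : Finset α) (f : α → α) : Agr Z f f := fun _ _ => rfl
theorem Agr.symm {Z : Finset α} {f g : α → α} (h : Agr Z f g) : Agr Z g f :=
  fun a ha => (h a ha).symm
theorem Agr.trans {Z : Finset α} {f g k : α → α} (h : Agr Z f g) (h' : Agr Z g k) : Agr Z f k :=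
  fun a ha => (h a ha).trans (h' a ha)
theorem Agr.mono {Z Z' : Finset α} {f g : α → α} (h : Agr Z' f g) (hZ : Z ⊆ Z') : Agr Z f g :=
  fun a ha => h a (hZ ha)

/-- Restriction of a map to `Z`. -/
def res (Z : Finset α) (f : α → α) : Z → α := fun a => f a

theorem res_eq_iff {Z : Finset α} {f g : α → α} : res Z f = res Z g ↔ Agr Z f g :=
  ⟨fun h a ha => congrFun h ⟨a, ha⟩, fun h => funext fun a => h a a.2⟩

/-- `F` depends only on the values on `Z`. -/
def Dep (Z : Finset α) (F : (α → α) → ℝ) : Prop := ∀ f g, Agr Z f g → F f = F g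

/-- Probability that the random permutation `G` agrees with `f` on `Z`. -/
noncomputable def pr {Ω : Type} [Fintype Ω] (G : Ω → Perm α) (Z : Finset α) (f : α → α) : ℝ :=
  av fun x => ind (Agr Z (G x) f)

/-- Entropy of the restriction of `G` to `Z`. -/
noncomputable def ent {Ω : Type} [Fintype Ω] (G : Ω → Perm α) (Z : Finset α) : ℝ :=
  av fun x => -Real.log (pr G Z (G x))

/-- Conditional probability that `G` sends `b` to `w`, given its restriction to `Z`. -/
noncomputable def ker {Ω : Type} [Fintype Ω] (G : Ω → Perm α) (Z : Finset α) (x : Ω) (b w : α) :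
    ℝ := cnd (fun y => res Z (G y)) x fun y => ind (G y b = w)

/-- The random permutation given by a random word of length `t`. -/
def walk (ω : Bool → Perm α) (t : ℕ) (w : Wd t) : Perm α := ev ω w.toList

theorem Ex_eq_walk (ω : Bool → Perm α) (t : ℕ) (F : Perm α → ℝ) :
    Ex t (fun l => F (ev ω l)) = av fun w : Wd t => F (walk ω t w) := Ex_eq_av t _

theorem walk_add (ω : Bool → Perm α) (t t' : ℕ) (F : Perm α → ℝ) :
    av (fun w : Wd (t + t') => F (walk ω (t + t') w)) =
      av fun z : Wd t × Wd t' => F (walk ω t' z.2 * walk ω t z.1) := by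
  rw [← Ex_eq_walk, Ex_append, av_prod, Ex_eq_av]
  simp only [ev_append, Ex_eq_av, walk]

variable [Fintype α] [DecidableEq α]

/-- Entropy deficiency of the image of `b` given the restriction to `Z`. -/
noncomputable def dfc {Ω : Type} [Fintype Ω] (G : Ω → Perm α) (Z : Finset α) (b : α) : ℝ :=
  Real.log (Fintype.card α) - (ent G (insert b Z) - ent G Z)

/-- After `t` steps the image of every `j`-set is, outside mass `p`, `c` times dominated by the
uniform law. -/
def Spread (ω : Bool → Perm α) (j t : ℕ) (p c : ℝ) : Prop :=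
  ∀ Z : Finset α, Z.card = j → ∀ F : (α → α) → ℝ, Dep Z F → (∀ f, 0 ≤ F f ∧ F f ≤ 1) →
    Ex t (fun l => F ⇑(ev ω l)) ≤ p + c * av F

/-- After `t` steps the image of an average point is almost uniform given the images of any `M`
points. -/
def Flat (ω : Bool → Perm α) (M t : ℕ) (η : ℝ) : Prop :=
  ∀ Z : Finset α, Z.card ≤ M → ∀ t', t ≤ t' → av (fun b => dfc (walk ω t') Z b) ≤ η

/-- Mixing of points and pairs with accuracy `ζ`. -/
def Mix2 (ω : Bool → Perm α) (m : ℕ) (ζ : ℝ) : Prop :=
  (∀ a b : α, 1 - ζ ≤ Fintype.card α * Ex m fun l => ind (ev ω l a = b)) ∧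
  ∀ a a' b b' : α, a ≠ a' → Fintype.card α * ((Fintype.card α : ℝ) - 1) *
    Ex m (fun l => ind (ev ω l a = b ∧ ev ω l a' = b')) ≤ 1 + ζ

/-- The number of points on which two words differ. -/
noncomputable def dst (ω : Bool → Perm α) (g g' : List Bool) : ℝ :=
  ∑ v, ind (ev ω g v ≠ ev ω g' v)

/-- The point at height `i` of the first path from `v` is visited again by one of the two paths. -/
def Rep (ω : Bool → Perm α) (R i : ℕ) (g g' : List Bool) (v : α) : Prop :=
  ∃ i' ∈ Icc 1 R, (i' ≠ i ∧ pos ω g v i' = pos ω g v i) ∨ pos ω g' v i' = pos ω g v i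

/-- The number of repeated points at heights divisible by `m`. -/
noncomputable def Phi (ω : Bool → Perm α) (A m : ℕ) (g g' : List Bool) : ℝ :=
  ∑ s ∈ range A, ∑ v, ind (Rep ω (A * m) ((s + 1) * m) g g' v)

/-- Two words of length `R` differ on a small but not too small set. -/
def Window (ω : Bool → Perm α) (R : ℕ) (a : ℝ) : Prop :=
  ∃ g g' : List Bool, g.length = R ∧ g'.length = R ∧ a * Fintype.card α < dst ω g g' ∧
    dst ω g g' ≤ Fintype.card α / 2000

/-- Words with few repeated points differ on many points. -/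
def Sep (ω : Bool → Perm α) (A m : ℕ) (a : ℝ) : Prop :=
  ∀ g g' : List Bool, g.length = A * m → g'.length = A * m →
    Phi ω A m g g' ≤ Fintype.card α * A / 10 → a * Fintype.card α < dst ω g g'

/-- In every partition of the words into at most `B` cells, two words of one cell differ on many
points on average. -/
def Far (ω : Bool → Perm α) (R B : ℕ) (a : ℝ) : Prop :=
  ∀ (β : Type) [Fintype β], Fintype.card β ≤ B → ∀ c : Wd R → β,
    a * Fintype.card α / 2 ≤ av fun x => cnd c x fun y => dst ω x.toList y.toList

/-- The binary length of `n`. -/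
def lg (n : ℕ) : ℕ := Nat.log 2 n + 1

/-- The size of the tuples that mix by the trace bound. -/
def sbase (n : ℕ) : ℕ := Nat.log (lg n ^ 16) n - 1

end Pool.Agent.Lib.MP_8a89f5_al
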