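import Pool.Agent.Lib.MP_8a89f5_al.Q2Prob

/-!
Densities with respect to the uniform law on maps.
-/

namespace Pool.Agent.Lib.MP_8a89f5_al

open Finset Equiv

variable {α : Type} [Fintype α] [DecidableEq α] {Ω : Type} [Fintype Ω]

theorem av_agr (Z : Finset α) (g : α → α) :
    (Fintype.card α : ℝ) ^ Z.card * av (fun f : α → α => ind (Agr Z f g)) = 1 := by
  have h1 : ∀ f : α → α,
      ind (Agr Z f g) = ∏ a, (if a ∈ Z then ind (g a = f a) else 1) := by
    intro f
    rw [Finset.prod_ite_mem, univ_inter]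
    by_cases h : Agr Z f g
    · rw [ind_pos h]
      exact (prod_eq_one fun a ha => ind_pos (h a ha).symm).symm
    · rw [ind_neg h]
      unfold Agr at h
      push Not at h
      obtain ⟨a, ha, hne⟩ := h
      exact (prod_eq_zero ha (ind_neg fun e => hne e.symm)).symm
  simp only [h1]
  rw [av_pi (fun (a : α) (b : α) => if a ∈ Z then ind (g a = b) else 1)]
  have h2 : ∀ a : α, av (fun b : α => if a ∈ Z then ind (g a = b) else 1) =
      if a ∈ Z then 1 / (Fintype.card α : ℝ) else 1 := by
    intro a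
    have : Nonempty α := ⟨a⟩
    split_ifs
    · exact av_ind_eq _
    · exact av_const _
  simp only [h2]
  rw [Finset.prod_ite_mem, univ_inter, ← prod_const, ← prod_mul_distrib]
  refine prod_eq_one fun a _ => ?_
  have : Nonempty α := ⟨a⟩
  have : (Fintype.card α : ℝ) ≠ 0 := by exact_mod_cast Fintype.card_ne_zero
  field_simp

theorem av_comp_perm (F : (α → α) → ℝ) (g : Perm α) :
    av (fun f : α → α => F (f ∘ g)) = av F := by
  exact av_equiv (Equiv.arrowCongr g.symm (Equiv.refl α)) F

theorem av_perm_comp (F : (α → α) → ℝ) (g : Perm α) :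
    av (fun f : α → α => F (g ∘ f)) = av F := by
  exact av_equiv (Equiv.arrowCongr (Equiv.refl α) g) F

theorem av_dens (G : Ω → Perm α) {Z : Finset α} {Ψ : (α → α) → ℝ} (hΨ : Dep Z Ψ) :
    av (fun x => Ψ (G x)) =
      av fun f : α → α => (Fintype.card α : ℝ) ^ Z.card * pr G Z f * Ψ f := by
  have h1 : ∀ f : α → α, (Fintype.card α : ℝ) ^ Z.card * pr G Z f * Ψ f =
      av fun x => Ψ (G x) * ((Fintype.card α : ℝ) ^ Z.card * ind (Agr Z f (G x))) := by
    intro f
    rw [pr, ← av_mul_left, ← av_mul_right]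
    congr 1
    funext x
    by_cases h : Agr Z f (G x)
    · rw [ind_pos h, ind_pos h.symm, hΨ _ _ h]
      ring
    · rw [ind_neg h, ind_neg fun h' => h h'.symm]
      ring
  simp only [h1]
  rw [av_comm]
  congr 1
  funext x
  rw [av_mul_left, av_mul_left, av_agr, mul_one]

omit [Fintype α] [DecidableEq α] in
theorem dens_pr_dep (G : Ω → Perm α) {S Z : Finset α} (h : S ⊆ Z) : Dep Z (pr G S) := by
  intro f g hfg
  unfold pr
  congr 1
  funext x
  exact ind_congr ⟨fun h' => h'.trans (hfg.mono h), fun h' => h'.trans (hfg.mono h).symm⟩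

omit [Fintype α] [DecidableEq α] in
theorem dens_pr_nonneg (G : Ω → Perm α) (Z : Finset α) (f : α → α) : 0 ≤ pr G Z f :=
  av_nonneg fun _ => ind_nonneg _

omit [Fintype α] [DecidableEq α] in
theorem dens_pr_pos (G : Ω → Perm α) (Z : Finset α) (x : Ω) : 0 < pr G Z (G x) := by
  have : Nonempty Ω := ⟨x⟩
  unfold pr av
  refine div_pos (sum_pos' (fun y _ => ind_nonneg _) ⟨x, mem_univ _, ?_⟩) ?_
  · rw [ind_pos (Agr.refl _ _)]
    exact one_pos
  · exact_mod_cast Fintype.card_pos

omit [DecidableEq α] in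
theorem dens_pow_pos (Z : Finset α) : 0 < (Fintype.card α : ℝ) ^ Z.card := by
  rcases Z.eq_empty_or_nonempty with rfl | ⟨a, -⟩
  · simp
  · have : Nonempty α := ⟨a⟩
    exact pow_pos (by exact_mod_cast Fintype.card_pos) _

theorem av_div_dens (G : Ω → Perm α) {Z : Finset α} {Ψ : (α → α) → ℝ} (hΨ : Dep Z Ψ)
    (h0 : ∀ f, 0 ≤ Ψ f) :
    av (fun x => Ψ (G x) / ((Fintype.card α : ℝ) ^ Z.card * pr G Z (G x))) ≤ av Ψ := by
  rw [av_dens G (Z := Z) (Ψ := fun f => Ψ f / ((Fintype.card α : ℝ) ^ Z.card * pr G Z f))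
    fun f g h => by simp only [hΨ f g h, dens_pr_dep G (Subset.refl Z) f g h]]
  refine av_mono fun f => ?_
  by_cases h : (Fintype.card α : ℝ) ^ Z.card * pr G Z f = 0
  · rw [h, zero_mul]
    exact h0 f
  · rw [mul_div_cancel₀ _ h]

theorem ent_chain (G : Ω → Perm α) (Z : Finset α) {j : ℕ} (x : Fin j → α) :
    j * Real.log (Fintype.card α) - (ent G (Z ∪ univ.image x) - ent G Z) =
      ∑ c, dfc G (Z ∪ (Iio c).image x) (x c) := by
  set T : ℕ → Finset α := fun k => Z ∪ (univ.filter fun c : Fin j => c.val < k).image x with hT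
  have h1 : ∀ c : Fin j, Z ∪ (Iio c).image x = T c := by
    intro c
    simp only [hT]
    congr 2
    ext d
    simp
  have h2 : ∀ c : Fin j, insert (x c) (T c) = T (c + 1) := by
    intro c
    ext a
    simp only [hT, mem_insert, mem_union, mem_image, mem_filter, mem_univ, true_and]
    constructor
    · rintro (rfl | h | ⟨d, hd, rfl⟩)
      · exact Or.inr ⟨c, Nat.lt_succ_self _, rfl⟩
      · exact Or.inl h
      · exact Or.inr ⟨d, Nat.lt_succ_of_lt hd, rfl⟩
    · rintro (h | ⟨d, hd, rfl⟩)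
      · exact Or.inr (Or.inl h)
      · rcases Nat.lt_succ_iff_lt_or_eq.1 hd with h | h
        · exact Or.inr (Or.inr ⟨d, h, rfl⟩)
        · exact Or.inl (by rw [Fin.ext h])
  have h3 : T 0 = Z := by simp [hT]
  have h4 : T j = Z ∪ univ.image x := by
    simp only [hT]
    congr 2
    ext d
    simp
  simp only [dfc, h1, h2]
  rw [sum_sub_distrib, Fin.sum_univ_eq_sum_range (fun k => ent G (T (k + 1)) - ent G (T k)) j,
    sum_range_sub (fun k => ent G (T k)), h3, h4]
  simp

omit [DecidableEq α] in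
theorem dens_av_log [Nonempty Ω] (G : Ω → Perm α) (Z : Finset α) :
    av (fun x => Real.log ((Fintype.card α : ℝ) ^ Z.card * pr G Z (G x))) =
      Z.card * Real.log (Fintype.card α) - ent G Z := by
  have : ∀ x, Real.log ((Fintype.card α : ℝ) ^ Z.card * pr G Z (G x)) =
      Z.card * Real.log (Fintype.card α) - -Real.log (pr G Z (G x)) := by
    intro x
    rw [Real.log_mul (dens_pow_pos Z).ne' (dens_pr_pos G Z x).ne', Real.log_pow]
    ring
  simp only [this]
  rw [av_sub, av_const, ent]

theorem ratio_tail [Nonempty Ω] (G : Ω → Perm α) {S Z : Finset α} (h : S ⊆ Z) {c : ℝ}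
    (hc0 : 0 < c) (hc : 1 < Real.log c) :
    av (fun x => ind (c * ((Fintype.card α : ℝ) ^ S.card * pr G S (G x)) <
        (Fintype.card α : ℝ) ^ Z.card * pr G Z (G x))) ≤
      (((Z.card : ℝ) - S.card) * Real.log (Fintype.card α) - (ent G Z - ent G S)) /
        (Real.log c - 1) := by
  have hpos : 0 < Real.log c - 1 := by linarith
  rw [le_div_iff₀ hpos, ← av_mul_right]
  have key : ∀ A B : ℝ, 0 < A → 0 < B →
      ind (c * A < B) * (Real.log c - 1) ≤ Real.log B - Real.log A - 1 + A / B := by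
    intro A B hA hB
    have hr : 0 < B / A := div_pos hB hA
    have e1 : Real.log B - Real.log A = Real.log (B / A) := (Real.log_div hB.ne' hA.ne').symm
    rw [e1]
    by_cases h' : c * A < B
    · rw [ind_pos h', one_mul]
      have h1 : Real.log c ≤ Real.log (B / A) :=
        Real.log_le_log hc0 (by rw [le_div_iff₀ hA]; exact h'.le)
      have h2 : 0 ≤ A / B := (div_pos hA hB).le
      linarith
    · rw [ind_neg h', zero_mul]
      have h1 := Real.one_sub_inv_le_log_of_pos hr
      rw [inv_div] at h1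
      linarith
  refine (av_mono fun x => key _ _ (mul_pos (dens_pow_pos S) (dens_pr_pos G S x))
    (mul_pos (dens_pow_pos Z) (dens_pr_pos G Z x))).trans ?_
  rw [av_add, av_sub, av_sub, av_const, dens_av_log, dens_av_log]
  have h1 := av_div_dens G (Z := Z) (Ψ := fun f => (Fintype.card α : ℝ) ^ S.card * pr G S f)
    (fun f g hfg => by simp only [dens_pr_dep G h f g hfg])
    fun f => mul_nonneg (dens_pow_pos S).le (dens_pr_nonneg G S f)
  have h2 := av_dens G (Z := S) (Ψ := fun _ => 1) fun _ _ _ => rfl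
  simp only [mul_one, av_const] at h2
  rw [← h2] at h1
  linarith

end Pool.Agent.Lib.MP_8a89f5_al
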