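import Pool.Agent.Lib.MP_8a89f5_al.Q2Defs
import Pool.Agent.Lib.MP_8a89f5_al.Gen

/-!
The descent with approximate placement.
-/

namespace Pool.Agent.Lib.MP_8a89f5_al

open Finset Equiv

variable {α : Type} [Fintype α] [DecidableEq α] {ω : Bool → Perm α}

/-- A quotient of two conjugates removes `i` points from the support. -/
theorem desc_exact {σ : Perm α} {i : ℕ} (h1 : 3 * i ≤ σ.support.card + 2)
    (h2 : σ.support.card + i ≤ Fintype.card α) (g : Perm α) (hg : 3 * i ≤ g.support.card) :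
    ∃ k k' : Perm α,
      (g * (k * σ * k⁻¹ * (k' * σ * k'⁻¹)⁻¹)).support.card + i ≤ g.support.card := by
  obtain ⟨a, b, ha, hb, haS, hbS, hfa, hba, hbf⟩ := gb_triple σ h1 σ.supportᶜ (fun S hS hc => by
    have : σ.supportᶜ \ (S ∪ S.image σ) = σ.supportᶜ := by
      refine sdiff_eq_self_of_disjoint (disjoint_left.2 fun x hx hx' => ?_)
      rw [mem_compl] at hx
      rcases mem_union.1 hx' with h | h
      · exact hx (hS h)
      · obtain ⟨y, hy, rfl⟩ := mem_image.1 h
        exact hx (Perm.apply_mem_support.2 (hS hy))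
    rw [this, card_compl]; omega)
  obtain ⟨s, c, hs, hc, hsS, hcS, hgs, hcs, hcg⟩ := gb_triple g (i := i) (by omega) g.support
    (fun S hS hc => by
      have h3 := le_card_sdiff (S ∪ S.image g) g.support
      have h4 := card_union_le S (S.image g)
      have h5 := card_image_le (s := S) (f := g)
      omega)
  have hb0 : ∀ t, σ (b t) = b t := fun t => by simpa using hbS t
  obtain ⟨τ, hτ, hτ'⟩ := gb_extend (u := Sum.elim a b) (v := Sum.elim b a)
    (ha.sumElim hb fun t u => (hba u t).symm) (hb.sumElim ha hba)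
  have hτa : ∀ t, τ (a t) = b t := fun t => hτ (Sum.inl t)
  have hτb : ∀ t, τ (b t) = a t := fun t => hτ (Sum.inr t)
  have hτ0 : ∀ x, (∀ t, a t ≠ x) → (∀ t, b t ≠ x) → τ x = x := fun x h3 h4 =>
    hτ' x (fun t => by cases t <;> simp [h3, h4]) (fun t => by cases t <;> simp [h3, h4])
  obtain ⟨k, hk, -⟩ := gb_extend (u := Sum.elim a (Sum.elim (fun t => σ (a t)) b))
    (v := Sum.elim (fun t => g (s t)) (Sum.elim s c))
    (ha.sumElim ((σ.injective.comp ha).sumElim hb fun t u => (hbf u t).symm) fun t u => by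
      cases u
      · exact (hfa _ _).symm
      · exact (hba _ _).symm)
    ((g.injective.comp hs).sumElim (hs.sumElim hc fun t u => (hcs u t).symm) fun t u => by
      cases u
      · exact hgs _ _
      · exact (hcg _ _).symm)
  have hk1 : ∀ t, k (a t) = g (s t) := fun t => hk (Sum.inl t)
  have hk2 : ∀ t, k (σ (a t)) = s t := fun t => hk (Sum.inr (Sum.inl t))
  have hk3 : ∀ t, k (b t) = c t := fun t => hk (Sum.inr (Sum.inr t))
  have e1 : ∀ t, (σ * τ * σ⁻¹ * τ⁻¹) (a t) = σ (a t) := fun t => by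
    have h3 : τ⁻¹ (a t) = b t := by rw [Perm.inv_eq_iff_eq, hτb]
    have h4 : σ⁻¹ (b t) = b t := by rw [Perm.inv_eq_iff_eq, hb0]
    simp only [Perm.mul_apply, h3, h4, hτb]
  have e2 : ∀ x, (∀ t, a t ≠ x) → (∀ t, σ (a t) ≠ x) → (∀ t, b t ≠ x) →
      (σ * τ * σ⁻¹ * τ⁻¹) x = x := fun x h3 h4 h5 => by
    have h6 : τ⁻¹ x = x := by rw [Perm.inv_eq_iff_eq, hτ0 x h3 h5]
    have h7 : τ (σ⁻¹ x) = σ⁻¹ x := hτ0 _
      (fun t h => h4 t (by rw [h]; simp)) (fun t h => h5 t (by rw [← hb0, h]; simp))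
    simp only [Perm.mul_apply, h6, h7]
    simp
  refine ⟨k, k * τ, ?_⟩
  have e : k * σ * k⁻¹ * (k * τ * σ * (k * τ)⁻¹)⁻¹ = k * (σ * τ * σ⁻¹ * τ⁻¹) * k⁻¹ := by group
  rw [e]
  have hsub : (g * (k * (σ * τ * σ⁻¹ * τ⁻¹) * k⁻¹)).support ⊆
      g.support \ univ.image fun t => g (s t) := by
    intro x hx
    rw [Perm.mem_support] at hx
    refine mem_sdiff.2 ⟨?_, fun h => ?_⟩
    · by_contra hxg
      apply hx
      have h3 : (σ * τ * σ⁻¹ * τ⁻¹) (k⁻¹ x) = k⁻¹ x := by
        refine e2 _ (fun t h => hxg ?_) (fun t h => hxg ?_) (fun t h => hxg ?_)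
        · have : x = g (s t) := by rw [← hk1, h]; simp
          rw [this]; exact Perm.apply_mem_support.2 (hsS t)
        · have : x = s t := by rw [← hk2, h]; simp
          rw [this]; exact hsS t
        · have : x = c t := by rw [← hk3, h]; simp
          rw [this]; exact hcS t
      rw [Perm.mul_apply, Perm.mul_apply, Perm.mul_apply, h3]
      simpa using hxg
    · obtain ⟨t, -, rfl⟩ := mem_image.1 h
      apply hx
      have h3 : k⁻¹ (g (s t)) = a t := by rw [Perm.inv_eq_iff_eq, hk1]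
      rw [Perm.mul_apply, Perm.mul_apply, Perm.mul_apply, h3, e1, hk2]
  have h4 : (univ.image fun t => g (s t)) ⊆ g.support := fun x hx => by
    obtain ⟨t, -, rfl⟩ := mem_image.1 hx
    exact Perm.apply_mem_support.2 (hsS t)
  have h5 := card_le_card hsub
  rw [card_sdiff_of_subset h4, card_image_of_injective _ (f := fun t => g (s t))
    (g.injective.comp hs), card_univ, Fintype.card_fin] at h5
  omega

/-- Approximate placement of a conjugate. -/
theorem desc_conj {σ : Perm α} {ρ U : ℝ} (h : NearTrans ω σ.support.card ρ U) (k : Perm α) :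
    ∃ h e : Perm α, Len ω h U ∧ h * σ * h⁻¹ = k * σ * k⁻¹ * e ∧ (e.support.card : ℝ) ≤ 3 * ρ := by
  obtain ⟨a, ha⟩ := gb_tuple σ.support le_rfl (card_le_univ _)
  obtain ⟨p, hp, hI⟩ := h a (a.trans k.toEmbedding)
  set I := univ.filter fun i => p (a i) ≠ (a.trans k.toEmbedding) i with hIdef
  refine ⟨p, (k * σ * k⁻¹)⁻¹ * (p * σ * p⁻¹), hp, by group, ?_⟩
  have hgood : ∀ y ∈ σ.support, y ∉ I.image a → p y = k y := fun y hy hn => by
    obtain ⟨i, rfl⟩ := ha y hy
    by_contra hne
    exact hn (mem_image.2 ⟨i, mem_filter.2 ⟨mem_univ _, hne⟩, rfl⟩)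
  have hsub : ((k * σ * k⁻¹)⁻¹ * (p * σ * p⁻¹)).support ⊆
      (I.image a).image k ∪ ((I.image a).image (fun y => k (σ⁻¹ y)) ∪ (I.image a).image p) := by
    intro x hx
    rw [Perm.mem_support] at hx
    by_contra hne
    simp only [mem_union, not_or] at hne
    obtain ⟨n1, n2, n3⟩ := hne
    apply hx
    rw [Perm.mul_apply, Perm.inv_eq_iff_eq]
    by_cases hk : k⁻¹ x ∈ σ.support
    · have g1 : p (k⁻¹ x) = k (k⁻¹ x) :=
        hgood _ hk fun hm => n1 (mem_image.2 ⟨_, hm, by simp⟩)
      have g2 : p (σ (k⁻¹ x)) = k (σ (k⁻¹ x)) :=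
        hgood _ (Perm.apply_mem_support.2 hk) fun hm => n2 (mem_image.2 ⟨_, hm, by simp⟩)
      have g3 : p⁻¹ x = k⁻¹ x := by rw [Perm.inv_eq_iff_eq, g1]; simp
      simp only [Perm.mul_apply, g3, g2]
    · have g1 : p⁻¹ x ∉ σ.support := fun hm => by
        have g2 : p (p⁻¹ x) = k (p⁻¹ x) :=
          hgood _ hm fun hm' => n3 (mem_image.2 ⟨_, hm', by simp⟩)
        have g3 : k⁻¹ x = p⁻¹ x := by rw [Perm.inv_eq_iff_eq, ← g2]; simp
        exact hk (g3 ▸ hm)
      rw [Perm.notMem_support] at hk g1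
      simp only [Perm.mul_apply, hk, g1]
      simp
  have h1 := (card_le_card hsub).trans (card_union_le _ _)
  have h2 := card_union_le ((I.image a).image (fun y => k (σ⁻¹ y))) ((I.image a).image p)
  have h3 := card_image_le (s := I.image a) (f := k)
  have h4 := card_image_le (s := I.image a) (f := fun y => k (σ⁻¹ y))
  have h5 := card_image_le (s := I.image a) (f := p)
  have h6 := card_image_le (s := I) (f := a)
  have h7 : (((k * σ * k⁻¹)⁻¹ * (p * σ * p⁻¹)).support.card : ℝ) ≤ 3 * I.card := by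
    exact_mod_cast (by omega : ((k * σ * k⁻¹)⁻¹ * (p * σ * p⁻¹)).support.card ≤ 3 * I.card)
  linarith

/-- One step of the descent. -/
theorem desc_step {σ : Perm α} {U : ℝ} (hσ : Len ω σ U) (h20 : 20 ≤ σ.support.card)
    (h2 : 2 * σ.support.card ≤ Fintype.card α)
    (h : NearTrans ω σ.support.card ((σ.support.card : ℝ) / 200) U) (g : Perm α)
    (hg : σ.support.card ≤ g.support.card) :
    ∃ κ : Perm α, Len ω κ (6 * U) ∧ Perm.sign κ = 1 ∧
      ((g * κ).support.card : ℝ) + (σ.support.card : ℝ) / 6 ≤ g.support.card := by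
  obtain ⟨k, k', hk⟩ := desc_exact (σ := σ) (i := σ.support.card / 4) (by omega) (by omega) g
    (by omega)
  obtain ⟨p, e, hp, he, hec⟩ := desc_conj h k
  obtain ⟨p', e', hp', he', hec'⟩ := desc_conj h k'
  refine ⟨p * σ * p⁻¹ * (p' * σ * p'⁻¹)⁻¹, ?_, ?_, ?_⟩
  · exact (((hp.mul hσ).mul hp.inv).mul ((hp'.mul hσ).mul hp'.inv).inv).mono (by linarith)
  · simp only [map_mul, map_inv]
    rcases Int.units_eq_one_or (Perm.sign p) with h3 | h3 <;>
      rcases Int.units_eq_one_or (Perm.sign σ) with h4 | h4 <;>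
        rcases Int.units_eq_one_or (Perm.sign p') with h5 | h5 <;> simp [h3, h4, h5]
  · have e1 : g * (p * σ * p⁻¹ * (p' * σ * p'⁻¹)⁻¹) =
        g * (k * σ * k⁻¹ * (k' * σ * k'⁻¹)⁻¹) *
          ((k' * σ * k'⁻¹) * (e * e'⁻¹) * (k' * σ * k'⁻¹)⁻¹) := by
      rw [he, he']; group
    have h3 := (card_le_card (Perm.support_mul_le (g * (k * σ * k⁻¹ * (k' * σ * k'⁻¹)⁻¹))
      ((k' * σ * k'⁻¹) * (e * e'⁻¹) * (k' * σ * k'⁻¹)⁻¹))).trans (card_union_le _ _)
    rw [Perm.card_support_conj, ← e1] at h3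
    have h4 := (card_le_card (Perm.support_mul_le e e'⁻¹)).trans (card_union_le _ _)
    rw [Perm.support_inv] at h4
    have h5 : 4 * (g * (p * σ * p⁻¹ * (p' * σ * p'⁻¹)⁻¹)).support.card + σ.support.card ≤
        4 * g.support.card + 3 + 4 * e.support.card + 4 * e'.support.card := by omega
    have h6 : 4 * ((g * (p * σ * p⁻¹ * (p' * σ * p'⁻¹)⁻¹)).support.card : ℝ) + σ.support.card ≤
        4 * g.support.card + 3 + 4 * e.support.card + 4 * e'.support.card := by exact_mod_cast h5
    have h7 : (20 : ℝ) ≤ σ.support.card := by exact_mod_cast h20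
    linarith

/-- The potential drops by at least one in each step. -/
theorem desc_pot {K N N' P m : ℝ} (hP : 1 ≤ P) (hK : 0 < K) (hN : 1 ≤ N) (hN' : 0 ≤ N')
    (hm : min K N / P ≤ m) (h : N' + m / 6 ≤ N) :
    6 * P * N' / K + 12 * P * Real.log (N' + 1) + 1 ≤ 6 * P * N / K + 12 * P * Real.log (N + 1) := by
  have hP0 : 0 < P := by linarith
  rw [div_le_iff₀ hP0] at hm
  have hm0 : 0 < m * P := lt_of_lt_of_le (lt_min hK (by linarith)) hm
  have hm1 : 0 < m := pos_of_mul_pos_left hm0 hP0.le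
  have hle : N' ≤ N := by linarith
  have hD : m * P ≤ 6 * P * (N - N') := by nlinarith
  rcases le_total K N with h1 | h1
  · rw [min_eq_left h1] at hm
    have h3 : Real.log (N' + 1) ≤ Real.log (N + 1) := Real.log_le_log (by linarith) (by linarith)
    have h4 : 6 * P * N' / K + 1 ≤ 6 * P * N / K := by
      rw [div_add_one hK.ne']
      exact div_le_div_of_nonneg_right (by linarith) hK.le
    nlinarith
  · rw [min_eq_right h1] at hm
    have h3 : Real.log ((N' + 1) / (N + 1)) ≤ (N' + 1) / (N + 1) - 1 :=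
      Real.log_le_sub_one_of_pos (by positivity)
    rw [Real.log_div (by positivity) (by positivity)] at h3
    have h4 : 12 * P * ((N' + 1) / (N + 1) - 1) ≤ -1 := by
      have : (N' + 1) / (N + 1) - 1 = (N' - N) / (N + 1) := by field_simp; ring
      rw [this, ← mul_div_assoc, div_le_iff₀ (by positivity)]
      linarith
    have h5 : 6 * P * N' / K ≤ 6 * P * N / K :=
      div_le_div_of_nonneg_right (by nlinarith) hK.le
    nlinarith

theorem descent {L K N0 N1 : ℕ} {U P : ℝ} (hL : 1 ≤ L) (hn : Fintype.card α < 2 ^ L) (hP : 1 ≤ P)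
    (hN1 : 20 ≤ N1) (hN0 : P * N1 ≤ N0) (hK : 2 * K ≤ Fintype.card α)
    (h3 : ∀ g : Perm α, Perm.sign g = 1 → Len ω g (100 * ((g.support.card : ℝ) + L) * U))
    (hσ : ∀ s : ℕ, N0 ≤ s → s ≤ K →
      ∃ σ, Len ω σ U ∧ s / P ≤ (σ.support.card : ℝ) ∧ σ.support.card ≤ s)
    (hnt : ∀ s : ℕ, N1 ≤ s → s ≤ K → NearTrans ω s (s / 200) U) (g : Perm α)
    (hg : Perm.sign g = 1) :
    Len ω g (400 * U * P * N0 * L * (Fintype.card α / ((K : ℝ) + 1) + 1)) := by
  have hL' : (1 : ℝ) ≤ L := by exact_mod_cast hL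
  have hP0 : 0 < P := by linarith
  have hN1' : (20 : ℝ) ≤ N1 := by exact_mod_cast hN1
  have hN0' : (20 : ℝ) ≤ N0 := by nlinarith
  have hU : 0 ≤ U := by
    have := (h3 1 (by simp)).nonneg
    simp only [Perm.support_one, card_empty, Nat.cast_zero, zero_add] at this
    exact nonneg_of_mul_nonneg_right this (by positivity)
  have hgn : (g.support.card : ℝ) ≤ Fintype.card α := by exact_mod_cast card_le_univ _
  have hK0 : (0 : ℝ) ≤ K := Nat.cast_nonneg _
  set n : ℝ := ((Fintype.card α : ℕ) : ℝ) with hndef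
  have hn0 : 0 ≤ n := Nat.cast_nonneg _
  set x : ℝ := n / ((K : ℝ) + 1) with hx
  have hx0 : 0 ≤ x := by positivity
  have hxn : x * ((K : ℝ) + 1) = n := div_mul_cancel₀ _ (by positivity)
  have hPL : 1 ≤ P * L := one_le_mul_of_one_le_of_one_le hP hL'
  have b1 : (N0 : ℝ) ≤ P * L * N0 := le_mul_of_one_le_left (by linarith) hPL
  have b2 : P * L ≤ P * L * N0 := le_mul_of_one_le_right (by linarith) (by linarith)
  have b3 : (L : ℝ) ≤ P * L := le_mul_of_one_le_left (by linarith) hP
  have b4 : P ≤ P * L := le_mul_of_one_le_right (by linarith) hL'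
  have fin : ∀ c : ℝ, c ≤ 400 * (P * L * N0) * x + 400 * (P * L * N0) →
      c * U ≤ 400 * U * P * N0 * L * (x + 1) := fun c hc => by
    have := mul_le_mul_of_nonneg_right hc hU
    linarith
  rcases lt_or_ge K N0 with hKN | hKN
  · refine (h3 g hg).mono (fin _ ?_)
    have h4 : (K : ℝ) + 1 ≤ N0 := by exact_mod_cast hKN
    have h5 : x * ((K : ℝ) + 1) ≤ x * (P * L * N0) := mul_le_mul_of_nonneg_left (by linarith) hx0
    linarith
  have hKN' : (N0 : ℝ) ≤ K := by exact_mod_cast hKN
  have hKpos : (0 : ℝ) < K := by linarith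
  have key : ∀ N : ℕ, ∀ g : Perm α, g.support.card = N → Perm.sign g = 1 →
      Len ω g ((6 * (6 * P * N / K + 12 * P * Real.log (N + 1)) + 100 * (N0 + L)) * U) := by
    intro N
    induction N using Nat.strong_induction_on with
    | _ N ih =>
      intro g hN hg
      have hN' : (0 : ℝ) ≤ N := Nat.cast_nonneg _
      rcases lt_or_ge N N0 with h4 | h4
      · refine (h3 g hg).mono (mul_le_mul_of_nonneg_right ?_ hU)
        have h5 : (N : ℝ) ≤ N0 := by exact_mod_cast h4.le
        have h6 : 0 ≤ Real.log ((N : ℝ) + 1) := Real.log_nonneg (by linarith)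
        have h7 : 0 ≤ 6 * P * N / K + 12 * P * Real.log (N + 1) := by positivity
        rw [hN]
        linarith
      · obtain ⟨σ, hσ1, hσ2, hσ3⟩ := hσ (min K N) (le_min hKN h4) (min_le_left _ _)
        have h5 : (N0 : ℝ) ≤ (min K N : ℕ) := by exact_mod_cast le_min hKN h4
        have h6 : N1 ≤ σ.support.card := by
          have : (N1 : ℝ) ≤ σ.support.card := by
            refine le_trans ?_ hσ2
            rw [le_div_iff₀ hP0]
            linarith
          exact_mod_cast this
        have h7 := min_le_left K N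
        have h8 := min_le_right K N
        obtain ⟨κ, hκ, hκs, hκc⟩ := desc_step hσ1 (by omega) (by omega)
          (hnt _ h6 (by omega)) g (by omega)
        rw [hN] at hκc
        have h9 : (20 : ℝ) ≤ σ.support.card := by exact_mod_cast hN1.trans h6
        have h10 : (g * κ).support.card < N := by
          have : ((g * κ).support.card : ℝ) < N := by linarith
          exact_mod_cast this
        have h11 := ih _ h10 (g * κ) rfl (by simp [hg, hκs])
        have h4' : (N0 : ℝ) ≤ N := by exact_mod_cast h4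
        have h12 := desc_pot (K := K) (N := N) (N' := (g * κ).support.card) hP hKpos (by linarith)
          (Nat.cast_nonneg _) (by simpa using hσ2) hκc
        have e : g = g * κ * κ⁻¹ := by group
        rw [e]
        refine (h11.mul hκ.inv).mono ?_
        have := mul_le_mul_of_nonneg_right h12 hU
        linarith
  refine (key _ g rfl hg).mono (fin _ ?_)
  have h4 : Real.log ((g.support.card : ℝ) + 1) ≤ L := by
    have h5 : ((g.support.card : ℝ) + 1) ≤ 2 ^ L := by
      exact_mod_cast (Nat.succ_le_succ (card_le_univ g.support)).trans hn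
    have h6 := Real.log_le_log (by positivity) h5
    rw [Real.log_pow] at h6
    have h7 : Real.log 2 ≤ 1 := by linarith [Real.log_two_lt_d9]
    nlinarith
  have h5 : 6 * P * (g.support.card : ℝ) / K ≤ 12 * P * x := by
    rw [div_le_iff₀ hKpos]
    have h6 : (g.support.card : ℝ) ≤ 2 * x * K := by nlinarith
    nlinarith
  have h6 : P * Real.log ((g.support.card : ℝ) + 1) ≤ P * L := mul_le_mul_of_nonneg_left h4 hP0.le
  have h7 : P * x ≤ P * L * N0 * x := mul_le_mul_of_nonneg_right (b4.trans b2) hx0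
  have h8 : 0 ≤ P * x := by positivity
  linarith

end Pool.Agent.Lib.MP_8a89f5_al
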