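import Pool.Agent.Lib.MP_8a89f5_al.Q2Fam

/-!
The dichotomy: resampling on a small set moves the distance of two close words into the window.
-/

namespace Pool.Agent.Lib.MP_8a89f5_al

open Finset Equiv

variable {α : Type} [Fintype α] [DecidableEq α]

omit [Fintype α] [DecidableEq α] in
theorem dich_pos_cons (ω : Bool → Perm α) (c : Bool) (l : List Bool) (v : α) (i : ℕ) :
    pos ω (c :: l) v (i + 1) = pos ω l (ω c v) i := by
  simp [pos, ev]

omit [Fintype α] [DecidableEq α] in
theorem dich_ev_cons (ω : Bool → Perm α) (c : Bool) (l : List Bool) (v : α) :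
    ev ω (c :: l) v = ev ω l (ω c v) := by
  simp [ev]

omit [Fintype α] [DecidableEq α] in
/-- A path that avoids `D` is not changed. -/
theorem dich_same (ω : Bool → Perm α) {D : Finset α} {τ : Perm α} (hτ : ∀ x, x ∉ D → τ x = x) :
    ∀ (l : List Bool) (v : α), (∀ i ∈ Icc 1 l.length, pos ω l v i ∉ D) →
      ev (fun c => τ * ω c) l v = ev ω l v
  | [], v, _ => by simp [ev]
  | c :: l, v, h => by
    have h1 : ω c v ∉ D := by
      have := h (0 + 1) (by simp)
      rwa [dich_pos_cons, pos_zero] at this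
    rw [dich_ev_cons, dich_ev_cons, Perm.mul_apply, hτ _ h1]
    refine dich_same ω hτ l _ fun i hi => ?_
    rw [← dich_pos_cons]
    refine h _ ?_
    simp only [mem_Icc, List.length_cons] at hi ⊢
    omega

omit [Fintype α] [DecidableEq α] in
/-- A path that can meet `D` only once, at a point that is moved, ends elsewhere. -/
theorem dich_moved (ω : Bool → Perm α) {D : Finset α} {τ : Perm α} (hτ : ∀ x, x ∉ D → τ x = x) :
    ∀ (l : List Bool) (v : α) (k : ℕ), k + 1 ≤ l.length →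
      (∀ i ∈ Icc 1 l.length, i ≠ k + 1 → pos ω l v i ∉ D) →
      τ (pos ω l v (k + 1)) ≠ pos ω l v (k + 1) → ev (fun c => τ * ω c) l v ≠ ev ω l v
  | [], _, k, hk, _, _ => by simp at hk
  | c :: l, v, 0, _, h, hne => by
    rw [dich_pos_cons, pos_zero] at hne
    rw [dich_ev_cons, dich_ev_cons, Perm.mul_apply, ← dich_same ω hτ l (ω c v)]
    · exact fun e => hne ((ev (fun c => τ * ω c) l).injective e)
    · intro i hi
      rw [← dich_pos_cons]
      simp only [mem_Icc] at hi
      refine h _ ?_ (by omega)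
      simp only [mem_Icc, List.length_cons]
      omega
  | c :: l, v, k + 1, hk, h, hne => by
    have h1 : ω c v ∉ D := by
      have := h (0 + 1) (by simp) (by omega)
      rwa [dich_pos_cons, pos_zero] at this
    rw [dich_pos_cons] at hne
    rw [dich_ev_cons, dich_ev_cons, Perm.mul_apply, hτ _ h1]
    refine dich_moved ω hτ l _ k (by simpa using hk) (fun i hi hik => ?_) hne
    rw [← dich_pos_cons]
    refine h _ ?_ (by omega)
    simp only [mem_Icc, List.length_cons] at hi ⊢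
    omega

theorem dich_sum_mem (ω : Bool → Perm α) (l : List Bool) (i : ℕ) (D : Finset α) :
    ∑ v, ind (pos ω l v i ∈ D) = (D.card : ℝ) := by
  have h := Equiv.sum_comp (ev ω (l.take i)) (fun x => ind (x ∈ D))
  simp only [pos]
  rw [h, sum_ind_eq_card]
  simp

/-- The two paths from `v` end at one point and meet `D` only at height `h` of the first. -/
def DichU (D : Finset α) (ω : Bool → Perm α) (R h : ℕ) (g g' : List Bool) (v : α) : Prop :=
  ev ω g v = ev ω g' v ∧ pos ω g v h ∈ D ∧ (∀ i ∈ Icc 1 R, i ≠ h → pos ω g v i ∉ D) ∧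
    ∀ i ∈ Icc 1 R, pos ω g' v i ∉ D

/-- The number of such pairs of a point and a height divisible by `m`. -/
noncomputable def dichG (D : Finset α) (ω : Bool → Perm α) (A m : ℕ) (g g' : List Bool) : ℝ :=
  ∑ s ∈ range A, ∑ v, ind (DichU D ω (A * m) ((s + 1) * m) g g' v)

/-- The bad event seen from `D`. -/
def DichBad (D : Finset α) (A m : ℕ) (a : ℝ) (ω : Bool → Perm α) : Prop :=
  ¬Window ω (A * m) a ∧ ∃ g g' : List Bool, g.length = A * m ∧ g'.length = A * m ∧
    dst ω g g' ≤ a * Fintype.card α ∧ (A : ℝ) * D.card / 2 ≤ dichG D ω A m g g'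

theorem dichG_le (D : Finset α) (ω : Bool → Perm α) (A m : ℕ) (g g' : List Bool) :
    dichG D ω A m g g' ≤ A * D.card := by
  calc dichG D ω A m g g' ≤ ∑ _s ∈ range A, (D.card : ℝ) := by
        refine sum_le_sum fun s _ => ?_
        rw [← dich_sum_mem ω g ((s + 1) * m) D]
        exact sum_le_sum fun v _ => ind_mono fun h => h.2.1
    _ = A * D.card := by simp

theorem dich_height {A m s : ℕ} (hm : 1 ≤ m) (hs : s ∈ range A) : (s + 1) * m ∈ Icc 1 (A * m) := by
  rw [mem_range] at hs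
  rw [mem_Icc]
  exact ⟨Nat.mul_pos (by omega) hm, Nat.mul_le_mul_right _ (by omega)⟩

/-- Lower bound for the distance after the change. -/
theorem dich_lower {D : Finset α} {τ : Perm α} (hτ : ∀ x, x ∉ D → τ x = x) (ω : Bool → Perm α)
    {A m : ℕ} (hm : 1 ≤ m) {g g' : List Bool} (hg : g.length = A * m) (hg' : g'.length = A * m) :
    ∑ s ∈ range A, ∑ v, ind (DichU D ω (A * m) ((s + 1) * m) g g' v ∧
      τ (pos ω g v ((s + 1) * m)) ≠ pos ω g v ((s + 1) * m)) ≤
      dst (fun c => τ * ω c) g g' := by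
  classical
  rw [sum_comm]
  refine sum_le_sum fun v _ => ?_
  by_cases hex : ∃ s ∈ range A, DichU D ω (A * m) ((s + 1) * m) g g' v ∧
      τ (pos ω g v ((s + 1) * m)) ≠ pos ω g v ((s + 1) * m)
  · obtain ⟨s, hs, hU, hne⟩ := hex
    have hh := dich_height hm hs
    have hne' : ev (fun c => τ * ω c) g v ≠ ev (fun c => τ * ω c) g' v := by
      rw [dich_same ω hτ g' v (by rw [hg']; exact hU.2.2.2), ← hU.1]
      obtain ⟨k, hk⟩ : ∃ k, (s + 1) * m = k + 1 := ⟨(s + 1) * m - 1, by
        have := (mem_Icc.1 hh).1; omega⟩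
      refine dich_moved ω hτ g v k ?_ ?_ ?_
      · rw [hg, ← hk]; exact (mem_Icc.1 hh).2
      · rw [hg, ← hk]; exact hU.2.2.1
      · rw [← hk]; exact hne
    rw [ind_pos hne', sum_eq_single s]
    · exact ind_le_one _
    · intro s' hs' hss
      refine ind_neg fun h => ?_
      refine hU.2.2.1 _ (dich_height hm hs') ?_ h.1.2.1
      intro e
      exact hss (by have := Nat.eq_of_mul_eq_mul_right hm e; omega)
    · intro h; exact absurd hs h
  · rw [sum_eq_zero fun s hs => ind_neg fun h => hex ⟨s, hs, h⟩]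
    exact ind_nonneg _

/-- Upper bound for the distance after the change. -/
theorem dich_upper {D : Finset α} {τ : Perm α} (hτ : ∀ x, x ∉ D → τ x = x) (ω : Bool → Perm α)
    {R : ℕ} {g g' : List Bool} (hg : g.length = R) (hg' : g'.length = R) :
    dst (fun c => τ * ω c) g g' ≤ dst ω g g' + 2 * R * D.card := by
  have key : ∀ v, ind (ev (fun c => τ * ω c) g v ≠ ev (fun c => τ * ω c) g' v) ≤
      ind (ev ω g v ≠ ev ω g' v) + (∑ i ∈ Icc 1 R, ind (pos ω g v i ∈ D) +
        ∑ i ∈ Icc 1 R, ind (pos ω g' v i ∈ D)) := by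
    intro v
    have h1 : ind (∃ i ∈ Icc 1 R, pos ω g v i ∈ D) ≤ ∑ i ∈ Icc 1 R, ind (pos ω g v i ∈ D) :=
      ind_le_sum _ _ id
    have h2 : ind (∃ i ∈ Icc 1 R, pos ω g' v i ∈ D) ≤ ∑ i ∈ Icc 1 R, ind (pos ω g' v i ∈ D) :=
      ind_le_sum _ _ id
    refine le_trans (ind_mono (Q := ev ω g v ≠ ev ω g' v ∨ ((∃ i ∈ Icc 1 R, pos ω g v i ∈ D) ∨
      ∃ i ∈ Icc 1 R, pos ω g' v i ∈ D)) fun h => ?_) ?_
    · by_contra hn
      push Not at hn
      apply h
      rw [dich_same ω hτ g v (by rw [hg]; exact hn.2.1),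
        dich_same ω hτ g' v (by rw [hg']; exact hn.2.2), hn.1]
    · exact (ind_or_le _ _).trans (add_le_add le_rfl ((ind_or_le _ _).trans (add_le_add h1 h2)))
  refine (sum_le_sum fun v _ => key v).trans (le_of_eq ?_)
  rw [sum_add_distrib, sum_add_distrib, sum_comm (t := Icc 1 R), sum_comm (t := Icc 1 R)]
  simp only [dich_sum_mem, sum_const, Nat.card_Icc, Nat.add_sub_cancel, nsmul_eq_mul, dst]
  ring

omit [Fintype α] in
theorem dich_fix {D : Finset α} {p : α} (hp : p ∈ D) :
    av (fun k : Perm {x // x ∈ D} => ind (Perm.ofSubtype k p = p)) = 1 / D.card := by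
  have h := av_apply_eq (α := {x // x ∈ D}) ⟨p, hp⟩ ⟨p, hp⟩
  rw [Fintype.card_coe] at h
  rw [← h]
  refine congrArg av (funext fun k => ind_congr ?_)
  rw [Perm.ofSubtype_apply_of_mem k hp, Subtype.ext_iff]

/-- Resampling on `D` destroys the bad event with good probability. -/
theorem dich_resample {A m : ℕ} {a : ℝ} (hA : 1 ≤ A) (hm : 1 ≤ m) {D : Finset α}
    (hd : 1 ≤ D.card) (h1 : 8000 * (A * m) * D.card ≤ Fintype.card α) (ha : a ≤ 1 / 4000)
    (h2 : 4 * a * Fintype.card α ≤ A * D.card) {ω : Bool → Perm α} (hω : DichBad D A m a ω) :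
    av (fun k : Perm {x // x ∈ D} =>
      ind (DichBad D A m a fun c => Perm.ofSubtype k * ω c)) ≤ 4 / D.card := by
  obtain ⟨-, g, g', hg, hg', hdst, hG⟩ := hω
  have hd' : (1 : ℝ) ≤ D.card := by exact_mod_cast hd
  have hA' : (1 : ℝ) ≤ A := by exact_mod_cast hA
  have h1' : (8000 : ℝ) * (A * m) * D.card ≤ Fintype.card α := by exact_mod_cast h1
  let F : Perm {x // x ∈ D} → ℝ := fun k => ∑ s ∈ range A, ∑ v,
    ind (DichU D ω (A * m) ((s + 1) * m) g g' v) *
      ind (Perm.ofSubtype k (pos ω g v ((s + 1) * m)) = pos ω g v ((s + 1) * m))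
  have hF0 : ∀ k, 0 ≤ F k := fun k => sum_nonneg fun s _ => sum_nonneg fun v _ =>
    mul_nonneg (ind_nonneg _) (ind_nonneg _)
  have hFav : av F ≤ A := by
    have e : av F = dichG D ω A m g g' / D.card := by
      simp only [F, dichG]
      rw [av_sum, sum_div]
      refine sum_congr rfl fun s _ => ?_
      rw [av_sum, sum_div]
      refine sum_congr rfl fun v _ => ?_
      rw [av_mul_left]
      by_cases hU : DichU D ω (A * m) ((s + 1) * m) g g' v
      · rw [dich_fix hU.2.1, mul_one_div]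
      · rw [ind_neg hU, zero_mul, zero_div]
    rw [e, div_le_iff₀ (by linarith)]
    exact dichG_le D ω A m g g'
  have hc : (0 : ℝ) < A * D.card / 4 := by positivity
  calc _ ≤ av (fun k => ind ((A : ℝ) * D.card / 4 ≤ F k)) := by
        refine av_mono fun k => ind_mono fun hb => ?_
        by_contra hlt
        push Not at hlt
        have hτ : ∀ x, x ∉ D → Perm.ofSubtype k x = x := fun x hx =>
          Perm.ofSubtype_apply_of_not_mem k hx
        have hl := dich_lower hτ ω hm hg hg'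
        have hu := dich_upper hτ ω hg hg'
        have hsplit : ∑ s ∈ range A, ∑ v, ind (DichU D ω (A * m) ((s + 1) * m) g g' v ∧
            Perm.ofSubtype k (pos ω g v ((s + 1) * m)) ≠ pos ω g v ((s + 1) * m)) =
            dichG D ω A m g g' - F k := by
          simp only [F, dichG, ← sum_sub_distrib]
          refine sum_congr rfl fun s _ => sum_congr rfl fun v _ => ?_
          rw [ind_and, ind_not]; ring
        rw [hsplit] at hl
        refine hb.1 ⟨g, g', hg, hg', by linarith, ?_⟩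
        have h3 : a * Fintype.card α ≤ 1 / 4000 * Fintype.card α :=
          mul_le_mul_of_nonneg_right ha (Nat.cast_nonneg _)
        push_cast at hu
        linarith
    _ ≤ av F / (A * D.card / 4) := av_markov hF0 hc
    _ ≤ A / (A * D.card / 4) := div_le_div_of_nonneg_right hFav hc.le
    _ = 4 / D.card := by field_simp

theorem dich_bad_le {A m : ℕ} {a : ℝ} (hA : 1 ≤ A) (hm : 1 ≤ m) {D : Finset α}
    (hd : 1 ≤ D.card) (h1 : 8000 * (A * m) * D.card ≤ Fintype.card α) (ha : a ≤ 1 / 4000)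
    (h2 : 4 * a * Fintype.card α ≤ A * D.card) :
    av (fun ω : Bool → Perm α => ind (DichBad D A m a ω)) ≤ 4 / D.card := by
  have h := orbit_sq (K := Perm {x // x ∈ D}) (Ω := Bool → Perm α)
    (fun k ω c => Perm.ofSubtype k * ω c) (fun ω => by simp) (fun k k' ω => by simp [mul_assoc])
    (fun ω => ind (DichBad D A m a ω))
  have h3 : av (fun ω : Bool → Perm α => av fun k : Perm {x // x ∈ D} =>
      ind (DichBad D A m a ω) * ind (DichBad D A m a fun c => Perm.ofSubtype k * ω c)) ≤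
      av (fun ω : Bool → Perm α => ind (DichBad D A m a ω)) * (4 / D.card) := by
    rw [← av_mul_right]
    refine av_mono fun ω => ?_
    rw [av_mul_left]
    by_cases hω : DichBad D A m a ω
    · exact mul_le_mul_of_nonneg_left (dich_resample hA hm hd h1 ha h2 hω) (ind_nonneg _)
    · rw [ind_neg hω, zero_mul, zero_mul]
  have h4 := h.trans h3
  have h0 : 0 ≤ av (fun ω : Bool → Perm α => ind (DichBad D A m a ω)) :=
    av_nonneg fun ω => ind_nonneg _
  rcases h0.eq_or_lt with h5 | h5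
  · rw [← h5]; positivity
  · rw [sq] at h4
    exact le_of_mul_le_mul_left h4 h5

omit [Fintype α] [DecidableEq α] in
/-- A pair without repetition is counted for a random set with probability about `d / n`. -/
theorem dich_point {Θ : Type} [Fintype Θ] (C : Θ → Finset α) {q r : ℝ} (hr : 0 ≤ r)
    (hq : ∀ x, av (fun θ => ind (x ∈ C θ)) = q)
    (hqr : ∀ x y, x ≠ y → av (fun θ => ind (x ∈ C θ ∧ y ∈ C θ)) ≤ r)
    (ω : Bool → Perm α) (R h : ℕ) {g g' : List Bool} {v : α} (he : ev ω g v = ev ω g' v)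
    (hrep : ¬Rep ω R h g g' v) :
    q - 2 * R * r ≤ av fun θ => ind (DichU (C θ) ω R h g g' v) := by
  have hne : ∀ i ∈ Icc 1 R, (i ≠ h → pos ω g v h ≠ pos ω g v i) ∧
      pos ω g v h ≠ pos ω g' v i := fun i hi =>
    ⟨fun h1 h2 => hrep ⟨i, hi, Or.inl ⟨h1, h2.symm⟩⟩, fun h2 => hrep ⟨i, hi, Or.inr h2.symm⟩⟩
  have key : ∀ θ, ind (pos ω g v h ∈ C θ) -
      (∑ i ∈ Icc 1 R, ind (i ≠ h ∧ pos ω g v h ∈ C θ ∧ pos ω g v i ∈ C θ) +
        ∑ i ∈ Icc 1 R, ind (pos ω g v h ∈ C θ ∧ pos ω g' v i ∈ C θ)) ≤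
      ind (DichU (C θ) ω R h g g' v) := by
    intro θ
    have h1 : ind (∃ i ∈ Icc 1 R, i ≠ h ∧ pos ω g v h ∈ C θ ∧ pos ω g v i ∈ C θ) ≤ _ :=
      ind_le_sum _ _ id
    have h2 : ind (∃ i ∈ Icc 1 R, pos ω g v h ∈ C θ ∧ pos ω g' v i ∈ C θ) ≤ _ :=
      ind_le_sum _ _ id
    have h3 : ind (pos ω g v h ∈ C θ) ≤ ind (DichU (C θ) ω R h g g' v ∨
        ((∃ i ∈ Icc 1 R, i ≠ h ∧ pos ω g v h ∈ C θ ∧ pos ω g v i ∈ C θ) ∨
          ∃ i ∈ Icc 1 R, pos ω g v h ∈ C θ ∧ pos ω g' v i ∈ C θ)) := by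
      refine ind_mono fun hp => ?_
      by_contra hn
      push Not at hn
      exact hn.1 ⟨he, hp, fun i hi hih => hn.2.1 i hi hih hp, fun i hi => hn.2.2 i hi hp⟩
    have h4 := h3.trans ((ind_or_le _ _).trans
      (add_le_add le_rfl ((ind_or_le _ _).trans (add_le_add h1 h2))))
    linarith
  refine le_trans ?_ (av_mono key)
  rw [av_sub, av_add, av_sum, av_sum, hq]
  have b1 : ∑ i ∈ Icc 1 R, av (fun θ => ind (i ≠ h ∧ pos ω g v h ∈ C θ ∧ pos ω g v i ∈ C θ)) ≤
      R * r := by
    refine (sum_le_card_nsmul _ _ r fun i hi => ?_).trans (by simp)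
    by_cases hih : i = h
    · exact av_le_const hr fun θ => by rw [ind_neg fun hh => hh.1 hih]; exact hr
    · exact (av_mono fun θ => ind_mono fun hh => hh.2).trans (hqr _ _ ((hne i hi).1 hih))
  have b2 : ∑ i ∈ Icc 1 R, av (fun θ => ind (pos ω g v h ∈ C θ ∧ pos ω g' v i ∈ C θ)) ≤
      R * r :=
    (sum_le_card_nsmul _ _ r fun i hi => hqr _ _ (hne i hi).2).trans (by simp)
  linarith

theorem dich_mean {Θ : Type} [Fintype Θ] (C : Θ → Finset α) {q r : ℝ} (hr : 0 ≤ r)
    (hq : ∀ x, av (fun θ => ind (x ∈ C θ)) = q)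
    (hqr : ∀ x y, x ≠ y → av (fun θ => ind (x ∈ C θ ∧ y ∈ C θ)) ≤ r)
    (ω : Bool → Perm α) (A m : ℕ) (h0 : 0 ≤ q - 2 * (A * m : ℕ) * r) (g g' : List Bool) :
    (q - 2 * (A * m : ℕ) * r) * (A * Fintype.card α - Phi ω A m g g' - A * dst ω g g') ≤
      av fun θ => dichG (C θ) ω A m g g' := by
  have e : (A : ℝ) * Fintype.card α - Phi ω A m g g' - A * dst ω g g' =
      ∑ s ∈ range A, ∑ v, (1 - ind (Rep ω (A * m) ((s + 1) * m) g g' v) -
        ind (ev ω g v ≠ ev ω g' v)) := by
    simp only [Phi, dst, sum_sub_distrib, sum_const, card_range, card_univ, nsmul_eq_mul, mul_one]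
  simp only [dichG]
  rw [e, av_sum, mul_sum]
  refine sum_le_sum fun s _ => ?_
  rw [av_sum, mul_sum]
  refine sum_le_sum fun v _ => ?_
  by_cases hgood : ev ω g v = ev ω g' v ∧ ¬Rep ω (A * m) ((s + 1) * m) g g' v
  · rw [ind_neg hgood.2, ind_neg (not_not.2 hgood.1), sub_zero, sub_zero, mul_one]
    exact dich_point C hr hq hqr ω _ _ hgood.1 hgood.2
  · refine le_trans (mul_nonpos_of_nonneg_of_nonpos h0 ?_) (av_nonneg fun θ => ind_nonneg _)
    have a1 := ind_nonneg (Rep ω (A * m) ((s + 1) * m) g g' v)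
    have a2 := ind_nonneg (ev ω g v ≠ ev ω g' v)
    rcases not_and_or.1 hgood with h | h
    · rw [ind_pos (P := ev ω g v ≠ ev ω g' v) h]; linarith
    · rw [ind_pos (not_not.1 h)]; linarith

theorem dich {A m d : ℕ} {a : ℝ} (hA : 1 ≤ A) (hm : 1 ≤ m) (hd : 1 ≤ d)
    (h1 : 8000 * (A * m) * d ≤ Fintype.card α) (ha0 : 0 ≤ a) (ha : a ≤ 1 / 4000)
    (h2 : 4 * a * Fintype.card α ≤ A * d) :
    av (fun ω : Bool → Perm α => ind (¬Window ω (A * m) a ∧ ¬Sep ω A m a)) ≤ 8 / d := by
  have hR : 1 ≤ A * m := Nat.mul_pos hA hm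
  have hdn : 8000 * d ≤ Fintype.card α :=
    le_trans (Nat.mul_le_mul_right _ (Nat.le_mul_of_pos_right _ hR)) h1
  obtain ⟨Θ, _, _, C, hC, hq, hqr⟩ := exists_family (univ : Finset α) (d := d)
    (by rw [card_univ]; omega)
  rw [card_univ] at hq hqr
  set n : ℝ := (Fintype.card α : ℝ) with hn
  have hd' : (1 : ℝ) ≤ d := by exact_mod_cast hd
  have hA' : (1 : ℝ) ≤ A := by exact_mod_cast hA
  have hdn' : 8000 * (d : ℝ) ≤ n := by rw [hn]; exact_mod_cast hdn
  have h1' : 8000 * ((A * m : ℕ) : ℝ) * d ≤ n := by rw [hn]; exact_mod_cast h1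
  have hn0 : 0 < n := by linarith
  have hqr' : ∀ x y, x ≠ y → av (fun θ => ind (x ∈ C θ ∧ y ∈ C θ)) ≤ d / n * (d / n) := by
    intro x y hxy
    rw [hqr x (mem_univ _) y (mem_univ _) hxy, ← div_mul_div_comm]
    refine mul_le_mul_of_nonneg_left ?_ (by positivity)
    rw [div_le_div_iff₀ (by linarith) hn0]
    nlinarith
  have hsm : 2 * ((A * m : ℕ) : ℝ) * (d / n) ≤ 1 / 4000 := by
    rw [← mul_div_assoc, div_le_iff₀ hn0]; linarith
  have hq0 : 0 < (d : ℝ) / n := by positivity
  have hlow : d / n * (3999 / 4000) ≤ d / n - 2 * ((A * m : ℕ) : ℝ) * (d / n * (d / n)) := by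
    have := mul_le_mul_of_nonneg_left hsm hq0.le
    linarith
  have key : ∀ ω : Bool → Perm α, ind (¬Window ω (A * m) a ∧ ¬Sep ω A m a) ≤
      2 * av fun θ => ind (DichBad (C θ) A m a ω) := by
    intro ω
    refine ind_le_of (mul_nonneg zero_le_two (av_nonneg fun θ => ind_nonneg _)) ?_
    rintro ⟨hW, hS⟩
    simp only [Sep] at hS
    push Not at hS
    obtain ⟨g, g', hg, hg', hPhi, hdst⟩ := hS
    have hmean := dich_mean C (by positivity) (fun x => hq x (mem_univ _)) hqr' ω A m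
      (le_trans (by positivity) hlow) g g'
    rw [← hn] at hmean hPhi hdst
    have han : a * n ≤ 1 / 4000 * n := mul_le_mul_of_nonneg_right ha hn0.le
    have hcnt : (A : ℝ) * n * (4 / 5) ≤ A * n - Phi ω A m g g' - A * dst ω g g' := by
      have : (A : ℝ) * dst ω g g' ≤ A * (1 / 4000 * n) :=
        mul_le_mul_of_nonneg_left (hdst.trans han) (by linarith)
      have h3 : 0 ≤ (A : ℝ) * n := by positivity
      linarith
    have hm1 : (A : ℝ) * d * (3 / 4) ≤ av fun θ => dichG (C θ) ω A m g g' := by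
      refine le_trans ?_ hmean
      refine le_trans ?_ (mul_le_mul hlow hcnt (by positivity) (le_trans (by positivity) hlow))
      have e : (d : ℝ) / n * (3999 / 4000) * (A * n * (4 / 5)) = A * d * (3999 / 5000) := by
        field_simp; ring
      rw [e]
      have : 0 ≤ (A : ℝ) * d := by positivity
      linarith
    have hm2 : (av fun θ => dichG (C θ) ω A m g g') ≤
        A * d / 2 + A * d / 2 * av fun θ => ind (DichBad (C θ) A m a ω) := by
      rw [← av_mul_left, ← av_const (Ω := Θ) ((A : ℝ) * d / 2), ← av_add]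
      refine av_mono fun θ => ?_
      rw [av_const]
      have hG := dichG_le (C θ) ω A m g g'
      rw [(hC θ).2] at hG
      by_cases hb : (A : ℝ) * d / 2 ≤ dichG (C θ) ω A m g g'
      · rw [ind_pos (P := DichBad (C θ) A m a ω)
          ⟨hW, g, g', hg, hg', hdst, by rw [(hC θ).2]; exact hb⟩]
        linarith
      · have : 0 ≤ (A : ℝ) * d / 2 * ind (DichBad (C θ) A m a ω) :=
          mul_nonneg (by positivity) (ind_nonneg _)
        linarith
    have hpos : 0 < (A : ℝ) * d := by positivity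
    by_contra hlt
    push Not at hlt
    have : (A : ℝ) * d / 2 * (av fun θ => ind (DichBad (C θ) A m a ω)) < A * d / 2 * (1 / 2) :=
      mul_lt_mul_of_pos_left (by linarith) (by positivity)
    linarith
  refine (av_mono key).trans ?_
  rw [av_mul_left, av_comm]
  have : (av fun θ => av fun ω : Bool → Perm α => ind (DichBad (C θ) A m a ω)) ≤ 4 / d := by
    refine av_le_const' fun θ => ?_
    have := dich_bad_le (D := C θ) hA hm (by rw [(hC θ).2]; exact hd) (by rw [(hC θ).2]; exact h1)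
      ha (by rw [(hC θ).2]; exact h2)
    rwa [(hC θ).2] at this
  calc _ ≤ 2 * (4 / (d : ℝ)) := mul_le_mul_of_nonneg_left this zero_le_two
    _ = 8 / d := by ring

end Pool.Agent.Lib.MP_8a89f5_al
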