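import Pool.Agent.Lib.MP_8a89f5_al.Q2Prob

/-!
Entropy of the restriction of a random permutation to a set.
-/

namespace Pool.Agent.Lib.MP_8a89f5_al

open Finset Equiv

theorem ent_av_pos {Ω : Type*} [Fintype Ω] {f : Ω → ℝ} (h : ∀ y, 0 ≤ f y) (x : Ω)
    (hx : 0 < f x) : 0 < av f := by
  have : Nonempty Ω := ⟨x⟩
  exact div_pos (sum_pos' (fun y _ => h y) ⟨x, mem_univ x, hx⟩)
    (by exact_mod_cast Fintype.card_pos)

theorem ent_row {Ω β γ : Type*} [Fintype Ω] [Fintype γ] (c : Ω → β) (X : Ω → γ) (x : Ω) :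
    ∑ w, cnd c x (fun y => ind (X y = w)) = 1 := by
  rw [← cnd_sum c x univ fun w y => ind (X y = w)]
  simp only [sum_ind_eq_one]
  exact cnd_const c x 1

theorem ent_self_pos {Ω β γ : Type*} [Fintype Ω] (c : Ω → β) (X : Ω → γ) (x : Ω) :
    0 < cnd c x (fun y => ind (X y = X x)) := by
  refine div_pos (ent_av_pos (fun y => mul_nonneg (ind_nonneg _) (ind_nonneg _)) x ?_)
    (cell_pos c x)
  simp [ind]

theorem ent_log_sub {q r : ℝ} (hq : 0 < q) (hr : 0 < r) :
    2 * (1 - √r / √q) ≤ Real.log q - Real.log r := by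
  have h1 := Real.sqrt_pos.2 hq
  have h2 := Real.sqrt_pos.2 hr
  have h3 := Real.log_le_sub_one_of_pos (div_pos h2 h1)
  rw [Real.log_div h2.ne' h1.ne', Real.log_sqrt hq.le, Real.log_sqrt hr.le] at h3
  linarith

theorem ent_abs_le {q r s : ℝ} (hq : 0 ≤ q) (hr : 0 ≤ r) (hs : 0 < s) :
    |q - r| ≤ (√q - √r) ^ 2 / (2 * s) + s * (q + r) := by
  have h1 := Real.sq_sqrt hq
  have h2 := Real.sq_sqrt hr
  generalize √q = a at h1 ⊢
  generalize √r = b at h2 ⊢
  subst h1 h2
  have key : ∀ u v : ℝ, u * v ≤ u ^ 2 / (2 * s) + s * v ^ 2 / 2 := by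
    intro u v
    have : u ^ 2 / (2 * s) + s * v ^ 2 / 2 - u * v = (u - s * v) ^ 2 / (2 * s) := by
      field_simp; ring
    have h : 0 ≤ (u - s * v) ^ 2 / (2 * s) := by positivity
    linarith
  have h3 : s * (a + b) ^ 2 / 2 ≤ s * (a ^ 2 + b ^ 2) := by
    nlinarith [mul_nonneg hs.le (sq_nonneg (a - b))]
  rw [abs_le]
  constructor
  · have := key (b - a) (a + b)
    have e : (b - a) ^ 2 = (a - b) ^ 2 := by ring
    rw [e] at this
    nlinarith
  · have := key (a - b) (a + b)
    nlinarith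

theorem ent_term_le {n q : ℝ} (hn : 0 < n) (h0 : 0 ≤ q) (h1 : q ≤ 1) :
    q * Real.log (n * q) ≤ (Real.log n + 1) * (ind (1 < n * q) * (q - 1 / n)) := by
  by_cases h : 1 < n * q
  · rw [ind_pos h, one_mul]
    have hpos : 0 < n * q := by linarith
    have a1 : Real.log (n * q) ≤ Real.log n := Real.log_le_log hpos (by nlinarith)
    have a2 := Real.log_le_sub_one_of_pos hpos
    have a3 : 0 ≤ q - 1 / n := by
      rw [sub_nonneg, div_le_iff₀ hn]; linarith
    have a4 : 1 / n * Real.log (n * q) ≤ q - 1 / n := by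
      have : 1 / n * (n * q - 1) = q - 1 / n := by field_simp
      rw [← this]
      exact mul_le_mul_of_nonneg_left a2 (by positivity)
    have a5 := mul_le_mul_of_nonneg_left a1 a3
    nlinarith
  · rw [ind_neg h, zero_mul, mul_zero]
    exact mul_nonpos_of_nonneg_of_nonpos h0 (Real.log_nonpos (by positivity) (not_lt.1 h))

variable {α : Type} [Fintype α] [DecidableEq α] {Ω : Type} [Fintype Ω]

section ker
variable (G : Ω → Perm α) (Z : Finset α)

omit [Fintype α] [DecidableEq α] in
theorem pr_pos (x : Ω) : 0 < pr G Z (G x) := by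
  refine ent_av_pos (fun y => ind_nonneg _) x ?_
  rw [ind_pos (Agr.refl Z _)]; norm_num

omit [Fintype α] [DecidableEq α] in
theorem ker_nonneg (x : Ω) (b w : α) : 0 ≤ ker G Z x b w :=
  cnd_nonneg _ x fun _ => ind_nonneg _

omit [DecidableEq α] in
theorem ker_row (x : Ω) (b : α) : ∑ w, ker G Z x b w = 1 :=
  ent_row _ (fun y => G y b) x

omit [DecidableEq α] in
theorem ker_col (x : Ω) (w : α) : ∑ b, ker G Z x b w = 1 := by
  unfold ker
  rw [← cnd_sum _ x univ fun b y => ind (G y b = w)]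
  have : ∀ y, ∑ b, ind (G y b = w) = 1 := fun y => by
    rw [Equiv.sum_comp (G y) fun b => ind (b = w), ← sum_ind_eq_one w]
    exact sum_congr rfl fun b _ => ind_congr eq_comm
  simp only [this]
  exact cnd_const _ x 1

omit [Fintype α] [DecidableEq α] in
theorem ker_congr {x y : Ω} (h : Agr Z (G x) (G y)) : ker G Z x = ker G Z y := by
  funext b w
  exact cnd_congr (fun y => res Z (G y)) (res_eq_iff.2 h) _

omit [Fintype α] [DecidableEq α] in
theorem ent_ker_pos (x : Ω) (b : α) : 0 < ker G Z x b (G x b) :=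
  ent_self_pos _ (fun y => G y b) x

omit [DecidableEq α] in
theorem ent_ker_le_one (x : Ω) (b w : α) : ker G Z x b w ≤ 1 := by
  rw [← ker_row G Z x b]
  exact single_le_sum (f := fun w => ker G Z x b w) (fun w _ => ker_nonneg G Z x b w) (mem_univ w)

omit [Fintype α] in
theorem ent_ker_eq (x : Ω) (b : α) :
    ker G Z x b (G x b) = pr G (insert b Z) (G x) / pr G Z (G x) := by
  unfold ker cnd pr
  congr 1
  · congr 1
    funext y
    rw [← ind_and]
    refine ind_congr ?_
    rw [res_eq_iff]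
    simp only [Agr, mem_insert, forall_eq_or_imp]
    exact and_comm
  · congr 1
    funext y
    exact ind_congr res_eq_iff

end ker

/-- Gibbs' inequality with the Hellinger distance as remainder. -/
theorem gibbs {β γ : Type*} [Fintype γ] [Nonempty Ω] (c : Ω → β) (X : Ω → γ) (r : Ω → γ → ℝ)
    (hr : ∀ x y, c x = c y → r x = r y) (h0 : ∀ x w, 0 ≤ r x w) (h1 : ∀ x, ∑ w, r x w ≤ 1)
    (hp : ∀ x, 0 < r x (X x)) :
    av (fun x => ∑ w, (√(cnd c x fun y => ind (X y = w)) - √(r x w)) ^ 2) ≤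
      av (fun x => Real.log (cnd c x fun y => ind (X y = X x))) -
        av fun x => Real.log (r x (X x)) := by
  rw [← av_sub]
  refine le_trans ?_ (av_mono fun x => ent_log_sub (ent_self_pos c X x) (hp x))
  rw [av_tower c X (fun x w => 2 * (1 - √(r x w) / √(cnd c x fun y => ind (X y = w))))
    (fun x y h => by funext w; rw [hr x y h, cnd_congr c h])]
  refine av_mono fun x => ?_
  have hq : ∀ w, 0 ≤ cnd c x fun y => ind (X y = w) := fun w =>
    cnd_nonneg c x fun _ => ind_nonneg _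
  have hs := ent_row c X x
  have hx := h1 x
  have e : ∀ w, (√(cnd c x fun y => ind (X y = w)) - √(r x w)) ^ 2 =
      (cnd c x fun y => ind (X y = w)) *
        (2 * (1 - √(r x w) / √(cnd c x fun y => ind (X y = w)))) +
          (r x w - cnd c x fun y => ind (X y = w)) := by
    intro w
    have a1 := Real.sq_sqrt (hq w)
    have a2 := Real.sq_sqrt (h0 x w)
    have a3 : (cnd c x fun y => ind (X y = w)) / √(cnd c x fun y => ind (X y = w)) =
        √(cnd c x fun y => ind (X y = w)) := Real.div_sqrt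
    have a4 : (cnd c x fun y => ind (X y = w)) *
        (√(r x w) / √(cnd c x fun y => ind (X y = w))) =
          √(cnd c x fun y => ind (X y = w)) * √(r x w) := by
      rw [mul_div_left_comm, a3, mul_comm]
    nlinarith
  simp only [e, sum_add_distrib, sum_sub_distrib]
  linarith

variable [Nonempty Ω]

theorem ent_dfc_eq (G : Ω → Perm α) (Z : Finset α) (b : α) :
    dfc G Z b = Real.log (Fintype.card α) + av fun x => Real.log (ker G Z x b (G x b)) := by
  have e : ∀ x, Real.log (ker G Z x b (G x b)) =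
      -Real.log (pr G Z (G x)) - -Real.log (pr G (insert b Z) (G x)) := fun x => by
    rw [ent_ker_eq, Real.log_div (pr_pos G _ x).ne' (pr_pos G _ x).ne']; ring
  simp only [e]
  rw [av_sub]
  unfold dfc ent
  ring

theorem dfc_eq (G : Ω → Perm α) (Z : Finset α) (b : α) :
    dfc G Z b = av fun x => Real.log (Fintype.card α * ker G Z x b (G x b)) := by
  have : Nonempty α := ⟨b⟩
  have hn : (Fintype.card α : ℝ) ≠ 0 := by exact_mod_cast Fintype.card_ne_zero
  have e : ∀ x, Real.log (Fintype.card α * ker G Z x b (G x b)) =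
      Real.log (Fintype.card α) + Real.log (ker G Z x b (G x b)) := fun x =>
    Real.log_mul hn (ent_ker_pos G Z x b).ne'
  simp only [e]
  rw [av_add, av_const, ent_dfc_eq]

theorem dfc_nonneg (G : Ω → Perm α) (Z : Finset α) (b : α) : 0 ≤ dfc G Z b := by
  have : Nonempty α := ⟨b⟩
  have hn : (0 : ℝ) < Fintype.card α := by exact_mod_cast Fintype.card_pos
  have h := gibbs (fun y => res Z (G y)) (fun y => G y b)
    (fun _ _ => (Fintype.card α : ℝ)⁻¹) (fun _ _ _ => rfl) (fun _ _ => by positivity)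
    (fun _ => by simp [hn.ne']) (fun _ => by positivity)
  have h2 := (av_nonneg fun x => sum_nonneg fun w _ => sq_nonneg _).trans h
  rw [av_const, Real.log_inv] at h2
  rw [ent_dfc_eq]
  unfold ker
  linarith

theorem dfc_le (G : Ω → Perm α) (Z : Finset α) (b : α) :
    dfc G Z b ≤ Real.log (Fintype.card α) := by
  rw [ent_dfc_eq]
  have : av (fun x => Real.log (ker G Z x b (G x b))) ≤ 0 := av_le_const' fun x =>
    Real.log_nonpos (ker_nonneg G Z x b _) (ent_ker_le_one G Z x b _)
  linarith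

theorem dfc_mono (G : Ω → Perm α) {Z Z' : Finset α} (h : Z ⊆ Z') (b : α) :
    dfc G Z b ≤ dfc G Z' b := by
  have h1 := gibbs (fun y => res Z' (G y)) (fun y => G y b) (fun x => ker G Z x b)
    (fun x y hxy => by rw [ker_congr G Z ((res_eq_iff.1 hxy).mono h)])
    (fun x w => ker_nonneg G Z x b w) (fun x => (ker_row G Z x b).le)
    (fun x => ent_ker_pos G Z x b)
  have h2 := (av_nonneg fun x => sum_nonneg fun w _ => sq_nonneg _).trans h1
  rw [ent_dfc_eq, ent_dfc_eq]
  have e : ∀ x, ker G Z' x b (G x b) =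
      cnd (fun y => res Z' (G y)) x fun y => ind (G y b = G x b) := fun _ => rfl
  simp only [e]
  linarith

omit [Nonempty Ω] in
theorem dfc_congr {Ω' : Type} [Fintype Ω'] {G : Ω → Perm α} {G' : Ω' → Perm α}
    (h : ∀ F : Perm α → ℝ, av (fun x => F (G x)) = av fun y => F (G' y)) (Z : Finset α) (b : α) :
    dfc G Z b = dfc G' Z b := by
  have h1 : ∀ S f, pr G S f = pr G' S f := fun S f => h fun g => ind (Agr S g f)
  have h2 : ∀ S, ent G S = ent G' S := fun S => by
    unfold ent
    simp only [h1]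
    exact h fun g => -Real.log (pr G' S g)
  unfold dfc
  rw [h2, h2]

theorem ent_time {Ω' : Type} [Fintype Ω'] [Nonempty Ω'] (G : Ω → Perm α) (V : Ω' → Perm α)
    (Z : Finset α) (b : α) :
    av (fun z : Ω × Ω' => ∑ w, (√(ker G Z z.1 b w) -
        √(ker (fun z : Ω × Ω' => V z.2 * G z.1) Z z b (V z.2 w))) ^ 2) ≤
      dfc G Z b - dfc (fun z : Ω × Ω' => V z.2 * G z.1) Z b := by
  set G' : Ω × Ω' → Perm α := fun z => V z.2 * G z.1 with hG'
  have h1 : ∀ y : Ω', av (fun x => ∑ w, (√(ker G Z x b w) - √(ker G' Z (x, y) b (V y w))) ^ 2) ≤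
      av (fun x => Real.log (ker G Z x b (G x b))) -
        av fun x => Real.log (ker G' Z (x, y) b (G' (x, y) b)) := fun y =>
    gibbs (fun y => res Z (G y)) (fun y => G y b) (fun x w => ker G' Z (x, y) b (V y w))
      (fun x x' hx => by
        have : Agr Z (G' (x, y)) (G' (x', y)) := fun a ha =>
          congrArg (V y) (res_eq_iff.1 hx a ha)
        rw [ker_congr G' Z this])
      (fun x w => ker_nonneg G' Z _ b _)
      (fun x => by
        rw [Equiv.sum_comp (V y) fun w => ker G' Z (x, y) b w]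
        exact (ker_row G' Z _ b).le)
      (fun x => ent_ker_pos G' Z (x, y) b)
  have h2 := av_mono h1
  rw [av_sub, av_const] at h2
  rw [ent_dfc_eq, ent_dfc_eq, av_prod, av_comm,
    av_prod fun z : Ω × Ω' => Real.log (ker G' Z z b (G' z b)),
    av_comm fun x y => Real.log (ker G' Z (x, y) b (G' (x, y) b))]
  linarith

/-- An independent increment lowers the deficiency by at least the squared distance. -/
theorem dfc_time {Ω' : Type} [Fintype Ω'] [Nonempty Ω'] (G : Ω → Perm α) (V : Ω' → Perm α)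
    (Z : Finset α) (b : α) {s : ℝ} (hs : 0 < s) :
    av (fun z : Ω × Ω' => ∑ w, |ker G Z z.1 b w -
        ker (fun z : Ω × Ω' => V z.2 * G z.1) Z z b (V z.2 w)|) ≤
      (dfc G Z b - dfc (fun z : Ω × Ω' => V z.2 * G z.1) Z b) / (2 * s) + 2 * s := by
  have h1 := ent_time G V Z b
  set G' : Ω × Ω' → Perm α := fun z => V z.2 * G z.1 with hG'
  have h2 : ∀ z : Ω × Ω', ∑ w, |ker G Z z.1 b w - ker G' Z z b (V z.2 w)| ≤
      (∑ w, (√(ker G Z z.1 b w) - √(ker G' Z z b (V z.2 w))) ^ 2) / (2 * s) + 2 * s := by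
    intro z
    refine (sum_le_sum fun w _ =>
      ent_abs_le (ker_nonneg G Z z.1 b w) (ker_nonneg G' Z z b (V z.2 w)) hs).trans (le_of_eq ?_)
    rw [sum_add_distrib, ← sum_div, ← mul_sum, sum_add_distrib, ker_row,
      Equiv.sum_comp (V z.2) fun w => ker G' Z z b w, ker_row]
    ring
  refine (av_mono h2).trans ?_
  rw [av_add, av_const, av_div]
  gcongr

theorem dfc_anti {Ω' : Type} [Fintype Ω'] [Nonempty Ω'] (G : Ω → Perm α) (V : Ω' → Perm α)
    (Z : Finset α) (b : α) : dfc (fun z : Ω × Ω' => V z.2 * G z.1) Z b ≤ dfc G Z b :=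
  sub_nonneg.1 ((av_nonneg fun _ => sum_nonneg fun _ _ => sq_nonneg _).trans (ent_time G V Z b))

omit [Nonempty Ω] in
theorem dfc_walk_anti (ω : Bool → Perm α) {t t' : ℕ} (h : t ≤ t') (Z : Finset α) (b : α) :
    dfc (walk ω t') Z b ≤ dfc (walk ω t) Z b := by
  obtain ⟨d, rfl⟩ := Nat.exists_eq_add_of_le h
  rw [dfc_congr (G' := fun z : Wd t × Wd d => walk ω d z.2 * walk ω t z.1) (walk_add ω t d)]
  exact dfc_anti (walk ω t) (walk ω d) Z b

theorem dfc_le_tv (G : Ω → Perm α) (Z : Finset α) (b : α) :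
    dfc G Z b ≤ (Real.log (Fintype.card α) + 1) * av fun x => ∑ w,
      ind (1 < Fintype.card α * ker G Z x b w) * (ker G Z x b w - 1 / Fintype.card α) := by
  have : Nonempty α := ⟨b⟩
  have hn : (0 : ℝ) < Fintype.card α := by exact_mod_cast Fintype.card_pos
  rw [dfc_eq, av_tower (fun y => res Z (G y)) (fun y => G y b)
    (fun x w => Real.log (Fintype.card α * ker G Z x b w))
    (fun x y h => by rw [ker_congr G Z (res_eq_iff.1 h)]), ← av_mul_left]
  refine av_mono fun x => ?_
  rw [mul_sum]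
  exact sum_le_sum fun w _ =>
    ent_term_le hn (ker_nonneg G Z x b w) (ent_ker_le_one G Z x b w)

end Pool.Agent.Lib.MP_8a89f5_al
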