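import Pool.Agent.Lib.MP_8a89f5_al.Q2Defs
import Pool.Agent.Lib.MP_8a89f5_al.Gen
import Pool.Agent.Lib.MP_8a89f5_al.LcA

/-!
Random subsets, and Cauchy-Schwarz on orbits.
-/

namespace Pool.Agent.Lib.MP_8a89f5_al

open Finset Equiv

theorem fam_swap {α : Type} [Fintype α] [DecidableEq α] (Z : Finset α) (d : ℕ) {b b' : α}
    (hb : b ∈ Z) (hb' : b' ∈ Z) (F : Finset α → ℝ) :
    av (fun θ : {C : Finset α // C ⊆ Z ∧ C.card = d} => F (θ.1.map (swap b b').toEmbedding)) =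
      av fun θ : {C : Finset α // C ⊆ Z ∧ C.card = d} => F θ.1 := by
  let f : {C : Finset α // C ⊆ Z ∧ C.card = d} → {C : Finset α // C ⊆ Z ∧ C.card = d} :=
    fun θ => ⟨θ.1.map (swap b b').toEmbedding, by
      refine ⟨fun x hx => ?_, by rw [card_map, θ.2.2]⟩
      obtain ⟨y, hy, rfl⟩ := mem_map.1 hx
      have hyZ := θ.2.1 hy
      simp only [Equiv.toEmbedding_apply, swap_apply_def]
      split_ifs <;> assumption⟩
  have hf : Function.Involutive f := by
    intro θ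
    apply Subtype.ext
    ext x
    simp [f, mem_map_equiv]
  exact av_equiv hf.toPerm fun θ => F θ.1

/-- A uniformly random subset of `Z` with `d` elements. -/
theorem exists_family {α : Type} [Fintype α] [DecidableEq α] (Z : Finset α) {d : ℕ}
    (hd : d ≤ Z.card) :
    ∃ (Θ : Type) (_ : Fintype Θ) (_ : Nonempty Θ) (C : Θ → Finset α),
      (∀ θ, C θ ⊆ Z ∧ (C θ).card = d) ∧
      (∀ a ∈ Z, av (fun θ => ind (a ∈ C θ)) = d / Z.card) ∧
      ∀ a ∈ Z, ∀ b ∈ Z, a ≠ b → av (fun θ => ind (a ∈ C θ ∧ b ∈ C θ)) =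
        d * ((d : ℝ) - 1) / (Z.card * ((Z.card : ℝ) - 1)) := by
  obtain ⟨C0, hC0, hC0'⟩ := exists_subset_card_eq hd
  have hne : Nonempty {C : Finset α // C ⊆ Z ∧ C.card = d} := ⟨⟨C0, hC0, hC0'⟩⟩
  have hcount : ∀ θ : {C : Finset α // C ⊆ Z ∧ C.card = d},
      ∑ a ∈ Z, ind (a ∈ θ.1) = (d : ℝ) := by
    intro θ
    rw [sum_ind_eq_card, filter_mem_eq_inter, inter_eq_right.2 θ.2.1, θ.2.2]
  have hone : ∀ a ∈ Z, av (fun θ : {C : Finset α // C ⊆ Z ∧ C.card = d} => ind (a ∈ θ.1)) =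
      d / Z.card := by
    intro a ha
    have hZ : (0 : ℝ) < Z.card := by exact_mod_cast card_pos.2 ⟨a, ha⟩
    have e1 : ∀ a' ∈ Z, av (fun θ : {C : Finset α // C ⊆ Z ∧ C.card = d} => ind (a' ∈ θ.1)) =
        av (fun θ : {C : Finset α // C ⊆ Z ∧ C.card = d} => ind (a ∈ θ.1)) := by
      intro a' ha'
      rw [← fam_swap Z d ha ha' fun C => ind (a ∈ C)]
      simp [mem_map_equiv]
    have e2 := av_sum Z fun a' (θ : {C : Finset α // C ⊆ Z ∧ C.card = d}) => ind (a' ∈ θ.1)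
    simp only [hcount, av_const] at e2
    rw [sum_congr rfl e1, sum_const, nsmul_eq_mul] at e2
    rw [eq_div_iff hZ.ne', e2, mul_comm]
  refine ⟨{C : Finset α // C ⊆ Z ∧ C.card = d}, inferInstance, hne, fun θ => θ.1,
    fun θ => θ.2, hone, fun a ha b hb hab => ?_⟩
  have hb0 : b ∈ Z.erase a := mem_erase.2 ⟨hab.symm, hb⟩
  have hcard : ((Z.erase a).card : ℝ) = (Z.card : ℝ) - 1 := by
    rw [← card_erase_add_one ha]
    push_cast
    ring
  have hZ : (0 : ℝ) < Z.card := by exact_mod_cast card_pos.2 ⟨a, ha⟩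
  have hZ1 : (0 : ℝ) < (Z.card : ℝ) - 1 := by
    rw [← hcard]
    exact_mod_cast card_pos.2 ⟨b, hb0⟩
  have e1 : ∀ b' ∈ Z.erase a,
      av (fun θ : {C : Finset α // C ⊆ Z ∧ C.card = d} => ind (a ∈ θ.1 ∧ b' ∈ θ.1)) =
        av (fun θ : {C : Finset α // C ⊆ Z ∧ C.card = d} => ind (a ∈ θ.1 ∧ b ∈ θ.1)) := by
    intro b' hb'
    rw [← fam_swap Z d hb (mem_of_mem_erase hb') fun C => ind (a ∈ C ∧ b ∈ C)]
    simp [mem_map_equiv, swap_apply_of_ne_of_ne hab (ne_of_mem_erase hb').symm]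
  have e2 := av_sum (Z.erase a) fun b' (θ : {C : Finset α // C ⊆ Z ∧ C.card = d}) =>
    ind (a ∈ θ.1 ∧ b' ∈ θ.1)
  have e3 : ∀ θ : {C : Finset α // C ⊆ Z ∧ C.card = d},
      ∑ b' ∈ Z.erase a, ind (a ∈ θ.1 ∧ b' ∈ θ.1) = ((d : ℝ) - 1) * ind (a ∈ θ.1) := by
    intro θ
    have h := hcount θ
    rw [← add_sum_erase _ _ ha] at h
    by_cases hθ : a ∈ θ.1
    · simp only [hθ, true_and] at h ⊢
      rw [ind_pos trivial] at h ⊢
      linarith
    · simp only [hθ, false_and, ind_neg not_false, sum_const_zero, mul_zero]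
  simp only [e3] at e2
  rw [av_mul_left, hone a ha, sum_congr rfl e1, sum_const, nsmul_eq_mul, hcard] at e2
  rw [eq_div_iff (mul_pos hZ hZ1).ne']
  have e4 : ((d : ℝ) - 1) * (d / Z.card) * Z.card = d * ((d : ℝ) - 1) := by
    field_simp
  rw [← e4, e2]
  ring

theorem fam_av_sq {Ω : Type*} [Fintype Ω] (g : Ω → ℝ) : av g ^ 2 ≤ av fun x => g x ^ 2 := by
  rcases isEmpty_or_nonempty Ω with h0 | h0
  · simp [av]
  have h := av_nonneg (f := fun x => (g x - av g) ^ 2) fun x => sq_nonneg _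
  have e : (fun x => (g x - av g) ^ 2) =
      fun x => (g x ^ 2 - (2 * av g) * g x) + av g ^ 2 := by funext x; ring
  rw [e, av_add, av_sub, av_mul_left, av_const] at h
  nlinarith

/-- Cauchy-Schwarz on the orbits of a finite group. -/
theorem orbit_sq {K Ω : Type*} [Group K] [Fintype K] [Fintype Ω] (act : K → Ω → Ω)
    (h1 : ∀ x, act 1 x = x) (hm : ∀ k k' x, act (k * k') x = act k (act k' x)) (f : Ω → ℝ) :
    av f ^ 2 ≤ av fun x => av fun k => f x * f (act k x) := by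
  have hinv : ∀ (k : K) (F : Ω → ℝ), av (fun x => F (act k x)) = av F := by
    intro k F
    exact av_equiv ⟨act k, act k⁻¹, fun x => by rw [← hm, inv_mul_cancel, h1],
      fun x => by rw [← hm, mul_inv_cancel, h1]⟩ F
  have horb : ∀ F : Ω → ℝ, av (fun x => av fun k : K => F (act k x)) = av F := by
    intro F
    rw [av_comm]
    simp only [hinv, av_const]
  set g : Ω → ℝ := fun x => av fun k : K => f (act k x) with hg
  have hgi : ∀ (j : K) x, g (act j x) = g x := by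
    intro j x
    simp only [hg, ← hm]
    exact av_equiv (Equiv.mulRight j) fun k => f (act k x)
  have e1 : av (fun x => av fun k => f x * f (act k x)) = av fun x => f x * g x := by
    simp only [av_mul_left, hg]
  have e2 : av (fun x => f x * g x) = av fun x => g x ^ 2 := by
    rw [← horb fun x => f x * g x]
    simp only [hgi, av_mul_right, sq]
    rfl
  rw [e1, e2, ← horb f]
  exact fam_av_sq g

end Pool.Agent.Lib.MP_8a89f5_al
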