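import Pool.Agent.Lib.MP_8a89f5_al.Q2Prob
import Pool.Agent.Lib.MP_8a89f5_al.BadProb
import Pool.Agent.Lib.MP_8a89f5_al.Shrink

/-!
Two words of one cell have few repeated points.
-/

namespace Pool.Agent.Lib.MP_8a89f5_al

open Finset Equiv

variable {α : Type} [Fintype α] [DecidableEq α] {ω : Bool → Perm α}

/-- Expected number of fixed points of a random word of length `d`. -/
noncomputable def farFix (ω : Bool → Perm α) (d : ℕ) : ℝ :=
  Ex d fun w => ∑ p, ind (ev ω w p = p)

/-- Repetitions on the first path. -/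
noncomputable def farSelf (ω : Bool → Perm α) (A m : ℕ) (g : List Bool) : ℝ :=
  ∑ s ∈ range A, ∑ v, ind (∃ i' ∈ Icc 1 (A * m), i' ≠ (s + 1) * m ∧
    pos ω g v i' = pos ω g v ((s + 1) * m))

/-- Meetings of the two paths. -/
noncomputable def farCross (ω : Bool → Perm α) (A m : ℕ) (g g' : List Bool) : ℝ :=
  ∑ s ∈ range A, ∑ v, ind (pos ω g v ((s + 1) * m) ∈ (Icc 1 (A * m)).image (pos ω g' v))

theorem far_phi_le (A m : ℕ) (g g' : List Bool) :
    Phi ω A m g g' ≤ farSelf ω A m g + farCross ω A m g g' := by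
  unfold Phi farSelf farCross
  rw [← sum_add_distrib]
  refine sum_le_sum fun s _ => ?_
  rw [← sum_add_distrib]
  refine sum_le_sum fun v _ => le_trans (ind_mono ?_) (ind_or_le _ _)
  rintro ⟨i, hi, h | h⟩
  · exact Or.inl ⟨i, hi, h⟩
  · exact Or.inr (mem_image.2 ⟨i, hi, h⟩)

omit [DecidableEq α] in
theorem far_fix_nonneg (d : ℕ) : 0 ≤ farFix ω d :=
  Ex_nonneg _ fun _ _ => sum_nonneg fun _ _ => ind_nonneg _

omit [DecidableEq α] in
theorem far_pair {R k d : ℕ} (h : k + d ≤ R) :
    Ex R (fun g => ∑ v, ind (pos ω g v k = pos ω g v (k + d))) = farFix ω d := by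
  have e1 : (fun g : List Bool => ∑ v, ind (pos ω g v k = pos ω g v (k + d))) =
      fun g => (fun u : List Bool => ∑ v, ind (pos ω u v k = pos ω u v (k + d)))
        (g.take (k + d)) := by
    funext g
    have : min k (k + d) = k := by omega
    simp only [pos, List.take_take, min_self, this]
  rw [e1, bp_Ex_take h fun u : List Bool => ∑ v, ind (pos ω u v k = pos ω u v (k + d)),
    Ex_append]
  refine (Ex_congr _ fun l hl => ?_).trans (Ex_const _ _)
  refine Ex_congr _ fun l' hl' => ?_
  rw [← Equiv.sum_comp (ev ω l) fun p => ind (ev ω l' p = p)]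
  refine sum_congr rfl fun v _ => ind_congr ?_
  have h3 : pos ω (l ++ l') v (k + d) = ev ω l' (ev ω l v) := by
    have : (l ++ l').length = k + d := by simp [hl, hl']
    rw [← this, pos_length, ev_append]; rfl
  have h4 : pos ω (l ++ l') v k = ev ω l v := by
    simp only [pos]
    rw [← hl, List.take_left]
  rw [h3, h4, eq_comm]

omit [DecidableEq α] in
theorem far_fix_le {m d : ℕ} (h1 : Mix ω 1 m) (hd : m ≤ d) (hn : 0 < Fintype.card α) :
    farFix ω d ≤ 2 := by
  have hn' : (0 : ℝ) < Fintype.card α := by exact_mod_cast hn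
  have key : ∀ p : α, Ex d (fun w => ind (ev ω w p = p)) ≤ 2 / Fintype.card α := by
    intro p
    have := bp_mix_le h1 hd hn ⟨fun _ => p, fun _ _ _ => Subsingleton.elim _ _⟩
      ⟨fun _ => p, fun _ _ _ => Subsingleton.elim _ _⟩
    rw [Nat.descFactorial_one] at this
    refine le_trans (Ex_mono _ fun l _ => ind_mono fun h _ => h) (this.trans ?_)
    exact div_le_div_of_nonneg_right (by norm_num) hn'.le
  unfold farFix
  rw [Ex_sum]
  refine (sum_le_sum fun p _ => key p).trans_eq ?_
  rw [sum_const, card_univ, nsmul_eq_mul]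
  field_simp

omit [DecidableEq α] in
theorem far_fix_sum {m : ℕ} (h1 : Mix ω 1 m) (hn : 0 < Fintype.card α) (R : ℕ) :
    ∑ d ∈ Icc 1 R, farFix ω d ≤ Fixs ω m + 2 * R := by
  classical
  rw [← sum_filter_add_sum_filter_not (Icc 1 R) (fun d => d < m)]
  refine add_le_add ?_ ?_
  · refine sum_le_sum_of_subset_of_nonneg (fun d hd => ?_) fun d _ _ => far_fix_nonneg d
    simp only [mem_filter, mem_Icc] at hd
    exact mem_Ico.2 ⟨hd.1.1, hd.2⟩
  · refine (sum_le_card_nsmul _ _ 2 fun d hd =>
      far_fix_le h1 (not_lt.1 (mem_filter.1 hd).2) hn).trans ?_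
    have : ((Icc 1 R).filter fun d => ¬ d < m).card ≤ R :=
      (card_filter_le _ _).trans (by simp)
    have h2 : (((Icc 1 R).filter fun d => ¬ d < m).card : ℝ) ≤ R := by exact_mod_cast this
    rw [nsmul_eq_mul]
    linarith

omit [DecidableEq α] in
theorem far_self_one {m : ℕ} (h1 : Mix ω 1 m) (hn : 0 < Fintype.card α) {R i : ℕ} (hi : i ≤ R) :
    Ex R (fun g => ∑ v, ind (∃ i' ∈ Icc 1 R, i' ≠ i ∧ pos ω g v i' = pos ω g v i)) ≤
      2 * (Fixs ω m + 2 * R) := by
  have hpt : ∀ g : List Bool, ∑ v, ind (∃ i' ∈ Icc 1 R, i' ≠ i ∧ pos ω g v i' = pos ω g v i) ≤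
      ∑ d ∈ Icc 1 R, (∑ v, ind (d ≤ i ∧ pos ω g v (i - d) = pos ω g v (i - d + d)) +
        ∑ v, ind (i + d ≤ R ∧ pos ω g v i = pos ω g v (i + d))) := by
    intro g
    simp only [← sum_add_distrib]
    rw [sum_comm]
    refine sum_le_sum fun v _ => ?_
    refine le_trans (ind_le_sum (Icc 1 R) (fun d =>
      (d ≤ i ∧ pos ω g v (i - d) = pos ω g v (i - d + d)) ∨
        (i + d ≤ R ∧ pos ω g v i = pos ω g v (i + d))) ?_) (sum_le_sum fun d _ => ind_or_le _ _)
    rintro ⟨j, hj, hne, he⟩
    rw [mem_Icc] at hj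
    rcases lt_or_gt_of_ne hne with h | h
    · refine ⟨i - j, mem_Icc.2 ⟨by omega, by omega⟩, Or.inl ⟨by omega, ?_⟩⟩
      rw [show i - (i - j) = j by omega, show j + (i - j) = i by omega]
      exact he
    · refine ⟨j - i, mem_Icc.2 ⟨by omega, by omega⟩, Or.inr ⟨by omega, ?_⟩⟩
      rw [show i + (j - i) = j by omega]
      exact he.symm
  refine (Ex_mono _ fun g _ => hpt g).trans ?_
  rw [Ex_sum]
  have h2 : ∀ d ∈ Icc 1 R, Ex R (fun g =>
      ∑ v, ind (d ≤ i ∧ pos ω g v (i - d) = pos ω g v (i - d + d)) +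
        ∑ v, ind (i + d ≤ R ∧ pos ω g v i = pos ω g v (i + d))) ≤ 2 * farFix ω d := by
    intro d _
    rw [Ex_add, two_mul]
    refine add_le_add ?_ ?_
    · by_cases h : d ≤ i
      · simp only [h, true_and]
        exact (far_pair (by omega)).le
      · simp only [h, false_and, ind_neg not_false, sum_const_zero, Ex_const]
        exact far_fix_nonneg d
    · by_cases h : i + d ≤ R
      · simp only [h, true_and]
        exact (far_pair h).le
      · simp only [h, false_and, ind_neg not_false, sum_const_zero, Ex_const]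
        exact far_fix_nonneg d
  refine (sum_le_sum h2).trans ?_
  rw [← mul_sum]
  exact mul_le_mul_of_nonneg_left (far_fix_sum h1 hn R) (by norm_num)

omit [DecidableEq α] in
theorem far_self_le {A m : ℕ} (h1 : Mix ω 1 m) (hn : 0 < Fintype.card α) :
    Ex (A * m) (farSelf ω A m) ≤ A * (2 * (Fixs ω m + 2 * (A * m))) := by
  unfold farSelf
  rw [Ex_sum]
  refine (sum_le_card_nsmul _ _ (2 * (Fixs ω m + 2 * ((A * m : ℕ) : ℝ))) fun s hs =>
    far_self_one h1 hn (Nat.mul_le_mul_right _ (mem_range.1 hs))).trans_eq ?_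
  rw [card_range, nsmul_eq_mul]
  push_cast
  rfl

omit [DecidableEq α] in
theorem far_exp {m : ℕ} (h1 : Mix ω 1 m) (hn : 0 < Fintype.card α) (T : α → Finset α) {ρ : ℝ}
    (hT : ∀ v, ((T v).card : ℝ) ≤ ρ) (A : ℕ) (h : Perm α) :
    Ex (A * m) (fun l => Real.exp (∑ s ∈ range A,
      (∑ v, ind (ev ω (l.take ((s + 1) * m)) (h v) ∈ T v)) / Fintype.card α)) ≤
      (1 + 11 / 5 * ρ / Fintype.card α) ^ A := by
  have hn' : (0 : ℝ) < Fintype.card α := by exact_mod_cast hn
  have hρ : 0 ≤ ρ := by
    obtain ⟨v⟩ := Fintype.card_pos_iff.1 hn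
    exact (Nat.cast_nonneg _).trans (hT v)
  induction A generalizing h with
  | zero => simp [Ex]
  | succ A ih =>
    rw [show (A + 1) * m = m + A * m by ring, Ex_append]
    have hstep : ∀ l : List Bool, l.length = m → Ex (A * m) (fun l' => Real.exp (
        ∑ s ∈ range (A + 1),
          (∑ v, ind (ev ω ((l ++ l').take ((s + 1) * m)) (h v) ∈ T v)) / Fintype.card α)) ≤
        (1 + 2 * ((∑ v, ind (ev ω l (h v) ∈ T v)) / Fintype.card α)) *
          (1 + 11 / 5 * ρ / Fintype.card α) ^ A := by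
      intro l hl
      have e : ∀ l' : List Bool, Real.exp (∑ s ∈ range (A + 1),
          (∑ v, ind (ev ω ((l ++ l').take ((s + 1) * m)) (h v) ∈ T v)) / Fintype.card α) =
          Real.exp ((∑ v, ind (ev ω l (h v) ∈ T v)) / Fintype.card α) *
            Real.exp (∑ s ∈ range A, (∑ v, ind (ev ω (l'.take ((s + 1) * m))
              ((ev ω l * h) v) ∈ T v)) / Fintype.card α) := by
        intro l'
        rw [sum_range_succ', ← Real.exp_add, add_comm]
        have e0 : (l ++ l').take ((0 + 1) * m) = l := by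
          rw [zero_add, one_mul, ← hl, List.take_left]
        have e1 : ∀ s, (l ++ l').take ((s + 1 + 1) * m) = l ++ l'.take ((s + 1) * m) := by
          intro s
          rw [show (s + 1 + 1) * m = l.length + (s + 1) * m by rw [hl]; ring,
            List.take_length_add_append]
        simp only [e0, e1, ev_append, Perm.coe_mul, Function.comp_apply]
      simp only [e]
      rw [Ex_mul_left]
      have hx0 : 0 ≤ (∑ v, ind (ev ω l (h v) ∈ T v)) / Fintype.card α :=
        div_nonneg (sum_nonneg fun _ _ => ind_nonneg _) hn'.le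
      have hx1 : (∑ v, ind (ev ω l (h v) ∈ T v)) / Fintype.card α ≤ 1 := by
        rw [div_le_one hn']
        refine (sum_le_card_nsmul _ _ 1 fun _ _ => ind_le_one _).trans_eq ?_
        simp
      refine mul_le_mul ?_ (ih _) (Ex_nonneg _ fun _ _ => (Real.exp_pos _).le) (by linarith)
      have := Real.abs_exp_sub_one_le (x := (∑ v, ind (ev ω l (h v) ∈ T v)) / Fintype.card α)
        (by rwa [abs_of_nonneg hx0])
      rw [abs_of_nonneg hx0] at this
      linarith [(abs_le.1 this).2]
    refine (Ex_mono _ hstep).trans ?_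
    rw [Ex_mul_right, pow_succ', Ex_add, Ex_const, Ex_mul_left, Ex_div, Ex_sum]
    refine mul_le_mul_of_nonneg_right ?_ (by positivity)
    have h2 : ∀ v, Ex m (fun l => ind (ev ω l (h v) ∈ T v)) ≤ 11 / 10 * ρ / Fintype.card α := by
      intro v
      rw [le_div_iff₀ hn', mul_comm]
      linarith [(mix_one h1 (h v) (T v)).2, hT v]
    have h3 : ∑ v, Ex m (fun l => ind (ev ω l (h v) ∈ T v)) ≤ 11 / 10 * ρ := by
      refine (sum_le_sum fun v _ => h2 v).trans_eq ?_
      rw [sum_const, card_univ, nsmul_eq_mul]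
      field_simp
    have h4 := div_le_div_of_nonneg_right h3 hn'.le
    have h5 : 11 / 5 * ρ / (Fintype.card α : ℝ) = 2 * (11 / 10 * ρ / Fintype.card α) := by ring
    linarith

theorem far_cross_le {A m : ℕ} (h1 : Mix ω 1 m) (hn : 0 < Fintype.card α)
    (hR : 320 * ((A : ℝ) * m) ≤ Fintype.card α) (g' : List Bool) :
    Ex (A * m) (fun g => ind (Fintype.card α * A / 20 ≤ farCross ω A m g g')) ≤
      Real.exp (-(A / 40)) := by
  have hn' : (0 : ℝ) < Fintype.card α := by exact_mod_cast hn
  have h2 := far_exp h1 hn (fun v => (Icc 1 (A * m)).image (pos ω g' v)) (ρ := (A : ℝ) * m)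
    (fun v => by
      have : ((Icc 1 (A * m)).image (pos ω g' v)).card ≤ A * m := card_image_le.trans (by simp)
      exact_mod_cast this) A 1
  have h3 : ∀ g : List Bool, ind (Fintype.card α * A / 20 ≤ farCross ω A m g g') ≤
      Real.exp (-(A / 20)) * Real.exp (∑ s ∈ range A, (∑ v, ind (ev ω (g.take ((s + 1) * m))
        ((1 : Perm α) v) ∈ (Icc 1 (A * m)).image (pos ω g' v))) / Fintype.card α) := by
    intro g
    refine ind_le_of (by positivity) fun h => ?_
    rw [← Real.exp_add, ← sum_div]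
    refine Real.one_le_exp ?_
    have : (A : ℝ) / 20 ≤ farCross ω A m g g' / Fintype.card α := by
      rw [le_div_iff₀ hn']
      linarith
    have e : farCross ω A m g g' = ∑ s ∈ range A, ∑ v, ind (ev ω (g.take ((s + 1) * m))
        ((1 : Perm α) v) ∈ (Icc 1 (A * m)).image (pos ω g' v)) := rfl
    rw [← e]
    linarith
  refine (Ex_mono _ fun g _ => h3 g).trans ?_
  rw [Ex_mul_left]
  have h4 : 1 + 11 / 5 * ((A : ℝ) * m) / Fintype.card α ≤ Real.exp (1 / 40) := by
    have : 11 / 5 * ((A : ℝ) * m) / Fintype.card α ≤ 1 / 40 := by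
      rw [div_le_iff₀ hn']
      linarith
    linarith [Real.add_one_le_exp (1 / 40 : ℝ)]
  have h5 : (1 + 11 / 5 * ((A : ℝ) * m) / Fintype.card α) ^ A ≤ Real.exp (A / 40) := by
    refine (pow_le_pow_left₀ (by positivity) h4 A).trans_eq ?_
    rw [← Real.exp_nat_mul]
    congr 1
    ring
  refine (mul_le_mul_of_nonneg_left (h2.trans h5) (Real.exp_pos _).le).trans_eq ?_
  rw [← Real.exp_add]
  congr 1
  ring

theorem far_of_sep {A m B : ℕ} {a Φ : ℝ} (h1 : Mix ω 1 m) (hm : 1 ≤ m) (hA : 1 ≤ A)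
    (hΦ : Fixs ω m ≤ Φ) (hn : 160 * (Φ + 2 * (A * m)) ≤ Fintype.card α)
    (hB : 64 * (B : ℝ) ≤ Real.exp (A / 40)) (ha : 0 ≤ a) (h : Sep ω A m a) :
    Far ω (A * m) B a := by
  intro β _ hβ c
  have hF : 0 ≤ Fixs ω m := sum_nonneg fun d _ => far_fix_nonneg d
  have hm' : (1 : ℝ) ≤ m := by exact_mod_cast hm
  have hA' : (1 : ℝ) ≤ A := by exact_mod_cast hA
  have hR : (1 : ℝ) ≤ A * m := by nlinarith
  have hn' : (0 : ℝ) < Fintype.card α := by linarith
  have hn0 : 0 < Fintype.card α := by exact_mod_cast hn'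
  have hc : (0 : ℝ) < Fintype.card α * A / 20 := by positivity
  have hs : av (fun x : Wd (A * m) =>
      ind (Fintype.card α * A / 20 ≤ farSelf ω A m x.toList)) ≤ 1 / 4 := by
    refine (av_markov (f := fun x : Wd (A * m) => farSelf ω A m x.toList) (fun x =>
      sum_nonneg fun _ _ => sum_nonneg fun _ _ => ind_nonneg _) hc).trans ?_
    rw [← Ex_eq_av, div_le_iff₀ hc]
    refine (far_self_le h1 hn0).trans ?_
    have : 2 * (Fixs ω m + 2 * (A * m)) ≤ (Fintype.card α : ℝ) / 80 := by linarith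
    nlinarith
  have hx : av (fun x : Wd (A * m) => cnd c x fun y =>
      ind (Fintype.card α * A / 20 ≤ farCross ω A m x.toList y.toList)) ≤ 1 / 4 := by
    refine (av_cnd_le c (fun x y => ind (Fintype.card α * A / 20 ≤
      farCross ω A m x.toList y.toList)) (fun _ _ => ind_nonneg _) (fun _ _ => ind_le_one _)
      (κ := 8) (by norm_num)).trans ?_
    have h2 : av (fun x : Wd (A * m) => av fun y : Wd (A * m) =>
        ind (Fintype.card α * A / 20 ≤ farCross ω A m x.toList y.toList)) ≤
        Real.exp (-(A / 40)) := by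
      rw [av_comm]
      refine av_le_const' fun y => ?_
      rw [← Ex_eq_av (A * m) fun g => ind (Fintype.card α * A / 20 ≤ farCross ω A m g y.toList)]
      exact far_cross_le h1 hn0 (by linarith) _
    have h3 : (Fintype.card β : ℝ) ≤ B := by exact_mod_cast hβ
    have h4 : 64 * (B : ℝ) * Real.exp (-(A / 40)) ≤ 1 := by
      refine (mul_le_mul_of_nonneg_right hB (Real.exp_pos _).le).trans_eq ?_
      rw [← Real.exp_add, add_neg_cancel, Real.exp_zero]
    have h5 := mul_le_mul (mul_le_mul_of_nonneg_left h3 (by norm_num : (0 : ℝ) ≤ 8)) h2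
      (av_nonneg fun _ => av_nonneg fun _ => ind_nonneg _) (by positivity)
    linarith
  have han : 0 ≤ a * Fintype.card α := by positivity
  have hpt : ∀ x y : Wd (A * m), a * Fintype.card α *
      (1 - ind (Fintype.card α * A / 20 ≤ farSelf ω A m x.toList)) + -(a * Fintype.card α) *
        ind (Fintype.card α * A / 20 ≤ farCross ω A m x.toList y.toList) ≤
      dst ω x.toList y.toList := by
    intro x y
    have hd : 0 ≤ dst ω x.toList y.toList := sum_nonneg fun _ _ => ind_nonneg _
    by_cases p1 : Fintype.card α * A / 20 ≤ farSelf ω A m x.toList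
    · rw [ind_pos p1]
      nlinarith [ind_nonneg (Fintype.card α * A / 20 ≤ farCross ω A m x.toList y.toList)]
    by_cases p2 : Fintype.card α * A / 20 ≤ farCross ω A m x.toList y.toList
    · rw [ind_neg p1, ind_pos p2]
      linarith
    rw [ind_neg p1, ind_neg p2]
    have := h x.toList y.toList x.toList_length y.toList_length
      (by linarith [far_phi_le (ω := ω) A m x.toList y.toList, not_le.1 p1, not_le.1 p2])
    linarith
  refine le_trans ?_ (av_mono fun x => cnd_mono c x fun y _ => hpt x y)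
  simp only [cnd_add, cnd_const, cnd_mul_left]
  rw [av_add, av_mul_left, av_mul_left, av_sub, av_const]
  nlinarith

end Pool.Agent.Lib.MP_8a89f5_al
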