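import Pool.Agent.Lib.MP_8a89f5_al.Q2Inv

/-!
Flatness of the walk after enough rounds.
-/

namespace Pool.Agent.Lib.MP_8a89f5_al

open Finset Equiv

variable {α : Type} [Fintype α] [DecidableEq α]

theorem flat_drop (Φ : ℕ → ℝ) {A : ℕ} (hA : 0 < A) {L : ℝ} (h0 : Φ 0 ≤ L) (h1 : 0 ≤ Φ A) :
    ∃ i < A, Φ i - Φ (i + 1) ≤ L / A := by
  by_contra hcon
  push Not at hcon
  have hA' : (0 : ℝ) < A := by exact_mod_cast hA
  have h2 : ∑ _i ∈ range A, L / A < ∑ i ∈ range A, (Φ i - Φ (i + 1)) :=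
    sum_lt_sum_of_nonempty (nonempty_range_iff.2 hA.ne') fun i hi => hcon i (mem_range.1 hi)
  rw [sum_range_sub', sum_const, card_range, nsmul_eq_mul, mul_div_cancel₀ _ hA'.ne'] at h2
  linarith

omit [Fintype α] [DecidableEq α] in
theorem flat_round (ω : Bool → Perm α) (t m R t' : ℕ) (ht : t' = t + (m + R))
    (F : Perm α → ℝ) :
    av (fun z : Wd t × Wd m × Wd R => F ((walk ω R z.2.2 * walk ω m z.2.1) * walk ω t z.1)) =
      av fun w : Wd t' => F (walk ω t' w) := by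
  subst ht
  rw [walk_add, av_prod, av_prod]
  congr 1
  funext x
  exact (walk_add ω m R fun h => F (h * walk ω t x)).symm

theorem flat_of_far {ω : Bool → Perm α} {m R M A k : ℕ} {ζ a Δ s : ℝ} (hn : 2 ≤ Fintype.card α)
    (hk : 0 < k) (hA : 0 < A) (hζ : 0 ≤ ζ) (ha : 0 < a) (ha1 : a ≤ 1) (hΔ : 0 ≤ Δ) (hΔ1 : Δ ≤ 1)
    (hs : 0 < s) (hmix : Mix2 ω m ζ) (hfar : Far ω R (Fintype.card α ^ (M * k)) a) :
    Flat ω M (A * (m + R)) ((Real.log (Fintype.card α) + 1) *
      (3 * ζ + 2 / Fintype.card α + Δ + 2 / a * (Real.log (Fintype.card α) / A / s + 4 * s +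
        2 * (Fintype.card α : ℝ) ^ 2 * Real.exp (-(k * Δ ^ 2) / 4)))) := by
  intro Z hZ t' ht'
  have hne : Nonempty α := Fintype.card_pos_iff.1 (by omega)
  obtain ⟨i, hi, hdrop⟩ := flat_drop (fun i => av fun b => dfc (walk ω (i * (m + R))) Z b) hA
    (L := Real.log (Fintype.card α)) (av_le_const' fun b => dfc_le _ Z b)
    (av_nonneg fun b => dfc_nonneg _ Z b)
  have hle : i * (m + R) ≤ t' := (Nat.mul_le_mul_right _ hi.le).trans ht'
  refine (av_mono fun b => dfc_walk_anti ω hle Z b).trans ?_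
  refine inv_round (walk ω (i * (m + R))) (walk ω m) (walk ω R) Z hn hk hζ ha ha1 hΔ hΔ1 hs
    (fun v w => ?_) (fun v v' w w' hv => ?_) (fun c => ?_) ?_
  · have := hmix.1 v w
    rwa [Ex_eq_av] at this
  · have := hmix.2 v v' w w' hv
    rwa [Ex_eq_av] at this
  · refine hfar (Fin k → Z → α) ?_ c
    rw [Fintype.card_fun, Fintype.card_fun, Fintype.card_fin, Fintype.card_coe, ← pow_mul]
    exact Nat.pow_le_pow_right (by omega) (Nat.mul_le_mul_right _ hZ)
  · have e : ∀ b, dfc (fun z : Wd (i * (m + R)) × Wd m × Wd R =>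
        (walk ω R z.2.2 * walk ω m z.2.1) * walk ω (i * (m + R)) z.1) Z b =
          dfc (walk ω ((i + 1) * (m + R))) Z b :=
      fun b => dfc_congr (flat_round ω _ m R _ (by ring)) Z b
    simp only [e]
    rw [av_sub]
    exact hdrop

end Pool.Agent.Lib.MP_8a89f5_al
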