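import Pool.Agent.Lib.MP_8a89f5_al.Q2Dens
import Pool.Agent.Lib.MP_8a89f5_al.Q2Fam

/-!
Density restoring partitions, and the mass of heavy words.
-/

namespace Pool.Agent.Lib.MP_8a89f5_al

open Finset Equiv

variable {α : Type} [Fintype α] [DecidableEq α] {ω : Bool → Perm α}

omit [Fintype α] in
theorem gpw {Ω : Type} [Fintype Ω] [Nonempty Ω] (G : Ω → α → α) (Z : Finset α) {κ p β : ℝ}
    {s : ℕ} (hκ : 0 ≤ κ) (hp : 0 ≤ p) (hβ : 0 ≤ β) (F : Ω → ℝ) (hF : ∀ l, F l ≤ 1)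
    (hP : ∀ (P : Finset Ω) (S : Finset α), P.Nonempty → S ⊆ Z → S.card < s →
      (∀ l ∈ P, ∀ l' ∈ P, Agr S (G l) (G l')) →
      (∀ I ⊆ Z \ S, ∀ y ∈ P, ∑ l ∈ P, ind (Agr I (G l) (G y)) ≤ κ ^ I.card * P.card) →
      ∑ l ∈ P, F l ≤ β * P.card) :
    av F ≤ β + p + av fun l => ind (∃ I ⊆ Z, s ≤ I.card ∧
      p * κ ^ I.card ≤ av fun l' => ind (Agr I (G l') (G l))) := by
  classical
  set H : Ω → ℝ := fun l => ind (∃ I ⊆ Z, s ≤ I.card ∧
      p * κ ^ I.card ≤ av fun l' => ind (Agr I (G l') (G l))) with hH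
  have hH0 : ∀ l, 0 ≤ H l := fun l => ind_nonneg _
  have hN : (0 : ℝ) < Fintype.card Ω := by exact_mod_cast Fintype.card_pos
  have hFs : ∀ X : Finset Ω, ∑ l ∈ X, F l ≤ X.card := fun X => by
    simpa using sum_le_card_nsmul X F 1 fun l _ => hF l
  have key : ∀ X : Finset Ω,
      ∑ l ∈ X, F l ≤ β * X.card + p * Fintype.card Ω + ∑ l ∈ X, H l := by
    intro X
    induction X using Finset.strongInduction with
    | H X ih =>
    by_cases hX : (X.card : ℝ) ≤ p * Fintype.card Ω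
    · have h1 := hFs X
      have h2 : 0 ≤ ∑ l ∈ X, H l := sum_nonneg fun l _ => hH0 l
      have h3 : 0 ≤ β * X.card := by positivity
      linarith
    rw [not_le] at hX
    have hXne : X.Nonempty := by
      rw [← card_pos]
      have : (0 : ℝ) < X.card := lt_of_le_of_lt (by positivity) hX
      exact_mod_cast this
    let A : Finset (Finset α × Ω) := (Z.powerset ×ˢ X).filter fun z =>
      κ ^ z.1.card * X.card ≤ ((X.filter fun l => Agr z.1 (G l) (G z.2)).card : ℝ)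
    have hA : A.Nonempty := by
      obtain ⟨x, hx⟩ := hXne
      refine ⟨(∅, x), mem_filter.2 ⟨mem_product.2 ⟨mem_powerset.2 (empty_subset _), hx⟩, ?_⟩⟩
      rw [filter_true_of_mem fun l _ a ha => absurd ha (notMem_empty a)]
      simp
    obtain ⟨⟨S, l0⟩, hz, hmax⟩ := exists_max_image A (fun z => z.1.card) hA
    obtain ⟨hz1, hz2⟩ := mem_filter.1 hz
    obtain ⟨hSZ, hl0⟩ := mem_product.1 hz1
    rw [mem_powerset] at hSZ
    simp only at hSZ hl0 hz2 hmax
    set P := X.filter fun l => Agr S (G l) (G l0) with hPd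
    have hPX : P ⊆ X := filter_subset _ _
    have hPne : P.Nonempty := ⟨l0, mem_filter.2 ⟨hl0, Agr.refl _ _⟩⟩
    have hPa : ∀ l ∈ P, ∀ l' ∈ P, Agr S (G l) (G l') := fun l hl l' hl' =>
      (mem_filter.1 hl).2.trans (mem_filter.1 hl').2.symm
    have h1 := ih (X \ P) (sdiff_ssubset hPX hPne)
    have h2 : ∑ l ∈ P, F l ≤ β * P.card + ∑ l ∈ P, H l := by
      by_cases hs : s ≤ S.card
      · have h3 : ∀ l ∈ P, H l = 1 := fun l hl => by
          refine ind_pos ⟨S, hSZ, hs, ?_⟩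
          rw [av, le_div_iff₀ hN, sum_ind_eq_card]
          have h4 : (P.card : ℝ) ≤
              ((univ.filter fun l' => Agr S (G l') (G l)).card : ℝ) := by
            exact_mod_cast card_le_card fun l' hl' => mem_filter.2 ⟨mem_univ _, hPa l' hl' l hl⟩
          have h5 := mul_le_mul_of_nonneg_left hX.le (pow_nonneg hκ S.card)
          linarith
        rw [sum_congr rfl h3]
        have h4 := hFs P
        have h5 : 0 ≤ β * P.card := by positivity
        simp only [sum_const, nsmul_eq_mul, mul_one]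
        linarith
      · have h3 : 0 ≤ ∑ l ∈ P, H l := sum_nonneg fun l _ => hH0 l
        refine le_trans (hP P S hPne hSZ (not_le.1 hs) hPa fun I hI y hy => ?_) (by linarith)
        rw [sum_ind_eq_card]
        rcases I.eq_empty_or_nonempty with rfl | hI0
        · rw [card_empty, pow_zero, one_mul]
          exact_mod_cast card_filter_le _ _
        have hd : Disjoint S I := disjoint_left.2 fun a ha hb => (mem_sdiff.1 (hI hb)).2 ha
        have hc := card_union_of_disjoint hd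
        have h4 : (S ∪ I, y) ∉ A := fun h => by
          have h5 := hmax _ h
          have h6 := card_pos.2 hI0
          simp only at h5
          omega
        have h5 : ((X.filter fun l => Agr (S ∪ I) (G l) (G y)).card : ℝ) <
            κ ^ (S ∪ I).card * X.card := by
          by_contra h
          exact h4 (mem_filter.2 ⟨mem_product.2 ⟨mem_powerset.2
            (union_subset hSZ (hI.trans sdiff_subset)), hPX hy⟩, not_lt.1 h⟩)
        have h6 : ((P.filter fun l => Agr I (G l) (G y)).card : ℝ) ≤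
            ((X.filter fun l => Agr (S ∪ I) (G l) (G y)).card : ℝ) := by
          refine Nat.cast_le.2 (card_le_card fun l hl => ?_)
          obtain ⟨h7, h8⟩ := mem_filter.1 hl
          refine mem_filter.2 ⟨hPX h7, fun a ha => ?_⟩
          rcases mem_union.1 ha with ha | ha
          · exact hPa l h7 y hy a ha
          · exact h8 a ha
        have h7 := mul_le_mul_of_nonneg_left hz2 (pow_nonneg hκ I.card)
        rw [hc, pow_add] at h5
        linarith
    have e1 := sum_sdiff (f := F) hPX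
    have e2 := sum_sdiff (f := H) hPX
    have e3 : ((X \ P).card : ℝ) + P.card = X.card := by
      exact_mod_cast card_sdiff_add_card_eq_card hPX
    rw [← e1, ← e2, ← e3]
    linarith
  have h := key univ
  rw [card_univ] at h
  rw [av, av, div_le_iff₀ hN, add_mul, div_mul_cancel₀ _ hN.ne']
  linarith

omit [Fintype α] in
theorem hv_pairs (I C : Finset α) :
    ∑ z ∈ I.offDiag, ind (z.1 ∈ C ∧ z.2 ∈ C) =
      ((I ∩ C).card : ℝ) * (((I ∩ C).card : ℝ) - 1) := by
  rw [sum_ind_eq_card]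
  have h : I.offDiag.filter (fun z => z.1 ∈ C ∧ z.2 ∈ C) = (I ∩ C).offDiag := by
    ext z
    simp only [mem_filter, mem_offDiag, mem_inter]
    tauto
  rw [h, offDiag_card, Nat.cast_sub (Nat.le_mul_self _)]
  push_cast
  ring

omit [Fintype α] in
theorem hv_bad {Θ : Type} [Fintype Θ] (C : Θ → Finset α) {I : Finset α} {sb : ℕ} {δ : ℝ}
    (hδ : 0 ≤ δ) (hsb : 1 ≤ sb) (hI : sb ≤ I.card)
    (hC : ∀ a ∈ I, ∀ b ∈ I, a ≠ b → av (fun θ => ind (a ∈ C θ ∧ b ∈ C θ)) = δ) :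
    av (fun θ => ind (2 * I.card < sb * (I ∩ C θ).card)) ≤ (sb : ℝ) ^ 2 * δ := by
  have hI0 : (0 : ℝ) < I.card := by exact_mod_cast (by omega : 0 < I.card)
  have h1 : ∀ θ, ind (2 * I.card < sb * (I ∩ C θ).card) ≤
      (sb : ℝ) ^ 2 / (I.card : ℝ) ^ 2 * ∑ z ∈ I.offDiag, ind (z.1 ∈ C θ ∧ z.2 ∈ C θ) := by
    intro θ
    refine ind_le_of (mul_nonneg (by positivity) (sum_nonneg fun z _ => ind_nonneg _)) fun h => ?_
    rw [hv_pairs, div_mul_eq_mul_div, one_le_div (by positivity)]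
    have h2 : 2 ≤ (I ∩ C θ).card := by
      by_contra h3
      have h4 : sb * (I ∩ C θ).card ≤ sb * 1 := Nat.mul_le_mul_left _ (by omega)
      omega
    have h3 : (2 : ℝ) ≤ (I ∩ C θ).card := by exact_mod_cast h2
    have h4 : 2 * (I.card : ℝ) ≤ sb * (I ∩ C θ).card := by exact_mod_cast h.le
    generalize ((I ∩ C θ).card : ℝ) = x at h3 h4 ⊢
    have h5 := pow_le_pow_left₀ (by positivity) h4 2
    have h6 : x ^ 2 ≤ 4 * (x * (x - 1)) := by nlinarith
    have h7 := mul_le_mul_of_nonneg_left h6 (sq_nonneg (sb : ℝ))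
    nlinarith
  refine (av_mono h1).trans ?_
  rw [av_mul_left, av_sum, sum_congr rfl fun z hz =>
    hC z.1 (mem_offDiag.1 hz).1 z.2 (mem_offDiag.1 hz).2.1 (mem_offDiag.1 hz).2.2,
    sum_const, nsmul_eq_mul, ← mul_assoc]
  refine mul_le_mul_of_nonneg_right ?_ hδ
  rw [div_mul_eq_mul_div, div_le_iff₀ (by positivity)]
  refine mul_le_mul_of_nonneg_left ?_ (sq_nonneg _)
  rw [offDiag_card, sq]
  exact_mod_cast Nat.sub_le _ _

omit [Fintype α] [DecidableEq α] in
theorem hv_pr_congr {Ω : Type} [Fintype Ω] (G : Ω → Perm α) {I : Finset α} {f g : α → α}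
    (h : Agr I f g) : pr G I f = pr G I g := by
  unfold pr
  congr 1
  funext x
  exact ind_congr ⟨fun h1 => h1.trans h, fun h1 => h1.trans h.symm⟩

/-- The uniform measure of the maps with a large density on a large subset of `Y`. -/
theorem hv_unif {Ω : Type} [Fintype Ω] [Nonempty Ω] (G : Ω → Perm α) (Y : Finset α) (s : ℕ)
    {Λ1 γ : ℝ} (hΛ1 : 0 < Λ1) (hγ : 1 ≤ γ) :
    av (fun f : α → α => ind (∃ I ⊆ Y, s ≤ 2 * I.card ∧
      Λ1 ^ I.card ≤ (Fintype.card α : ℝ) ^ I.card * pr G I f)) ≤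
      Real.exp (Y.card * (γ ^ 2 / Λ1)) / γ ^ s := by
  have hγ0 : 0 < γ := by linarith
  have hpr : ∀ (I : Finset α) (f : α → α), 0 ≤ (Fintype.card α : ℝ) ^ I.card * pr G I f :=
    fun I f => mul_nonneg (by positivity) (av_nonneg fun x => ind_nonneg _)
  have h1 : ∀ f : α → α, ind (∃ I ⊆ Y, s ≤ 2 * I.card ∧
      Λ1 ^ I.card ≤ (Fintype.card α : ℝ) ^ I.card * pr G I f) ≤
      ∑ I ∈ Y.powerset, (γ ^ 2 / Λ1) ^ I.card / γ ^ s *
        ((Fintype.card α : ℝ) ^ I.card * pr G I f) := by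
    intro f
    refine (ind_le_sum Y.powerset (fun I => s ≤ 2 * I.card ∧
      Λ1 ^ I.card ≤ (Fintype.card α : ℝ) ^ I.card * pr G I f)
      fun ⟨I, h1, h2⟩ => ⟨I, mem_powerset.2 h1, h2⟩).trans (sum_le_sum fun I _ => ?_)
    refine ind_le_of (mul_nonneg (by positivity) (hpr I f)) fun ⟨h1, h2⟩ => ?_
    have h3 : γ ^ s ≤ (γ ^ 2) ^ I.card := by
      rw [← pow_mul]
      exact pow_le_pow_right₀ hγ h1
    rw [div_pow, div_div, div_mul_eq_mul_div, one_le_div (by positivity), mul_comm]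
    exact mul_le_mul h3 h2 (by positivity) (by positivity)
  have h2 : ∀ I : Finset α,
      av (fun f : α → α => (Fintype.card α : ℝ) ^ I.card * pr G I f) = 1 := fun I => by
    have h := av_dens G (Z := I) (Ψ := fun _ => 1) fun _ _ _ => rfl
    simp only [mul_one, av_const] at h
    exact h.symm
  refine (av_mono h1).trans ?_
  rw [av_sum]
  simp only [av_mul_left _ (fun f : α → α => (Fintype.card α : ℝ) ^ _ * pr G _ f), h2, mul_one]
  rw [← sum_div]
  refine div_le_div_of_nonneg_right ?_ (by positivity)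
  have h3 := Finset.sum_pow_mul_eq_add_pow (γ ^ 2 / Λ1) 1 Y
  simp only [one_pow, mul_one] at h3
  rw [h3, Real.exp_nat_mul]
  exact pow_le_pow_left₀ (by positivity) (Real.add_one_le_exp _) _

theorem hv_num {n p0 Λ Λ1 B q : ℝ} {a b sb : ℕ} (hn : 0 < n) (hB1 : 1 ≤ B) (hB : n ^ 2 ≤ B ^ sb)
    (hp0 : 0 < p0) (hp1 : p0 ≤ 1) (hΛ1 : 1 ≤ Λ1) (hΛ : Λ1 * B ≤ p0 * Λ) (hab : 0 < a + b)
    (ha : sb * a ≤ 2 * (a + b)) (hq : p0 * (Λ / n) ^ (a + b) ≤ q) : Λ1 ^ b ≤ n ^ b * q := by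
  have hΛ0 : 0 < Λ := by
    have : 0 < p0 * Λ := lt_of_lt_of_le (by positivity) hΛ
    exact (mul_pos_iff_of_pos_left hp0).1 this
  have h1 : n ^ a ≤ B ^ (a + b) := by
    refine le_of_pow_le_pow_left₀ two_ne_zero (by positivity) ?_
    calc (n ^ a) ^ 2 = (n ^ 2) ^ a := by ring
      _ ≤ (B ^ sb) ^ a := pow_le_pow_left₀ (by positivity) hB _
      _ = B ^ (sb * a) := by rw [← pow_mul]
      _ ≤ B ^ (2 * (a + b)) := pow_le_pow_right₀ hB1 ha
      _ = (B ^ (a + b)) ^ 2 := by ring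
  have h2 : Λ1 ^ b * n ^ a ≤ p0 * Λ ^ (a + b) :=
    calc Λ1 ^ b * n ^ a ≤ Λ1 ^ (a + b) * B ^ (a + b) :=
          mul_le_mul (pow_le_pow_right₀ hΛ1 (by omega)) h1 (by positivity) (by positivity)
      _ = (Λ1 * B) ^ (a + b) := by rw [mul_pow]
      _ ≤ (p0 * Λ) ^ (a + b) := pow_le_pow_left₀ (by positivity) hΛ _
      _ = p0 ^ (a + b) * Λ ^ (a + b) := by rw [mul_pow]
      _ ≤ p0 * Λ ^ (a + b) :=
          mul_le_mul_of_nonneg_right (pow_le_of_le_one hp0.le hp1 hab.ne') (by positivity)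
  rw [div_pow, ← mul_div_assoc, div_le_iff₀ (by positivity), pow_add n] at hq
  refine le_of_mul_le_mul_right ?_ (pow_pos hn a)
  linarith

theorem heavy_le {Z : Finset α} {j d t s sb : ℕ} {p c p0 Λ Λ1 B γ : ℝ} (hZ : Z.card = j)
    (hj : 2 ≤ j) (hd : d ≤ j) (hS : Spread ω (j - d) t p c) (hc : 0 ≤ c) (hsb : 4 ≤ sb)
    (hs : sb ≤ s) (hB1 : 1 ≤ B) (hB : (Fintype.card α : ℝ) ^ 2 ≤ B ^ sb) (hp0 : 0 < p0)
    (hp1 : p0 ≤ 1) (hΛ1 : 1 ≤ Λ1) (hΛ : Λ1 * B ≤ p0 * Λ) (hγ : 1 ≤ γ) :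
    av (fun l : Wd t => ind (∃ I ⊆ Z, s ≤ I.card ∧ p0 * (Λ / Fintype.card α) ^ I.card ≤
      av fun l' : Wd t => ind (Agr I (walk ω t l') (walk ω t l)))) ≤
      p + c * (Real.exp (j * γ ^ 2 / Λ1) / γ ^ s) +
        (sb : ℝ) ^ 2 * (d * ((d : ℝ) - 1) / (j * ((j : ℝ) - 1))) := by
  obtain ⟨Θ, _, _, C, hC1, -, hC2⟩ := exists_family Z (d := d) (hZ ▸ hd)
  rw [hZ] at hC2
  set δ : ℝ := d * ((d : ℝ) - 1) / (j * ((j : ℝ) - 1)) with hδ
  have hδ0 : 0 ≤ δ := by
    have h1 : (2 : ℝ) ≤ j := by exact_mod_cast hj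
    refine div_nonneg ?_ (mul_nonneg (by linarith) (by linarith))
    rcases Nat.eq_zero_or_pos d with h | h
    · simp [h]
    · have : (1 : ℝ) ≤ d := by exact_mod_cast h
      exact mul_nonneg (by linarith) (by linarith)
  have hn : (0 : ℝ) < Fintype.card α := by
    have := card_le_univ Z
    exact_mod_cast (by omega : 0 < Fintype.card α)
  let F : Θ → (α → α) → ℝ := fun θ f => ind (∃ I ⊆ Z \ C θ, s ≤ 2 * I.card ∧
    Λ1 ^ I.card ≤ (Fintype.card α : ℝ) ^ I.card * pr (walk ω t) I f)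
  have h1 : ∀ θ, av (fun l : Wd t => F θ (walk ω t l)) ≤
      p + c * (Real.exp (j * γ ^ 2 / Λ1) / γ ^ s) := fun θ => by
    have hc' : (Z \ C θ).card = j - d := by
      rw [card_sdiff_of_subset (hC1 θ).1, hZ, (hC1 θ).2]
    have h2 := hS (Z \ C θ) hc' (F θ) (fun f g h => ind_congr (exists_congr fun I =>
      and_congr_right fun hI => by rw [hv_pr_congr _ (h.mono hI)]))
      fun f => ⟨ind_nonneg _, ind_le_one _⟩
    rw [Ex_eq_walk ω t fun g => F θ g] at h2
    refine h2.trans (add_le_add le_rfl (mul_le_mul_of_nonneg_left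
      ((hv_unif (walk ω t) (Z \ C θ) s (by linarith) hγ).trans ?_) hc))
    refine div_le_div_of_nonneg_right (Real.exp_le_exp.2 ?_) (by positivity)
    rw [mul_div_assoc, hc']
    exact mul_le_mul_of_nonneg_right (by exact_mod_cast Nat.sub_le _ _) (by positivity)
  have h2 : ∀ l : Wd t, ind (∃ I ⊆ Z, s ≤ I.card ∧ p0 * (Λ / Fintype.card α) ^ I.card ≤
      av fun l' : Wd t => ind (Agr I (walk ω t l') (walk ω t l))) ≤
      av (fun θ => F θ (walk ω t l)) + (sb : ℝ) ^ 2 * δ := fun l => by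
    refine ind_le_of (add_nonneg (av_nonneg fun θ => ind_nonneg _) (by positivity))
      fun ⟨I, hIZ, hsI, hI⟩ => ?_
    have h3 := hv_bad C hδ0 (by omega : 1 ≤ sb) (hs.trans hsI)
      fun a ha b hb hab => hC2 a (hIZ ha) b (hIZ hb) hab
    refine le_trans ?_ (add_le_add le_rfl h3)
    rw [← av_add]
    refine le_av_const fun θ => ?_
    by_cases h4 : 2 * I.card < sb * (I ∩ C θ).card
    · rw [ind_pos h4]
      exact le_add_of_nonneg_left (ind_nonneg _)
    rw [ind_neg h4, add_zero]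
    have h5 := card_inter_add_card_sdiff I (C θ)
    have h6 : 4 * (I ∩ C θ).card ≤ sb * (I ∩ C θ).card := Nat.mul_le_mul_right _ hsb
    refine (ind_pos ⟨I \ C θ, sdiff_subset_sdiff hIZ le_rfl, by omega, ?_⟩).ge
    refine hv_num (a := (I ∩ C θ).card) hn hB1 hB hp0 hp1 hΛ1 hΛ (by omega) (by omega) ?_
    rw [h5]
    exact hI.trans (av_mono fun l' => ind_mono fun h => h.mono sdiff_subset)
  refine (av_mono h2).trans ?_
  rw [av_add, av_const, av_comm]
  exact add_le_add (av_le_const' h1) le_rfl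

end Pool.Agent.Lib.MP_8a89f5_al
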