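import Pool.Agent.Lib.MP_8a89f5_al.Q2Step

/-!
The induction on the size of the set, with all parameters powers of the binary length.
-/

namespace Pool.Agent.Lib.MP_8a89f5_al

open Finset Equiv

variable {α : Type} [Fintype α] [DecidableEq α] {ω : Bool → Perm α}

theorem ind_e1 {l x y : ℝ} {s : ℕ} (hl : 10 ^ 6 ≤ l) (hs : 100 ≤ s) (hx : x ≤ s + 1)
    (hy : y ≤ x / 8) :
    16 * Real.exp y * (Real.exp (x / 8) / (l ^ 5) ^ s) ≤ 1 / l ^ 18 := by
  have l0 : 0 < l := by linarith [show (0:ℝ) < 10 ^ 6 by norm_num]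
  have l1 : (16:ℝ) ≤ l := by linarith [show (16:ℝ) ≤ 10 ^ 6 by norm_num]
  have s1 : (100:ℝ) ≤ s := by exact_mod_cast hs
  have h1 : Real.exp y * Real.exp (x / 8) ≤ l ^ s := by
    rw [← Real.exp_add]
    calc Real.exp (y + x / 8) ≤ Real.exp ((s:ℝ) * 1) := Real.exp_le_exp.2 (by linarith)
      _ = Real.exp 1 ^ s := Real.exp_nat_mul 1 s
      _ ≤ l ^ s := pow_le_pow_left₀ (Real.exp_pos 1).le
          (by linarith [Real.exp_one_lt_d9]) s
  have h2 : l ^ 19 * l ^ s ≤ (l ^ 5) ^ s := by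
    rw [← pow_mul, ← pow_add]
    exact pow_le_pow_right₀ (by linarith) (by omega)
  have h3 : 16 * Real.exp y * (Real.exp (x / 8) / (l ^ 5) ^ s) =
      16 * (Real.exp y * Real.exp (x / 8)) / (l ^ 5) ^ s := by ring
  rw [h3, div_le_div_iff₀ (by positivity) (by positivity), one_mul]
  refine le_trans ?_ h2
  have h4 : 0 < l ^ 18 := by positivity
  have h5 : 0 < l ^ s := by positivity
  calc 16 * (Real.exp y * Real.exp (x / 8)) * l ^ 18 ≤ l * l ^ s * l ^ 18 := by gcongr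
    _ = l ^ 19 * l ^ s := by ring

theorem ind_e2 {l j sb : ℝ} {q : ℕ} (hl : 10 ^ 6 ≤ l) (hj : 2 ≤ j) (h0 : 0 ≤ sb) (hsb : sb ≤ l)
    (hq : l ^ 10 * q ≤ j) :
    sb ^ 2 * (((q + 1 : ℕ) : ℝ) * (((q + 1 : ℕ) : ℝ) - 1) / (j * (j - 1))) ≤ 4 / l ^ 18 := by
  have l0 : 0 < l := by linarith [show (0:ℝ) < 10 ^ 6 by norm_num]
  have q0 : (0:ℝ) ≤ q := Nat.cast_nonneg q
  have q1 : (q:ℝ) ≤ (q:ℝ) ^ 2 := by exact_mod_cast Nat.le_self_pow two_ne_zero q
  have h1 : ((q + 1 : ℕ) : ℝ) * (((q + 1 : ℕ) : ℝ) - 1) ≤ 2 * (q:ℝ) ^ 2 := by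
    push_cast
    nlinarith
  have h2 : (l ^ 10 * q) ^ 2 ≤ j ^ 2 := pow_le_pow_left₀ (by positivity) hq 2
  have h3 : j ^ 2 ≤ 2 * (j * (j - 1)) := by nlinarith
  have h4 : 0 < j * (j - 1) := by nlinarith
  have h5 : sb ^ 2 ≤ l ^ 2 := pow_le_pow_left₀ h0 hsb 2
  rw [← mul_div_assoc, div_le_div_iff₀ h4 (by positivity)]
  have h6 : 0 ≤ ((q + 1 : ℕ) : ℝ) * (((q + 1 : ℕ) : ℝ) - 1) := by
    push_cast
    nlinarith
  calc sb ^ 2 * (((q + 1 : ℕ) : ℝ) * (((q + 1 : ℕ) : ℝ) - 1)) * l ^ 18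
      ≤ l ^ 2 * (2 * (q:ℝ) ^ 2) * l ^ 18 := by gcongr
    _ = 2 * (l ^ 10 * q) ^ 2 := by ring
    _ ≤ 4 * (j * (j - 1)) := by linarith

theorem ind_e5 {l j g : ℝ} (hl : 10 ^ 6 ≤ l) (hj : 0 < j) (hg : g ≤ l) :
    j * (g * l ^ 88 / l ^ 120 + 2 * l ^ 120 * (1 / l ^ 151)) / (1 + j / (16 * l ^ 11) - 1) ≤
      1 / l ^ 18 := by
  have l0 : 0 < l := by linarith [show (0:ℝ) < 10 ^ 6 by norm_num]
  have l1 : (48:ℝ) ≤ l := by linarith [show (48:ℝ) ≤ 10 ^ 6 by norm_num]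
  have h1 : j * (g * l ^ 88 / l ^ 120 + 2 * l ^ 120 * (1 / l ^ 151)) /
      (1 + j / (16 * l ^ 11) - 1) = 16 * (g + 2 * l) / l ^ 21 := by
    rw [add_sub_cancel_left]
    field_simp
  rw [h1, div_le_div_iff₀ (by positivity) (by positivity), one_mul]
  have h2 : 16 * (g + 2 * l) ≤ l ^ 3 := by nlinarith [mul_le_mul l1 l1 (by norm_num) l0.le]
  calc 16 * (g + 2 * l) * l ^ 18 ≤ l ^ 3 * l ^ 18 := by gcongr
    _ = l ^ 21 := by ring

theorem ind_gap {l a d : ℝ} (hl : 10 ^ 6 ≤ l) (ha : 0 < a) (hd : 0 < d)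
    (h : a + d ≤ l ^ 10 * d) :
    Real.log a / l ^ 7 + 9 / l ^ 18 ≤ Real.log (a + d) / l ^ 7 := by
  have l0 : 0 < l := by linarith [show (0:ℝ) < 10 ^ 6 by norm_num]
  have l1 : (9:ℝ) ≤ l := by linarith [show (9:ℝ) ≤ 10 ^ 6 by norm_num]
  have h1 : Real.log a - Real.log (a + d) ≤ a / (a + d) - 1 := by
    rw [← Real.log_div ha.ne' (by positivity)]
    exact Real.log_le_sub_one_of_pos (by positivity)
  have h2 : a / (a + d) - 1 = -(d / (a + d)) := by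
    field_simp
    ring
  have h3 : 1 / l ^ 10 ≤ d / (a + d) := by
    rw [div_le_div_iff₀ (by positivity) (by positivity)]
    linarith
  have h4 : 9 / l ^ 11 ≤ 1 / l ^ 10 := by
    rw [div_le_div_iff₀ (by positivity) (by positivity), one_mul]
    calc 9 * l ^ 10 ≤ l * l ^ 10 := by gcongr
      _ = l ^ 11 := by ring
  have h5 : 9 / l ^ 18 = 9 / l ^ 11 / l ^ 7 := by
    field_simp
  rw [h5, ← add_div]
  exact div_le_div_of_nonneg_right (by linarith) (by positivity)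

theorem ind_c1 {x : ℝ} (hx : 0 ≤ x) :
    2 * 2 * Real.exp (1 + x / 16) ≤ 16 * Real.exp (x / 8) := by
  have h1 : Real.exp (x / 16) ≤ Real.exp (x / 8) := Real.exp_le_exp.2 (by linarith)
  have h2 := Real.exp_one_lt_d9
  have h3 := Real.exp_pos (x / 16)
  rw [Real.exp_add]
  nlinarith

theorem ind_c2 {x y : ℝ} (hx : 100 ≤ x) (hy : y ≤ x / 32) :
    2 * (32 * Real.exp y) * Real.exp (1 + x / 16) ≤ 16 * Real.exp (x / 8) := by
  have h1 : Real.exp 2 * (Real.exp y * Real.exp (1 + x / 16)) ≤ Real.exp (x / 8) := by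
    rw [← Real.exp_add, ← Real.exp_add]
    exact Real.exp_le_exp.2 (by linarith)
  have h2 : (4:ℝ) ≤ Real.exp 2 := by
    have h := Real.add_one_le_exp 1
    have e : Real.exp 2 = Real.exp 1 * Real.exp 1 := by
      rw [← Real.exp_add]
      norm_num
    nlinarith
  have h3 : 0 < Real.exp y * Real.exp (1 + x / 16) := by positivity
  nlinarith

theorem ind_log {L n k : ℕ} (hn : n < 2 ^ L) (hk : k ≤ n) : Real.log k ≤ L := by
  rcases Nat.eq_zero_or_pos k with rfl | h0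
  · simp
  have h1 : (k:ℝ) ≤ 2 ^ L := by exact_mod_cast hk.trans hn.le
  have h2 := Real.log_le_log (by exact_mod_cast h0) h1
  rw [Real.log_pow] at h2
  have h3 : Real.log 2 ≤ 1 := by linarith [Real.log_two_lt_d9]
  have h4 : (0:ℝ) ≤ L := Nat.cast_nonneg L
  nlinarith

theorem ind_div {l g : ℝ} (hl : 10 ^ 6 ≤ l) (hg : g ≤ l) : g / l ^ 7 ≤ 1 / l ^ 6 := by
  have l0 : 0 < l := by linarith [show (0:ℝ) < 10 ^ 6 by norm_num]
  rw [div_le_div_iff₀ (by positivity) (by positivity), one_mul]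
  calc g * l ^ 6 ≤ l * l ^ 6 := by gcongr
    _ = l ^ 7 := by ring

theorem ind_half {l : ℝ} (hl : 10 ^ 6 ≤ l) : 1 / l ^ 6 ≤ 1 / 2 := by
  have l1 : (2:ℝ) ≤ l := by linarith [show (2:ℝ) ≤ 10 ^ 6 by norm_num]
  refine one_div_le_one_div_of_le (by norm_num) (l1.trans ?_)
  exact le_self_pow₀ (by linarith) (by norm_num)

/-- Three rounds make the exceptional mass small. -/
theorem ind_three {j t : ℕ} {l c : ℝ} (hl : 10 ^ 6 ≤ l) (hc : 0 ≤ c)
    (h : Spread ω j t (1 / l ^ 6) c) : Spread ω j (3 * t) (1 / l ^ 18) (2 * c) := by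
  have l0 : 0 < l := by linarith [show (0:ℝ) < 10 ^ 6 by norm_num]
  have p0 : 0 ≤ 1 / l ^ 6 := by positivity
  have p1 := ind_half hl
  have h2 := h.comp h p0 p0 hc hc
  have h3 := h.comp h2 p0 (by positivity) hc (by positivity)
  refine h3.mono (by omega) (le_of_eq ?_) ?_
  · field_simp
  · have a1 : 1 / l ^ 6 * c ≤ 1 / 2 * c := mul_le_mul_of_nonneg_right p1 hc
    have a2 : 1 / l ^ 6 * (c + 1 / l ^ 6 * c) ≤ 1 / 2 * (c + 1 / l ^ 6 * c) :=
      mul_le_mul_of_nonneg_right p1 (by positivity)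
    linarith

theorem ind_main {L sb m T K : ℕ} (hL : 10 ^ 6 ≤ L) (hn2 : 2 ≤ Fintype.card α)
    (hn : Fintype.card α < 2 ^ L) (hsb : 100 ≤ sb) (hsbL : sb ≤ L)
    (hB : (Fintype.card α : ℝ) ^ 2 ≤ ((L : ℝ) ^ 48) ^ sb) (hbase : ∀ s ≤ sb, Spread ω s m 0 2)
    (hm : m ≤ T) (hK : K < Fintype.card α)
    (hflat : ∀ M, 1 ≤ M → M ≤ 2 * L ^ 120 * K → Flat ω M (M * T) (1 / (L : ℝ) ^ 151)) (j : ℕ) :
    j ≤ K → Spread ω j (L ^ 131 * T * (j + 1)) (Real.log ((j + 1 : ℕ) : ℝ) / (L : ℝ) ^ 7)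
      (16 * Real.exp (j / (8 * (L : ℝ) ^ 11))) := by
  have hl : (10:ℝ) ^ 6 ≤ L := by exact_mod_cast hL
  have l0 : (0:ℝ) < L := by linarith [show (0:ℝ) < 10 ^ 6 by norm_num]
  have l1 : (8:ℝ) ≤ L := by linarith [show (8:ℝ) ≤ 10 ^ 6 by norm_num]
  have L3 : 3 ≤ L := le_trans (by norm_num) hL
  have Lp : ∀ e : ℕ, 0 < L ^ e := fun e => pow_pos (by omega) e
  have hT : ∀ k : ℕ, m ≤ L ^ 131 * T * (k + 1) := fun k =>
    hm.trans ((Nat.le_mul_of_pos_left T (Lp 131)).trans (Nat.le_mul_of_pos_right _ k.succ_pos))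
  induction j using Nat.strong_induction_on with
  | _ j ih =>
  intro hjK
  rcases le_or_gt j sb with hj | hj
  · refine (hbase j hj).mono (hT j) ?_ ?_
    · exact div_nonneg (Real.log_natCast_nonneg _) (by positivity)
    · have : 1 ≤ Real.exp (j / (8 * (L : ℝ) ^ 11)) := Real.one_le_exp (by positivity)
      linarith
  obtain ⟨q, hq⟩ : ∃ q, q = j / L ^ 10 := ⟨_, rfl⟩
  obtain ⟨r, hr⟩ : ∃ r, r = j / L ^ 11 := ⟨_, rfl⟩
  obtain ⟨x, hx⟩ : ∃ x : ℝ, x = j / (L : ℝ) ^ 11 := ⟨_, rfl⟩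
  have j0 : (0:ℝ) < j := by exact_mod_cast (by omega : 0 < j)
  have x0 : 0 < x := by
    rw [hx]
    positivity
  have hx8 : j / (8 * (L : ℝ) ^ 11) = x / 8 := by
    rw [hx]
    field_simp
  have hx16 : j / (16 * (L : ℝ) ^ 11) = x / 16 := by
    rw [hx]
    field_simp
  have q1 : L ^ 10 * q ≤ j := by
    rw [hq]
    exact Nat.mul_div_le _ _
  have q2 : j < L ^ 10 * (q + 1) := by
    rw [hq]
    exact Nat.lt_mul_div_succ _ (Lp 10)
  have r1 : L ^ 11 * r ≤ j := by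
    rw [hr]
    exact Nat.mul_div_le _ _
  have r2 : j < L ^ 11 * (r + 1) := by
    rw [hr]
    exact Nat.lt_mul_div_succ _ (Lp 11)
  have q3 : q < j := by
    rw [hq]
    exact Nat.div_lt_self (by omega) (Nat.one_lt_pow (by norm_num) (by omega))
  have r3 : 3 * r ≤ q := by
    have e : r = q / L := by
      rw [hr, hq, Nat.div_div_eq_div_mul, ← pow_succ]
    calc 3 * r ≤ L * r := Nat.mul_le_mul_right r L3
      _ ≤ q := by
        rw [e]
        exact Nat.mul_div_le _ _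
  have rx1 : (r:ℝ) ≤ x := by
    rw [hx, le_div_iff₀ (by positivity), mul_comm]
    exact_mod_cast r1
  have rx2 : x ≤ r + 1 := by
    rw [hx, div_le_iff₀ (by positivity), mul_comm]
    exact_mod_cast r2.le
  obtain ⟨a, ha⟩ : ∃ a, j = a + (q + 1) := ⟨j - (q + 1), by omega⟩
  have ea : j - (q + 1) = a := by omega
  have h1 := ih a (by omega) (by omega)
  -- the second phase
  obtain ⟨cS, c0, hS, hc⟩ : ∃ cS : ℝ, 0 < cS ∧
      (∀ s' < max sb r, Spread ω s' (L ^ 131 * T * (q + 1)) (1 / (L : ℝ) ^ 18) cS) ∧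
      2 * cS * Real.exp (1 + x / 16) ≤ 16 * Real.exp (x / 8) := by
    rcases le_or_gt r sb with h | h
    · refine ⟨2, two_pos, fun s' hs' => ?_, ind_c1 x0.le⟩
      rw [max_eq_left h] at hs'
      exact (hbase s' hs'.le).mono (hT q) (by positivity) le_rfl
    · refine ⟨32 * Real.exp (r / (8 * (L : ℝ) ^ 11)), by positivity, fun s' hs' => ?_, ?_⟩
      · rw [max_eq_right h.le] at hs'
        have h2 : Spread ω s' (L ^ 131 * T * r) (1 / (L : ℝ) ^ 6)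
            (16 * Real.exp (r / (8 * (L : ℝ) ^ 11))) := by
          refine (ih s' (by omega) (by omega)).mono (Nat.mul_le_mul_left _ hs')
            (ind_div hl (ind_log hn (by omega))) ?_
          have : (s':ℝ) ≤ r := by exact_mod_cast hs'.le
          gcongr
        refine (ind_three hl (by positivity) h2).mono ?_ le_rfl (le_of_eq (by ring))
        rw [mul_left_comm]
        exact Nat.mul_le_mul_left _ (by omega)
      · have r4 : (100:ℝ) ≤ r := by exact_mod_cast (by omega : 100 ≤ r)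
        refine ind_c2 (r4.trans rx1) ?_
        have l2 : (8:ℝ) ≤ (L : ℝ) ^ 11 := l1.trans (le_self_pow₀ (by linarith) (by norm_num))
        rw [div_le_div_iff₀ (by positivity) (by norm_num)]
        nlinarith
  have hF : Flat ω (2 * L ^ 120 * j) (L ^ 131 * T * (q + 1)) (1 / (L : ℝ) ^ 151) := by
    intro Z hZ t' ht'
    refine hflat _ (Nat.mul_pos (Nat.mul_pos two_pos (Lp 120)) (by omega))
      (Nat.mul_le_mul_left _ hjK) Z hZ t' (le_trans ?_ ht')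
    calc 2 * L ^ 120 * j * T ≤ L * L ^ 120 * (L ^ 10 * (q + 1)) * T := by
          gcongr
          omega
      _ = L ^ 131 * T * (q + 1) := by ring
  have hM : max sb r + j * L ^ 120 ≤ 2 * L ^ 120 * j := by
    have a1 : max sb r ≤ j := max_le hj.le (by omega)
    have a2 : j ≤ j * L ^ 120 := Nat.le_mul_of_pos_right _ (Lp 120)
    calc max sb r + j * L ^ 120 ≤ j * L ^ 120 + j * L ^ 120 := by omega
      _ = 2 * L ^ 120 * j := by ring
  have one_le : ∀ e : ℕ, (1:ℝ) ≤ (L : ℝ) ^ e := fun e => one_le_pow₀ (by linarith)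
  have hΛ : 8 * (L : ℝ) ^ 21 * (L : ℝ) ^ 48 ≤ 1 / (L : ℝ) ^ 18 * (L : ℝ) ^ 88 := by
    calc 8 * (L : ℝ) ^ 21 * (L : ℝ) ^ 48 ≤ L * (L : ℝ) ^ 21 * (L : ℝ) ^ 48 := by gcongr
      _ = 1 / (L : ℝ) ^ 18 * (L : ℝ) ^ 88 := by field_simp
  have key := spread_step (ω := ω) (j := j) (d := q + 1) (s := max sb r) (sb := sb) (ρ := L ^ 120)
    (c2 := Real.exp (1 + x / 16)) (p0 := 1 / (L : ℝ) ^ 18) (Λ := (L : ℝ) ^ 88)
    (Λ1 := 8 * (L : ℝ) ^ 21) (B := (L : ℝ) ^ 48) (γ := (L : ℝ) ^ 5) hn2 (by omega) (by omega)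
    (ea ▸ h1) (by positivity) hS (by positivity) c0 hF (Lp 120) hM (by omega) (le_max_left _ _)
    (one_le 48) hB (by positivity) ((div_le_one (by positivity)).2 (one_le 18))
    (by linarith [one_le 21]) hΛ (one_le 5) (Real.exp_pos _)
    (by rw [Real.log_exp]; linarith)
  refine key.mono (le_of_eq ?_) ?_ ?_
  · rw [← mul_add]
    congr 1
    omega
  · have eg : (j:ℝ) * ((L : ℝ) ^ 5) ^ 2 / (8 * (L : ℝ) ^ 21) = x / 8 := by
      rw [hx]
      field_simp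
    have aj : (a:ℝ) ≤ j := by exact_mod_cast (by omega : a ≤ j)
    have e1 := ind_e1 (x := x) (y := a / (8 * (L : ℝ) ^ 11)) (s := max sb r) hl
      (hsb.trans (le_max_left _ _))
      (rx2.trans (by exact_mod_cast Nat.succ_le_succ (le_max_right sb r)))
      (by rw [← hx8]; gcongr)
    have e2 := ind_e2 (j := j) (sb := sb) (q := q) hl (by exact_mod_cast (by omega : 2 ≤ j))
      (Nat.cast_nonneg _) (by exact_mod_cast hsbL) (by exact_mod_cast q1)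
    have e5 := ind_e5 (j := j) hl j0 (ind_log hn le_rfl)
    have e6 := ind_gap (a := ((a + 1 : ℕ) : ℝ)) (d := ((q + 1 : ℕ) : ℝ)) hl (by positivity)
      (by positivity) (by exact_mod_cast (by omega : a + 1 + (q + 1) ≤ L ^ 10 * (q + 1)))
    have e7 : ((a + 1 : ℕ) : ℝ) + ((q + 1 : ℕ) : ℝ) = ((j + 1 : ℕ) : ℝ) := by
      exact_mod_cast (by omega : a + 1 + (q + 1) = j + 1)
    have e8 : 9 / (L : ℝ) ^ 18 = 9 * (1 / (L : ℝ) ^ 18) := by ring
    have e9 : 4 / (L : ℝ) ^ 18 = 4 * (1 / (L : ℝ) ^ 18) := by ring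
    rw [e7] at e6
    rw [hx16] at e5
    rw [eg, Real.log_exp, Nat.cast_pow, ea]
    linarith
  · rw [hx8]
    exact hc

theorem spread_all {L sb m T K : ℕ} (hL : 10 ^ 6 ≤ L) (hn2 : 2 ≤ Fintype.card α)
    (hn : Fintype.card α < 2 ^ L) (hsb : 100 ≤ sb) (hsbL : sb ≤ L)
    (hB : (Fintype.card α : ℝ) ^ 2 ≤ ((L : ℝ) ^ 48) ^ sb) (hbase : ∀ s ≤ sb, Spread ω s m 0 2)
    (hm : m ≤ T) (hK : K < Fintype.card α)
    (hflat : ∀ M, 1 ≤ M → M ≤ 2 * L ^ 120 * K → Flat ω M (M * T) (1 / (L : ℝ) ^ 151)) :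
    ∀ j ≤ K, Spread ω j (L ^ 131 * T * (j + 1)) (1 / 2)
      (16 * Real.exp (j / (8 * (L : ℝ) ^ 11))) := by
  intro j hj
  have hl : (10:ℝ) ^ 6 ≤ L := by exact_mod_cast hL
  exact (ind_main hL hn2 hn hsb hsbL hB hbase hm hK hflat j hj).mono le_rfl
    ((ind_div hl (ind_log hn (by omega))).trans (ind_half hl)) le_rfl

end Pool.Agent.Lib.MP_8a89f5_al
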