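import Pool.Agent.Lib.MP_8a89f5_al.Q2Ent

/-!
If words of one cell are far apart, the image of an average point is almost uniform given the
images of any small set.
-/

namespace Pool.Agent.Lib.MP_8a89f5_al

open Finset Equiv

variable {α : Type} [Fintype α] [DecidableEq α]

/-- Mass of the preimage of `v` on the rows whose marked set contains the preimage of `v'`. -/
noncomputable def inv_f (Q I : α → α → ℝ) (p : Perm α) (v v' : α) : ℝ :=
  ∑ b, Q b (p⁻¹ v) * I b (p⁻¹ v')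

omit [DecidableEq α] in
theorem inv_f_nonneg {Q I : α → α → ℝ} (hQ : ∀ b w, 0 ≤ Q b w) (hI : ∀ b w, 0 ≤ I b w)
    (p : Perm α) (v v' : α) : 0 ≤ inv_f Q I p v v' :=
  sum_nonneg fun _ _ => mul_nonneg (hQ _ _) (hI _ _)

omit [DecidableEq α] in
theorem inv_f_le {Q I : α → α → ℝ} (hQ : ∀ b w, 0 ≤ Q b w) (hc : ∀ w, ∑ b, Q b w = 1)
    (hI : ∀ b w, I b w ≤ 1) (p : Perm α) (v v' : α) : inv_f Q I p v v' ≤ 1 := by
  rw [← hc (p⁻¹ v)]
  exact sum_le_sum fun b _ => mul_le_of_le_one_right (hQ _ _) (hI _ _)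

omit [DecidableEq α] in
theorem inv_abs (A B J : α → ℝ) (h0 : ∀ w, 0 ≤ J w) (h1 : ∀ w, J w ≤ 1) :
    |∑ w, A w * J w - ∑ w, B w * J w| ≤ ∑ w, |A w - B w| := by
  rw [← sum_sub_distrib]
  refine (abs_sum_le_sum_abs _ _).trans (sum_le_sum fun w _ => ?_)
  rw [← sub_mul, abs_mul, abs_of_nonneg (h0 w)]
  exact mul_le_of_le_one_right (abs_nonneg _) (h1 w)

omit [DecidableEq α] in
theorem inv_shift (Q Q' I : α → α → ℝ) (h0 : ∀ b w, 0 ≤ I b w) (h1 : ∀ b w, I b w ≤ 1)
    (p g1 g2 : Perm α) :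
    ∑ v, (inv_f Q I p v v - inv_f Q I p v ((g2⁻¹ * g1) v)) ≤
      ∑ b, ∑ w, |Q b w - Q' b ((g1 * p) w)| + ∑ b, ∑ w, |Q b w - Q' b ((g2 * p) w)| := by
  simp only [inv_f, ← sum_sub_distrib]
  rw [sum_comm, ← sum_add_distrib]
  refine sum_le_sum fun b _ => ?_
  have e1 : ∑ v, Q b (p⁻¹ v) * I b (p⁻¹ v) = ∑ w, Q b w * I b w :=
    Equiv.sum_comp p⁻¹ fun w => Q b w * I b w
  have e2 : ∑ v, Q b (p⁻¹ v) * I b (p⁻¹ ((g2⁻¹ * g1) v)) =
      ∑ w, Q b w * I b ((p⁻¹ * (g2⁻¹ * g1) * p) w) := by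
    rw [← Equiv.sum_comp p]
    simp
  have e3 : ∑ w, Q' b ((g2 * p) w) * I b w =
      ∑ w, Q' b ((g1 * p) w) * I b ((p⁻¹ * (g2⁻¹ * g1) * p) w) := by
    rw [← Equiv.sum_comp (p⁻¹ * (g2⁻¹ * g1) * p)]
    simp
  have a1 := inv_abs (Q b) (fun w => Q' b ((g2 * p) w)) (I b) (h0 b) (h1 b)
  have a2 := inv_abs (Q b) (fun w => Q' b ((g1 * p) w))
    (fun w => I b ((p⁻¹ * (g2⁻¹ * g1) * p) w)) (fun _ => h0 _ _) (fun _ => h1 _ _)
  rw [sum_sub_distrib, e1, e2]
  rw [e3] at a1
  linarith [(abs_le.1 a1).2, (abs_le.1 a2).1]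

omit [DecidableEq α] in
theorem inv_expand (p : Perm α) (v : α) (F : α → ℝ) :
    F (p⁻¹ v) = ∑ w, ind (p w = v) * F w := by
  rw [← sum_ind_eq (p⁻¹ v) F]
  refine sum_congr rfl fun w _ => ?_
  rw [ind_congr (show p⁻¹ v = w ↔ p w = v from Perm.inv_eq_iff_eq.trans eq_comm)]

omit [DecidableEq α] in
theorem inv_diag {U : Type} [Fintype U] (u : U → Perm α) {Q I : α → α → ℝ}
    (hQ : ∀ b w, 0 ≤ Q b w) (hI : ∀ b w, 0 ≤ I b w) {c : ℝ}
    (m1 : ∀ v w : α, c ≤ av fun y => ind (u y v = w)) (v : α) :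
    c * ∑ b, ∑ w, Q b w * I b w ≤ av fun y => inv_f Q I (u y) v v := by
  have e : ∀ y, inv_f Q I (u y) v v = ∑ w, ind (u y w = v) * ∑ b, Q b w * I b w := fun y =>
    inv_expand (u y) v fun w => ∑ b, Q b w * I b w
  simp only [e]
  rw [av_sum, sum_comm, mul_sum]
  refine sum_le_sum fun w _ => ?_
  rw [av_mul_right]
  exact mul_le_mul_of_nonneg_right (m1 w v) (sum_nonneg fun _ _ => mul_nonneg (hQ _ _) (hI _ _))

omit [DecidableEq α] in
theorem inv_off {U : Type} [Fintype U] (u : U → Perm α) {Q I : α → α → ℝ}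
    (hQ : ∀ b w, 0 ≤ Q b w) (hr : ∀ b, ∑ w, Q b w = 1) (hI : ∀ b w, 0 ≤ I b w) {c : ℝ}
    (hc : 0 ≤ c)
    (m2 : ∀ v v' w w' : α, v ≠ v' → av (fun y => ind (u y v = w ∧ u y v' = w')) ≤ c)
    {v v' : α} (hv : v ≠ v') :
    (av fun y => inv_f Q I (u y) v v') ≤ c * ∑ b, ∑ w, I b w := by
  have e : ∀ y, inv_f Q I (u y) v v' =
      ∑ w, ∑ w', ind (u y w = v ∧ u y w' = v') * ∑ b, Q b w * I b w' := fun y => by
    unfold inv_f
    rw [inv_expand (u y) v fun w => ∑ b, Q b w * I b ((u y)⁻¹ v')]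
    refine sum_congr rfl fun w _ => ?_
    rw [inv_expand (u y) v' fun w' => ∑ b, Q b w * I b w', mul_sum]
    refine sum_congr rfl fun w' _ => ?_
    rw [ind_and, mul_assoc]
  have e2 : ∑ b, ∑ w, I b w = ∑ w, ∑ w', ∑ b, Q b w * I b w' := by
    rw [sum_comm (f := fun w w' => ∑ b, Q b w * I b w'), sum_comm]
    refine sum_congr rfl fun w' _ => ?_
    rw [sum_comm]
    refine sum_congr rfl fun b _ => ?_
    rw [← sum_mul, hr, one_mul]
  simp only [e]
  rw [av_sum, e2, mul_sum]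
  refine sum_le_sum fun w _ => ?_
  rw [av_sum, mul_sum]
  refine sum_le_sum fun w' _ => ?_
  rw [av_mul_right]
  refine mul_le_mul_of_nonneg_right ?_ (sum_nonneg fun _ _ => mul_nonneg (hQ _ _) (hI _ _))
  by_cases hw : w = w'
  · refine av_le_const hc fun y => ?_
    rw [ind_neg]
    · exact hc
    · rintro ⟨h1, h2⟩
      exact hv (by rw [← h1, ← h2, hw])
  · exact m2 w w' v v' hw

theorem inv_alg {n ζ A B : ℝ} (hn : 2 ≤ n) (hζ : 0 ≤ ζ) (hA : A ≤ n) (hB : B ≤ n * n) :
    (A - B / n) / n - 3 * ζ - 2 / n ≤ (1 - ζ) / n * A - (1 + ζ) / (n * (n - 1)) * B := by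
  have h0 : 0 < n := by linarith
  have h1 : 0 < n - 1 := by linarith
  have e1 : (1 + ζ) / (n * (n - 1)) * B = B / n / n + (1 + ζ * n) / (n - 1) * (B / (n * n)) := by
    field_simp
    ring
  have e2 : (1 - ζ) / n * A = A / n - ζ * (A / n) := by ring
  have b1 : A / n ≤ 1 := (div_le_one h0).2 hA
  have b2 : B / (n * n) ≤ 1 := (div_le_one (by positivity)).2 hB
  have b3 : (1 + ζ * n) / (n - 1) ≤ 2 / n + 2 * ζ := by
    rw [div_le_iff₀ h1]
    have : 1 ≤ 2 / n * (n - 1) := by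
      rw [div_mul_eq_mul_div, le_div_iff₀ h0]
      linarith
    nlinarith [mul_nonneg hζ (show 0 ≤ n - 2 by linarith)]
  have b4 : (1 + ζ * n) / (n - 1) * (B / (n * n)) ≤ 2 / n + 2 * ζ :=
    (mul_le_of_le_one_right (by positivity) b2).trans b3
  rw [e1, e2, sub_div]
  nlinarith [mul_le_mul_of_nonneg_left b1 hζ]

omit [DecidableEq α] in
/-- The mean gap between a diagonal and an off diagonal value. -/
theorem inv_mean {U : Type} [Fintype U] (u : U → Perm α) {Q I : α → α → ℝ} {ζ : ℝ}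
    (hn : 2 ≤ Fintype.card α) (hζ : 0 ≤ ζ)
    (hQ : ∀ b w, 0 ≤ Q b w) (hr : ∀ b, ∑ w, Q b w = 1) (h0 : ∀ b w, 0 ≤ I b w)
    (h1 : ∀ b w, I b w ≤ 1)
    (m1 : ∀ v w : α, 1 - ζ ≤ Fintype.card α * av fun y => ind (u y v = w))
    (m2 : ∀ v v' w w' : α, v ≠ v' → Fintype.card α * ((Fintype.card α : ℝ) - 1) *
      av (fun y => ind (u y v = w ∧ u y v' = w')) ≤ 1 + ζ) {v v' : α} (hv : v ≠ v') :
    av (fun b => ∑ w, I b w * (Q b w - 1 / Fintype.card α)) - 3 * ζ - 2 / Fintype.card α ≤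
      av fun y => inv_f Q I (u y) v v - inv_f Q I (u y) v v' := by
  have hn' : (2 : ℝ) ≤ Fintype.card α := by exact_mod_cast hn
  have p0 : (0 : ℝ) < Fintype.card α := by linarith
  have p1 : (0 : ℝ) < Fintype.card α * ((Fintype.card α : ℝ) - 1) :=
    mul_pos p0 (by linarith)
  have d1 := inv_diag u hQ h0 (c := (1 - ζ) / Fintype.card α)
    (fun v w => by rw [div_le_iff₀ p0, mul_comm]; exact m1 v w) v
  have d2 := inv_off u hQ hr h0
    (c := (1 + ζ) / (Fintype.card α * ((Fintype.card α : ℝ) - 1))) (by positivity)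
    (fun a a' w w' h => by rw [le_div_iff₀ p1, mul_comm]; exact m2 a a' w w' h) hv
  have hA : ∑ b, ∑ w, Q b w * I b w ≤ Fintype.card α := by
    calc ∑ b, ∑ w, Q b w * I b w ≤ ∑ _b : α, (1 : ℝ) := sum_le_sum fun b _ => by
          rw [← hr b]
          exact sum_le_sum fun w _ => mul_le_of_le_one_right (hQ _ _) (h1 _ _)
      _ = _ := by simp
  have hB : ∑ b, ∑ w, I b w ≤ Fintype.card α * Fintype.card α := by
    calc ∑ b, ∑ w, I b w ≤ ∑ _b : α, ∑ _w : α, (1 : ℝ) :=
          sum_le_sum fun b _ => sum_le_sum fun w _ => h1 _ _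
      _ = _ := by simp
  have e : av (fun b => ∑ w, I b w * (Q b w - 1 / Fintype.card α)) =
      (∑ b, ∑ w, Q b w * I b w - (∑ b, ∑ w, I b w) / Fintype.card α) / Fintype.card α := by
    unfold av
    congr 1
    rw [sum_div, ← sum_sub_distrib]
    refine sum_congr rfl fun b _ => ?_
    rw [sum_div, ← sum_sub_distrib]
    exact sum_congr rfl fun w _ => by ring
  rw [av_sub, e]
  linarith [inv_alg hn' hζ hA hB]

omit [DecidableEq α] in
/-- Lower bound for one family of functions and one partition into cells. -/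
theorem inv_low {W β : Type} [Fintype W] [Nonempty W] {k : ℕ} (g : W → Perm α) (c : W → β)
    (f : Fin k → α → α → ℝ) (f0 : ∀ i v v', 0 ≤ f i v v') (f1 : ∀ i v v', f i v v' ≤ 1)
    {a m : ℝ} (ha : 0 < a) (ha1 : a ≤ 1) (m0 : 0 ≤ m) (m1 : m ≤ 1)
    (far : a * Fintype.card α / 2 ≤ av fun x => cnd c x fun y => ∑ v, ind (g x v ≠ g y v)) :
    k * Fintype.card α * (m * a / 2 - 2 * ∑ v, ∑ v',
        ind (v ≠ v' ∧ ∑ i, (f i v v - f i v v') < k * m)) ≤
      av fun x => cnd c x fun y => ∑ i, ∑ v, (f i v v - f i v (((g y)⁻¹ * g x) v)) := by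
  have hkn : (0 : ℝ) ≤ k * Fintype.card α := by positivity
  by_cases hb : ∃ v v', v ≠ v' ∧ ∑ i, (f i v v - f i v v') < k * m
  · obtain ⟨v, v', hb⟩ := hb
    have h1 : (1 : ℝ) ≤ ∑ v, ∑ v', ind (v ≠ v' ∧ ∑ i, (f i v v - f i v v') < k * m) := by
      calc (1 : ℝ) = ind (v ≠ v' ∧ ∑ i, (f i v v - f i v v') < k * m) := (ind_pos hb).symm
        _ ≤ ∑ v', ind (v ≠ v' ∧ ∑ i, (f i v v - f i v v') < k * m) :=
          single_le_sum (f := fun v' => ind (v ≠ v' ∧ ∑ i, (f i v v - f i v v') < k * m))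
            (fun _ _ => ind_nonneg _) (mem_univ v')
        _ ≤ _ := single_le_sum
            (f := fun v => ∑ v', ind (v ≠ v' ∧ ∑ i, (f i v v - f i v v') < k * m))
            (fun _ _ => sum_nonneg fun _ _ => ind_nonneg _) (mem_univ v)
    have h2 : m * a ≤ 1 := mul_le_one₀ m1 ha.le ha1
    refine le_trans (b := (k * Fintype.card α * (-1) : ℝ))
      (mul_le_mul_of_nonneg_left (by linarith) hkn) (le_av_const fun x => ?_)
    rw [← cnd_const c x (k * Fintype.card α * (-1) : ℝ)]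
    refine cnd_mono c x fun y _ => ?_
    calc (k * Fintype.card α * (-1) : ℝ) = ∑ _i : Fin k, ∑ _v : α, (-1 : ℝ) := by simp
      _ ≤ _ := sum_le_sum fun i _ => sum_le_sum fun v _ => by
          linarith [f0 i v v, f1 i v (((g y)⁻¹ * g x) v)]
  · push Not at hb
    have h1 : (0 : ℝ) ≤ ∑ v, ∑ v', ind (v ≠ v' ∧ ∑ i, (f i v v - f i v v') < k * m) :=
      sum_nonneg fun _ _ => sum_nonneg fun _ _ => ind_nonneg _
    have hkm : (0 : ℝ) ≤ k * m := by positivity
    calc _ ≤ k * Fintype.card α * (m * a / 2) := mul_le_mul_of_nonneg_left (by linarith) hkn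
      _ = k * m * (a * Fintype.card α / 2) := by ring
      _ ≤ k * m * av fun x => cnd c x fun y => ∑ v, ind (g x v ≠ g y v) :=
        mul_le_mul_of_nonneg_left far hkm
      _ = av fun x => cnd c x fun y => k * m * ∑ v, ind (g x v ≠ g y v) := by
        rw [← av_mul_left]
        simp only [cnd_mul_left]
      _ ≤ _ := by
        refine av_mono fun x => cnd_mono c x fun y _ => ?_
        rw [sum_comm, mul_sum]
        refine sum_le_sum fun v _ => ?_
        by_cases hv : g x v = g y v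
        · have : ((g y)⁻¹ * g x) v = v := by simp [hv]
          rw [this, ind_neg (not_not.2 hv)]
          simp
        · rw [ind_pos hv, mul_one]
          refine hb v _ fun e => hv ?_
          conv_rhs => rw [e]
          simp

omit [DecidableEq α] in
/-- Upper bound for one family of copies. -/
theorem inv_up {W β : Type} [Fintype W] {k : ℕ} (c : W → β) (S : Fin k → W → W → ℝ)
    (E : Fin k → W → ℝ) (h : ∀ i x y, c y = c x → S i x y ≤ E i x + E i y) :
    (av fun x => cnd c x fun y => ∑ i, S i x y) ≤ 2 * ∑ i, av (E i) := by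
  calc _ ≤ av fun x => cnd c x fun y => ∑ i, E i x + ∑ i, E i y := by
        refine av_mono fun x => cnd_mono c x fun y hy => ?_
        rw [← sum_add_distrib]
        exact sum_le_sum fun i _ => h i x y hy
    _ = _ := by
        simp only [cnd_add, cnd_const]
        rw [av_add, av_cnd, av_sum]
        ring

theorem inv_round {Ω U W : Type} [Fintype Ω] [Nonempty Ω] [Fintype U] [Nonempty U] [Fintype W]
    [Nonempty W] (G : Ω → Perm α) (u : U → Perm α) (g : W → Perm α) (Z : Finset α)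
    {ζ a Δ s ε : ℝ} {k : ℕ} (hn : 2 ≤ Fintype.card α) (hk : 0 < k) (hζ : 0 ≤ ζ) (ha : 0 < a)
    (ha1 : a ≤ 1) (hΔ : 0 ≤ Δ) (hΔ1 : Δ ≤ 1) (hs : 0 < s)
    (m1 : ∀ v w : α, 1 - ζ ≤ Fintype.card α * av fun y => ind (u y v = w))
    (m2 : ∀ v v' w w' : α, v ≠ v' → Fintype.card α * ((Fintype.card α : ℝ) - 1) *
      av (fun y => ind (u y v = w ∧ u y v' = w')) ≤ 1 + ζ)
    (far : ∀ c : W → Fin k → Z → α, a * Fintype.card α / 2 ≤
      av fun x => cnd c x fun y => ∑ v, ind (g x v ≠ g y v))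
    (hε : av (fun b => dfc G Z b -
      dfc (fun z : Ω × U × W => (g z.2.2 * u z.2.1) * G z.1) Z b) ≤ ε) :
    av (fun b => dfc G Z b) ≤ (Real.log (Fintype.card α) + 1) *
      (3 * ζ + 2 / Fintype.card α + Δ + 2 / a * (ε / s + 4 * s +
        2 * (Fintype.card α : ℝ) ^ 2 * Real.exp (-(k * Δ ^ 2) / 4))) := by
  have hn' : (2 : ℝ) ≤ Fintype.card α := by exact_mod_cast hn
  have p0 : (0 : ℝ) < Fintype.card α := by linarith
  have : Nonempty α := Fintype.card_pos_iff.1 (by omega)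
  have hk' : (0 : ℝ) < k := by exact_mod_cast hk
  set G' : Ω × U × W → Perm α := fun z => (g z.2.2 * u z.2.1) * G z.1 with hG'
  let I : Ω → α → α → ℝ := fun x b w => ind (1 < Fintype.card α * ker G Z x b w)
  have I0 : ∀ x b w, 0 ≤ I x b w := fun _ _ _ => ind_nonneg _
  have I1 : ∀ x b w, I x b w ≤ 1 := fun _ _ _ => ind_le_one _
  let f : Ω × U → α → α → ℝ := fun z => inv_f (ker G Z z.1) (I z.1) (u z.2)
  have f0 : ∀ z v v', 0 ≤ f z v v' := fun z => inv_f_nonneg (ker_nonneg G Z z.1) (I0 z.1) _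
  have f1 : ∀ z v v', f z v v' ≤ 1 := fun z =>
    inv_f_le (ker_nonneg G Z z.1) (ker_col G Z z.1) (I1 z.1) _
  let D : ℝ := av fun x => av fun b => ∑ w, I x b w * (ker G Z x b w - 1 / Fintype.card α)
  have hL : 0 ≤ Real.log (Fintype.card α) + 1 := by
    have := Real.log_nonneg (show (1 : ℝ) ≤ Fintype.card α by linarith)
    linarith
  have hD : av (fun b => dfc G Z b) ≤ (Real.log (Fintype.card α) + 1) * D := by
    refine (av_mono fun b => dfc_le_tv G Z b).trans (le_of_eq ?_)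
    rw [av_mul_left]
    congr 1
    exact av_comm fun b x => ∑ w, I x b w * (ker G Z x b w - 1 / Fintype.card α)
  have hD1 : D ≤ 1 := av_le_const' fun x => av_le_const' fun b => by
    rw [← ker_row G Z x b]
    refine sum_le_sum fun w _ => ?_
    have h1 := mul_le_of_le_one_left (ker_nonneg G Z x b w) (I1 x b w)
    have h2 : 0 ≤ I x b w * (1 / Fintype.card α) := mul_nonneg (I0 x b w) (by positivity)
    rw [ker_row G Z x b]
    linarith [mul_sub (I x b w) (ker G Z x b w) (1 / Fintype.card α)]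
  have hε0 : 0 ≤ ε := le_trans (av_nonneg fun b => sub_nonneg.2
    (dfc_anti G (fun y : U × W => g y.2 * u y.1) Z b)) hε
  refine hD.trans (mul_le_mul_of_nonneg_left ?_ hL)
  set e : ℝ := Real.exp (-(k * Δ ^ 2) / 4) with he
  have e0 : 0 < e := Real.exp_pos _
  set m : ℝ := D - 3 * ζ - 2 / Fintype.card α - Δ with hm
  have q0 : (0 : ℝ) ≤ 2 / Fintype.card α := by positivity
  suffices h : m ≤ 2 / a * (ε / s + 4 * s + 2 * (Fintype.card α : ℝ) ^ 2 * e) by linarith
  rcases le_or_gt m 0 with m0 | m0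
  · exact m0.trans (by positivity)
  have m1' : m ≤ 1 := by linarith
  -- the mean gap
  have hmean : ∀ v v', v ≠ v' → D - 3 * ζ - 2 / Fintype.card α ≤
      av fun z : Ω × U => f z v v - f z v v' := fun v v' hv => by
    rw [av_prod]
    refine le_trans (le_of_eq ?_) (av_mono fun x => inv_mean u hn hζ (ker_nonneg G Z x)
      (ker_row G Z x) (I0 x) (I1 x) m1 m2 hv)
    rw [av_sub, av_sub, av_const, av_const]
  have hbad : ∀ v v', (av fun z : Fin k → Ω × U =>
      ind (v ≠ v' ∧ ∑ i, (f (z i) v v - f (z i) v v') < k * m)) ≤ e := fun v v' => by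
    by_cases hv : v = v'
    · exact av_le_const e0.le fun z => by
        rw [ind_neg fun h => h.1 hv]
        exact e0.le
    · refine (av_mono fun z => ind_mono fun h => h.2).trans
        (hoeffding (fun z : Ω × U => f z v v - f z v v') (fun z => ?_) (hmean v v' hv) hΔ hΔ1 k)
      rw [abs_le]
      constructor <;> linarith [f0 z v v, f1 z v v, f0 z v v', f1 z v v']
  -- the error of one copy
  let E : Ω × U → W → ℝ := fun z x =>
    ∑ b, ∑ w, |ker G Z z.1 b w - ker G' Z (z.1, z.2, x) b ((g x * u z.2) w)|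
  have hE : (av fun z => av (E z)) ≤ Fintype.card α * (ε / (2 * s) + 2 * s) := by
    have e1 : (av fun z => av (E z)) = ∑ b, av fun z : Ω × U × W =>
        ∑ w, |ker G Z z.1 b w - ker G' Z z b ((g z.2.2 * u z.2.1) w)| := by
      rw [← av_sum, av_prod, av_prod]
      congr 1
      funext x
      rw [av_prod]
    have e2 : ∀ F : α → ℝ, ∑ b, F b = Fintype.card α * av F := fun F => by
      unfold av
      field_simp
    rw [e1, e2]
    refine mul_le_mul_of_nonneg_left ?_ p0.le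
    refine (av_mono fun b => dfc_time G (fun y : U × W => g y.2 * u y.1) Z b hs).trans ?_
    rw [av_add, av_div, av_const]
    have := div_le_div_of_nonneg_right hε (show 0 ≤ 2 * s by positivity)
    linarith
  let c : (Fin k → Ω × U) → W → Fin k → Z → α := fun z x i => res Z (G' ((z i).1, (z i).2, x))
  have hup : ∀ z : Fin k → Ω × U, (av fun x => cnd (c z) x fun y =>
      ∑ i, ∑ v, (f (z i) v v - f (z i) v (((g y)⁻¹ * g x) v))) ≤ 2 * ∑ i, av (E (z i)) := by
    intro z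
    refine inv_up (c z) (fun i x y => ∑ v, (f (z i) v v - f (z i) v (((g y)⁻¹ * g x) v)))
      (fun i => E (z i)) fun i x y hy => ?_
    have h1 : ker G' Z ((z i).1, (z i).2, y) = ker G' Z ((z i).1, (z i).2, x) :=
      ker_congr G' Z (res_eq_iff.1 (congrFun hy i))
    have h2 := inv_shift (ker G Z (z i).1) (ker G' Z ((z i).1, (z i).2, x)) (I (z i).1)
      (I0 _) (I1 _) (u (z i).2) (g x) (g y)
    simp only [E, h1]
    exact h2
  have hmain := av_mono fun z : Fin k → Ω × U => (inv_low g (c z) (fun i => f (z i))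
    (fun i => f0 _) (fun i => f1 _) ha ha1 m0.le m1' (far (c z))).trans (hup z)
  rw [av_mul_left, av_mul_left, av_sub, av_const, av_mul_left, av_sum, av_sum] at hmain
  have b1 : ∑ v, (av fun z : Fin k → Ω × U => ∑ v',
      ind (v ≠ v' ∧ ∑ i, (f (z i) v v - f (z i) v v') < k * m)) ≤
        (Fintype.card α : ℝ) ^ 2 * e := by
    calc _ ≤ ∑ _v : α, ∑ _v' : α, e := sum_le_sum fun v _ => by
          rw [av_sum]
          exact sum_le_sum fun v' _ => hbad v v'
      _ = _ := by simp; ring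
  have b2 : ∑ i : Fin k, (av fun z : Fin k → Ω × U => av (E (z i))) ≤
      k * (Fintype.card α * (ε / (2 * s) + 2 * s)) := by
    calc _ ≤ ∑ _i : Fin k, Fintype.card α * (ε / (2 * s) + 2 * s) := sum_le_sum fun i _ => by
          rw [av_eval i fun z => av (E z)]
          exact hE
      _ = _ := by simp
  have hkn : (0 : ℝ) < k * Fintype.card α := by positivity
  have b3 : k * Fintype.card α * (m * a / 2 - 2 * ((Fintype.card α : ℝ) ^ 2 * e)) ≤
      k * Fintype.card α * (ε / s + 4 * s) := by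
    have e3 : k * Fintype.card α * (ε / s + 4 * s) =
        2 * (k * (Fintype.card α * (ε / (2 * s) + 2 * s))) := by
      field_simp
      ring
    rw [e3]
    refine le_trans (mul_le_mul_of_nonneg_left (by linarith) hkn.le) (hmain.trans (by linarith))
  have b4 := le_of_mul_le_mul_left b3 hkn
  rw [div_mul_eq_mul_div, le_div_iff₀ ha]
  linarith

end Pool.Agent.Lib.MP_8a89f5_al
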