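import Pool.Agent.Lib.MP_8a89f5_al.Q2Defs
import Pool.Agent.Lib.MP_8a89f5_al.Asym

/-!
Growth of the binary length.
-/

namespace Pool.Agent.Lib.MP_8a89f5_al

open Finset Equiv Filter Topology

theorem lt_two_pow_lg (n : ℕ) : n < 2 ^ lg n := Nat.lt_pow_succ_log_self one_lt_two n

theorem ev_lg_ge (C : ℕ) : ∀ᶠ n : ℕ in atTop, C ≤ lg n := by
  filter_upwards [eventually_ge_atTop (2 ^ C)] with n hn
  exact ((Nat.pow_lt_pow_iff_right one_lt_two).1 (hn.trans_lt (lt_two_pow_lg n))).le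

theorem ord_lg : Ord (fun n => (lg n : ℝ)) 0 := by simpa [lg] using Ord.log

theorem ev_lg_pow_le (e : ℕ) : ∀ᶠ n : ℕ in atTop, lg n ^ e ≤ n := by
  filter_upwards [(ord_lg.pow e).ev_le_id (by simp)] with n hn
  exact_mod_cast hn

theorem ev_lg_le_log : ∀ᶠ n : ℕ in atTop, (lg n : ℝ) ≤ Real.log n ^ 2 := by
  filter_upwards [(Real.tendsto_log_atTop.comp tendsto_natCast_atTop_atTop).eventually_ge_atTop 3,
    eventually_ge_atTop 1] with n h1 h2
  simp only [Function.comp_apply] at h1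
  have h3 : ((2 : ℝ) ^ Nat.log 2 n) ≤ n := by exact_mod_cast Nat.pow_log_le_self 2 (by omega)
  have h4 := Real.log_le_log (by positivity) h3
  rw [Real.log_pow] at h4
  have h5 := Real.log_two_gt_d9
  have h6 : (0 : ℝ) ≤ Nat.log 2 n := Nat.cast_nonneg _
  simp only [lg]
  push_cast
  nlinarith

end Pool.Agent.Lib.MP_8a89f5_al
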