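import Pool.Agent.Lib.MP_8a89f5_al.Q2Lg
import Pool.Agent.Lib.MP_8a89f5_al.Mix

/-!
Mixing in polylogarithmic time.
-/

namespace Pool.Agent.Lib.MP_8a89f5_al

open Finset Equiv Filter Topology

theorem qm_tp_mix {G X : Type*} [Group G] [MulAction G X] [Fintype X] (ω : Bool → G) (r k : ℕ)
    (h : ∑ a : X, ∑ b, tp ω r a b ^ 2 ≤ 1 + 1 / 4) {ζ : ℝ}
    (hk : (Fintype.card X : ℝ) ≤ ζ * 2 ^ k) (r' : ℕ) (hr : k * r ≤ r') (a b : X) :
    |(Fintype.card X : ℝ) * tp ω r' a b - 1| ≤ ζ := by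
  have : Nonempty X := ⟨b⟩
  have hN : (0 : ℝ) < Fintype.card X := by exact_mod_cast Fintype.card_pos
  have h1 : ∀ c, |(Fintype.card X : ℝ) * tp ω (k * r) c b - 1| ≤ ζ := by
    intro c
    have h2 : (tp ω (k * r) c b - 1 / Fintype.card X) ^ 2 ≤ (1 / 2 ^ k) ^ 2 := by
      refine (single_le_sum (f := fun c => (tp ω (k * r) c b - 1 / Fintype.card X) ^ 2)
        (fun _ _ => sq_nonneg _) (mem_univ c)).trans ((tp_pow_bound ω r h b k).trans (le_of_eq ?_))
      rw [← one_div_pow, ← pow_mul, mul_comm k 2, pow_mul]; norm_num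
    have h3 := sq_le_sq.1 h2
    have e : (Fintype.card X : ℝ) * tp ω (k * r) c b - 1 =
        Fintype.card X * (tp ω (k * r) c b - 1 / Fintype.card X) := by field_simp
    rw [e, abs_mul, abs_of_pos hN]
    rw [abs_of_pos (a := 1 / (2 : ℝ) ^ k) (by positivity)] at h3
    calc _ ≤ (Fintype.card X : ℝ) * (1 / 2 ^ k) := mul_le_mul_of_nonneg_left h3 hN.le
      _ ≤ _ := by rw [mul_one_div, div_le_iff₀ (by positivity)]; exact hk
  obtain ⟨d, rfl⟩ := Nat.exists_eq_add_of_le' hr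
  have e : (Fintype.card X : ℝ) * tp ω (d + k * r) a b - 1 =
      Ex d fun l => (Fintype.card X : ℝ) * tp ω (k * r) (ev ω l • a) b - 1 := by
    rw [Ex_sub, Ex_mul_left, Ex_const, Ex_smul ω d a fun c => tp ω (k * r) c b, tp_add]
  rw [e, abs_le]
  exact ⟨le_Ex_const _ fun l _ => (abs_le.1 (h1 _)).1, Ex_le_const _ fun l _ => (abs_le.1 (h1 _)).2⟩

/-- The trace bound holds for `t`-tuples and words of length `r`. -/
def qmGood {α : Type} [Fintype α] [DecidableEq α] (ω : Bool → Perm α) (t r : ℕ) : Prop :=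
  ∑ a : Fin t ↪ α, ∑ b, tp ω r a b ^ 2 ≤ 1 + 1 / 4

theorem qm_fail {α : Type} [Fintype α] [DecidableEq α] {t r : ℕ}
    (hT : 2 * t * r < Fintype.card α) (ht : t ≤ Fintype.card α) :
    av (fun ω : Bool → Perm α => ind (¬qmGood ω t r)) ≤
      4 * ((Fintype.card α : ℝ) ^ t * (1 / 2 ^ r + ((1 / ((Fintype.card α : ℝ) - 2 * t * r)) ^ t +
        ((2 * t * r : ℝ) * (2 * t * (r + 1)) / ((Fintype.card α : ℝ) - 2 * t * r)) ^ (t + 1)))
          - 1) := by
  have hc : Fintype.card (Fin t ↪ α) = (Fintype.card α).descFactorial t := by simp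
  have hc' : Fintype.card (Fin t ↪ α) ≤ Fintype.card α ^ t := hc ▸ Nat.descFactorial_le_pow _ _
  have : Nonempty (Fin t ↪ α) := Function.Embedding.nonempty_of_card_le (by simpa using ht)
  have h1 := av_markov (f := fun ω : Bool → Perm α => ∑ a : Fin t ↪ α, ∑ b, tp ω r a b ^ 2 - 1)
    (fun ω => sub_nonneg.2 (one_le_hs ω r)) (c := 1 / 4) (by norm_num)
  rw [av_sub, av_const] at h1
  have h2 := hs_bound hT
  have hR' : ((2 * t * r : ℕ) : ℝ) < Fintype.card α := by exact_mod_cast hT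
  push_cast at hR'
  have h3 := mul_le_mul_of_nonneg_right
    (show (Fintype.card (Fin t ↪ α) : ℝ) ≤ (Fintype.card α : ℝ) ^ t by exact_mod_cast hc')
    (show 0 ≤ 1 / 2 ^ r + ((1 / ((Fintype.card α : ℝ) - 2 * t * r)) ^ t +
      ((2 * t * r : ℝ) * (2 * t * (r + 1)) / ((Fintype.card α : ℝ) - 2 * t * r)) ^ (t + 1)) from
      add_nonneg (by positivity) (add_nonneg (pow_nonneg (div_nonneg zero_le_one (by linarith)) _)
        (pow_nonneg (div_nonneg (by positivity) (by linarith)) _)))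
  refine (av_mono fun ω => ind_mono fun h => ?_).trans (h1.trans (by linarith))
  have := not_le.1 h
  linarith

theorem qm_real {n L T Y : ℝ} {t : ℕ} (hL : 3 ≤ L) (ht : (t : ℝ) + 1 ≤ L) (hT0 : 0 ≤ T)
    (hT : T ≤ 2 * L ^ 3) (hY0 : 0 ≤ Y) (hY : Y ≤ L ^ 8) (hn : (L ^ 16) ^ (t + 1) ≤ n) :
    n ^ t * ((1 / (n - T)) ^ t + (Y / (n - T)) ^ (t + 1)) - 1 ≤ 6 / L ^ 8 := by
  have hL0 : 0 < L := by linarith
  have hL1 : 1 ≤ L := by linarith
  have h8 : 1 ≤ L ^ 8 := one_le_pow₀ hL1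
  have h16 : L ^ 16 ≤ n := le_trans (le_self_pow₀ (one_le_pow₀ hL1) (by omega)) hn
  have hn0 : 0 < n := lt_of_lt_of_le (by positivity) h16
  have h4 : (81 : ℝ) ≤ L ^ 4 := by
    have := pow_le_pow_left₀ (by norm_num) hL 4
    norm_num at this; exact this
  have ht0 : (0 : ℝ) ≤ t := Nat.cast_nonneg _
  obtain ⟨x, hx⟩ : ∃ x, x = T / n := ⟨_, rfl⟩
  have hx0 : 0 ≤ x := by rw [hx]; positivity
  have hu : ((t : ℝ) + 1) * x ≤ 2 / L ^ 8 / 81 := by
    rw [hx, ← mul_div_assoc, div_div, div_le_div_iff₀ hn0 (by positivity)]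
    have h5 : ((t : ℝ) + 1) * T ≤ L * (2 * L ^ 3) := mul_le_mul ht hT hT0 hL0.le
    calc _ ≤ L * (2 * L ^ 3) * (L ^ 8 * L ^ 4) := by gcongr
      _ = 2 * L ^ 16 := by ring
      _ ≤ _ := by linarith
  have hv : 2 / L ^ 8 ≤ 2 := by rw [div_le_iff₀ (by positivity)]; linarith
  have hv0 : 0 ≤ 2 / L ^ 8 := by positivity
  have hx1 : x ≤ 2 / 81 := by linarith [mul_nonneg ht0 hx0]
  have hd : n - T = n * (1 - x) := by rw [hx]; field_simp
  have hb : 1 - ((t : ℝ) + 1) * x ≤ (1 - x) ^ (t + 1) := by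
    have := one_add_mul_le_pow (show (-2 : ℝ) ≤ -x by linarith) (t + 1)
    push_cast at this
    rw [← sub_eq_add_neg] at this
    linarith
  have hp : 0 < 1 - x := by linarith
  have hz : (1 / (1 - x)) ^ (t + 1) ≤ 1 + 2 / L ^ 8 := by
    rw [one_div_pow, div_le_iff₀ (by positivity)]
    generalize 2 / L ^ 8 = v at *
    calc (1 : ℝ) ≤ (1 + v) * (1 - v / 81) := by nlinarith only [hv, hv0]
      _ ≤ _ := mul_le_mul_of_nonneg_left (by linarith) (by linarith)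
  have hz1 : 1 ≤ 1 / (1 - x) := by rw [le_div_iff₀ hp]; linarith
  have hz' : (1 / (1 - x)) ^ t ≤ 1 + 2 / L ^ 8 :=
    (pow_le_pow_right₀ hz1 (Nat.le_succ t)).trans hz
  have e1 : n ^ t * (1 / (n - T)) ^ t = (1 / (1 - x)) ^ t := by
    rw [← mul_pow, hd]; congr 1; field_simp
  have e2 : n ^ t * (Y / (n - T)) ^ (t + 1) = (1 / (1 - x)) ^ (t + 1) * (Y ^ (t + 1) / n) := by
    rw [hd, div_pow, mul_pow, one_div_pow, pow_succ n]; field_simp
  have hy : Y ^ (t + 1) / n ≤ 1 / L ^ 8 := by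
    rw [div_le_div_iff₀ hn0 (by positivity), one_mul]
    calc _ ≤ (L ^ 8) ^ (t + 1) * (L ^ 8) ^ (t + 1) :=
          mul_le_mul (pow_le_pow_left₀ hY0 hY _) (le_self_pow₀ h8 (by omega)) (by positivity)
            (by positivity)
      _ = (L ^ 16) ^ (t + 1) := by rw [← mul_pow]; congr 1; ring
      _ ≤ n := hn
  have h3 : (1 / (1 - x)) ^ (t + 1) * (Y ^ (t + 1) / n) ≤ 3 * (1 / L ^ 8) :=
    mul_le_mul (by linarith) hy (by positivity) (by norm_num)
  rw [mul_add, e1, e2]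
  have e3 : 6 / L ^ 8 = 2 / L ^ 8 + 3 * (1 / L ^ 8) + 1 / L ^ 8 := by ring
  have : 0 ≤ 1 / L ^ 8 := by positivity
  linarith

theorem qm_len2 {L : ℕ} (hL : 3 ≤ L) :
    2 * L * ((1 + 1) * L) ≤ 4 * L ^ 4 ∧ 3 * L * ((2 + 1) * L) ≤ 4 * L ^ 4 := by
  have h9 : 3 * 3 ≤ L * L := Nat.mul_le_mul hL hL
  have h1 : 3 * 3 * (L * L) ≤ L * L * (L * L) := Nat.mul_le_mul_right _ h9
  have e1 : 2 * L * ((1 + 1) * L) = 4 * (L * L) := by ring
  have e2 : 3 * L * ((2 + 1) * L) = 9 * (L * L) := by ring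
  have e3 : L ^ 4 = L * L * (L * L) := by ring
  omega

theorem qm_len {L t : ℕ} (hL : 3 ≤ L) (ht : t + 1 ≤ L) :
    (t * L + 4) * ((t + 1) * L) ≤ 4 * L ^ 4 := by
  have h9 : 3 * 3 ≤ L * L := Nat.mul_le_mul hL hL
  have h2 : (t + 1) * L ≤ L * L := Nat.mul_le_mul_right _ ht
  have h3 : t * L ≤ L * L := Nat.mul_le_mul_right _ (by omega)
  calc _ ≤ 4 * (L * L) * (L * L) := Nat.mul_le_mul (by omega) h2
    _ = _ := by ring

theorem qm_fail_le {n t : ℕ} (hL : 3 ≤ lg n) (hn : (lg n ^ 16) ^ (t + 1) ≤ n) :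
    t + 1 ≤ lg n ∧ av (fun ω : Bool → Perm (Fin n) => ind (¬qmGood ω t ((t + 1) * lg n))) ≤
      28 / (lg n : ℝ) ^ 8 := by
  have hlt := lt_two_pow_lg n
  generalize lg n = L at *
  have h2 : 2 ≤ L ^ 16 := le_trans (by omega) (Nat.le_self_pow (by norm_num) L)
  have ht : t + 1 ≤ L := by
    have := (Nat.pow_le_pow_left h2 (t + 1)).trans_lt (hn.trans_lt hlt)
    exact ((Nat.pow_lt_pow_iff_right one_lt_two).1 this).le
  refine ⟨ht, ?_⟩
  have h16 : L ^ 16 ≤ n := le_trans (Nat.le_self_pow (by omega) _) hn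
  have hLR : (3 : ℝ) ≤ L := by exact_mod_cast hL
  have htR : (t : ℝ) + 1 ≤ L := by exact_mod_cast ht
  have ht0 : (0 : ℝ) ≤ t := Nat.cast_nonneg _
  have hnR : ((L : ℝ) ^ 16) ^ (t + 1) ≤ n := by exact_mod_cast hn
  have h16R : (L : ℝ) ^ 16 ≤ n := by exact_mod_cast h16
  obtain ⟨r, hr⟩ : ∃ r, r = (t + 1) * L := ⟨_, rfl⟩
  rw [← hr]
  have hrR : (r : ℝ) ≤ L ^ 2 := by
    rw [hr, sq]; push_cast; gcongr
  have hr0 : (0 : ℝ) ≤ r := Nat.cast_nonneg _
  have hT : 2 * (t : ℝ) * r ≤ 2 * L ^ 3 := by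
    calc _ ≤ 2 * (L : ℝ) * L ^ 2 := by gcongr; linarith
      _ = _ := by ring
  have hL1 : (1 : ℝ) ≤ L := by linarith
  have hY : 2 * (t : ℝ) * r * (2 * t * (r + 1)) ≤ L ^ 8 := by
    have h1 : (1 : ℝ) ≤ L ^ 2 := one_le_pow₀ hL1
    have h9 : (8 : ℝ) ≤ L ^ 2 := by nlinarith only [hLR]
    calc _ ≤ 2 * (L : ℝ) ^ 3 * (2 * L * (L ^ 2 + L ^ 2)) := by gcongr; linarith
      _ = 8 * L ^ 6 := by ring
      _ ≤ L ^ 2 * L ^ 6 := by gcongr
      _ = _ := by ring
  have hTn : 2 * t * r < n := by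
    have h3 : (2 : ℝ) * L ^ 3 < L ^ 16 := by
      have h13 : (3 : ℝ) ≤ L ^ 13 := hLR.trans (le_self_pow₀ hL1 (by norm_num))
      have : (0 : ℝ) < L ^ 3 := by positivity
      calc (2 : ℝ) * L ^ 3 < L ^ 13 * L ^ 3 := by gcongr; linarith
        _ = _ := by ring
    have : ((2 * t * r : ℕ) : ℝ) < n := by push_cast; linarith
    exact_mod_cast this
  have htn : t ≤ n := by
    have := Nat.le_self_pow (show 16 ≠ 0 by norm_num) L
    omega
  have hf := qm_fail (α := Fin n) (t := t) (r := r) (by simpa using hTn) (by simpa using htn)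
  rw [Fintype.card_fin] at hf
  have hn0 : (0 : ℝ) < n := lt_of_lt_of_le (by positivity) h16R
  have e1 : (n : ℝ) ^ t * (1 / 2 ^ r) ≤ 1 / (L : ℝ) ^ 8 := by
    have h5 : ((n ^ (t + 1) : ℕ) : ℝ) ≤ (2 ^ r : ℕ) := by
      rw [hr, mul_comm, pow_mul]
      exact_mod_cast Nat.pow_le_pow_left hlt.le _
    push_cast at h5
    have h6 : (L : ℝ) ^ 8 ≤ n := (pow_le_pow_right₀ hL1 (by norm_num)).trans h16R
    rw [mul_one_div, div_le_div_iff₀ (by positivity) (by positivity), one_mul]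
    refine le_trans ?_ h5
    rw [pow_succ (n : ℝ)]
    gcongr
  have e2 := qm_real hLR htR (by positivity) hT (by positivity) hY hnR
  rw [mul_add] at hf
  have e3 : 28 / (L : ℝ) ^ 8 = 4 * (1 / L ^ 8 + 6 / L ^ 8) := by ring
  linarith

theorem qm_mix2 {n : ℕ} {ω : Bool → Perm (Fin n)} (hL : 3 ≤ lg n) (hn : 0 < n)
    (h1 : qmGood ω 1 ((1 + 1) * lg n)) (h2 : qmGood ω 2 ((2 + 1) * lg n)) :
    Mix2 ω (4 * lg n ^ 4) (1 / n) := by
  have hlt : (n : ℝ) ≤ 2 ^ lg n := by exact_mod_cast (lt_two_pow_lg n).le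
  have hn0 : (0 : ℝ) < n := by exact_mod_cast hn
  generalize lg n = L at *
  refine ⟨fun a b => ?_, fun a a' b b' haa => ?_⟩
  · have hc : Fintype.card (Fin 1 ↪ Fin n) = n := by simp
    have := qm_tp_mix (X := Fin 1 ↪ Fin n) ω _ (2 * L) h1 (ζ := 1 / n) (by
      rw [hc, one_div_mul_eq_div, le_div_iff₀ hn0, two_mul, pow_add]
      gcongr) (4 * L ^ 4) (qm_len2 hL).1 ⟨fun _ => a, fun i j _ => Subsingleton.elim i j⟩
      ⟨fun _ => b, fun i j _ => Subsingleton.elim i j⟩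
    rw [hc] at this
    have e : tp ω (4 * L ^ 4) (⟨fun _ => a, fun i j _ => Subsingleton.elim i j⟩ : Fin 1 ↪ Fin n)
        ⟨fun _ => b, fun i j _ => Subsingleton.elim i j⟩ =
        Ex (4 * L ^ 4) fun l => ind (ev ω l a = b) :=
      Ex_congr _ fun l _ => ind_congr ((smul_eq_iff _ _ _).trans ⟨fun h => h 0, fun h _ => h⟩)
    rw [Fintype.card_fin, ← e]
    linarith [(abs_le.1 this).1]
  · have hζ : (0 : ℝ) ≤ 1 / n := by positivity
    by_cases hb : b = b'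
    · have : Ex (4 * L ^ 4) (fun l => ind (ev ω l a = b ∧ ev ω l a' = b')) = 0 := by
        rw [← Ex_const (4 * L ^ 4) 0]
        exact Ex_congr _ fun l _ => ind_neg fun h =>
          haa ((ev ω l).injective (by rw [h.1, h.2, hb]))
      rw [this, mul_zero]; linarith
    · have hc : (Fintype.card (Fin 2 ↪ Fin n) : ℝ) = n * ((n : ℝ) - 1) := by
        rw [Fintype.card_embedding_eq, Fintype.card_fin, Fintype.card_fin, Nat.cast_descFactorial_two]
      have inj : ∀ {x y : Fin n}, x ≠ y → Function.Injective ![x, y] := fun {x y} h i j hij => by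
        fin_cases i <;> fin_cases j <;> simp_all [eq_comm]
      have := qm_tp_mix (X := Fin 2 ↪ Fin n) ω _ (3 * L) h2 (ζ := 1 / n) (by
        rw [hc, one_div_mul_eq_div, le_div_iff₀ hn0, mul_comm 3 L, pow_mul]
        calc _ ≤ (n : ℝ) * n * n := by gcongr; linarith
          _ = (n : ℝ) ^ 3 := by ring
          _ ≤ _ := by gcongr) (4 * L ^ 4) (qm_len2 hL).2 ⟨![a, a'], inj haa⟩ ⟨![b, b'], inj hb⟩
      simp only [hc, tp, smul_eq_iff] at this
      rw [Ex_congr (g := fun l => ind (ev ω l a = b ∧ ev ω l a' = b')) _ fun l _ =>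
        ind_congr Fin.forall_fin_two] at this
      rw [Fintype.card_fin]
      linarith [(abs_le.1 this).2]

theorem qm_mix {n t : ℕ} {ω : Bool → Perm (Fin n)} (hL : 3 ≤ lg n) (ht : t + 1 ≤ lg n)
    (h : qmGood ω t ((t + 1) * lg n)) : Mix ω t (4 * lg n ^ 4) := by
  have hlt := lt_two_pow_lg n
  generalize lg n = L at *
  have hc : Fintype.card (Fin t ↪ Fin n) = (Fintype.card (Fin n)).descFactorial t := by simp
  have hc' : Fintype.card (Fin t ↪ Fin n) ≤ n ^ t := by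
    rw [hc, Fintype.card_fin]; exact Nat.descFactorial_le_pow _ _
  intro r' hr' a b
  have := tp_mix (X := Fin t ↪ Fin n) ω _ (t * L + 4) h (by
    rw [pow_add, mul_comm t, pow_mul]
    have := Nat.pow_le_pow_left hlt.le t
    omega) r' ((qm_len hL ht).trans hr') a b
  simpa only [hc, tp, smul_eq_iff] using this

theorem whp_mix : WHP fun n ω => (∀ t ≤ sbase n, Mix ω t (4 * lg n ^ 4)) ∧
    Mix2 ω (4 * lg n ^ 4) (1 / n) := by
  refine WHP.of_forall_le fun η hη => ?_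
  filter_upwards [ev_lg_ge 3, ev_lg_ge ⌈28 / η⌉₊, ev_lg_pow_le 48] with n hL hη' h48
  have h2 : 1 < lg n ^ 16 := lt_of_lt_of_le (by omega) (Nat.le_self_pow (by norm_num) (lg n))
  have hn0 : 0 < n := lt_of_lt_of_le (by positivity) h48
  have h3 : 3 ≤ Nat.log (lg n ^ 16) n := Nat.le_log_of_pow_le h2 (by rw [← pow_mul]; exact h48)
  have hs : sbase n + 1 = Nat.log (lg n ^ 16) n := by unfold sbase; omega
  have hp : ∀ t ≤ sbase n, (lg n ^ 16) ^ (t + 1) ≤ n := fun t ht =>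
    (Nat.pow_le_pow_right (by omega) (by omega)).trans (Nat.pow_log_le_self _ hn0.ne')
  have hf := fun t ht => qm_fail_le hL (hp t ht)
  have hL0 : (3 : ℝ) ≤ lg n := by exact_mod_cast hL
  calc _ ≤ av fun ω : Bool → Perm (Fin n) =>
        ∑ t ∈ range (sbase n + 1), ind (¬qmGood ω t ((t + 1) * lg n)) := by
        refine av_mono fun ω => ind_le_of (sum_nonneg fun _ _ => ind_nonneg _) fun h => ?_
        by_cases hg : ∀ t ≤ sbase n, qmGood ω t ((t + 1) * lg n)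
        · exact absurd ⟨fun t ht => qm_mix hL (hf t ht).1 (hg t ht),
            qm_mix2 hL hn0 (hg 1 (by omega)) (hg 2 (by omega))⟩ h
        · push Not at hg
          obtain ⟨t, ht, hg⟩ := hg
          refine le_trans (ind_pos hg).ge (single_le_sum
            (f := fun t => ind (¬qmGood ω t ((t + 1) * lg n))) (fun _ _ => ind_nonneg _) ?_)
          exact mem_range.2 (by omega)
    _ ≤ ∑ _t ∈ range (sbase n + 1), 28 / (lg n : ℝ) ^ 8 := by
        rw [av_sum]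
        exact sum_le_sum fun t ht => (hf t (by have := mem_range.1 ht; omega)).2
    _ ≤ η := by
        rw [sum_const, card_range, nsmul_eq_mul]
        have h5 : ((sbase n + 1 : ℕ) : ℝ) ≤ lg n := by exact_mod_cast (hf _ le_rfl).1
        have h6 : 28 / η ≤ lg n := (Nat.le_ceil _).trans (by exact_mod_cast hη')
        rw [div_le_iff₀ hη] at h6
        have h7 : (lg n : ℝ) ^ 2 ≤ (lg n : ℝ) ^ 8 := pow_le_pow_right₀ (by linarith) (by norm_num)
        rw [← mul_div_assoc, div_le_iff₀ (by positivity)]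
        calc _ ≤ (lg n : ℝ) * (lg n * η) := mul_le_mul h5 h6 (by norm_num) (by linarith)
          _ = η * (lg n : ℝ) ^ 2 := by ring
          _ ≤ _ := mul_le_mul_of_nonneg_left h7 hη.le

end Pool.Agent.Lib.MP_8a89f5_al
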