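import Pool.Agent.Lib.MP_8a89f5_al.Q2Defs
import Pool.Agent.Lib.MP_8a89f5_al.Shrink

/-!
Elements with support of every size.
-/

namespace Pool.Agent.Lib.MP_8a89f5_al

open Finset Equiv

variable {α : Type} [Fintype α] [DecidableEq α] {ω : Bool → Perm α}

/-- At most two shrinking steps bring the support below `s`. -/
theorem supp_desc {m : ℕ} (h1 : Mix ω 1 m) (h2 : Mix ω 2 m) {f g : Perm α} {cf cg s : ℝ}
    (hf : Len ω f cf) (hg : Len ω g cg) (hn0 : 0 < Fintype.card α)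
    (hβ : 30 * (g.support.card : ℝ) ≤ Fintype.card α)
    (hlo : s * g.support.card / (2 * Fintype.card α) ≤ f.support.card)
    (hhi : (30 * (g.support.card / Fintype.card α : ℝ)) ^ 2 * f.support.card ≤ s)
    (hs : (Fintype.card α : ℝ) ≤ s * g.support.card) :
    ∃ σ, Len ω σ (4 * cf + 6 * cg + 12 * m) ∧
      s * g.support.card / (2 * Fintype.card α) ≤ σ.support.card ∧ (σ.support.card : ℝ) ≤ s := by
  have hcf := hf.nonneg
  have hcg := hg.nonneg
  have hm : (0 : ℝ) ≤ m := Nat.cast_nonneg m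
  have hn : (0 : ℝ) < Fintype.card α := by exact_mod_cast hn0
  have hG : (0 : ℝ) ≤ g.support.card := Nat.cast_nonneg _
  have step : ∀ (k : Perm α) (c : ℝ), Len ω k c → s < k.support.card →
      ∃ k', Len ω k' (2 * c + 2 * cg + 4 * m) ∧
        s * g.support.card / (2 * Fintype.card α) ≤ k'.support.card ∧
        (k'.support.card : ℝ) ≤ 30 * (g.support.card / Fintype.card α : ℝ) * k.support.card := by
    intro k c hk hlt
    have hmul : s * g.support.card ≤ (k.support.card : ℝ) * g.support.card :=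
      mul_le_mul_of_nonneg_right hlt.le hG
    obtain ⟨k', a1, a2, a3⟩ := shrink_step h1 h2 hk hg hn0 hβ (hs.trans hmul)
    refine ⟨k', a1, le_trans ?_ a2, a3.trans (le_of_eq (by ring))⟩
    exact div_le_div_of_nonneg_right hmul (by positivity)
  by_cases c0 : (f.support.card : ℝ) ≤ s
  · exact ⟨f, hf.mono (by linarith), hlo, c0⟩
  obtain ⟨f1, a1, a2, a3⟩ := step f cf hf (not_le.1 c0)
  by_cases c1 : (f1.support.card : ℝ) ≤ s
  · exact ⟨f1, a1.mono (by linarith), a2, c1⟩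
  obtain ⟨f2, b1, b2, b3⟩ := step f1 _ a1 (not_le.1 c1)
  refine ⟨f2, b1.mono (by linarith), b2, b3.trans (le_trans ?_ hhi)⟩
  rw [sq, mul_assoc _ _ (f.support.card : ℝ)]
  exact mul_le_mul_of_nonneg_left a3 (by positivity)

/-- The same with the target written as `2 s n / |g|`. -/
theorem supp_desc' {m : ℕ} (h1 : Mix ω 1 m) (h2 : Mix ω 2 m) {f g : Perm α} {cf cg s γ : ℝ}
    (hf : Len ω f cf) (hg : Len ω g cg) (hn0 : 0 < Fintype.card α)
    (hγ : γ = g.support.card / Fintype.card α) (h0 : 0 < γ) (hβ : γ ≤ 1 / 2000) (hs1 : 1 ≤ s)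
    (hlo : s ≤ f.support.card) (hhi : 900 * γ ^ 3 * f.support.card ≤ 2 * s) :
    ∃ σ, Len ω σ (4 * cf + 6 * cg + 12 * m) ∧
      s ≤ σ.support.card ∧ γ * (σ.support.card : ℝ) ≤ 2 * s := by
  have hn : (0 : ℝ) < Fintype.card α := by exact_mod_cast hn0
  have hG : (g.support.card : ℝ) = γ * Fintype.card α := by rw [hγ]; field_simp
  have e : 2 * s / γ * g.support.card / (2 * Fintype.card α) = s := by rw [hG]; field_simp
  obtain ⟨σ, a1, a2, a3⟩ := supp_desc (s := 2 * s / γ) h1 h2 hf hg hn0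
    (by rw [hG]; nlinarith) (by rw [e]; exact hlo)
    (by rw [← hγ, le_div_iff₀ h0]; nlinarith)
    (by
      have : 2 * s / γ * g.support.card = 2 * s * Fintype.card α := by rw [hG]; field_simp
      rw [this]; nlinarith)
  rw [e] at a2
  rw [le_div_iff₀ h0] at a3
  exact ⟨σ, a1, a2, by linarith⟩

theorem supp_claim {m : ℕ} (h1 : Mix ω 1 m) (h2 : Mix ω 2 m) (hn0 : 0 < Fintype.card α)
    {f : Perm α} {cf s : ℝ} (hf : Len ω f cf) (hs1 : 1 ≤ s) (hs : s ≤ f.support.card) :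
    ∀ (I : ℕ) (g : Perm α) (cg γ : ℝ), Len ω g cg → γ = g.support.card / Fintype.card α →
      0 < γ → γ ≤ 1 / 2000 → (30 * γ) ^ (2 ^ (I + 1)) * Fintype.card α ≤ 1 →
      ∃ σ, Len ω σ (12 * 32 ^ I * (cf + cg + m)) ∧
        s ≤ σ.support.card ∧ γ * (σ.support.card : ℝ) ≤ 2 * s := by
  have hn : (0 : ℝ) < Fintype.card α := by exact_mod_cast hn0
  have hcf := hf.nonneg
  have hm : (0 : ℝ) ≤ m := Nat.cast_nonneg m
  have hF : (f.support.card : ℝ) ≤ Fintype.card α := by exact_mod_cast card_le_univ _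
  have base : ∀ (I : ℕ) (g : Perm α) (cg γ : ℝ), Len ω g cg →
      γ = g.support.card / Fintype.card α → 0 < γ → γ ≤ 1 / 2000 →
      γ ^ 2 * Fintype.card α ≤ 1 →
      ∃ σ, Len ω σ (12 * 32 ^ I * (cf + cg + m)) ∧
        s ≤ σ.support.card ∧ γ * (σ.support.card : ℝ) ≤ 2 * s := by
    intro I g cg γ hg hγ h0 hβ hsm
    have hcg := hg.nonneg
    have t1 : γ ^ 2 * (f.support.card : ℝ) ≤ 1 :=
      (mul_le_mul_of_nonneg_left hF (by positivity)).trans hsm
    obtain ⟨σ, a1, a2, a3⟩ := supp_desc' h1 h2 hf hg hn0 hγ h0 hβ hs1 hs (by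
      have : 900 * γ ^ 3 * (f.support.card : ℝ) = 900 * γ * (γ ^ 2 * f.support.card) := by ring
      rw [this]
      have : 900 * γ * (γ ^ 2 * (f.support.card : ℝ)) ≤ 900 * γ * 1 :=
        mul_le_mul_of_nonneg_left t1 (by positivity)
      linarith)
    refine ⟨σ, a1.mono ?_, a2, a3⟩
    have : (1 : ℝ) ≤ 32 ^ I := one_le_pow₀ (by norm_num)
    have : 1 * (cf + cg + m) ≤ 32 ^ I * (cf + cg + m) :=
      mul_le_mul_of_nonneg_right this (by positivity)
    linarith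
  intro I
  induction I with
  | zero =>
    intro g cg γ hg hγ h0 hβ hI
    refine base 0 g cg γ hg hγ h0 hβ ?_
    have : 0 ≤ γ ^ 2 * (Fintype.card α : ℝ) := by positivity
    norm_num at hI
    nlinarith
  | succ I ih =>
    intro g cg γ hg hγ h0 hβ hI
    by_cases hsm : γ ^ 2 * Fintype.card α ≤ 1
    · exact base _ g cg γ hg hγ h0 hβ hsm
    have hcg := hg.nonneg
    have hG : (g.support.card : ℝ) = γ * Fintype.card α := by rw [hγ]; field_simp
    obtain ⟨g', b1, b2, b3⟩ := shrink_step h1 h2 hg hg hn0 (by rw [hG]; nlinarith)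
      (by rw [hG]; nlinarith)
    obtain ⟨γ', hγ'⟩ : ∃ γ' : ℝ, γ' = g'.support.card / Fintype.card α := ⟨_, rfl⟩
    have l1 : γ ^ 2 / 2 ≤ γ' := by
      rw [hγ', le_div_iff₀ hn]
      refine le_trans (le_of_eq ?_) b2
      rw [hG]; field_simp
    have l2 : γ' ≤ 30 * γ ^ 2 := by
      rw [hγ', div_le_iff₀ hn]
      refine b3.trans (le_of_eq ?_)
      rw [hG]; field_simp
    have h0' : 0 < γ' := lt_of_lt_of_le (by positivity) l1
    obtain ⟨f1, a1, a2, a3⟩ := ih g' _ γ' b1 hγ' h0' (by nlinarith) (by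
      refine le_trans (mul_le_mul_of_nonneg_right ?_ hn.le) hI
      rw [pow_succ' 2 (I + 1), pow_mul]
      exact pow_le_pow_left₀ (by positivity) (by nlinarith) _)
    have hF1 : (0 : ℝ) ≤ f1.support.card := Nat.cast_nonneg _
    have t1 : γ ^ 2 * (f1.support.card : ℝ) ≤ 4 * s := by
      have := mul_le_mul_of_nonneg_right l1 hF1
      linarith
    obtain ⟨σ, c1, c2, c3⟩ := supp_desc' h1 h2 a1 hg hn0 hγ h0 hβ hs1 a2 (by
      have : 900 * γ ^ 3 * (f1.support.card : ℝ) = 900 * γ * (γ ^ 2 * f1.support.card) := by ring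
      rw [this]
      have : 900 * γ * (γ ^ 2 * (f1.support.card : ℝ)) ≤ 900 * γ * (4 * s) :=
        mul_le_mul_of_nonneg_left t1 (by positivity)
      nlinarith)
    refine ⟨σ, c1.mono ?_, c2, c3⟩
    have p1 : (1 : ℝ) ≤ 32 ^ I := one_le_pow₀ (by norm_num)
    have q1 := mul_le_mul_of_nonneg_right p1 hcg
    have q2 := mul_le_mul_of_nonneg_right p1 hm
    have q3 : 0 ≤ (32 : ℝ) ^ I * cf := by positivity
    rw [pow_succ]
    nlinarith

theorem supp_scale {m L : ℕ} (h1 : Mix ω 1 m) (h2 : Mix ω 2 m) {f : Perm α} {ℓ s : ℝ}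
    (hf : Len ω f ℓ) (hL : 1 ≤ L) (hn0 : 0 < Fintype.card α) (hn : Fintype.card α < 2 ^ L)
    (hβ : 2000 * (f.support.card : ℝ) ≤ Fintype.card α) (hs : s ≤ f.support.card)
    (hs' : (Fintype.card α : ℝ) ≤ s * f.support.card) :
    ∃ σ, Len ω σ (200 * (L : ℝ) ^ 5 * (ℓ + m)) ∧
      s * f.support.card / (2 * Fintype.card α) ≤ σ.support.card ∧ (σ.support.card : ℝ) ≤ s := by
  have hn' : (0 : ℝ) < Fintype.card α := by exact_mod_cast hn0
  have hℓ := hf.nonneg
  have hm : (0 : ℝ) ≤ m := Nat.cast_nonneg m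
  have hF0 : (0 : ℝ) ≤ f.support.card := Nat.cast_nonneg _
  have hF : (0 : ℝ) < f.support.card := by
    refine hF0.lt_of_ne fun h => ?_
    rw [← h, mul_zero] at hs'
    linarith
  have hs1 : 1 ≤ s := by
    by_contra h
    have := mul_le_mul_of_nonneg_right (not_le.1 h).le hF0
    linarith
  obtain ⟨γ, hγ⟩ : ∃ γ : ℝ, γ = f.support.card / Fintype.card α := ⟨_, rfl⟩
  have h0 : 0 < γ := by rw [hγ]; positivity
  have hγ1 : γ ≤ 1 / 2000 := by rw [hγ, div_le_iff₀ hn']; linarith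
  have hI : (30 * γ) ^ (2 ^ (Nat.log 2 L + 1)) * Fintype.card α ≤ 1 := by
    have e1 : L ≤ 2 ^ (Nat.log 2 L + 1) := (Nat.lt_pow_succ_log_self (by norm_num) L).le
    have e2 : (30 * γ) ^ (2 ^ (Nat.log 2 L + 1)) ≤ (1 / 2 : ℝ) ^ L :=
      (pow_le_pow_of_le_one (by positivity) (by linarith) e1).trans
        (pow_le_pow_left₀ (by positivity) (by linarith) _)
    have e3 : (Fintype.card α : ℝ) ≤ 2 ^ L := by exact_mod_cast hn.le
    calc (30 * γ) ^ (2 ^ (Nat.log 2 L + 1)) * Fintype.card α ≤ (1 / 2 : ℝ) ^ L * 2 ^ L :=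
          mul_le_mul e2 e3 hn'.le (by positivity)
      _ = 1 := by rw [← mul_pow]; norm_num
  obtain ⟨f1, a1, a2, a3⟩ := supp_claim h1 h2 hn0 hf hs1 hs (Nat.log 2 L) f ℓ γ hf hγ h0 hγ1 hI
  have hF1 : (0 : ℝ) ≤ f1.support.card := Nat.cast_nonneg _
  obtain ⟨σ, b1, b2, b3⟩ := supp_desc (s := s) h1 h2 a1 hf hn0 (by linarith)
    (by
      refine le_trans ?_ a2
      rw [div_le_iff₀ (by positivity)]
      exact mul_le_mul_of_nonneg_left (by linarith) (by linarith))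
    (by
      rw [← hγ]
      have e : (30 * γ) ^ 2 * (f1.support.card : ℝ) = 900 * γ * (γ * f1.support.card) := by ring
      have : 900 * γ * (γ * (f1.support.card : ℝ)) ≤ 900 * γ * (2 * s) :=
        mul_le_mul_of_nonneg_left a3 (by positivity)
      rw [e]
      nlinarith) hs'
  refine ⟨σ, b1.mono ?_, b2, b3⟩
  have p1 : (32 : ℝ) ^ Nat.log 2 L ≤ (L : ℝ) ^ 5 := by
    have e1 : ((2 : ℝ) ^ Nat.log 2 L) ≤ L := by
      exact_mod_cast Nat.pow_log_le_self 2 (by omega : L ≠ 0)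
    calc (32 : ℝ) ^ Nat.log 2 L = ((2 : ℝ) ^ Nat.log 2 L) ^ 5 := by
          rw [← pow_mul, mul_comm, pow_mul]; norm_num
      _ ≤ (L : ℝ) ^ 5 := pow_le_pow_left₀ (by positivity) e1 _
  have p2 : (1 : ℝ) ≤ (L : ℝ) ^ 5 := one_le_pow₀ (by exact_mod_cast hL)
  have q1 := mul_le_mul_of_nonneg_right p1 hℓ
  have q2 := mul_le_mul_of_nonneg_right p1 hm
  have q3 := mul_le_mul_of_nonneg_right p2 hℓ
  have q4 := mul_le_mul_of_nonneg_right p2 hm
  nlinarith

end Pool.Agent.Lib.MP_8a89f5_al
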