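import Pool.Agent.Lib.MP_8a89f5_al.Q2Lg
import Pool.Agent.Lib.MP_8a89f5_al.Q2Dich
import Pool.Agent.Lib.MP_8a89f5_al.Mix
import Pool.Agent.Lib.MP_8a89f5_al.LongCycle

/-!
Further properties of a random pair that hold with high probability.
-/

namespace Pool.Agent.Lib.MP_8a89f5_al

open Finset Equiv Filter Topology

theorem whp_fixs_mono {α : Type*} [Fintype α] [DecidableEq α] (ω : Bool → Perm α) {m m' : ℕ}
    (h : m ≤ m') : Fixs ω m ≤ Fixs ω m' :=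
  sum_le_sum_of_subset_of_nonneg (Ico_subset_Ico_right h) fun _ _ _ =>
    Ex_nonneg _ fun _ _ => sum_nonneg fun _ _ => ind_nonneg _

theorem whp_fixs : WHP fun n ω => Fixs ω (4 * lg n ^ 4) ≤ n / 320 := by
  refine (fixs_whp (1 / 10) (1 / 2) (by norm_num) (by norm_num) (by norm_num)).mono ?_
  filter_upwards [((ord_lg.pow 4).const_mul 4).ev_le (b := 1 / 10) (by norm_num),
    ((Ord.rpow (1 / 2)).const_mul 320).ev_le_id (by norm_num)] with n h1 h2 ω h3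
  have h4 : 4 * lg n ^ 4 ≤ ⌊(n : ℝ) ^ (1 / 10 : ℝ)⌋₊ := Nat.le_floor (by push_cast; exact h1)
  have := whp_fixs_mono ω h4
  linarith

theorem whp_lg_ge (C : ℝ) : ∀ᶠ n : ℕ in atTop, C ≤ lg n := by
  filter_upwards [ev_lg_ge ⌈C⌉₊] with n hn
  exact (Nat.le_ceil C).trans (by exact_mod_cast hn)

theorem whp_long : WHP fun n ω => ∃ g, Len ω g (n * lg n) ∧ (n : ℝ) ≤ lg n * g.support.card ∧
    2000 * (g.support.card : ℝ) ≤ n := by
  refine WHP.of_forall_le fun ζ hζ => ?_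
  obtain ⟨d, hd, hd1, hd2, hd3⟩ : ∃ d : ℝ, 0 < d ∧ d ≤ 1 / 4 ∧ d ≤ 1 / 2000 ∧ 28 * d ≤ ζ :=
    ⟨min (1 / 2000) (ζ / 28), by positivity, (min_le_left _ _).trans (by norm_num),
      min_le_left _ _, by
        have := min_le_right (1 / 2000) (ζ / 28)
        linarith⟩
  obtain ⟨k, hk⟩ := exists_nat_ge (1 / d ^ 2)
  rw [div_le_iff₀ (by positivity)] at hk
  obtain ⟨D, hD⟩ := exists_nat_ge (4 / d ^ 4)
  rw [div_le_iff₀ (by positivity)] at hD
  obtain ⟨K, hK⟩ := exists_pow_lt_of_lt_one (x := d ^ 4 / 2) (y := 1 - d ^ 2 / 2) (by positivity)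
    (by nlinarith)
  filter_upwards [lc_ev_le (2 * ((k * K : ℕ) : ℝ)) (pow_pos hd 2),
    lc_ev_le (4 * ((k * K : ℕ) : ℝ) ^ 2) (pow_pos hd 4), lc_ev_le 2 (pow_pos hd 4),
    lc_ev_le (2 * ((K : ℝ) + 1) ^ 3) (pow_pos hd 6), lc_ev_le (4 * (D : ℝ)) (pow_pos hd 4),
    whp_lg_ge k, whp_lg_ge (2 / d ^ 2), eventually_gt_atTop 0]
    with n h1 h3 h4 h5 h7 h8 h9 hn
  have := fail_le (α := Fin n) hd hd1 hk (by simpa using h1) hK.le (by simpa using h3)
    (by simpa using h4) (by simpa using h5) hD (by simpa using h7)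
  refine le_trans (av_mono fun ω => ind_mono fun h i hi a ha => h ?_) (this.trans hd3)
  obtain ⟨⟨s1, s2⟩, s3⟩ := ha
  obtain ⟨t1, t2⟩ := support_pow_card (ω false ^ i * ω true) a
  simp only [Fintype.card_fin] at s1 s2 s3 t1 t2
  have hn' : (0 : ℝ) < n := by exact_mod_cast hn
  refine ⟨_, ((((Len.gen false).pow i).mul (Len.gen true)).pow
    (cyc (ω false ^ i * ω true) a).card).mono ?_, ?_, ?_⟩
  · have a1 : (i : ℝ) + 1 ≤ k := by exact_mod_cast hi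
    have a2 : ((cyc (ω false ^ i * ω true) a).card : ℝ) ≤ n := by nlinarith [sq_nonneg d]
    exact mul_le_mul a2 (by linarith) (by positivity) hn'.le
  · rw [div_le_iff₀ (by positivity)] at h9
    have a1 : d ^ 2 * n / 2 ≤
        ((ω false ^ i * ω true) ^ (cyc (ω false ^ i * ω true) a).card).support.card := by linarith
    nlinarith [mul_le_mul_of_nonneg_left a1 (Nat.cast_nonneg (α := ℝ) (lg n))]
  · nlinarith

theorem whp_geom (S : Finset ℕ) {c x : ℕ} (h : ∀ i ∈ S, 2 ^ i * c ≤ x) :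
    (∑ i ∈ S, 2 ^ i) * c ≤ 2 * x := by
  rcases S.eq_empty_or_nonempty with rfl | hS
  · simp
  have h1 : ∑ i ∈ S, 2 ^ i < 2 ^ (S.max' hS + 1) :=
    Nat.geomSum_lt le_rfl fun k hk => Nat.lt_succ_of_le (S.le_max' k hk)
  have h2 := h _ (S.max'_mem hS)
  calc _ ≤ 2 ^ (S.max' hS + 1) * c := Nat.mul_le_mul_right c h1.le
    _ = 2 * (2 ^ S.max' hS * c) := by ring
    _ ≤ _ := by omega

theorem whp_dich_one {n L A : ℕ} (hL : 16000 ≤ L) (hA : 1 ≤ A) (h : A * (4 * L ^ 4) * L ≤ n) :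
    av (fun ω : Bool → Perm (Fin n) =>
      ind (¬Window ω (A * (4 * L ^ 4)) (1 / (400000 * (L : ℝ) ^ 4)) ∧
        ¬Sep ω A (4 * L ^ 4) (1 / (400000 * (L : ℝ) ^ 4)))) ≤
      128000 * ((A * (4 * L ^ 4) : ℕ) : ℝ) / n := by
  have hL4 : 1 ≤ L ^ 4 := Nat.one_le_pow _ _ (by omega)
  have hL4' : (1 : ℝ) ≤ (L : ℝ) ^ 4 := by exact_mod_cast hL4
  set R := A * (4 * L ^ 4) with hR
  have hR1 : 1 ≤ R := Nat.mul_pos hA (by omega)
  have h8 : 8000 * R ≤ n := le_trans (by nlinarith) h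
  set d := n / (8000 * R) with hd
  have hd1 : 1 ≤ d := (Nat.le_div_iff_mul_le (by omega)).2 (by omega)
  have h2 : n ≤ 16000 * R * d := by
    have := Nat.lt_mul_div_succ n (show 0 < 8000 * R by omega)
    rw [← hd] at this
    nlinarith
  have h2' : (n : ℝ) ≤ 16000 * R * d := by exact_mod_cast h2
  have hn : (0 : ℝ) < n := by exact_mod_cast (show 0 < n by omega)
  have hd0 : (0 : ℝ) < d := by exact_mod_cast hd1
  refine (dich (α := Fin n) (d := d) hA (by omega) hd1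
    (by rw [Fintype.card_fin]; exact Nat.mul_div_le n _) (by positivity) ?_ ?_).trans ?_
  · exact one_div_le_one_div_of_le (by norm_num) (by linarith)
  · rw [Fintype.card_fin, mul_one_div, div_mul_eq_mul_div, div_le_iff₀ (by positivity)]
    have e : (R : ℝ) = A * (4 * (L : ℝ) ^ 4) := by rw [hR]; push_cast; ring
    rw [e] at h2'
    have : (0 : ℝ) ≤ A * d * (L : ℝ) ^ 4 := by positivity
    nlinarith
  · rw [div_le_div_iff₀ hd0 hn]
    linarith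

theorem whp_dich (e : ℕ) : WHP fun n ω => ∀ i : ℕ, 2 ^ i * lg n ^ e * (4 * lg n ^ 4) * lg n ≤ n →
    Window ω (2 ^ i * lg n ^ e * (4 * lg n ^ 4)) (1 / (400000 * (lg n : ℝ) ^ 4)) ∨
      Sep ω (2 ^ i * lg n ^ e) (4 * lg n ^ 4) (1 / (400000 * (lg n : ℝ) ^ 4)) := by
  refine WHP.of_forall_le fun ζ hζ => ?_
  filter_upwards [ev_lg_ge 16000, whp_lg_ge (256000 / ζ), eventually_gt_atTop 0] with n h1 h2 hn
  set L := lg n with hL
  have hL1 : 0 < L := by omega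
  have hA : ∀ i, 0 < 2 ^ i * L ^ e := fun i => by positivity
  let S := (range n).filter fun i => 2 ^ i * L ^ e * (4 * L ^ 4) * L ≤ n
  have h3 := whp_geom S (c := L ^ e * (4 * L ^ 4) * L) (x := n) fun i hi => by
    have := (mem_filter.1 hi).2
    rwa [mul_assoc, mul_assoc, ← mul_assoc (L ^ e)] at this
  have h3' : (∑ i ∈ S, (2 : ℝ) ^ i) * ((L : ℝ) ^ e * (4 * (L : ℝ) ^ 4) * L) ≤ 2 * n := by
    exact_mod_cast h3
  have hn' : (0 : ℝ) < n := by exact_mod_cast hn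
  refine le_trans (av_mono fun ω => ind_le_sum S (fun i =>
    ¬Window ω (2 ^ i * L ^ e * (4 * L ^ 4)) (1 / (400000 * (L : ℝ) ^ 4)) ∧
      ¬Sep ω (2 ^ i * L ^ e) (4 * L ^ 4) (1 / (400000 * (L : ℝ) ^ 4))) fun h => ?_) ?_
  · obtain ⟨i, hi⟩ := not_forall.1 h
    obtain ⟨h4, h5⟩ := Classical.not_imp.1 hi
    refine ⟨i, mem_filter.2 ⟨mem_range.2 ?_, h4⟩, not_or.1 h5⟩
    have h6 : 0 < L ^ e * (4 * L ^ 4) * L := by positivity
    have h7 : 2 ^ i * 1 ≤ 2 ^ i * (L ^ e * (4 * L ^ 4) * L) := Nat.mul_le_mul_left _ h6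
    have h8 : 2 ^ i * (L ^ e * (4 * L ^ 4) * L) = 2 ^ i * L ^ e * (4 * L ^ 4) * L := by ring
    have h9 := Nat.lt_two_pow_self (n := i)
    omega
  rw [av_sum]
  refine (sum_le_sum fun i hi => whp_dich_one h1 (hA i) (mem_filter.1 hi).2).trans ?_
  push_cast
  rw [← sum_div, ← mul_sum, ← sum_mul, ← sum_mul, div_le_iff₀ hn']
  rw [div_le_iff₀ hζ] at h2
  have hL0 : (0 : ℝ) < L := by exact_mod_cast hL1
  refine le_of_mul_le_mul_right ?_ hL0
  have h4 := mul_le_mul_of_nonneg_right h2 hn'.le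
  calc _ = 128000 * ((∑ i ∈ S, (2 : ℝ) ^ i) * ((L : ℝ) ^ e * (4 * (L : ℝ) ^ 4) * L)) := by ring
    _ ≤ 256000 * n := by linarith
    _ ≤ _ := by linarith

end Pool.Agent.Lib.MP_8a89f5_al
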