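import Pool.Agent.Lib.MP_8a89f5_al.Q2Flat
import Pool.Agent.Lib.MP_8a89f5_al.Q2Ind
import Pool.Agent.Lib.MP_8a89f5_al.Q2Far
import Pool.Agent.Lib.MP_8a89f5_al.Q2Desc
import Pool.Agent.Lib.MP_8a89f5_al.Q2Supp
import Pool.Agent.Lib.MP_8a89f5_al.Q2Whp
import Pool.Agent.Lib.MP_8a89f5_al.Q2Mix
import Pool.Agent.Lib.MP_8a89f5_al.H90Asm

/-!
Assembly of the almost linear diameter bound.
-/

namespace Pool.Agent.Lib.MP_8a89f5_al

open Finset Equiv Filter Topology

theorem qm_pw {x c : ℝ} (hx : 10 ^ 6 ≤ x) (hc : c ≤ 10 ^ 6) {a b : ℕ} (h : a < b) :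
    c * x ^ a ≤ x ^ b := by
  have h1 : (1 : ℝ) ≤ x := le_trans (by norm_num) hx
  calc c * x ^ a ≤ x * x ^ a := by gcongr; exact hc.trans hx
    _ = x ^ (a + 1) := by ring
    _ ≤ _ := pow_le_pow_right₀ h1 h

theorem qm_pwN {x c : ℕ} (hx : 10 ^ 6 ≤ x) (hc : c ≤ 10 ^ 6) {a b : ℕ} (h : a < b) :
    c * x ^ a ≤ x ^ b := by
  have := qm_pw (x := x) (c := c) (by exact_mod_cast hx) (by exact_mod_cast hc) h
  exact_mod_cast this

theorem qm_le_exp {n L : ℕ} (hn : n < 2 ^ L) : (n : ℝ) ≤ Real.exp L := by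
  have h1 : (n : ℝ) ≤ 2 ^ L := by exact_mod_cast hn.le
  have h2 : (2 : ℝ) ≤ Real.exp 1 := by linarith [Real.add_one_le_exp 1]
  calc (n : ℝ) ≤ Real.exp 1 ^ L := h1.trans (by gcongr)
    _ = _ := by rw [← Real.exp_nat_mul, mul_one]

theorem qm_eta {x N k A : ℝ} (hx : 10 ^ 6 ≤ x) (hN : x ^ 200 ≤ N) (hN' : N ≤ Real.exp x)
    (hk : k = x ^ 308) (hA : A = x ^ 319) :
    (Real.log N + 1) * (3 * (1 / N) + 2 / N + 1 / x ^ 153 + 2 / (1 / (400000 * x ^ 4)) *
      (Real.log N / A / (1 / x ^ 159) + 4 * (1 / x ^ 159) +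
        2 * N ^ 2 * Real.exp (-(k * (1 / x ^ 153) ^ 2) / 4))) ≤ 1 / x ^ 151 := by
  have h1 : (1 : ℝ) ≤ x := le_trans (by norm_num) hx
  have h0 : (0 : ℝ) < x := by linarith
  have hN1 : 1 ≤ N := (one_le_pow₀ h1).trans hN
  have hN0 : 0 < N := by linarith
  have l0 : 0 ≤ Real.log N := Real.log_nonneg hN1
  have l1 : Real.log N ≤ x := (Real.log_le_iff_le_exp hN0).2 hN'
  have a1 : 3 * (1 / N) + 2 / N ≤ 1 / x ^ 153 := by
    rw [show 3 * (1 / N) + 2 / N = 5 / N by ring, div_le_div_iff₀ hN0 (by positivity)]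
    linarith [qm_pw hx (c := 5) (by norm_num) (show 153 < 200 by norm_num)]
  have a2 : 2 / (1 / (400000 * x ^ 4)) ≤ x ^ 5 := by
    rw [show 2 / (1 / (400000 * x ^ 4)) = 800000 * x ^ 4 by field_simp; norm_num]
    exact qm_pw hx (by norm_num) (by norm_num)
  have a3 : Real.log N / A / (1 / x ^ 159) ≤ 1 / x ^ 159 := by
    calc _ ≤ x / x ^ 319 / (1 / x ^ 159) := by rw [hA]; gcongr
      _ = _ := by field_simp
  have a4 : 2 * N ^ 2 * Real.exp (-(k * (1 / x ^ 153) ^ 2) / 4) ≤ 1 / x ^ 159 := by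
    have e : k * (1 / x ^ 153) ^ 2 = x ^ 2 := by rw [hk]; field_simp
    have b1 : x ≤ Real.exp x := by linarith [Real.add_one_le_exp x]
    have b2 : (2 : ℝ) ≤ Real.exp x := by linarith [Real.add_one_le_exp x]
    rw [e, le_div_iff₀ (by positivity)]
    calc 2 * N ^ 2 * Real.exp (-x ^ 2 / 4) * x ^ 159
        ≤ Real.exp x * Real.exp x ^ 2 * Real.exp (-x ^ 2 / 4) * Real.exp x ^ 159 := by gcongr
      _ = Real.exp (162 * x - x ^ 2 / 4) := by
          rw [← Real.exp_nat_mul, ← Real.exp_nat_mul, ← Real.exp_add, ← Real.exp_add,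
            ← Real.exp_add]
          congr 1; push_cast; ring
      _ ≤ 1 := Real.exp_le_one_iff.2 (by nlinarith)
  have a5 : 2 / (1 / (400000 * x ^ 4)) * (Real.log N / A / (1 / x ^ 159) + 4 * (1 / x ^ 159) +
      2 * N ^ 2 * Real.exp (-(k * (1 / x ^ 153) ^ 2) / 4)) ≤ 1 / x ^ 153 := by
    calc _ ≤ x ^ 5 * (6 * (1 / x ^ 159)) := by
          refine mul_le_mul a2 (by linarith) ?_ (by positivity)
          rw [hA]; positivity
      _ = 6 / x ^ 154 := by field_simp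
      _ ≤ _ := by
          rw [div_le_div_iff₀ (by positivity) (by positivity), one_mul]
          exact qm_pw hx (by norm_num) (by norm_num)
  calc _ ≤ (2 * x) * (3 * (1 / x ^ 153)) := by
        refine mul_le_mul (by linarith) (by linarith) ?_ (by positivity)
        rw [hA]; positivity
    _ = 6 / x ^ 152 := by field_simp; norm_num
    _ ≤ _ := by
        rw [div_le_div_iff₀ (by positivity) (by positivity), one_mul]
        exact qm_pw hx (by norm_num) (by norm_num)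

variable {α : Type} [Fintype α] [DecidableEq α] {ω : Bool → Perm α}

theorem qm_window {R : ℕ} {a : ℝ} (h : Window ω R a) :
    ∃ f, Len ω f (2 * R) ∧ a * Fintype.card α < f.support.card ∧
      2000 * (f.support.card : ℝ) ≤ Fintype.card α := by
  obtain ⟨g, g', hg, hg', h1, h2⟩ := h
  have e : dst ω g g' = ((ev ω g')⁻¹ * ev ω g).support.card := by
    rw [dst, sum_ind_eq_card]
    congr 2
    ext v
    simp only [mem_filter, mem_univ, true_and, Perm.mem_support, Perm.mul_apply, ne_eq,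
      Perm.inv_eq_iff_eq]
  refine ⟨(ev ω g')⁻¹ * ev ω g, ((Len.ev g').inv.mul (Len.ev g)).mono ?_, e ▸ h1, by linarith⟩
  rw [hg, hg']; linarith

theorem qm_flat {L i : ℕ} (hL : 10 ^ 6 ≤ L) (hn : Fintype.card α < 2 ^ L)
    (hbig : L ^ 2000 ≤ Fintype.card α) (h1 : Mix ω 1 (4 * L ^ 4))
    (h2 : Mix2 ω (4 * L ^ 4) (1 / Fintype.card α))
    (hfix : Fixs ω (4 * L ^ 4) ≤ Fintype.card α / 320)
    (hsz : 2 ^ i * L ^ 310 * (4 * L ^ 4) * L ≤ Fintype.card α)
    (hsep : Sep ω (2 ^ i * L ^ 310) (4 * L ^ 4) (1 / (400000 * (L : ℝ) ^ 4))) :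
    Flat ω (2 ^ i) (2 ^ i * (8 * L ^ 633)) (1 / (L : ℝ) ^ 151) := by
  have hx : (10 : ℝ) ^ 6 ≤ L := by exact_mod_cast hL
  have hx1 : (1 : ℝ) ≤ L := le_trans (by norm_num) hx
  have hL0 : 0 < L := lt_of_lt_of_le (by norm_num) hL
  have hN := qm_le_exp hn
  have hN2 : L ^ 200 ≤ Fintype.card α := (Nat.pow_le_pow_right hL0 (by norm_num)).trans hbig
  have hn2 : 2 ≤ Fintype.card α := by
    have := qm_pwN hL (c := 2) (by norm_num) (show 0 < 200 by norm_num)
    rw [pow_zero, mul_one] at this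
    exact this.trans hN2
  have hi : (1 : ℝ) ≤ 2 ^ i := one_le_pow₀ one_le_two
  have far := far_of_sep (B := Fintype.card α ^ (2 ^ i * L ^ 308)) h1
    (Nat.one_le_iff_ne_zero.2 (by positivity)) (Nat.one_le_iff_ne_zero.2 (by positivity)) hfix (by
      have h3 : ((2 ^ i * L ^ 310 : ℕ) : ℝ) * (4 * L ^ 4 : ℕ) * L ≤ Fintype.card α := by
        exact_mod_cast hsz
      have h4 : (0 : ℝ) ≤ ((2 ^ i * L ^ 310 : ℕ) : ℝ) * (4 * L ^ 4 : ℕ) := by positivity
      nlinarith)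
    (by
      have h3 : (64 : ℝ) ≤ Real.exp (2 ^ i * (L : ℝ) ^ 309) := by
        have h5 := qm_pw hx (c := 64) (by norm_num) (show 0 < 309 by norm_num)
        have h6 : (L : ℝ) ^ 309 ≤ 2 ^ i * (L : ℝ) ^ 309 :=
          le_mul_of_one_le_left (by positivity) hi
        linarith [Real.add_one_le_exp (2 ^ i * (L : ℝ) ^ 309)]
      have h4 := qm_pw hx (c := 80) (by norm_num) (show 309 < 310 by norm_num)
      calc (64 : ℝ) * (Fintype.card α ^ (2 ^ i * L ^ 308) : ℕ)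
          ≤ Real.exp (2 ^ i * (L : ℝ) ^ 309) * Real.exp L ^ (2 ^ i * L ^ 308) := by
            rw [Nat.cast_pow]; gcongr
        _ = Real.exp (2 ^ i * (2 * (L : ℝ) ^ 309)) := by
            rw [← Real.exp_nat_mul, ← Real.exp_add]
            congr 1; push_cast; ring
        _ ≤ _ := by
            refine Real.exp_le_exp.2 ?_
            push_cast
            rw [mul_div_assoc]
            gcongr
            linarith)
    (by positivity) hsep
  have fl := flat_of_far (M := 2 ^ i) (A := L ^ 319) (k := L ^ 308) (Δ := 1 / (L : ℝ) ^ 153)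
    (s := 1 / (L : ℝ) ^ 159) hn2 (by positivity) (by positivity) (by positivity) (by positivity)
    (by
      rw [div_le_one (by positivity)]
      nlinarith [one_le_pow₀ (n := 4) hx1])
    (by positivity) (by rw [div_le_one (by positivity)]; exact one_le_pow₀ hx1) (by positivity) h2
    far
  intro Z hZ t ht
  refine (fl Z hZ t (le_trans ?_ ht)).trans
    (qm_eta hx (by exact_mod_cast hN2) hN (by push_cast; rfl) (by push_cast; rfl))
  have h3 : 1 ≤ 2 ^ i * L ^ 310 := Nat.one_le_iff_ne_zero.2 (by positivity)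
  calc L ^ 319 * (4 * L ^ 4 + 2 ^ i * L ^ 310 * (4 * L ^ 4))
      ≤ L ^ 319 * (2 ^ i * L ^ 310 * (4 * L ^ 4) + 2 ^ i * L ^ 310 * (4 * L ^ 4)) := by
        exact Nat.mul_le_mul_left _ (Nat.add_le_add_right (Nat.le_mul_of_pos_left _ h3) _)
    _ = _ := by ring

/-- The scale at which a cheap element of small support exists. -/
theorem qm_scale {L : ℕ} (hL : 10 ^ 6 ≤ L) (hn : Fintype.card α < 2 ^ L)
    (hbig : L ^ 2000 ≤ Fintype.card α) (h1 : Mix ω 1 (4 * L ^ 4))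
    (h2 : Mix2 ω (4 * L ^ 4) (1 / Fintype.card α))
    (hfix : Fixs ω (4 * L ^ 4) ≤ Fintype.card α / 320)
    (hlong : ∃ g, Len ω g (Fintype.card α * L) ∧ (Fintype.card α : ℝ) ≤ L * g.support.card ∧
      2000 * (g.support.card : ℝ) ≤ Fintype.card α)
    (hdich : ∀ i : ℕ, 2 ^ i * L ^ 310 * (4 * L ^ 4) * L ≤ Fintype.card α →
      Window ω (2 ^ i * L ^ 310 * (4 * L ^ 4)) (1 / (400000 * (L : ℝ) ^ 4)) ∨
        Sep ω (2 ^ i * L ^ 310) (4 * L ^ 4) (1 / (400000 * (L : ℝ) ^ 4))) :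
    ∃ K : ℕ, K * L ^ 5 ≤ Fintype.card α ∧
      (∀ M, 1 ≤ M → M ≤ 2 * L ^ 120 * K → Flat ω M (M * L ^ 634) (1 / (L : ℝ) ^ 151)) ∧
      ∃ f, Len ω f ((L : ℝ) ^ 437 * (K + 1)) ∧
        (Fintype.card α : ℝ) ≤ (L : ℝ) ^ 5 * f.support.card ∧
        2000 * (f.support.card : ℝ) ≤ Fintype.card α := by
  classical
  have hx : (10 : ℝ) ^ 6 ≤ L := by exact_mod_cast hL
  have hx1 : (1 : ℝ) ≤ L := le_trans (by norm_num) hx
  have hL0 : 0 < L := lt_of_lt_of_le (by norm_num) hL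
  have hex : ∃ i : ℕ, Window ω (2 ^ i * L ^ 310 * (4 * L ^ 4)) (1 / (400000 * (L : ℝ) ^ 4)) ∨
      Fintype.card α < 2 ^ i * L ^ 310 * (4 * L ^ 4) * L := by
    refine ⟨L, Or.inr (hn.trans_le ?_)⟩
    rw [mul_assoc, mul_assoc]
    exact Nat.le_mul_of_pos_right _ (by positivity)
  obtain ⟨i0, hi0, hmin⟩ : ∃ i0 : ℕ, (Window ω (2 ^ i0 * L ^ 310 * (4 * L ^ 4))
      (1 / (400000 * (L : ℝ) ^ 4)) ∨ Fintype.card α < 2 ^ i0 * L ^ 310 * (4 * L ^ 4) * L) ∧
      ∀ i < i0, ¬Window ω (2 ^ i * L ^ 310 * (4 * L ^ 4)) (1 / (400000 * (L : ℝ) ^ 4)) ∧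
        2 ^ i * L ^ 310 * (4 * L ^ 4) * L ≤ Fintype.card α :=
    ⟨Nat.find hex, Nat.find_spec hex, fun i hi => by
      have := Nat.find_min hex hi
      rw [not_or, not_lt] at this
      exact this⟩
  obtain ⟨K, hK1, hK2⟩ : ∃ K : ℕ, 4 * L ^ 120 * K ≤ 2 ^ i0 ∧ 2 ^ i0 < 4 * L ^ 120 * (K + 1) :=
    ⟨2 ^ i0 / (4 * L ^ 120), Nat.mul_div_le _ _, Nat.lt_mul_div_succ _ (by positivity)⟩
  have hK3 : (2 : ℝ) ^ i0 ≤ 4 * (L : ℝ) ^ 120 * (K + 1) := by exact_mod_cast hK2.le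
  have h120 : 1 ≤ L ^ 120 := Nat.one_le_iff_ne_zero.2 (by positivity)
  refine ⟨K, ?_, fun M hM1 hM2 => ?_, ?_⟩
  · rcases Nat.eq_zero_or_pos i0 with rfl | hp
    · have : K = 0 := by
        by_contra h
        have : 1 ≤ L ^ 120 * K := Nat.one_le_iff_ne_zero.2 (by positivity)
        rw [mul_assoc] at hK1
        omega
      simp [this]
    · obtain ⟨i, rfl⟩ := Nat.exists_eq_add_one_of_ne_zero hp.ne'
      refine le_trans ?_ (hmin i (Nat.lt_succ_self i)).2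
      have h3 : K ≤ 2 ^ i := by
        have : K ≤ L ^ 120 * K := Nat.le_mul_of_pos_left _ h120
        rw [mul_assoc, pow_succ 2] at hK1
        omega
      have h4 := qm_pwN hL (c := 1) (by norm_num) (show 5 < 315 by norm_num)
      calc K * L ^ 5 ≤ 2 ^ i * (4 * L ^ 315) := Nat.mul_le_mul h3 (by omega)
        _ = _ := by ring
  · obtain ⟨i, j1, j2⟩ : ∃ i, 2 ^ i ≤ 2 * M - 1 ∧ 2 * M - 1 < 2 ^ (i + 1) :=
      ⟨Nat.log 2 (2 * M - 1), Nat.pow_log_le_self 2 (by omega),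
        Nat.lt_pow_succ_log_self one_lt_two _⟩
    rw [pow_succ] at j2
    have j3 : i < i0 := by
      refine (Nat.pow_lt_pow_iff_right one_lt_two).1 ?_
      rw [mul_assoc] at hK1 hM2
      omega
    have fl := qm_flat hL hn hbig h1 h2 hfix (hmin i j3).2
      ((hdich i (hmin i j3).2).resolve_left (hmin i j3).1)
    intro Z hZ t ht
    refine fl Z (by omega) t (le_trans ?_ ht)
    have h4 := qm_pwN hL (c := 16) (by norm_num) (show 633 < 634 by norm_num)
    calc 2 ^ i * (8 * L ^ 633) ≤ 2 * M * (8 * L ^ 633) := Nat.mul_le_mul_right _ (by omega)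
      _ = M * (16 * L ^ 633) := by ring
      _ ≤ _ := Nat.mul_le_mul_left _ h4
  · rcases hi0 with h | h
    · obtain ⟨f, f1, f2, f3⟩ := qm_window h
      refine ⟨f, f1.mono ?_, ?_, f3⟩
      · have h4 := qm_pw hx (c := 32) (by norm_num) (show 434 < 437 by norm_num)
        push_cast
        calc 2 * ((2 : ℝ) ^ i0 * L ^ 310 * (4 * L ^ 4))
            ≤ 2 * (4 * (L : ℝ) ^ 120 * (K + 1) * L ^ 310 * (4 * L ^ 4)) := by gcongr
          _ = 32 * (L : ℝ) ^ 434 * (K + 1) := by ring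
          _ ≤ _ := by gcongr
      · have h4 := qm_pw hx (c := 400000) (by norm_num) (show 4 < 5 by norm_num)
        rw [one_div_mul_eq_div, div_lt_iff₀ (by positivity)] at f2
        nlinarith [Nat.cast_nonneg (α := ℝ) f.support.card]
    · obtain ⟨f, f1, f2, f3⟩ := hlong
      refine ⟨f, f1.mono ?_, f2.trans ?_, f3⟩
      · have h4 := qm_pw hx (c := 16) (by norm_num) (show 436 < 437 by norm_num)
        have h5 : (Fintype.card α : ℝ) ≤ 2 ^ i0 * (L : ℝ) ^ 310 * (4 * L ^ 4) * L := by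
          exact_mod_cast h.le
        calc (Fintype.card α : ℝ) * L
            ≤ (4 * (L : ℝ) ^ 120 * (K + 1) * L ^ 310 * (4 * L ^ 4) * L) * L := by
              gcongr; exact h5.trans (by gcongr)
          _ = 16 * (L : ℝ) ^ 436 * (K + 1) := by ring
          _ ≤ _ := by gcongr
      · gcongr
        exact le_self_pow₀ hx1 (by norm_num)

theorem qm_det {L sb : ℕ} (hL : 10 ^ 6 ≤ L) (hn : Fintype.card α < 2 ^ L)
    (hbig : L ^ 2000 ≤ Fintype.card α) (hsb : 100 ≤ sb) (hsbL : sb ≤ L)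
    (hB : Fintype.card α < (L ^ 16) ^ (sb + 2)) (hmix : ∀ t ≤ sb, Mix ω t (4 * L ^ 4))
    (h2 : Mix2 ω (4 * L ^ 4) (1 / Fintype.card α))
    (hfix : Fixs ω (4 * L ^ 4) ≤ Fintype.card α / 320)
    (hlong : ∃ g, Len ω g (Fintype.card α * L) ∧ (Fintype.card α : ℝ) ≤ L * g.support.card ∧
      2000 * (g.support.card : ℝ) ≤ Fintype.card α)
    (hdich : ∀ i : ℕ, 2 ^ i * L ^ 310 * (4 * L ^ 4) * L ≤ Fintype.card α →
      Window ω (2 ^ i * L ^ 310 * (4 * L ^ 4)) (1 / (400000 * (L : ℝ) ^ 4)) ∨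
        Sep ω (2 ^ i * L ^ 310) (4 * L ^ 4) (1 / (400000 * (L : ℝ) ^ 4)))
    (g : Perm α) (hg : Perm.sign g = 1) : Len ω g (Fintype.card α * (L : ℝ) ^ 780) := by
  have hx : (10 : ℝ) ^ 6 ≤ L := by exact_mod_cast hL
  have hx1 : (1 : ℝ) ≤ L := le_trans (by norm_num) hx
  have hx0 : (0 : ℝ) < L := by linarith
  have hL0 : 0 < L := lt_of_lt_of_le (by norm_num) hL
  have m1 := hmix 1 (by omega)
  have m2 := hmix 2 (by omega)
  have m3 := hmix 3 (by omega)
  have big : ∀ c a : ℕ, c ≤ 10 ^ 6 → a < 2000 → c * L ^ a ≤ Fintype.card α :=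
    fun c a hc ha => (qm_pwN hL hc ha).trans hbig
  have hn4 : 4 ≤ Fintype.card α := by simpa using big 4 0 (by norm_num) (by norm_num)
  have hN0 : (0 : ℝ) < Fintype.card α := by exact_mod_cast (by omega : 0 < Fintype.card α)
  obtain ⟨K, hK, hflat, f, f1, f2, f3⟩ := qm_scale hL hn hbig m1 h2 hfix hlong hdich
  have hK2 : 2 * K ≤ Fintype.card α := by
    have := qm_pwN hL (c := 2) (by norm_num) (show 0 < 5 by norm_num)
    nlinarith
  have hK0 : (1 : ℝ) ≤ K + 1 := by linarith [Nat.cast_nonneg (α := ℝ) K]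
  have hsp := spread_all (m := 4 * L ^ 4) (T := L ^ 634) (K := K) hL (by omega) hn hsb hsbL
    (by
      have h3 : (Fintype.card α : ℝ) ≤ ((L : ℝ) ^ 16) ^ (sb + 2) := by exact_mod_cast hB.le
      calc (Fintype.card α : ℝ) ^ 2 ≤ (((L : ℝ) ^ 16) ^ (sb + 2)) ^ 2 := by gcongr
        _ ≤ _ := by
          rw [← pow_mul, ← pow_mul, ← pow_mul]
          exact pow_le_pow_right₀ hx1 (by omega))
    (fun s hs => spread_of_mix (hmix s hs) (le_trans (by gcongr; omega)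
      (big 10 2 (by norm_num) (by norm_num))))
    (qm_pwN hL (by norm_num) (by norm_num)) (by omega) hflat
  have hc : 200 * (L : ℝ) ^ 5 * ((L : ℝ) ^ 437 * (K + 1) + (4 * L ^ 4 : ℕ)) ≤
      (L : ℝ) ^ 444 * (K + 1) := by
    have h3 := qm_pw hx (c := 4) (by norm_num) (show 4 < 437 by norm_num)
    have h4 := qm_pw hx (c := 400) (by norm_num) (show 442 < 444 by norm_num)
    have h5 : (L : ℝ) ^ 437 ≤ (L : ℝ) ^ 437 * (K + 1) := le_mul_of_one_le_right (by positivity) hK0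
    push_cast
    calc 200 * (L : ℝ) ^ 5 * ((L : ℝ) ^ 437 * (K + 1) + 4 * L ^ 4)
        ≤ 200 * (L : ℝ) ^ 5 * (2 * ((L : ℝ) ^ 437 * (K + 1))) := by gcongr; linarith
      _ = 400 * (L : ℝ) ^ 442 * (K + 1) := by ring
      _ ≤ _ := by gcongr
  have hsc : ∀ s : ℝ, (L : ℝ) ^ 5 ≤ s → s * (L : ℝ) ^ 5 ≤ Fintype.card α →
      ∃ σ, Len ω σ ((L : ℝ) ^ 444 * (K + 1)) ∧ s / (2 * (L : ℝ) ^ 5) ≤ σ.support.card ∧
        (σ.support.card : ℝ) ≤ s := by
    intro s s1 s2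
    have s0 : 0 < s := lt_of_lt_of_le (by positivity) s1
    obtain ⟨σ, a1, a2, a3⟩ := supp_scale m1 m2 f1 (s := s) hL0 (by omega) hn f3
      (le_of_mul_le_mul_right (s2.trans (f2.trans_eq (mul_comm _ _))) (by positivity))
      (f2.trans (by gcongr))
    refine ⟨σ, a1.mono hc, le_trans ?_ a2, a3⟩
    rw [div_le_div_iff₀ (by positivity) (by positivity)]
    nlinarith [mul_le_mul_of_nonneg_left f2 s0.le]
  have hU : ∀ (c : ℝ) (a : ℕ), c ≤ 10 ^ 6 → a < 766 →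
      c * ((L : ℝ) ^ a * (K + 1)) ≤ (L : ℝ) ^ 766 * (K + 1) := fun c a h3 h4 => by
    rw [← mul_assoc]; gcongr; exact qm_pw hx h3 h4
  have h3 : ∀ g : Perm α, Perm.sign g = 1 →
      Len ω g (100 * ((g.support.card : ℝ) + L) * ((L : ℝ) ^ 766 * (K + 1))) := by
    intro g hg
    have b1 : ((8 * L ^ 10 : ℕ) : ℝ) ≤ Fintype.card α := by
      exact_mod_cast big 8 10 (by norm_num) (by norm_num)
    push_cast at b1
    have b0 : (0 : ℝ) < (L : ℝ) ^ 5 := by positivity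
    obtain ⟨σ, a1, a2, a3⟩ := hsc (2 * (L : ℝ) ^ 5) (by linarith) (by nlinarith)
    rw [div_self (by positivity)] at a2
    obtain ⟨τ, t1, t2, t3⟩ := three_cycle m1 m2 a1 (by rintro rfl; norm_num at a2) (by
      have : 2 * (σ.support.card : ℝ) ^ 2 ≤ Fintype.card α := by
        calc 2 * (σ.support.card : ℝ) ^ 2 ≤ 2 * (2 * (L : ℝ) ^ 5) ^ 2 := by gcongr
          _ = 8 * (L : ℝ) ^ 10 := by ring
          _ ≤ _ := b1
      exact_mod_cast this)
    have hcj := conj_of_trans (trans_of_mix m3 (by omega)) t3 t2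
    have hpos : 1 ≤ τ.support.card := by
      rw [Nat.one_le_iff_ne_zero, Ne, card_eq_zero, Perm.support_eq_empty_iff]; exact t1
    refine (gen_bound (j := 1) le_rfl (by omega) (by omega) hcj g hg).mono ?_
    have c1 : (Nat.log 2 (Fintype.card α) : ℝ) + 1 ≤ L := by
      exact_mod_cast Nat.log_lt_of_lt_pow (by omega) hn
    have c2 := qm_pw hx (c := 24) (by norm_num) (show 4 < 444 by norm_num)
    have c3 : (L : ℝ) ^ 444 ≤ (L : ℝ) ^ 444 * (K + 1) := le_mul_of_one_le_right (by positivity) hK0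
    have c4 := hU 5 444 (by norm_num) (by norm_num)
    rw [Nat.cast_one, div_one]
    push_cast
    refine mul_le_mul (by linarith) (by linarith) (by positivity) (by positivity)
  refine (descent (K := K) (N0 := 2 * L ^ 7) (N1 := L ^ 2) (P := 2 * (L : ℝ) ^ 5) hL0 hn
    (by linarith [one_le_pow₀ (n := 5) hx1])
    (by simpa using qm_pwN hL (c := 20) (by norm_num) (show 0 < 2 by norm_num))
    (by push_cast; exact le_of_eq (by ring)) hK2 h3 (fun s s1 s2 => ?_) (fun s s1 s2 => ?_) g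
    hg).mono ?_
  · obtain ⟨σ, a1, a2, a3⟩ := hsc s (by
      have := qm_pwN hL (c := 1) (by norm_num) (show 5 < 7 by norm_num)
      exact_mod_cast (by omega : L ^ 5 ≤ s))
      (by exact_mod_cast (Nat.mul_le_mul_right _ s2).trans hK)
    exact ⟨σ, a1.mono (by simpa using hU 1 444 (by norm_num) (by norm_num)), a2,
      by exact_mod_cast a3⟩
  · have s3 : (L : ℝ) ^ 2 ≤ s := by exact_mod_cast s1
    have s4 : (10 : ℝ) ^ 12 ≤ s := le_trans (by nlinarith) s3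
    have s0 : (0 : ℝ) < s := lt_of_lt_of_le (by norm_num) s4
    have nt := near_of_spread (hsp s s2) (ρ := s / 200) (by positivity) (by positivity) (by
      have e1 : -((s : ℝ) / 200) ^ 2 / (4 * s) = -(s / 160000) := by field_simp; norm_num
      have e2 : (s : ℝ) / (8 * (L : ℝ) ^ 11) ≤ s / 640000 := by
        gcongr
        linarith [le_self_pow₀ hx1 (show 11 ≠ 0 by norm_num)]
      have e3 := Real.add_one_le_exp ((s : ℝ) / 320000)
      have e4 : Real.exp (s / 640000) ^ 2 * Real.exp (-(s / 160000)) *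
          Real.exp ((s : ℝ) / 320000) = 1 := by
        rw [← Real.exp_nat_mul, ← Real.exp_add, ← Real.exp_add, ← Real.exp_zero]
        congr 1; push_cast; ring
      have e5 : 0 < Real.exp (s / 640000) ^ 2 * Real.exp (-((s : ℝ) / 160000)) := by positivity
      rw [e1]
      calc 4 * (16 * Real.exp (s / (8 * (L : ℝ) ^ 11))) ^ 2 * Real.exp (-(s / 160000))
          ≤ 4 * (16 * Real.exp (s / 640000)) ^ 2 * Real.exp (-(s / 160000)) := by gcongr
        _ = 1024 * (Real.exp (s / 640000) ^ 2 * Real.exp (-(s / 160000))) := by ring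
        _ < 1 := by nlinarith)
    intro a b
    obtain ⟨h, h4, h5⟩ := nt a b
    refine ⟨h, h4.mono (le_trans ?_ (hU 2 765 (by norm_num) (by norm_num))), h5⟩
    have : (s : ℝ) ≤ K := by exact_mod_cast s2
    push_cast
    rw [← pow_add]
    gcongr
  · have c1 := qm_pw hx (c := 3200) (by norm_num) (show 779 < 780 by norm_num)
    have c2 : (K : ℝ) + 1 ≤ Fintype.card α := by exact_mod_cast (by omega : K + 1 ≤ Fintype.card α)
    push_cast
    calc 400 * ((L : ℝ) ^ 766 * (K + 1)) * (2 * L ^ 5) * (2 * L ^ 7) * L *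
          (Fintype.card α / ((K : ℝ) + 1) + 1)
        = 1600 * (L : ℝ) ^ 779 * (Fintype.card α + (K + 1)) := by field_simp; norm_num
      _ ≤ 1600 * (L : ℝ) ^ 779 * (Fintype.card α + Fintype.card α) := by gcongr
      _ = Fintype.card α * (3200 * (L : ℝ) ^ 779) := by ring
      _ ≤ _ := by gcongr

theorem qm_base {n L : ℕ} (h1 : 10 ^ 6 ≤ L) (h2 : L ^ 2000 ≤ n) (h3 : Nat.log 2 n + 1 = L) :
    100 ≤ Nat.log (L ^ 16) n - 1 ∧ Nat.log (L ^ 16) n - 1 ≤ L ∧
      n < (L ^ 16) ^ (Nat.log (L ^ 16) n - 1 + 2) := by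
  have hb : 1 < L ^ 16 := Nat.one_lt_pow (by norm_num) (lt_of_lt_of_le (by norm_num) h1)
  have hL0 : 0 < L := lt_of_lt_of_le (by norm_num) h1
  have h4 : 101 ≤ Nat.log (L ^ 16) n := by
    refine Nat.le_log_of_pow_le hb (le_trans ?_ h2)
    rw [← pow_mul]
    exact Nat.pow_le_pow_right hL0 (by norm_num)
  have h5 : Nat.log (L ^ 16) n ≤ Nat.log 2 n := Nat.log_anti_left one_lt_two hb
  have h6 := Nat.lt_pow_succ_log_self hb n
  clear h2
  generalize L ^ 16 = b at *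
  refine ⟨by omega, by omega, ?_⟩
  rwa [show Nat.log b n - 1 + 2 = (Nat.log b n).succ by omega]

theorem qm_log {x y z : ℝ} (hx : 0 ≤ x) (hz : 0 ≤ z) (h : x ≤ y ^ 2) :
    z * x ^ 780 ≤ z * y ^ (1560 : ℝ) := by
  rw [show (1560 : ℝ) = ((2 * 780 : ℕ) : ℝ) by norm_num, Real.rpow_natCast, pow_mul]
  exact mul_le_mul_of_nonneg_left (pow_le_pow_left₀ hx h _) hz

theorem diam_lin_whp : WHP fun n ω => ∀ g : Perm (Fin n), Perm.sign g = 1 →
    Len ω g (n * Real.log n ^ (1560 : ℝ)) := by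
  refine (((whp_mix.and whp_fixs).and whp_long).and (whp_dich 310)).mono ?_
  filter_upwards [ev_lg_ge (10 ^ 6), ev_lg_pow_le 2000, ev_lg_le_log] with n h1 h2 h3
  rintro ω ⟨⟨⟨⟨m1, m2⟩, hf⟩, hl⟩, hd⟩ g hg
  obtain ⟨b1, b2, b3⟩ := qm_base h1 h2 rfl
  have hc := Fintype.card_fin n
  have := qm_det (α := Fin n) (L := lg n) (sb := sbase n) h1
    (hc.symm ▸ lt_two_pow_lg n) (hc.symm ▸ h2) b1 b2 (hc.symm ▸ b3) m1 (hc.symm ▸ m2)
    (hc.symm ▸ hf) (hc.symm ▸ hl) (hc.symm ▸ hd) g hg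
  rw [hc] at this
  exact this.mono (qm_log (Nat.cast_nonneg _) (Nat.cast_nonneg _) h3)

theorem diam_lin : ∃ C : ℝ, Tendsto (fun n : ℕ =>
      (Nat.card {p : alternatingGroup (Fin n) × alternatingGroup (Fin n) //
        ∀ g : alternatingGroup (Fin n), ∃ l : List (alternatingGroup (Fin n)),
          (∀ z ∈ l, z = p.1 ∨ z = p.2 ∨ z = p.1⁻¹ ∨ z = p.2⁻¹) ∧ l.prod = g ∧
            (l.length : ℝ) ≤ n * Real.log n ^ C} : ℝ) /
        Nat.card (alternatingGroup (Fin n) × alternatingGroup (Fin n))) atTop (𝓝 1) := by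
  refine ⟨1560, alt_of_whp diam_lin_whp _ fun n p hp g => ?_⟩
  obtain ⟨l, h1, h2, h3⟩ := hp g (Perm.mem_alternatingGroup.1 g.2)
  obtain ⟨l', i1, i2, i3⟩ := lift_list (alternatingGroup (Fin n))
    (fun z => z = p.1 ∨ z = p.2 ∨ z = p.1⁻¹ ∨ z = p.2⁻¹) l fun z hz => by
      rcases h1 z hz with h | h | h | h
      · exact ⟨p.1, h.symm, Or.inl rfl⟩
      · exact ⟨p.2, h.symm, Or.inr (Or.inl rfl)⟩
      · exact ⟨p.1⁻¹, h.symm, Or.inr (Or.inr (Or.inl rfl))⟩
      · exact ⟨p.2⁻¹, h.symm, Or.inr (Or.inr (Or.inr rfl))⟩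
  exact ⟨l', i1, Subtype.ext (i2.trans h2), by rw [i3]; exact h3⟩

end Pool.Agent.Lib.MP_8a89f5_al
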