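import Pool.Agent.Lib.MP_8a89f5_al.Q2Prob

/-!
Planting a blockwise dense random tuple in a uniform array.
-/

namespace Pool.Agent.Lib.MP_8a89f5_al

open Finset Equiv

variable {α : Type} [Fintype α] [DecidableEq α]

theorem plant_point (y t a : ℝ) (hy : 0 ≤ y) :
    y * (t - a) ≤ Real.exp t - 2 * y + y * y * Real.exp (-a) := by
  rcases hy.eq_or_lt with rfl | hy
  · simpa using (Real.exp_pos t).le
  · obtain ⟨u, rfl⟩ : ∃ u, y = Real.exp u := ⟨Real.log y, (Real.exp_log hy).symm⟩
    have e1 : Real.exp t = Real.exp u * Real.exp (t - u) := by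
      rw [← Real.exp_add]; congr 1; ring
    have e2 : Real.exp u * Real.exp u * Real.exp (-a) = Real.exp u * Real.exp (u - a) := by
      rw [mul_assoc, ← Real.exp_add u (-a)]; congr 2
    have h1 := mul_le_mul_of_nonneg_left (Real.add_one_le_exp (t - u)) hy.le
    have h2 := mul_le_mul_of_nonneg_left (Real.add_one_le_exp (u - a)) hy.le
    rw [e2]; nlinarith

/-- The entries of the columns before `c`. -/
def plantPrev {j ρ : ℕ} (W : Fin j → Fin ρ → α) (c : Fin j) : Finset α :=
  (Iio c).biUnion fun c' => univ.image (W c')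

omit [Fintype α] in
theorem plant_mem_prev {j ρ : ℕ} {W : Fin j → Fin ρ → α} {c : Fin j} {a : α} :
    a ∈ plantPrev W c ↔ ∃ c', c' < c ∧ ∃ i, W c' i = a := by
  simp [plantPrev]

omit [Fintype α] in
theorem plant_prev_zero {j ρ : ℕ} (W : Fin (j + 1) → Fin ρ → α) : plantPrev W 0 = ∅ := by
  ext a; simp [plant_mem_prev]

omit [Fintype α] in
theorem plant_prev_succ {j ρ : ℕ} (w : Fin ρ → α) (W : Fin j → Fin ρ → α) (c : Fin j) :
    plantPrev (Fin.cons w W : Fin (j + 1) → Fin ρ → α) c.succ = univ.image w ∪ plantPrev W c := by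
  ext a
  simp only [plant_mem_prev, mem_union, mem_image, mem_univ, true_and, Fin.exists_fin_succ,
    Fin.succ_pos, Fin.cons_zero, Fin.cons_succ, Fin.succ_lt_succ_iff]

theorem plant_exp [Nonempty α] {ρ M : ℕ} (ψ : Finset α → α → ℝ) (h0 : ∀ Z b, 0 ≤ ψ Z b)
    (h1 : ∀ Z b, ψ Z b ≤ 1) {η : ℝ} (hη : ∀ Z : Finset α, Z.card ≤ M → av (ψ Z) ≤ η) :
    ∀ (j : ℕ) (Z : Finset α), Z.card + j * ρ ≤ M →
      av (fun W : Fin j → Fin ρ → α => Real.exp (∑ c, ∑ i, ψ (Z ∪ plantPrev W c) (W c i))) ≤
        Real.exp (j * (2 * ρ * η))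
  | 0, Z, _ => by simp [av_const]
  | j + 1, Z, hM => by
    have hZ : Z.card ≤ M := le_trans (Nat.le_add_right _ _) hM
    have hcol : av (fun w : Fin ρ → α => Real.exp (∑ i, ψ Z (w i))) ≤ Real.exp (2 * ρ * η) := by
      simp only [Real.exp_sum]
      rw [av_pi (fun _ a => Real.exp (ψ Z a))]
      have hb : av (fun a => Real.exp (ψ Z a)) ≤ Real.exp (2 * η) := by
        refine (av_mono (g := fun a => 1 + 2 * ψ Z a) fun a => ?_).trans ?_
        · have := Real.abs_exp_sub_one_le (x := ψ Z a) (by rw [abs_of_nonneg (h0 Z a)]; exact h1 Z a)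
          rw [abs_of_nonneg (h0 Z a)] at this
          linarith [le_abs_self (Real.exp (ψ Z a) - 1)]
        · rw [av_add, av_const, av_mul_left]
          linarith [Real.add_one_le_exp (2 * η), hη Z hZ]
      refine (prod_le_prod (fun _ _ => av_nonneg fun a => (Real.exp_pos _).le)
        (fun _ _ => hb)).trans (le_of_eq ?_)
      rw [prod_const, card_univ, Fintype.card_fin, ← Real.exp_nat_mul]; congr 1; ring
    rw [← av_equiv (Fin.consEquiv fun _ : Fin (j + 1) => Fin ρ → α), av_prod]
    have hstep : ∀ w : Fin ρ → α, av (fun W : Fin j → Fin ρ → α => Real.exp (∑ c, ∑ i,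
        ψ (Z ∪ plantPrev (Fin.cons w W : Fin (j + 1) → Fin ρ → α) c)
          ((Fin.cons w W : Fin (j + 1) → Fin ρ → α) c i))) ≤
        Real.exp (∑ i, ψ Z (w i)) * Real.exp (j * (2 * ρ * η)) := by
      intro w
      have hc : (Z ∪ univ.image w).card + j * ρ ≤ M := by
        have a1 := card_union_le Z (univ.image w)
        have a2 : (univ.image w).card ≤ ρ := card_image_le.trans (by simp)
        have a3 : (j + 1) * ρ = j * ρ + ρ := by ring
        omega
      simp only [Fin.sum_univ_succ, plant_prev_zero, plant_prev_succ, union_empty, Fin.cons_zero,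
        Fin.cons_succ, Real.exp_add, ← union_assoc]
      rw [av_mul_left]
      exact mul_le_mul_of_nonneg_left (plant_exp ψ h0 h1 hη j _ hc) (Real.exp_pos _).le
    refine (av_mono hstep).trans ?_
    rw [av_mul_right]
    refine (mul_le_mul_of_nonneg_right hcol (Real.exp_pos _).le).trans (le_of_eq ?_)
    rw [← Real.exp_add]; congr 1; push_cast; ring

omit [DecidableEq α] in
theorem plant_one [Nonempty α] {ρ : ℕ} (i : Fin ρ) (a : α) :
    av (fun w : Fin ρ → α => (Fintype.card α : ℝ) * ind (a = w i)) = 1 := by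
  have hn : (Fintype.card α : ℝ) ≠ 0 := by exact_mod_cast Fintype.card_ne_zero
  rw [av_eval i (fun b => (Fintype.card α : ℝ) * ind (a = b)), av_mul_left, av_ind_eq]
  field_simp

theorem plant_two [Nonempty α] {ρ : ℕ} (i i' : Fin ρ) (a a' : α) :
    av (fun w : Fin ρ → α => ((Fintype.card α : ℝ) * ind (a = w i)) *
      ((Fintype.card α : ℝ) * ind (a' = w i'))) =
      if i' = i then (Fintype.card α : ℝ) * ind (a' = a) else 1 := by
  have hn : (Fintype.card α : ℝ) ≠ 0 := by exact_mod_cast Fintype.card_ne_zero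
  split_ifs with h
  · subst h
    have e : ∀ w : Fin ρ → α, ((Fintype.card α : ℝ) * ind (a = w i')) *
        ((Fintype.card α : ℝ) * ind (a' = w i')) =
        ((Fintype.card α : ℝ) * ind (a = w i')) * ((Fintype.card α : ℝ) * ind (a' = a)) := by
      intro w
      by_cases hw : a = w i'
      · rw [← hw]
      · rw [ind_neg hw]; ring
    simp only [e]
    rw [av_mul_right, plant_one, one_mul]
  · have hb : ∀ b : α, av (fun c => (Fintype.card α : ℝ) * ind (b = c)) = 1 := fun b => by
      rw [av_mul_left, av_ind_eq]; field_simp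
    let f : Fin ρ → α → ℝ := fun k b => (if k = i then (Fintype.card α : ℝ) * ind (a = b) else 1) *
      (if k = i' then (Fintype.card α : ℝ) * ind (a' = b) else 1)
    have e : ∀ w : Fin ρ → α, ((Fintype.card α : ℝ) * ind (a = w i)) *
        ((Fintype.card α : ℝ) * ind (a' = w i')) = ∏ k, f k (w k) := by
      intro w
      simp only [f, prod_mul_distrib, prod_ite_eq', mem_univ, if_true]
    simp only [e]
    rw [av_pi f]
    refine prod_eq_one fun k _ => ?_
    by_cases h1 : k = i
    · have h2 : k ≠ i' := fun h2 => h (h2.symm.trans h1)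
      simp only [f, if_pos h1, if_neg h2, mul_one]; exact hb a
    · by_cases h2 : k = i'
      · simp only [f, if_neg h1, if_pos h2, one_mul]; exact hb a'
      · simp only [f, if_neg h1, if_neg h2, mul_one]; exact av_const 1

/-- Density of the arrays that carry the tuple `a` at the positions `r`. -/
noncomputable def plantD {j ρ : ℕ} (r : Fin j → Fin ρ) (a : Fin j → α)
    (W : Fin j → Fin ρ → α) : ℝ := ∏ c, (Fintype.card α : ℝ) * ind (a c = W c (r c))

omit [DecidableEq α] in
theorem plantD_nonneg {j ρ : ℕ} (r : Fin j → Fin ρ) (a : Fin j → α) (W : Fin j → Fin ρ → α) :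
    0 ≤ plantD r a W :=
  prod_nonneg fun _ _ => mul_nonneg (Nat.cast_nonneg _) (ind_nonneg _)

theorem plantD_av [Nonempty α] {j ρ : ℕ} (r : Fin j → Fin ρ) (a : Fin j → α) :
    av (plantD r a) = 1 := by
  unfold plantD
  rw [av_pi (fun c (w : Fin ρ → α) => (Fintype.card α : ℝ) * ind (a c = w (r c)))]
  exact prod_eq_one fun c _ => plant_one _ _

theorem plantD_pair [Nonempty α] {j ρ : ℕ} (r r' : Fin j → Fin ρ) (a a' : Fin j → α) :
    av (fun W => plantD r a W * plantD r' a' W) =
      (Fintype.card α : ℝ) ^ (univ.filter fun c => r' c = r c).card *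
        ind (∀ c ∈ univ.filter fun c => r' c = r c, a' c = a c) := by
  simp only [plantD, ← prod_mul_distrib]
  rw [av_pi (fun c (w : Fin ρ → α) => ((Fintype.card α : ℝ) * ind (a c = w (r c))) *
    ((Fintype.card α : ℝ) * ind (a' c = w (r' c))))]
  simp only [plant_two]
  rw [← prod_filter, prod_mul_distrib, prod_const]
  congr 1
  by_cases h : ∀ c ∈ univ.filter fun c => r' c = r c, a' c = a c
  · rw [ind_pos h]; exact prod_eq_one fun c hc => ind_pos (h c hc)
  · rw [ind_neg h]
    push Not at h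
    obtain ⟨c, hc, hne⟩ := h
    exact prod_eq_zero hc (ind_neg hne)

theorem plant_pos {j ρ : ℕ} (hρ : 0 < ρ) {Λ : ℝ} (hΛ : 0 ≤ Λ) (r : Fin j → Fin ρ) :
    av (fun r' : Fin j → Fin ρ => Λ ^ (univ.filter fun c => r' c = r c).card) ≤
      Real.exp (j * (Λ / ρ)) := by
  have : Nonempty (Fin ρ) := ⟨⟨0, hρ⟩⟩
  have e : ∀ r' : Fin j → Fin ρ, Λ ^ (univ.filter fun c => r' c = r c).card =
      ∏ c, (if r' c = r c then Λ else 1) := fun r' => by rw [← prod_filter, prod_const]
  simp only [e]
  rw [av_pi (fun c (i : Fin ρ) => if i = r c then Λ else 1)]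
  have hb : ∀ c, av (fun i : Fin ρ => if i = r c then Λ else 1) ≤ Real.exp (Λ / ρ) := by
    intro c
    refine (av_mono (g := fun i => 1 + Λ * ind (r c = i)) fun i => ?_).trans ?_
    · split_ifs with h
      · rw [ind_pos h.symm]; linarith
      · have := mul_nonneg hΛ (ind_nonneg (r c = i)); linarith
    · rw [av_add, av_const, av_mul_left, av_ind_eq, Fintype.card_fin, mul_one_div]
      linarith [Real.add_one_le_exp (Λ / ρ)]
  refine (prod_le_prod (fun _ _ => av_nonneg fun i => ?_) (fun c _ => hb c)).trans (le_of_eq ?_)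
  · split_ifs
    · exact hΛ
    · exact zero_le_one
  · rw [prod_const, card_univ, Fintype.card_fin, ← Real.exp_nat_mul]

theorem plant [Nonempty α] {Ω : Type} [Fintype Ω] [Nonempty Ω] {j ρ M : ℕ} (hρ : 0 < ρ)
    (ψ : Finset α → α → ℝ) (h0 : ∀ Z b, 0 ≤ ψ Z b) (h1 : ∀ Z b, ψ Z b ≤ 1)
    (hmono : ∀ Z Z' b, Z ⊆ Z' → ψ Z b ≤ ψ Z' b) {η Λ : ℝ}
    (hη : ∀ Z : Finset α, Z.card ≤ M → av (ψ Z) ≤ η) (Z : Finset α) (hM : Z.card + j * ρ ≤ M)
    (x : Ω → Fin j → α) (hΛ : 0 ≤ Λ)
    (hx : ∀ (I : Finset (Fin j)) (y : Ω), (Fintype.card α : ℝ) ^ I.card *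
      av (fun l => ind (∀ c ∈ I, x l c = x y c)) ≤ Λ ^ I.card) :
    av (fun l => ∑ c, ψ (Z ∪ (Iio c).image (x l)) (x l c)) ≤ j * (Λ / ρ + 2 * ρ * η) := by
  have : Nonempty (Fin ρ) := ⟨⟨0, hρ⟩⟩
  let T := (Fin j → Fin ρ) × Ω
  let D : T → (Fin j → Fin ρ → α) → ℝ := fun z => plantD z.1 (x z.2)
  let LR : (Fin j → Fin ρ → α) → ℝ := fun W => av fun z : T => D z W
  let N : (Fin j → Fin ρ → α) → ℝ := fun W => ∑ c, ∑ i, ψ (Z ∪ plantPrev W c) (W c i)
  let S : Ω → ℝ := fun l => ∑ c, ψ (Z ∪ (Iio c).image (x l)) (x l c)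
  have hLR0 : ∀ W, 0 ≤ LR W := fun W => av_nonneg fun z => plantD_nonneg _ _ _
  have hD1 : ∀ z, av (D z) = 1 := fun z => plantD_av _ _
  have a1 : av LR = 1 := by
    have := av_comm (fun W (z : T) => D z W)
    refine this.trans ?_
    simp only [hD1]; exact av_const 1
  have a2 : av (fun W => LR W * LR W) ≤ Real.exp (j * (Λ / ρ)) := by
    have e : ∀ W, LR W * LR W = av fun z : T => av fun z' : T => D z W * D z' W := fun W => by
      simp only [av_mul_left, av_mul_right, LR]
    simp only [e]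
    rw [av_comm (fun W (z : T) => av fun z' : T => D z W * D z' W)]
    refine av_le_const' fun z => ?_
    rw [av_comm (fun W (z' : T) => D z W * D z' W), av_prod]
    refine le_trans (av_mono fun r' => ?_) (plant_pos hρ hΛ z.1)
    simp only [D, plantD_pair]
    rw [av_mul_left]
    exact hx _ z.2
  have a3 := plant_exp ψ h0 h1 hη j Z hM
  have a4 : av S ≤ av fun W => LR W * N W := by
    have e : ∀ W, LR W * N W = av fun z : T => D z W * N W := fun W => by
      simp only [av_mul_right, LR]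
    simp only [e]
    rw [av_comm (fun W (z : T) => D z W * N W)]
    have e2 : av S = av fun z : T => S z.2 := by
      rw [av_prod]; exact (av_const _).symm
    rw [e2]
    refine av_mono fun z => ?_
    have e3 : S z.2 = av fun W => D z W * S z.2 := by rw [av_mul_right, hD1, one_mul]
    rw [e3]
    refine av_mono fun W => ?_
    by_cases hW : ∀ c, x z.2 c = W c (z.1 c)
    · refine mul_le_mul_of_nonneg_left (sum_le_sum fun c _ => ?_) (plantD_nonneg _ _ _)
      refine le_trans ?_ (single_le_sum (f := fun i => ψ (Z ∪ plantPrev W c) (W c i))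
        (fun i _ => h0 _ _) (mem_univ (z.1 c)))
      rw [← hW c]
      refine hmono _ _ _ (union_subset_union_right fun a ha => ?_)
      obtain ⟨c', hc', rfl⟩ := mem_image.1 ha
      exact plant_mem_prev.2 ⟨c', mem_Iio.1 hc', z.1 c', (hW c').symm⟩
    · push Not at hW
      obtain ⟨c, hc⟩ := hW
      have : D z W = 0 := prod_eq_zero (mem_univ c) (by rw [ind_neg hc, mul_zero])
      rw [this, zero_mul, zero_mul]
  set k : ℝ := j * (2 * ρ * η) with hk
  set a : ℝ := j * (Λ / ρ) with ha
  have a5 : av (fun W => LR W * N W - (k + a) * LR W) ≤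
      av fun W => Real.exp (N W) * Real.exp (-k) - 2 * LR W + LR W * LR W * Real.exp (-a) := by
    refine av_mono fun W => ?_
    have := plant_point (LR W) (N W - k) a (hLR0 W)
    rw [sub_eq_add_neg (N W) k, Real.exp_add] at this
    linarith
  rw [av_sub, av_add, av_sub, av_mul_left, av_mul_left, av_mul_right, av_mul_right, a1] at a5
  have b1 : av (fun W => Real.exp (N W)) * Real.exp (-k) ≤ 1 := by
    refine (mul_le_mul_of_nonneg_right a3 (Real.exp_pos _).le).trans (le_of_eq ?_)
    rw [← Real.exp_add, add_neg_cancel, Real.exp_zero]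
  have b2 : av (fun W => LR W * LR W) * Real.exp (-a) ≤ 1 := by
    refine (mul_le_mul_of_nonneg_right a2 (Real.exp_pos _).le).trans (le_of_eq ?_)
    rw [← Real.exp_add, add_neg_cancel, Real.exp_zero]
  have b3 : (j : ℝ) * (Λ / ρ + 2 * ρ * η) = k + a := by rw [hk, ha]; ring
  rw [b3]
  change av S ≤ k + a
  linarith

end Pool.Agent.Lib.MP_8a89f5_al
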