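import Pool.Agent.Lib.MP_8a89f5_al.Q2Defs

/-!
General finite probability: products, Hoeffding's bound, conditional averages.
-/

namespace Pool.Agent.Lib.MP_8a89f5_al

open Finset Equiv

theorem av_pi {ι β : Type*} [Fintype ι] [DecidableEq ι] [Fintype β] (f : ι → β → ℝ) :
    av (fun x : ι → β => ∏ i, f i (x i)) = ∏ i, av (f i) := by
  simp only [av]
  rw [prod_div_distrib, prod_univ_sum, Fintype.piFinset_univ, prod_const, Fintype.card_fun,
    card_univ]
  push_cast
  rfl

theorem av_eval {ι β : Type*} [Fintype ι] [DecidableEq ι] [Fintype β] [Nonempty β] (i : ι)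
    (f : β → ℝ) : av (fun x : ι → β => f (x i)) = av f := by
  have h := av_pi (fun j : ι => fun b : β => if j = i then f b else 1)
  have e1 : ∀ x : ι → β, (∏ j, if j = i then f (x j) else 1) = f (x i) := fun x => by
    rw [prod_ite_eq']
    simp
  have e2 : ∀ j : ι, av (fun b : β => if j = i then f b else 1) = if j = i then av f else 1 := by
    intro j
    split_ifs
    · rfl
    · exact av_const 1
  simp only [e1, e2, prod_ite_eq', mem_univ, if_true] at h
  exact h

theorem hoeffding {Ω : Type*} [Fintype Ω] [Nonempty Ω] (X : Ω → ℝ) (hX : ∀ x, |X x| ≤ 1)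
    {μ Δ : ℝ} (hμ : μ ≤ av X) (h0 : 0 ≤ Δ) (h1 : Δ ≤ 1) (k : ℕ) :
    av (fun z : Fin k → Ω => ind (∑ i, X (z i) < k * (μ - Δ))) ≤
      Real.exp (-(k * Δ ^ 2) / 4) := by
  set m := av X with hm
  have hm1 : |m| ≤ 1 := abs_le.2
    ⟨le_av_const fun x => (abs_le.1 (hX x)).1, av_le_const' fun x => (abs_le.1 (hX x)).2⟩
  have hvar : av (fun x => (m - X x) ^ 2) ≤ 1 := by
    have e : (fun x => (m - X x) ^ 2) = fun x => (X x ^ 2 - 2 * m * X x) + m ^ 2 := by
      funext x
      ring
    rw [e, av_add, av_sub, av_mul_left, av_const, ← hm]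
    have : av (fun x => X x ^ 2) ≤ 1 := av_le_const' fun x => by
      have := abs_le.1 (hX x)
      nlinarith
    nlinarith [sq_nonneg m]
  have hone : av (fun x => Real.exp (Δ / 2 * (m - X x))) ≤ Real.exp ((Δ / 2) ^ 2) := by
    have h2 : ∀ x, Real.exp (Δ / 2 * (m - X x)) ≤
        1 + Δ / 2 * (m - X x) + (Δ / 2) ^ 2 * (m - X x) ^ 2 := by
      intro x
      have hb : |Δ / 2 * (m - X x)| ≤ 1 := by
        have a1 := abs_le.1 (hX x)
        have a2 := abs_le.1 hm1
        rw [abs_le]
        constructor <;> nlinarith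
      have := (abs_le.1 (Real.abs_exp_sub_one_sub_id_le hb)).2
      rw [mul_pow] at this
      linarith
    refine (av_mono h2).trans ?_
    rw [av_add, av_add, av_const, av_mul_left, av_mul_left, av_sub, av_const, ← hm, sub_self]
    have h3 := Real.add_one_le_exp ((Δ / 2) ^ 2)
    nlinarith [sq_nonneg (Δ / 2)]
  have hpt : ∀ z : Fin k → Ω, ind (∑ i, X (z i) < k * (μ - Δ)) ≤
      Real.exp (-(k * Δ ^ 2) / 2) * ∏ i, Real.exp (Δ / 2 * (m - X (z i))) := by
    intro z
    rw [← Real.exp_sum, ← Real.exp_add]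
    refine ind_le_of (Real.exp_pos _).le fun h => Real.one_le_exp ?_
    rw [← mul_sum, sum_sub_distrib, sum_const, card_univ, Fintype.card_fin, nsmul_eq_mul]
    have hk : (0 : ℝ) ≤ k := Nat.cast_nonneg k
    have h4 : (k : ℝ) * μ ≤ k * m := mul_le_mul_of_nonneg_left hμ hk
    have h5 : 0 ≤ Δ / 2 * (k * m - ∑ i, X (z i) - k * Δ) :=
      mul_nonneg (by linarith) (by linarith)
    linarith
  refine (av_mono hpt).trans ?_
  rw [av_mul_left, av_pi (fun _ : Fin k => fun x => Real.exp (Δ / 2 * (m - X x))), prod_const,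
    card_univ, Fintype.card_fin]
  have h6 := pow_le_pow_left₀ (av_nonneg fun x => (Real.exp_pos _).le) hone k
  refine (mul_le_mul_of_nonneg_left h6 (Real.exp_pos _).le).trans (le_of_eq ?_)
  rw [← Real.exp_nat_mul, ← Real.exp_add]
  congr 1
  ring

section cnd
variable {Ω β : Type*} [Fintype Ω] (c : Ω → β)

theorem cell_pos (x : Ω) : 0 < av fun y => ind (c y = c x) := by
  have : Nonempty Ω := ⟨x⟩
  refine div_pos ?_ (by exact_mod_cast Fintype.card_pos)
  refine lt_of_lt_of_le ?_
    (single_le_sum (f := fun y => ind (c y = c x)) (fun y _ => ind_nonneg _) (mem_univ x))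
  rw [ind_pos rfl]
  exact one_pos

theorem cnd_congr {x x' : Ω} (h : c x = c x') (F : Ω → ℝ) : cnd c x F = cnd c x' F := by
  simp only [cnd, h]

theorem cnd_mono (x : Ω) {F F' : Ω → ℝ} (h : ∀ y, c y = c x → F y ≤ F' y) :
    cnd c x F ≤ cnd c x F' := by
  refine div_le_div_of_nonneg_right (av_mono fun y => ?_) (cell_pos c x).le
  by_cases hy : c y = c x
  · exact mul_le_mul_of_nonneg_left (h y hy) (ind_nonneg _)
  · rw [ind_neg hy, zero_mul, zero_mul]

theorem cnd_const (x : Ω) (a : ℝ) : cnd c x (fun _ => a) = a := by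
  rw [cnd, av_mul_right, mul_div_cancel_left₀ _ (cell_pos c x).ne']

theorem cnd_nonneg (x : Ω) {F : Ω → ℝ} (h : ∀ y, 0 ≤ F y) : 0 ≤ cnd c x F := by
  exact (cnd_const c x 0).symm.le.trans (cnd_mono c x fun y _ => h y)

theorem cnd_add (x : Ω) (F F' : Ω → ℝ) :
    cnd c x (fun y => F y + F' y) = cnd c x F + cnd c x F' := by
  simp only [cnd, mul_add, av_add, add_div]

theorem cnd_mul_left (x : Ω) (a : ℝ) (F : Ω → ℝ) :
    cnd c x (fun y => a * F y) = a * cnd c x F := by
  simp only [cnd, mul_left_comm _ a, av_mul_left, mul_div_assoc]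

theorem cnd_sum {ι : Type*} (x : Ω) (S : Finset ι) (F : ι → Ω → ℝ) :
    cnd c x (fun y => ∑ i ∈ S, F i y) = ∑ i ∈ S, cnd c x (F i) := by
  simp only [cnd, mul_sum, av_sum, sum_div]

/-- Two points of one cell are exchangeable. -/
theorem av_cnd_symm (F : Ω → Ω → ℝ) :
    av (fun x => cnd c x fun y => F x y) = av fun x => cnd c x fun y => F y x := by
  simp only [cnd, ← av_div]
  rw [av_comm]
  congr 1
  funext x
  congr 1
  funext y
  by_cases h : c x = c y
  · simp only [h]
  · rw [ind_neg h, ind_neg (Ne.symm h), zero_mul, zero_div, zero_div]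

theorem av_cnd (F : Ω → ℝ) : av (fun x => cnd c x F) = av F := by
  have h := av_cnd_symm c (fun _ y => F y)
  simp only [cnd_const] at h
  exact h

/-- Tower rule for a function that depends on the cell and on the value of `X`. -/
theorem av_tower {γ : Type*} [Fintype γ] (X : Ω → γ) (Ψ : Ω → γ → ℝ)
    (hΨ : ∀ x y, c x = c y → Ψ x = Ψ y) :
    av (fun x => Ψ x (X x)) = av fun x => ∑ w, cnd c x (fun y => ind (X y = w)) * Ψ x w := by
  have e : ∀ x, ∑ w, cnd c x (fun y => ind (X y = w)) * Ψ x w = cnd c x fun y => Ψ x (X y) := by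
    intro x
    simp only [mul_comm _ (Ψ x _), ← cnd_mul_left]
    rw [← cnd_sum]
    congr 1
    funext y
    simp only [mul_comm (Ψ x _)]
    exact sum_ind_eq (X y) (Ψ x)
  simp only [e]
  rw [av_cnd_symm c (fun x y => Ψ x (X y))]
  congr 1
  funext x
  rw [← cnd_const c x (Ψ x (X x))]
  exact le_antisymm (cnd_mono c x fun y hy => by rw [hΨ y x hy])
    (cnd_mono c x fun y hy => by rw [hΨ y x hy])

/-- With few cells the coupling is dominated by the product law. -/
theorem av_cnd_le [Fintype β] [Nonempty Ω] (F : Ω → Ω → ℝ) (h0 : ∀ x y, 0 ≤ F x y)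
    (h1 : ∀ x y, F x y ≤ 1) {κ : ℝ} (hκ : 0 < κ) :
    av (fun x => cnd c x (F x)) ≤ 1 / κ + κ * Fintype.card β * av fun x => av (F x) := by
  have : Nonempty β := ⟨c (Classical.arbitrary Ω)⟩
  have hB : (0 : ℝ) < Fintype.card β := by exact_mod_cast Fintype.card_pos
  have hK : 0 < κ * Fintype.card β := mul_pos hκ hB
  have hinv : av (fun x => 1 / av fun y => ind (c y = c x)) ≤ Fintype.card β := by
    have e : ∀ x, (1 / av fun y => ind (c y = c x)) =
        ∑ b, ind (c x = b) / av fun y => ind (c y = b) := by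
      intro x
      rw [← sum_ind_eq (c x) (fun b => 1 / av fun y => ind (c y = b))]
      exact sum_congr rfl fun b _ => by rw [mul_one_div]
    simp only [e]
    rw [av_sum]
    simp only [av_div]
    refine (sum_le_sum fun b _ => div_self_le_one _).trans (le_of_eq ?_)
    simp
  have hpt : ∀ x, cnd c x (F x) ≤ 1 / (κ * Fintype.card β) * (1 / av fun y => ind (c y = c x)) +
      κ * Fintype.card β * av (F x) := by
    intro x
    have hp := cell_pos c x
    have hF : 0 ≤ av (F x) := av_nonneg (h0 x)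
    rcases le_total (κ * Fintype.card β * av fun y => ind (c y = c x)) 1 with h | h
    · have a1 : cnd c x (F x) ≤ 1 := (cnd_mono c x fun y _ => h1 x y).trans (cnd_const c x 1).le
      have a2 : 1 ≤ 1 / (κ * Fintype.card β) * (1 / av fun y => ind (c y = c x)) := by
        rw [one_div_mul_one_div, le_div_iff₀ (mul_pos hK hp), one_mul]
        exact h
      have a3 := mul_nonneg hK.le hF
      linarith
    · have a1 : cnd c x (F x) ≤ κ * Fintype.card β * av (F x) := by
        rw [cnd, div_le_iff₀ hp]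
        have a2 : av (fun y => ind (c y = c x) * F x y) ≤ av (F x) :=
          av_mono fun y => mul_le_of_le_one_left (h0 x y) (ind_le_one _)
        have a3 := mul_le_mul_of_nonneg_left h hF
        linarith
      have a4 : 0 ≤ 1 / (κ * Fintype.card β) * (1 / av fun y => ind (c y = c x)) := by positivity
      linarith
  refine (av_mono hpt).trans ?_
  rw [av_add, av_mul_left, av_mul_left]
  have h5 := mul_le_mul_of_nonneg_left hinv (one_div_pos.2 hK).le
  have e : 1 / (κ * Fintype.card β) * Fintype.card β = 1 / κ := by field_simp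
  linarith

end cnd

end Pool.Agent.Lib.MP_8a89f5_al
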