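import Pool.Agent.Lib.MP_8a89f5_al.Q2Dens
import Pool.Agent.Lib.MP_8a89f5_al.Hamming
import Pool.Agent.Lib.MP_8a89f5_al.BadProb
import Pool.Agent.Lib.MP_8a89f5_al.Gen

/-!
The calculus of spread laws.
-/

namespace Pool.Agent.Lib.MP_8a89f5_al

open Finset Equiv

variable {α : Type} [Fintype α] [DecidableEq α] {ω : Bool → Perm α}

theorem spr_shift {j t : ℕ} {p c : ℝ} (h : Spread ω j t p c) (g : Perm α) {Z : Finset α}
    (hZ : Z.card = j) {F : (α → α) → ℝ} (hF : Dep Z F) (hF1 : ∀ f, 0 ≤ F f ∧ F f ≤ 1) :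
    Ex t (fun l => F ⇑(ev ω l * g)) ≤ p + c * av F := by
  have h1 := h (Z.image g) (by rw [card_image_of_injective _ g.injective, hZ])
    (fun f => F (f ∘ g)) (fun f f' hf => hF _ _ fun a ha => hf _ (mem_image_of_mem _ ha))
    (fun f => hF1 _)
  rw [av_comp_perm] at h1
  exact h1

omit [DecidableEq α] in
theorem spr_pow_pos (Z : Finset α) : (0 : ℝ) < (Fintype.card α : ℝ) ^ Z.card := by
  rcases Z.eq_empty_or_nonempty with rfl | ⟨a, -⟩
  · simp
  · have : Nonempty α := ⟨a⟩
    exact pow_pos (by exact_mod_cast Fintype.card_pos) _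

omit [Fintype α] [DecidableEq α] in
theorem spr_pr_pos {Ω : Type} [Fintype Ω] (G : Ω → Perm α) (Z : Finset α) (x : Ω) :
    0 < pr G Z (G x) := by
  have h := cell_pos (fun y => res Z (G y)) x
  simp only [res_eq_iff] at h
  exact h

omit [Fintype α] [DecidableEq α] in
theorem spr_pr_congr {Ω : Type} [Fintype Ω] (G : Ω → Perm α) {Z : Finset α} {f g : α → α}
    (h : Agr Z f g) : pr G Z f = pr G Z g := by
  unfold pr
  congr 1
  funext x
  exact ind_congr ⟨fun h1 => h1.trans h, fun h1 => h1.trans h.symm⟩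

omit [Fintype α] [DecidableEq α] in
theorem spr_Ex (t : ℕ) (F : (α → α) → ℝ) :
    Ex t (fun l => F ⇑(ev ω l)) = av fun w : Wd t => F ⇑(walk ω t w) :=
  Ex_eq_walk ω t fun g => F ⇑g

theorem Spread.mono {j t t' : ℕ} {p p' c c' : ℝ} (h : Spread ω j t p c) (ht : t ≤ t')
    (hp : p ≤ p') (hc : c ≤ c') : Spread ω j t' p' c' := by
  intro Z hZ F hF hF1
  obtain ⟨d, rfl⟩ := Nat.exists_eq_add_of_le' ht
  rw [Ex_append]
  refine Ex_le_const _ fun l _ => ?_
  simp only [ev_append]
  refine (spr_shift h _ hZ hF hF1).trans (add_le_add hp ?_)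
  exact mul_le_mul_of_nonneg_right hc (av_nonneg fun f => (hF1 f).1)

theorem Spread.comp {j t t' : ℕ} {p p' c c' : ℝ} (h : Spread ω j t p c)
    (h' : Spread ω j t' p' c') (hp : 0 ≤ p) (hp' : 0 ≤ p') (hc : 0 ≤ c) (hc' : 0 ≤ c') :
    Spread ω j (t + t') (p * p') (c + p * c') := by
  intro Z hZ F hF hF1
  have hA : 0 ≤ av F := av_nonneg fun f => (hF1 f).1
  set M := p' + c' * av F with hM
  let F' : (α → α) → ℝ := fun f => Ex t' fun l => F (⇑(ev ω l) ∘ f)
  have h0 : ∀ f, 0 ≤ F' f := fun f => Ex_nonneg _ fun l _ => (hF1 _).1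
  have h1 : ∀ g : Perm α, F' g ≤ M := fun g => spr_shift h' g hZ hF hF1
  have h2 : av F' = av F := by
    simp only [F']
    rw [Ex_av]
    simp only [av_perm_comp, Ex_const]
  have h3 : Dep Z F' := fun f g hfg => Ex_congr _ fun l _ =>
    hF _ _ fun a ha => congrArg (⇑(ev ω l)) (hfg a ha)
  have h4 : Ex (t + t') (fun l => F ⇑(ev ω l)) = Ex t fun l => F' ⇑(ev ω l) := by
    rw [Ex_append]
    simp only [ev_append]
    rfl
  rw [h4]
  rcases (show 0 ≤ M by positivity).eq_or_lt with hM0 | hM0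
  · refine (Ex_le_const _ fun l _ => (h1 _).trans hM0.symm.le).trans ?_
    positivity
  · have h5 := h Z hZ (fun f => min (F' f) M / M)
      (fun f g hfg => by simp only [h3 f g hfg])
      (fun f => ⟨div_nonneg (le_min (h0 f) hM0.le) hM0.le, (div_le_one hM0).2 (min_le_right _ _)⟩)
    have h6 : Ex t (fun l => min (F' ⇑(ev ω l)) M / M) = Ex t (fun l => F' ⇑(ev ω l)) / M := by
      rw [← Ex_div]
      exact Ex_congr _ fun l _ => by rw [min_eq_left (h1 _)]
    have h7 : av (fun f => min (F' f) M / M) ≤ av F / M := by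
      rw [← h2, ← av_div]
      exact av_mono fun f => div_le_div_of_nonneg_right (min_le_left _ _) hM0.le
    rw [h6, div_le_iff₀ hM0] at h5
    have h8 : c * av (fun f => min (F' f) M / M) * M ≤ c * av F := by
      rw [mul_assoc]
      exact mul_le_mul_of_nonneg_left ((le_div_iff₀ hM0).1 h7) hc
    calc _ ≤ _ := h5
      _ = p * M + c * av (fun f => min (F' f) M / M) * M := by ring
      _ ≤ p * M + c * av F := by linarith
      _ = _ := by rw [hM]; ring

/-- A spread law rarely has a large density. -/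
theorem Spread.tail {j t : ℕ} {p c : ℝ} (h : Spread ω j t p c) (hc : 0 < c) {Z : Finset α}
    (hZ : Z.card = j) :
    av (fun x : Wd t => ind (2 * c <
      (Fintype.card α : ℝ) ^ Z.card * pr (walk ω t) Z (walk ω t x))) ≤ 2 * p := by
  let F : (α → α) → ℝ := fun f => ind (2 * c < (Fintype.card α : ℝ) ^ Z.card * pr (walk ω t) Z f)
  have hF : Dep Z F := fun f g hfg => by simp only [F, spr_pr_congr _ hfg]
  have h1 := h Z hZ F hF fun f => ⟨ind_nonneg _, ind_le_one _⟩
  rw [spr_Ex] at h1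
  have h2 : 2 * c * av F ≤ av fun w : Wd t => F ⇑(walk ω t w) := by
    rw [av_dens (walk ω t) hF, ← av_mul_left]
    refine av_mono fun f => ?_
    by_cases hf : 2 * c < (Fintype.card α : ℝ) ^ Z.card * pr (walk ω t) Z f
    · exact mul_le_mul_of_nonneg_right hf.le (ind_nonneg _)
    · simp only [F, ind_neg hf, mul_zero, le_refl]
  show av (fun w : Wd t => F ⇑(walk ω t w)) ≤ 2 * p
  linarith

theorem spr_bern {n s : ℕ} (hs : 10 * s ^ 2 ≤ n) :
    9 / 10 * (n : ℝ) ^ s ≤ (n.descFactorial s : ℝ) := by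
  rcases Nat.eq_zero_or_pos s with rfl | hs0
  · simp only [pow_zero, Nat.descFactorial_zero, Nat.cast_one]; norm_num
  have h1 : (10 : ℝ) * s ^ 2 ≤ n := by exact_mod_cast hs
  have h2 : (1 : ℝ) ≤ s := by exact_mod_cast hs0
  have h3 : (0 : ℝ) < n := by nlinarith
  have h4 : (s : ℝ) ≤ n := by nlinarith
  refine le_trans ?_ (bp_desc_ge n s (x := n - s) (by linarith) (by linarith))
  have h5 : (n : ℝ) - s = n * (1 + -(s / n)) := by field_simp; ring
  have h6 : (s : ℝ) / n ≤ 1 := (div_le_one h3).2 h4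
  have h7 := one_add_mul_le_pow (a := -((s : ℝ) / n)) (by linarith) s
  have h8 : (s : ℝ) * (s / n) ≤ 1 / 10 := by
    rw [← mul_div_assoc, div_le_iff₀ h3]; nlinarith
  rw [h5, mul_pow, mul_comm]
  exact mul_le_mul_of_nonneg_left (by linarith) (pow_pos h3 s).le

omit [Fintype α] [DecidableEq α] in
theorem spr_enum {s : ℕ} {Z : Finset α} (hZ : Z.card = s) :
    ∃ a : Fin s ↪ α, Z = univ.map a := by
  subst hZ
  refine ⟨Z.equivFin.symm.toEmbedding.trans (Function.Embedding.subtype _), ?_⟩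
  ext x
  simp only [mem_map, mem_univ, true_and]
  exact ⟨fun hx => ⟨Z.equivFin ⟨x, hx⟩, by simp⟩, by rintro ⟨i, rfl⟩; simp⟩

omit [Fintype α] [DecidableEq α] in
theorem spr_agr_map {s : ℕ} (a : Fin s ↪ α) (f g : α → α) :
    Agr (univ.map a) f g ↔ ∀ i, f (a i) = g (a i) := by
  simp [Agr]

theorem spread_of_mix {s m : ℕ} (h : Mix ω s m) (hs : 10 * s ^ 2 ≤ Fintype.card α) :
    Spread ω s m 0 2 := by
  intro Z hZ F hF hF1
  have hsn : s ≤ Fintype.card α := by nlinarith [Nat.zero_le s, Nat.le_mul_self s]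
  have hd : ∀ x : Wd m,
      (Fintype.card α : ℝ) ^ Z.card * pr (walk ω m) Z (walk ω m x) ≤ 2 := by
    intro x
    obtain ⟨a, ha⟩ := spr_enum hZ
    have h1 := bp_mix_le h le_rfl hsn a (a.trans (walk ω m x).toEmbedding)
    have h2 : pr (walk ω m) Z (walk ω m x) =
        Ex m fun l => ind (∀ i, ev ω l (a i) = (a.trans (walk ω m x).toEmbedding) i) := by
      rw [Ex_eq_walk ω m fun g => ind (∀ i, g (a i) = (a.trans (walk ω m x).toEmbedding) i), ha]
      simp only [pr, spr_agr_map]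
      rfl
    have h3 := spr_bern hs
    have h4 := spr_pow_pos Z
    rw [hZ] at h4 ⊢
    rw [← h2, le_div_iff₀ (by linarith)] at h1
    have h5 := spr_pr_pos (walk ω m) Z x
    nlinarith
  rw [spr_Ex, zero_add]
  refine le_trans ?_ (mul_le_mul_of_nonneg_left
    (av_div_dens (walk ω m) hF fun f => (hF1 f).1) (by norm_num))
  rw [← av_mul_left]
  refine av_mono fun x => ?_
  have h5 := mul_pos (spr_pow_pos Z) (spr_pr_pos (walk ω m) Z x)
  rw [← mul_div_assoc, le_div_iff₀ h5, mul_comm]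
  exact mul_le_mul_of_nonneg_right (hd x) (hF1 _).1

theorem spr_reach {s t : ℕ} {c : ℝ} (h : Spread ω s t (1 / 2) c) (hc : 0 < c) (a : Fin s ↪ α) :
    (Fintype.card α : ℝ) ^ s ≤
      2 * c * ((univ.image fun w : Wd t => fun i => walk ω t w (a i)).card : ℝ) := by
  set X := univ.image fun w : Wd t => fun i => walk ω t w (a i) with hX
  have hZ : (univ.map a).card = s := by simp
  have h0 := spr_pow_pos (univ.map a)
  have h1 := h (univ.map a) hZ (fun f => ind ((fun i => f (a i)) ∈ X))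
    (fun f g hfg => congrArg (fun u => ind (u ∈ X)) (funext ((spr_agr_map a f g).1 hfg)))
    fun f => ⟨ind_nonneg _, ind_le_one _⟩
  rw [spr_Ex t fun f => ind ((fun i => f (a i)) ∈ X)] at h1
  have h2 : 1 ≤ av fun w : Wd t => ind ((fun i => walk ω t w (a i)) ∈ X) :=
    le_av_const fun w => (ind_pos (mem_image_of_mem _ (mem_univ w))).ge
  have h3 : (Fintype.card α : ℝ) ^ s * av (fun f : α → α => ind ((fun i => f (a i)) ∈ X)) ≤
      X.card := by
    have h4 : av (fun f : α → α => ind ((fun i => f (a i)) ∈ X)) ≤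
        ∑ x ∈ X, av fun f : α → α => ind ((fun i => f (a i)) = x) := by
      rw [← av_sum]
      exact av_mono fun f => ind_le_sum _ _ fun hf => ⟨_, hf, rfl⟩
    rw [hZ] at h0
    refine (mul_le_mul_of_nonneg_left h4 h0.le).trans ?_
    rw [mul_sum, card_eq_sum_ones, Nat.cast_sum]
    refine sum_le_sum fun x hx => ?_
    obtain ⟨w, -, rfl⟩ := mem_image.1 hx
    have h5 := av_agr (univ.map a) (walk ω t w)
    rw [hZ] at h5
    simp only [spr_agr_map] at h5
    simp only [funext_iff, Nat.cast_one]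
    exact h5.le
  rw [hZ] at h0
  nlinarith

theorem near_of_spread {s t : ℕ} {c ρ : ℝ} (h : Spread ω s t (1 / 2) c) (hc : 0 < c) (hρ : 0 ≤ ρ)
    (hc' : 4 * c ^ 2 * Real.exp (-ρ ^ 2 / (4 * s)) < 1) : NearTrans ω s ρ (2 * t) := by
  intro a b
  have ha := spr_reach h hc a
  have hb := spr_reach h hc b
  have h0 := spr_pow_pos (univ.map a)
  rw [card_map, card_univ, Fintype.card_fin] at h0
  obtain ⟨x, hx, y, hy, hxy⟩ := hamming (univ.image fun w : Wd t => fun i => walk ω t w (a i))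
    (univ.image fun w : Wd t => fun i => walk ω t w (b i)) hρ (by
      have h1 := mul_le_mul ha hb h0.le (h0.le.trans ha)
      have h2 := mul_lt_mul_of_pos_right hc' (mul_pos h0 h0)
      have h3 : 0 < 4 * c ^ 2 := by positivity
      refine lt_of_mul_lt_mul_left ?_ h3.le
      nlinarith)
  obtain ⟨w, -, rfl⟩ := mem_image.1 hx
  obtain ⟨w', -, rfl⟩ := mem_image.1 hy
  refine ⟨(walk ω t w')⁻¹ * walk ω t w, ?_, le_of_eq_of_le ?_ hxy⟩
  · refine ((Len.ev w'.toList).inv.mul (Len.ev w.toList)).mono ?_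
    simp only [List.Vector.toList_length]
    linarith
  · congr 2
    ext i
    simp only [mem_filter, mem_univ, true_and, Perm.mul_apply, ne_eq, Perm.inv_eq_iff_eq]

/-- The bound after the second phase, for a fixed starting set. -/
theorem second_phase {t : ℕ} {p c c2 : ℝ} {S Z : Finset α} (hSZ : S ⊆ Z)
    (hS : Spread ω S.card t p c) (hc : 0 < c) (hc0 : 0 < c2) (hc2 : 1 < Real.log c2)
    (F : (α → α) → ℝ) (hF : Dep Z F) (hF1 : ∀ f, 0 ≤ F f ∧ F f ≤ 1) :
    Ex t (fun l => F ⇑(ev ω l)) ≤ 2 * p +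
      (((Z.card : ℝ) - S.card) * Real.log (Fintype.card α) -
        (ent (walk ω t) Z - ent (walk ω t) S)) / (Real.log c2 - 1) + 2 * c * c2 * av F := by
  have hk : 0 < 2 * c * c2 := by positivity
  have h1 := hS.tail hc rfl
  have h2 := ratio_tail (walk ω t) hSZ hc0 hc2
  have h3 := mul_le_mul_of_nonneg_left (av_div_dens (walk ω t) hF fun f => (hF1 f).1) hk.le
  rw [spr_Ex]
  refine le_trans ?_ (add_le_add (add_le_add h1 h2) h3)
  rw [← av_mul_left, ← av_add, ← av_add]
  refine av_mono fun x => ?_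
  have h5 := mul_pos (spr_pow_pos Z) (spr_pr_pos (walk ω t) Z x)
  have h6 := mul_nonneg hk.le (div_nonneg (hF1 (walk ω t x)).1 h5.le)
  have h7 := (hF1 (walk ω t x)).2
  by_cases hA : 2 * c < (Fintype.card α : ℝ) ^ S.card * pr (walk ω t) S (walk ω t x)
  · rw [ind_pos hA]
    exact h7.trans (le_add_of_le_of_nonneg (le_add_of_nonneg_right (ind_nonneg _)) h6)
  by_cases hB : c2 * ((Fintype.card α : ℝ) ^ S.card * pr (walk ω t) S (walk ω t x)) <
      (Fintype.card α : ℝ) ^ Z.card * pr (walk ω t) Z (walk ω t x)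
  · rw [ind_pos hB]
    exact h7.trans (le_add_of_le_of_nonneg (le_add_of_nonneg_left (ind_nonneg _)) h6)
  rw [ind_neg hA, ind_neg hB, zero_add, zero_add, ← mul_div_assoc, le_div_iff₀ h5, mul_comm]
  refine mul_le_mul_of_nonneg_right ?_ (hF1 _).1
  have := mul_le_mul_of_nonneg_left (not_lt.1 hA) hc0.le
  linarith [not_lt.1 hB]

end Pool.Agent.Lib.MP_8a89f5_al
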