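import Pool.Agent.Lib.MP_8a89f5_al.Q2Ent
import Pool.Agent.Lib.MP_8a89f5_al.Q2Spread
import Pool.Agent.Lib.MP_8a89f5_al.Q2Plant
import Pool.Agent.Lib.MP_8a89f5_al.Q2Heavy

/-!
One step of the induction on the size of the set.
-/

namespace Pool.Agent.Lib.MP_8a89f5_al

open Finset Equiv

variable {α : Type} [Fintype α] [DecidableEq α] {ω : Bool → Perm α}

omit [Fintype α] in
theorem step_image {S Z : Finset α} (hSZ : S ⊆ Z) (g : α → α) {k : ℕ}
    (e : Fin k ≃ {a // a ∈ Z \ S}) :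
    Z.image g = S.image g ∪ univ.image fun c => g (e c) := by
  ext b
  simp only [mem_image, mem_union, mem_univ, true_and]
  constructor
  · rintro ⟨a, ha, rfl⟩
    by_cases h : a ∈ S
    · exact Or.inl ⟨a, h, rfl⟩
    · exact Or.inr ⟨e.symm ⟨a, mem_sdiff.2 ⟨ha, h⟩⟩, by simp⟩
  · rintro (⟨a, ha, rfl⟩ | ⟨c, rfl⟩)
    · exact ⟨a, hSZ ha, rfl⟩
    · exact ⟨e c, (mem_sdiff.1 (e c).2).1, rfl⟩

theorem step_eta {M t : ℕ} {η : ℝ} (hF : Flat ω M t η) : 0 ≤ η :=
  (av_nonneg fun b => dfc_nonneg (walk ω t) ∅ b).trans (hF ∅ (by simp) t le_rfl)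

/-- The entropy deficiency of the image of `Z` given the image of `S`, on a dense piece. -/
theorem step_piece {Ω : Type} [Fintype Ω] [Nonempty Ω] (G : Ω → Perm α) {S Z : Finset α}
    {t ρ M : ℕ} {Λ η : ℝ} (hn : 2 ≤ Fintype.card α) (hSZ : S ⊆ Z) (hF : Flat ω M t η)
    (hρ : 0 < ρ) (hM : S.card + Z.card * ρ ≤ M) (hΛ : 0 ≤ Λ)
    (hA : ∀ l l', Agr S (G l) (G l'))
    (hD : ∀ I ⊆ Z \ S, ∀ y, (Fintype.card α : ℝ) ^ I.card *
      av (fun l => ind (Agr I (G l) (G y))) ≤ Λ ^ I.card) :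
    av (fun l => ((Z.card : ℝ) - S.card) * Real.log (Fintype.card α) -
      (ent (walk ω t) (Z.image (G l)) - ent (walk ω t) (S.image (G l)))) ≤
      Z.card * (Real.log (Fintype.card α) * Λ / ρ + 2 * ρ * η) := by
  have : Nonempty α := Fintype.card_pos_iff.1 (by omega)
  have hη := step_eta hF
  have hL : 0 < Real.log (Fintype.card α) := Real.log_pos (by exact_mod_cast hn)
  set L := Real.log (Fintype.card α) with hLdef
  obtain ⟨l0⟩ := ‹Nonempty Ω›
  set k := (Z \ S).card with hk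
  let e : Fin k ≃ {a // a ∈ Z \ S} := (Z \ S).equivFin.symm
  have hkZ : k ≤ Z.card := card_le_card sdiff_subset
  have hkc : (Z.card : ℝ) - S.card = k := by
    have := card_sdiff_add_card_eq_card hSZ
    rw [← this]; push_cast; ring
  have hS0 : ∀ l, S.image (G l) = S.image (G l0) := fun l =>
    image_congr fun a ha => hA l l0 a ha
  have hc0 : (S.image (G l0)).card = S.card := card_image_of_injective _ (G l0).injective
  have key := plant (Ω := Ω) (j := k) (M := M) hρ (fun Y b => dfc (walk ω t) Y b / L)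
    (fun Y b => div_nonneg (dfc_nonneg _ _ _) hL.le)
    (fun Y b => (div_le_one hL).2 (dfc_le _ _ _))
    (fun Y Y' b h => div_le_div_of_nonneg_right (dfc_mono _ h b) hL.le) (η := η / L) (Λ := Λ)
    (fun Y hY => by
      rw [av_div]; exact div_le_div_of_nonneg_right (hF Y hY t le_rfl) hL.le)
    (S.image (G l0)) (by rw [hc0]; have := Nat.mul_le_mul_right ρ hkZ; omega)
    (fun l c => G l (e c)) hΛ
    (fun I y => by
      have hinj : Function.Injective fun c : Fin k => ((e c : {a // a ∈ Z \ S}) : α) :=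
        Subtype.val_injective.comp e.injective
      have h := hD (I.image fun c => ((e c : {a // a ∈ Z \ S}) : α))
        (fun a ha => by obtain ⟨c, -, rfl⟩ := mem_image.1 ha; exact (e c).2) y
      rw [card_image_of_injective _ hinj] at h
      refine le_of_eq_of_le ?_ h
      congr 2
      funext l
      exact ind_congr (by simp [Agr]))
  have h2 : (fun l => ((Z.card : ℝ) - S.card) * L -
      (ent (walk ω t) (Z.image (G l)) - ent (walk ω t) (S.image (G l)))) =
      fun l => L * ∑ c, dfc (walk ω t) (S.image (G l0) ∪ (Iio c).image fun c => G l (e c))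
        (G l (e c)) / L := by
    funext l
    rw [step_image hSZ (G l) e, hS0 l, hkc, hLdef, ent_chain, ← sum_div, ← hLdef]
    field_simp
  rw [h2, av_mul_left]
  have h3 : L * (k * (Λ / ρ + 2 * ρ * (η / L))) = k * (L * Λ / ρ + 2 * ρ * η) := by
    field_simp
  have h4 : (0 : ℝ) ≤ L * Λ / ρ + 2 * ρ * η := by positivity
  calc _ ≤ L * (k * (Λ / ρ + 2 * ρ * (η / L))) := mul_le_mul_of_nonneg_left key hL.le
    _ = k * (L * Λ / ρ + 2 * ρ * η) := h3
    _ ≤ _ := mul_le_mul_of_nonneg_right (by exact_mod_cast hkZ) h4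

theorem step_av_sub {Ω : Type} (P : Finset Ω) (f : Ω → ℝ) :
    av (fun l : {l // l ∈ P} => f l) = (∑ l ∈ P, f l) / P.card := by
  simp only [av, Fintype.card_coe]
  rw [Finset.sum_coe_sort P f]

theorem spread_step {j d t1 t2 s sb ρ M : ℕ} {p1 c1 pS cS c2 p0 Λ Λ1 B γ η : ℝ}
    (hn : 2 ≤ Fintype.card α) (hj : 2 ≤ j) (hd : d ≤ j) (h1 : Spread ω (j - d) t1 p1 c1)
    (hc1 : 0 ≤ c1) (hS : ∀ s' < s, Spread ω s' t2 pS cS) (hpS : 0 ≤ pS) (hcS : 0 < cS)
    (hF : Flat ω M t2 η) (hρ : 0 < ρ) (hM : s + j * ρ ≤ M) (hsb : 4 ≤ sb) (hs : sb ≤ s)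
    (hB1 : 1 ≤ B) (hB : (Fintype.card α : ℝ) ^ 2 ≤ B ^ sb) (hp0 : 0 < p0) (hp1 : p0 ≤ 1)
    (hΛ1 : 1 ≤ Λ1) (hΛ : Λ1 * B ≤ p0 * Λ) (hγ : 1 ≤ γ) (hc0 : 0 < c2) (hc2 : 1 < Real.log c2) :
    Spread ω j (t1 + t2)
      (p1 + c1 * (Real.exp (j * γ ^ 2 / Λ1) / γ ^ s) +
        (sb : ℝ) ^ 2 * (d * ((d : ℝ) - 1) / (j * ((j : ℝ) - 1))) + p0 + 2 * pS +
        j * (Real.log (Fintype.card α) * Λ / ρ + 2 * ρ * η) / (Real.log c2 - 1))
      (2 * cS * c2) := by
  intro Z hZ F hDep hF1
  have hη := step_eta hF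
  have hn0 : (0 : ℝ) < Fintype.card α := by exact_mod_cast (by omega : 0 < Fintype.card α)
  have hL : 0 < Real.log (Fintype.card α) := Real.log_pos (by exact_mod_cast hn)
  have hΛ0 : 0 ≤ Λ := by
    have : 0 < p0 * Λ := lt_of_lt_of_le (by positivity) hΛ
    exact ((mul_pos_iff_of_pos_left hp0).1 this).le
  have hlc : 0 < Real.log c2 - 1 := by linarith
  have havF : 0 ≤ av F := av_nonneg fun f => (hF1 f).1
  set D := j * (Real.log (Fintype.card α) * Λ / ρ + 2 * ρ * η) with hD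
  have hD0 : 0 ≤ D := by positivity
  have e1 : Ex (t1 + t2) (fun l => F ⇑(ev ω l)) =
      av fun l : Wd t1 => Ex t2 fun l' => F (⇑(ev ω l') ∘ ⇑(walk ω t1 l)) := by
    rw [Ex_append, Ex_eq_av]
    simp only [ev_append, Perm.coe_mul, walk]
  have hg := gpw (fun l : Wd t1 => ⇑(walk ω t1 l)) Z (κ := Λ / Fintype.card α) (p := p0)
    (β := 2 * pS + D / (Real.log c2 - 1) + 2 * cS * c2 * av F) (s := s) (by positivity) hp0.le
    (by positivity) (fun l => Ex t2 fun l' => F (⇑(ev ω l') ∘ ⇑(walk ω t1 l)))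
    (fun l => Ex_le_const _ fun l' _ => (hF1 _).2)
    (fun P S hP hSZ hSs hA hI => by
      have : Nonempty {l // l ∈ P} := hP.to_subtype
      have hP0 : (0 : ℝ) < P.card := by exact_mod_cast hP.card_pos
      have hpc := step_piece (ω := ω) (fun l : {l // l ∈ P} => walk ω t1 l) hn hSZ hF hρ
        (by rw [hZ]; omega) hΛ0 (fun l l' => hA l l.2 l' l'.2)
        (fun I hIZ y => by
          rw [step_av_sub P fun l => ind (Agr I (walk ω t1 l) (walk ω t1 y))]
          have h := hI I hIZ y y.2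
          rw [div_pow] at h
          rw [← mul_div_assoc, div_le_iff₀ hP0]
          have h' := mul_le_mul_of_nonneg_left h (pow_pos hn0 I.card).le
          refine h'.trans (le_of_eq ?_)
          field_simp)
      rw [hZ, ← hD] at hpc
      have hl : ∀ l : Wd t1, (Ex t2 fun l' => F (⇑(ev ω l') ∘ ⇑(walk ω t1 l))) ≤ 2 * pS +
          (((j : ℝ) - S.card) * Real.log (Fintype.card α) -
            (ent (walk ω t2) (Z.image (walk ω t1 l)) -
              ent (walk ω t2) (S.image (walk ω t1 l)))) / (Real.log c2 - 1) +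
          2 * cS * c2 * av F := by
        intro l
        have hcS' : (S.image (walk ω t1 l)).card = S.card :=
          card_image_of_injective _ (walk ω t1 l).injective
        have hcZ' : (Z.image (walk ω t1 l)).card = j := by
          rw [card_image_of_injective _ (walk ω t1 l).injective, hZ]
        have h := second_phase (ω := ω) (t := t2) (image_subset_image hSZ)
          (hcS' ▸ hS S.card hSs) hcS hc0 hc2 (fun f => F (f ∘ ⇑(walk ω t1 l)))
          (fun f g hfg => hDep _ _ fun a ha => hfg _ (mem_image_of_mem _ ha))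
          (fun f => hF1 _)
        rw [av_comp_perm, hcS', hcZ'] at h
        exact h
      rw [← div_le_iff₀ hP0, ← step_av_sub]
      refine (av_mono fun l : {l // l ∈ P} => hl l).trans ?_
      rw [av_add, av_add, av_const, av_const, av_div]
      have := div_le_div_of_nonneg_right hpc hlc.le
      linarith)
  have hh := heavy_le (ω := ω) hZ hj hd h1 hc1 hsb hs hB1 hB hp0 hp1 hΛ1 hΛ hγ
  rw [e1]
  linarith

end Pool.Agent.Lib.MP_8a89f5_al
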