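import Pool.Agent.Lib.MP_8a89f5_al.Defs

/-!
Transition probabilities of random positive words on a finite set acted on by a group.
-/

namespace Pool.Agent.Lib.MP_8a89f5_al

open Finset Equiv

variable {G X : Type*} [Group G] [MulAction G X]

/-- Probability that a random word of length `r` maps `a` to `b`. -/
noncomputable def tp (ω : Bool → G) (r : ℕ) (a b : X) : ℝ := Ex r fun l => ind (ev ω l • a = b)

theorem tp_nonneg (ω : Bool → G) (r : ℕ) (a b : X) : 0 ≤ tp ω r a b :=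
  Ex_nonneg r fun _ _ => ind_nonneg _

variable [Fintype X]

theorem Ex_smul (ω : Bool → G) (r : ℕ) (a : X) (F : X → ℝ) :
    Ex r (fun l => F (ev ω l • a)) = ∑ b, tp ω r a b * F b := by
  simp only [tp, ← Ex_mul_right, ← Ex_sum, sum_ind_eq]

theorem tp_row (ω : Bool → G) (r : ℕ) (a : X) : ∑ b, tp ω r a b = 1 := by
  have := Ex_smul ω r a fun _ => 1
  simpa [Ex_const] using this.symm

theorem sum_ind_smul (g : G) (b : X) : ∑ a : X, ind (g • a = b) = 1 := by
  rw [← sum_ind_eq_one (g⁻¹ • b)]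
  exact sum_congr rfl fun a _ => ind_congr (by rw [inv_smul_eq_iff]; exact eq_comm)

theorem tp_col (ω : Bool → G) (r : ℕ) (b : X) : ∑ a, tp ω r a b = 1 := by
  simp only [tp, ← Ex_sum, sum_ind_smul, Ex_const]

theorem tp_add (ω : Bool → G) (r r' : ℕ) (a b : X) :
    tp ω (r + r') a b = ∑ c, tp ω r a c * tp ω r' c b := by
  rw [← Ex_smul ω r a fun c => tp ω r' c b]
  simp only [tp, Ex_append, ev_append, mul_smul]

theorem tp_sq (ω : Bool → G) (r : ℕ) (a : X) :
    ∑ b, tp ω r a b ^ 2 = Ex r fun u => Ex r fun v => ind (ev ω v • a = ev ω u • a) := by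
  simp only [sq]
  exact (Ex_smul ω r a fun b => tp ω r a b).symm

theorem tp_pow_bound (ω : Bool → G) (r : ℕ) {κ : ℝ} (h : ∑ a : X, ∑ b, tp ω r a b ^ 2 ≤ 1 + κ)
    (b : X) (k : ℕ) :
    ∑ a, (tp ω (k * r) a b - 1 / Fintype.card X) ^ 2 ≤ κ ^ k := by
  have : Nonempty X := ⟨b⟩
  have hN : (0 : ℝ) < Fintype.card X := by exact_mod_cast Fintype.card_pos
  set N : ℝ := (Fintype.card X : ℝ) with hNd
  have hsq : ∀ r' (c : X), ∑ a, (tp ω r' a c - 1 / N) ^ 2 = ∑ a, tp ω r' a c ^ 2 - 1 / N := by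
    intro r' c
    have : ∀ a, (tp ω r' a c - 1 / N) ^ 2 = tp ω r' a c ^ 2 - 2 / N * tp ω r' a c + 1 / N ^ 2 :=
      fun a => by ring
    simp only [this, sum_add_distrib, sum_sub_distrib, ← mul_sum, tp_col, sum_const, card_univ,
      nsmul_eq_mul, ← hNd]
    field_simp; ring
  have hκ : ∑ a : X, ∑ c, (tp ω r a c - 1 / N) ^ 2 ≤ κ := by
    rw [sum_comm]
    simp only [hsq, sum_sub_distrib, sum_const, card_univ, nsmul_eq_mul, ← hNd]
    rw [sum_comm, mul_one_div_cancel hN.ne']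
    linarith
  have hκ0 : 0 ≤ κ := (sum_nonneg fun _ _ => sum_nonneg fun _ _ => sq_nonneg _).trans hκ
  induction k with
  | zero =>
    rw [hsq, pow_zero]
    have h1 : ∑ a, tp ω (0 * r) a b ^ 2 ≤ ∑ a, tp ω (0 * r) a b := sum_le_sum fun a _ => by
      simp only [zero_mul, tp, Ex, sq, ind_mul_self, le_refl]
    rw [tp_col] at h1
    have : 0 < 1 / N := by positivity
    linarith
  | succ k ih =>
    have h0 : ∑ c, (tp ω (k * r) c b - 1 / N) = 0 := by
      simp only [sum_sub_distrib, tp_col, sum_const, card_univ, nsmul_eq_mul, ← hNd]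
      rw [mul_one_div_cancel hN.ne', sub_self]
    have h1 : ∀ a, tp ω ((k + 1) * r) a b - 1 / N =
        ∑ c, (tp ω r a c - 1 / N) * (tp ω (k * r) c b - 1 / N) := by
      intro a
      have e : ∀ c, (tp ω r a c - 1 / N) * (tp ω (k * r) c b - 1 / N) =
          tp ω r a c * tp ω (k * r) c b - 1 / N * tp ω r a c -
            1 / N * (tp ω (k * r) c b - 1 / N) := fun c => by ring
      simp only [e, sum_sub_distrib (f := fun c => tp ω r a c * tp ω (k * r) c b -
        1 / N * tp ω r a c), ← mul_sum, h0]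
      rw [sum_sub_distrib, ← mul_sum, tp_row, show (k + 1) * r = r + k * r by ring, tp_add]
      ring
    calc _ ≤ ∑ a : X, (∑ c, (tp ω r a c - 1 / N) ^ 2) * ∑ c, (tp ω (k * r) c b - 1 / N) ^ 2 :=
          sum_le_sum fun a _ => by rw [h1]; exact sum_mul_sq_le_sq_mul_sq _ _ _
      _ ≤ κ * κ ^ k := by
          rw [← sum_mul]
          exact mul_le_mul hκ ih (sum_nonneg fun _ _ => sq_nonneg _) hκ0
      _ = _ := by ring

theorem tp_mix (ω : Bool → G) (r k : ℕ) (h : ∑ a : X, ∑ b, tp ω r a b ^ 2 ≤ 1 + 1 / 4)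
    (hk : 10 * Fintype.card X ≤ 2 ^ k) (r' : ℕ) (hr : k * r ≤ r') (a b : X) :
    |(Fintype.card X : ℝ) * tp ω r' a b - 1| ≤ 1 / 10 := by
  have : Nonempty X := ⟨b⟩
  have hN : (0 : ℝ) < Fintype.card X := by exact_mod_cast Fintype.card_pos
  have h1 : ∀ c, |(Fintype.card X : ℝ) * tp ω (k * r) c b - 1| ≤ 1 / 10 := by
    intro c
    have h2 : (tp ω (k * r) c b - 1 / Fintype.card X) ^ 2 ≤ (1 / 2 ^ k) ^ 2 := by
      refine (single_le_sum (f := fun c => (tp ω (k * r) c b - 1 / Fintype.card X) ^ 2)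
        (fun _ _ => sq_nonneg _) (mem_univ c)).trans ((tp_pow_bound ω r h b k).trans (le_of_eq ?_))
      rw [← one_div_pow, ← pow_mul, mul_comm k 2, pow_mul]; norm_num
    have h3 := sq_le_sq.1 h2
    have h4 : (10 : ℝ) * Fintype.card X ≤ 2 ^ k := by exact_mod_cast hk
    have e : (Fintype.card X : ℝ) * tp ω (k * r) c b - 1 =
        Fintype.card X * (tp ω (k * r) c b - 1 / Fintype.card X) := by field_simp
    rw [e, abs_mul, abs_of_pos hN]
    rw [abs_of_pos (a := 1 / (2 : ℝ) ^ k) (by positivity)] at h3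
    calc _ ≤ (Fintype.card X : ℝ) * (1 / 2 ^ k) := mul_le_mul_of_nonneg_left h3 hN.le
      _ ≤ _ := by rw [mul_one_div, div_le_iff₀ (by positivity)]; linarith
  obtain ⟨d, rfl⟩ := Nat.exists_eq_add_of_le' hr
  have e : (Fintype.card X : ℝ) * tp ω (d + k * r) a b - 1 =
      Ex d fun l => (Fintype.card X : ℝ) * tp ω (k * r) (ev ω l • a) b - 1 := by
    rw [Ex_sub, Ex_mul_left, Ex_const, Ex_smul ω d a fun c => tp ω (k * r) c b, tp_add]
  rw [e, abs_le]
  exact ⟨le_Ex_const _ fun l _ => (abs_le.1 (h1 _)).1, Ex_le_const _ fun l _ => (abs_le.1 (h1 _)).2⟩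

end Pool.Agent.Lib.MP_8a89f5_al
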